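import Pool.Agent.Lib.MP_984cf2_lc.ResFin

set_option autoImplicit false
set_option linter.unusedSectionVars false

namespace FS984

section Module

variable {H : Type*} [AddCommGroup H]

/-- the graph submodule of the partial isomorphism between the pure closures -/
def gammaSub {m : ℕ} (a b : Fin m → H) : Submodule ℤ (H × H) where
  carrier := {p | ∃ (n : ℤ) (c : Fin m → ℤ), n ≠ 0 ∧ n • p.1 = ∑ i, c i • a i ∧
    n • p.2 = ∑ i, c i • b i}
  zero_mem' := ⟨1, 0, one_ne_zero, by simp, by simp⟩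
  add_mem' := by
    rintro ⟨x, y⟩ ⟨x', y'⟩ ⟨n, c, hn, h1, h2⟩ ⟨n', c', hn', h1', h2'⟩
    refine ⟨n * n', fun i => n' * c i + n * c' i, mul_ne_zero hn hn', ?_, ?_⟩
    · simp only [Prod.mk_add_mk] at *
      rw [smul_add]
      simp only [add_smul, mul_smul, Finset.sum_add_distrib, ← Finset.smul_sum]
      rw [← h1, ← h1']
      rw [smul_comm n n' x]
    · simp only [Prod.mk_add_mk] at *
      rw [smul_add]
      simp only [add_smul, mul_smul, Finset.sum_add_distrib, ← Finset.smul_sum]
      rw [← h2, ← h2']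
      rw [smul_comm n n' y]
  smul_mem' := by
    rintro k ⟨x, y⟩ ⟨n, c, hn, h1, h2⟩
    refine ⟨n, fun i => k * c i, hn, ?_, ?_⟩
    · simp only [Prod.smul_mk] at *
      simp only [mul_smul, ← Finset.smul_sum]
      rw [← h1, smul_comm]
    · simp only [Prod.smul_mk] at *
      simp only [mul_smul, ← Finset.smul_sum]
      rw [← h2, smul_comm]

theorem mem_gammaSub {m : ℕ} {a b : Fin m → H} {p : H × H} :
    p ∈ gammaSub a b ↔ ∃ (n : ℤ) (c : Fin m → ℤ), n ≠ 0 ∧ n • p.1 = ∑ i, c i • a i ∧
    n • p.2 = ∑ i, c i • b i := Iff.rfl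

variable [Module.Free ℤ H] [Module.Finite ℤ H]

theorem eq_zero_of_forall_div {x : H} (h : ∀ n : ℤ, n ≠ 0 → ∃ y : H, x = n • y) : x = 0 := by
  classical
  let B := Module.Free.chooseBasis ℤ H
  apply B.repr.injective
  ext i
  rw [map_zero, Finsupp.zero_apply]
  by_contra hx
  have hne : (2 * B.repr x i) ≠ 0 := mul_ne_zero two_ne_zero hx
  obtain ⟨y, hy⟩ := h _ hne
  have h1 : B.repr x i = (2 * B.repr x i) * B.repr y i := by
    conv_lhs => rw [hy]
    simp
  have h2 : B.repr x i * (2 * B.repr y i - 1) = 0 := by linarith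
  rcases mul_eq_zero.mp h2 with h3 | h3
  · exact hx h3
  · omega

variable {m : ℕ} {a b : Fin m → H}

theorem gamma_zero
    (h : ∀ (c : Fin m → ℤ) (n : ℤ), n ≠ 0 →
      ((∃ y, ∑ i, c i • a i = n • y) → (∃ y, ∑ i, c i • b i = n • y)))
    {y : H} (hy : ((0 : H), y) ∈ gammaSub a b) : y = 0 := by
  obtain ⟨n, c, hn, h1, h2⟩ := hy
  simp only [smul_zero] at h1 h2
  have h3 : ∑ i, c i • b i = 0 := by
    apply eq_zero_of_forall_div
    intro k hk
    exact h c k hk ⟨0, by rw [← h1, smul_zero]⟩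
  rw [h3] at h2
  exact (smul_eq_zero.mp h2).resolve_left hn

theorem gamma_sat
    (h : ∀ (c : Fin m → ℤ) (n : ℤ), n ≠ 0 →
      ((∃ y, ∑ i, c i • a i = n • y) → (∃ y, ∑ i, c i • b i = n • y)))
    {k : ℤ} (hk : k ≠ 0) {x y' : H} (hx : (k • x, y') ∈ gammaSub a b) :
    ∃ y, (x, y) ∈ gammaSub a b := by
  obtain ⟨n, c, hn, h1, h2⟩ := hx
  simp only at h1 h2
  obtain ⟨y, hy⟩ := h c (n * k) (mul_ne_zero hn hk) ⟨x, by rw [← h1, mul_smul]⟩
  exact ⟨y, n * k, c, mul_ne_zero hn hk, by rw [mul_smul, h1], hy.symm⟩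

/-- a saturated submodule of a f.g. free ℤ-module has a complement -/
theorem exists_compl (P : Submodule ℤ H) (hP : ∀ (k : ℤ) (x : H), k ≠ 0 → k • x ∈ P → x ∈ P) :
    ∃ C : Submodule ℤ H, IsCompl P C ∧
      Module.finrank ℤ C + Module.finrank ℤ P = Module.finrank ℤ H := by
  have htf : Module.IsTorsionFree ℤ (H ⧸ P) := by
    rw [Module.isTorsionFree_iff_smul_eq_zero]
    intro k q hq
    obtain ⟨x, rfl⟩ := Submodule.Quotient.mk_surjective P q
    by_contra hcon
    push Not at hcon
    rw [← Submodule.Quotient.mk_smul, Submodule.Quotient.mk_eq_zero] at hq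
    exact hcon.2 ((Submodule.Quotient.mk_eq_zero P).mpr (hP k x hcon.1 hq))
  have hfree : Module.Free ℤ (H ⧸ P) := Module.free_of_finite_type_torsion_free'
  obtain ⟨s, hs⟩ := Module.projective_lifting_property P.mkQ (LinearMap.id : (H ⧸ P) →ₗ[ℤ] (H ⧸ P))
    (Submodule.mkQ_surjective P)
  have hs' : ∀ q, P.mkQ (s q) = q := fun q => LinearMap.congr_fun hs q
  let f : H →ₗ[ℤ] P := LinearMap.codRestrict P (LinearMap.id - s ∘ₗ P.mkQ) (by
    intro x
    rw [← Submodule.Quotient.mk_eq_zero P]
    have := hs' (P.mkQ x)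
    simp only [LinearMap.sub_apply, LinearMap.id_apply, LinearMap.comp_apply]
    rw [Submodule.Quotient.mk_sub]
    rw [sub_eq_zero]
    exact this.symm)
  have hf : ∀ x : P, f x = x := by
    intro x
    apply Subtype.ext
    have : P.mkQ (x : H) = 0 := (Submodule.Quotient.mk_eq_zero P).mpr x.2
    simp [f, this]
  have hc := LinearMap.isCompl_of_proj hf
  refine ⟨LinearMap.ker f, hc, ?_⟩
  have h1 : Module.finrank ℤ (LinearMap.ker f) = Module.finrank ℤ (H ⧸ P) :=
    (LinearEquiv.finrank_eq (Submodule.quotientEquivOfIsCompl P _ hc)).symm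
  rw [h1]
  exact Submodule.finrank_quotient_add_finrank P

theorem exists_equiv
    (h : ∀ (c : Fin m → ℤ) (n : ℤ), n ≠ 0 →
      ((∃ y, ∑ i, c i • a i = n • y) ↔ (∃ y, ∑ i, c i • b i = n • y))) :
    ∃ σ : H ≃+ H, ∀ i, σ (a i) = b i := by
  classical
  set Γ := gammaSub a b with hΓ
  have hsymm : ∀ x y : H, (x, y) ∈ Γ → (y, x) ∈ gammaSub b a := by
    rintro x y ⟨n, c, hn, h1, h2⟩
    exact ⟨n, c, hn, h2, h1⟩
  have hsymm' : ∀ x y : H, (x, y) ∈ gammaSub b a → (y, x) ∈ Γ := by
    rintro x y ⟨n, c, hn, h1, h2⟩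
    exact ⟨n, c, hn, h2, h1⟩
  have hf := fun c n hn => (h c n hn).mp
  have hb := fun c n hn => (h c n hn).mpr
  let f1 : Γ →ₗ[ℤ] H := LinearMap.fst ℤ H H ∘ₗ Γ.subtype
  let f2 : Γ →ₗ[ℤ] H := LinearMap.snd ℤ H H ∘ₗ Γ.subtype
  have i1 : Function.Injective f1 := by
    rw [← LinearMap.ker_eq_bot, LinearMap.ker_eq_bot']
    rintro ⟨⟨x, y⟩, hxy⟩ hx
    have hx' : x = 0 := hx
    subst hx'
    have := gamma_zero hf hxy
    subst this
    rfl
  have i2 : Function.Injective f2 := by
    rw [← LinearMap.ker_eq_bot, LinearMap.ker_eq_bot']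
    rintro ⟨⟨x, y⟩, hxy⟩ hx
    have hx' : y = 0 := hx
    subst hx'
    have := gamma_zero hb (hsymm _ _ hxy)
    subst this
    rfl
  have s1 : ∀ (k : ℤ) (x : H), k ≠ 0 → k • x ∈ LinearMap.range f1 → x ∈ LinearMap.range f1 := by
    rintro k x hk ⟨⟨⟨x', y⟩, hxy⟩, hx⟩
    have hx' : x' = k • x := hx
    subst hx'
    obtain ⟨y, hy⟩ := gamma_sat hf hk hxy
    exact ⟨⟨(x, y), hy⟩, rfl⟩
  have s2 : ∀ (k : ℤ) (x : H), k ≠ 0 → k • x ∈ LinearMap.range f2 → x ∈ LinearMap.range f2 := by
    rintro k x hk ⟨⟨⟨x', y⟩, hxy⟩, hx⟩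
    have hx' : y = k • x := hx
    subst hx'
    obtain ⟨y, hy⟩ := gamma_sat hb hk (hsymm _ _ hxy)
    exact ⟨⟨(y, x), hsymm' _ _ hy⟩, rfl⟩
  obtain ⟨C1, hC1, r1⟩ := exists_compl _ s1
  obtain ⟨C2, hC2, r2⟩ := exists_compl _ s2
  let e1 := LinearEquiv.ofInjective f1 i1
  let e2 := LinearEquiv.ofInjective f2 i2
  have hr : Module.finrank ℤ C1 = Module.finrank ℤ C2 := by
    have := LinearEquiv.finrank_eq e1
    have := LinearEquiv.finrank_eq e2
    omega
  let g : C1 ≃ₗ[ℤ] C2 := LinearEquiv.ofFinrankEq _ _ hr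
  let e : LinearMap.range f1 ≃ₗ[ℤ] LinearMap.range f2 := e1.symm ≪≫ₗ e2
  let σ : H ≃ₗ[ℤ] H := (Submodule.prodEquivOfIsCompl _ _ hC1).symm ≪≫ₗ
    (LinearEquiv.prodCongr e g) ≪≫ₗ (Submodule.prodEquivOfIsCompl _ _ hC2)
  refine ⟨σ.toAddEquiv, ?_⟩
  intro i
  have hmem : (a i, b i) ∈ Γ := by
    refine ⟨1, Pi.single i 1, one_ne_zero, ?_, ?_⟩
    · simp [Pi.single_apply]
    · simp [Pi.single_apply]
  have ha : a i = (f1 ⟨(a i, b i), hmem⟩) := rfl
  have hb' : b i = (f2 ⟨(a i, b i), hmem⟩) := rfl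
  change σ (a i) = b i
  have h1 : (Submodule.prodEquivOfIsCompl _ _ hC1).symm (a i) =
      ((e1 ⟨(a i, b i), hmem⟩, 0) : LinearMap.range f1 × C1) := by
    rw [LinearEquiv.symm_apply_eq]
    simp [e1, f1]
  simp only [σ, LinearEquiv.trans_apply]
  rw [h1]
  simp [e, e2, f2]

end Module

section Group

/-- the language of the frozen statement: for every arity a product symbol (`true`) and an
inverse-of-product symbol (`false`). -/
abbrev Lg : FirstOrder.Language := FirstOrder.Language.mk (fun _ => Bool) (fun _ => Empty)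

/-- the structure of the frozen statement -/
@[reducible] def strG (G : Type*) [Group G] : Lg.Structure G :=
  { funMap := fun b xs => cond b (List.ofFn xs).prod ((List.ofFn xs).prod)⁻¹,
    RelMap := fun r _ => Empty.elim r }

/-- logical homogeneity of a group -/
def Homog (G : Type*) [Group G] : Prop :=
  ∀ (m : ℕ) (μ₁ μ₂ : Fin m → G),
    (∀ φ : Lg.Formula (Fin m),
      (@FirstOrder.Language.Formula.Realize Lg G (strG G) (Fin m) φ μ₁ ↔
        @FirstOrder.Language.Formula.Realize Lg G (strG G) (Fin m) φ μ₂)) →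
    ∃ σ : G ≃* G, ∀ i, σ (μ₁ i) = μ₂ i

theorem homog_of_subsingleton (G : Type*) [Group G] [Subsingleton G] : Homog G :=
  fun _ _ _ _ => ⟨MulEquiv.refl G, fun _ => Subsingleton.elim _ _⟩

/-- the term `t ^ k` -/
def tpow {β : Type*} (t : Lg.Term β) (k : ℕ) : Lg.Term β :=
  FirstOrder.Language.Term.func (l := k) true (fun _ => t)

/-- the term `∏ i, t i` -/
def tprod {β : Type*} {m : ℕ} (t : Fin m → Lg.Term β) : Lg.Term β :=
  FirstOrder.Language.Term.func (l := m) true t

theorem realize_tpow {G : Type*} [Group G] {β : Type*} (t : Lg.Term β) (k : ℕ) (v : β → G) :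
    @FirstOrder.Language.Term.realize Lg G (strG G) β v (tpow t k) =
      (@FirstOrder.Language.Term.realize Lg G (strG G) β v t) ^ k := by
  let _ := strG G
  change (List.ofFn (fun _ : Fin k => FirstOrder.Language.Term.realize v t)).prod = _
  rw [List.ofFn_const, List.prod_replicate]

theorem realize_tprod {G : Type*} [Group G] {β : Type*} {m : ℕ} (t : Fin m → Lg.Term β)
    (v : β → G) :
    @FirstOrder.Language.Term.realize Lg G (strG G) β v (tprod t) =
      (List.ofFn (fun i => @FirstOrder.Language.Term.realize Lg G (strG G) β v (t i))).prod :=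
  rfl

/-- the formula `∃ y, ∏ x_i ^ c_i = (∏ x_i ^ d_i) * y ^ n` -/
def divForm {m : ℕ} (c d : Fin m → ℕ) (n : ℕ) : Lg.Formula (Fin m) :=
  FirstOrder.Language.BoundedFormula.ex
    (FirstOrder.Language.Term.bdEqual
      (tprod (fun i => tpow (FirstOrder.Language.Term.var (Sum.inl i)) (c i)))
      (tprod (m := 2) ![tprod (fun i => tpow (FirstOrder.Language.Term.var (Sum.inl i)) (d i)),
        tpow (FirstOrder.Language.Term.var (Sum.inr 0)) n]) :
      Lg.BoundedFormula (Fin m) 1)

theorem realize_divForm {G : Type*} [Group G] {m : ℕ} (c d : Fin m → ℕ) (n : ℕ)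
    (μ : Fin m → G) :
    @FirstOrder.Language.Formula.Realize Lg G (strG G) (Fin m) (divForm c d n) μ ↔
      ∃ y : G, (List.ofFn fun i => μ i ^ c i).prod = (List.ofFn fun i => μ i ^ d i).prod * y ^ n := by
  let _ := strG G
  unfold divForm FirstOrder.Language.Formula.Realize
  rw [FirstOrder.Language.BoundedFormula.realize_ex]
  refine exists_congr fun y => ?_
  rw [FirstOrder.Language.BoundedFormula.realize_bdEqual]
  rw [realize_tprod, realize_tprod]
  simp only [realize_tpow]
  have h0 : ∀ y : G, (Fin.snoc (default : Fin 0 → G) y : Fin 1 → G) 0 = y := fun y => rfl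
  simp [realize_tprod, realize_tpow, h0]

/-- a commutative f.g. torsion-free group is homogeneous -/
theorem homog_of_comm (G : Type*) [Group G] (hcomm : ∀ a b : G, a * b = b * a)
    (hfg : Group.FG G) (htf : TFree G) : Homog G := by
  intro m μ₁ μ₂ h
  let _ : CommGroup G := { (inferInstance : Group G) with mul_comm := hcomm }
  have hfg' : AddGroup.FG (Additive G) := inferInstance
  have hfin : Module.Finite ℤ (Additive G) := Module.Finite.iff_addGroup_fg.mpr hfg'
  have htf' : Module.IsTorsionFree ℤ (Additive G) := by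
    rw [Module.isTorsionFree_iff_smul_eq_zero]
    intro k x hk
    by_contra hcon
    push Not at hcon
    obtain ⟨h1, h2⟩ := hcon
    apply h2
    have h3 : (Additive.toMul x) ^ k = 1 := hk
    have h4 : (Additive.toMul x) ^ (k.natAbs) = 1 := by
      rcases Int.natAbs_eq k with h5 | h5
      · rw [h5, zpow_natCast] at h3; exact h3
      · rw [h5, zpow_neg, inv_eq_one, zpow_natCast] at h3; exact h3
    exact htf _ _ (Int.natAbs_pos.mpr h1) h4
  have hfree : Module.Free ℤ (Additive G) := Module.free_of_finite_type_torsion_free'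
  have key : ∀ (c d : Fin m → ℕ) (n : ℕ),
      ((∃ y : Additive G, ∑ i, ((c i : ℤ) - (d i : ℤ)) • (Additive.ofMul (μ₁ i)) = (n : ℤ) • y) ↔
        (∃ y : Additive G, ∑ i, ((c i : ℤ) - (d i : ℤ)) • (Additive.ofMul (μ₂ i)) = (n : ℤ) • y)) := by
    intro c d n
    have h1 := h (divForm c d n)
    rw [realize_divForm, realize_divForm] at h1
    have h2 : ∀ μ : Fin m → G, (∃ y : Additive G, ∑ i, ((c i : ℤ) - (d i : ℤ)) • (Additive.ofMul (μ i)) = (n : ℤ) • y) ↔
        ∃ y : G, (List.ofFn fun i => μ i ^ c i).prod = (List.ofFn fun i => μ i ^ d i).prod * y ^ n := by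
      intro μ
      have e : ∀ y : G, (∑ i, ((c i : ℤ) - (d i : ℤ)) • (Additive.ofMul (μ i)) = (n : ℤ) • (Additive.ofMul y)) ↔
          ((List.ofFn fun i => μ i ^ c i).prod = (List.ofFn fun i => μ i ^ d i).prod * y ^ n) := by
        intro y
        rw [List.prod_ofFn, List.prod_ofFn]
        simp only [sub_smul, Finset.sum_sub_distrib]
        rw [sub_eq_iff_eq_add]
        rw [← Additive.ofMul.apply_eq_iff_eq (x := ∏ i, μ i ^ c i)]
        rw [ofMul_mul, ofMul_prod, ofMul_prod]
        simp only [ofMul_pow, natCast_zsmul]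
        rw [add_comm]
      constructor
      · rintro ⟨y, hy⟩
        exact ⟨y.toMul, (e _).mp hy⟩
      · rintro ⟨y, hy⟩
        exact ⟨Additive.ofMul y, (e y).mpr hy⟩
    rw [h2, h2]
    exact h1
  have key' : ∀ (c : Fin m → ℤ) (n : ℤ), n ≠ 0 →
      ((∃ y : Additive G, ∑ i, c i • (Additive.ofMul (μ₁ i)) = n • y) ↔
        (∃ y : Additive G, ∑ i, c i • (Additive.ofMul (μ₂ i)) = n • y)) := by
    intro c n _
    have hc : ∀ i, c i = (((c i).toNat : ℤ) - ((-(c i)).toNat : ℤ)) := by
      intro i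
      omega
    have h1 := key (fun i => (c i).toNat) (fun i => (-(c i)).toNat) n.natAbs
    simp only [← hc] at h1
    have h2 : ∀ x : Additive G, (∃ y : Additive G, x = n • y) ↔
        (∃ y : Additive G, x = (n.natAbs : ℤ) • y) := by
      intro x
      rcases Int.natAbs_eq n with h5 | h5
      · rw [← h5]
      · constructor
        · rintro ⟨y, hy⟩
          refine ⟨-y, ?_⟩
          rw [hy, smul_neg, ← neg_smul, ← h5]
        · rintro ⟨y, hy⟩
          refine ⟨-y, ?_⟩
          rw [hy, smul_neg, ← neg_smul]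
          congr 1
          omega
    rw [h2, h2]
    exact h1
  obtain ⟨σ, hσ⟩ := exists_equiv key'
  refine ⟨AddEquiv.toMultiplicative σ, ?_⟩
  intro i
  exact hσ i

theorem freeGroup_comm {α : Type*} [Subsingleton α] (x y : FreeGroup α) : Commute x y := by
  have h1 : ∀ (a : α) (y : FreeGroup α), Commute (FreeGroup.of a) y := by
    intro a y
    induction y using FreeGroup.induction_on with
    | C1 => exact Commute.one_right _
    | of b => rw [Subsingleton.elim a b]
    | inv_of b h => exact h.inv_right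
    | mul u v hu hv => exact hu.mul_right hv
  induction x using FreeGroup.induction_on with
  | C1 => exact Commute.one_left _
  | of b => exact h1 b y
  | inv_of b h => exact h.inv_left
  | mul u v hu hv => exact hu.mul_left hv

open scoped commutatorElement in
/-- the degenerate cases of the theorem: derived length at most one, or rank at most one -/
theorem homog_degenerate (n d : ℕ) (h : d ≤ 1 ∨ n ≤ 1) :
    Homog (FreeGroup (Fin n) ⧸ derivedSeries (FreeGroup (Fin n)) d) := by
  have hfg : Group.FG (FreeGroup (Fin n) ⧸ derivedSeries (FreeGroup (Fin n)) d) := inferInstance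
  by_cases hd : d = 0
  · subst hd
    have : Subsingleton (FreeGroup (Fin n) ⧸ derivedSeries (FreeGroup (Fin n)) 0) := by
      rw [QuotientGroup.subsingleton_iff]
      exact derivedSeries_zero _
    exact homog_of_subsingleton _
  · refine homog_of_comm _ ?_ hfg (tfree_derived d)
    intro a b
    obtain ⟨x, rfl⟩ := QuotientGroup.mk_surjective a
    obtain ⟨y, rfl⟩ := QuotientGroup.mk_surjective b
    rw [← QuotientGroup.mk_mul, ← QuotientGroup.mk_mul, QuotientGroup.eq]
    rcases h with h | h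
    · have hd1 : d = 1 := by omega
      subst hd1
      rw [derivedSeries_one]
      have h1 : (x * y)⁻¹ * (y * x) = ⁅y⁻¹, x⁻¹⁆ := by
        simp only [commutatorElement_def]; group
      rw [h1]
      exact Subgroup.commutator_mem_commutator (Subgroup.mem_top _) (Subgroup.mem_top _)
    · have hsub : Subsingleton (Fin n) := by
        rw [Fin.subsingleton_iff_le_one]; exact h
      have hxy : x * y = y * x := freeGroup_comm x y
      rw [hxy, inv_mul_cancel]
      exact one_mem _

end Group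

/-- the type of the frozen statement, in terms of `Homog` -/
theorem frozen_of_homog
    (H : ∀ n d : ℕ, Homog (FreeGroup (Fin n) ⧸ derivedSeries (FreeGroup (Fin n)) d)) :
    ∀ (n d m : ℕ)
      (μ₁ μ₂ : Fin m → (FreeGroup (Fin n) ⧸ derivedSeries (FreeGroup (Fin n)) d)),
      (∀ φ : (FirstOrder.Language.mk (fun _ => Bool) (fun _ => Empty)).Formula (Fin m),
        (@FirstOrder.Language.Formula.Realize
            (FirstOrder.Language.mk (fun _ => Bool) (fun _ => Empty))
            (FreeGroup (Fin n) ⧸ derivedSeries (FreeGroup (Fin n)) d)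
            ({ funMap := fun b xs => cond b (List.ofFn xs).prod ((List.ofFn xs).prod)⁻¹,
               RelMap := fun r _ => Empty.elim r } :
              (FirstOrder.Language.mk (fun _ => Bool) (fun _ => Empty)).Structure
                (FreeGroup (Fin n) ⧸ derivedSeries (FreeGroup (Fin n)) d))
            (Fin m) φ μ₁ ↔
         @FirstOrder.Language.Formula.Realize
            (FirstOrder.Language.mk (fun _ => Bool) (fun _ => Empty))
            (FreeGroup (Fin n) ⧸ derivedSeries (FreeGroup (Fin n)) d)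
            ({ funMap := fun b xs => cond b (List.ofFn xs).prod ((List.ofFn xs).prod)⁻¹,
               RelMap := fun r _ => Empty.elim r } :
              (FirstOrder.Language.mk (fun _ => Bool) (fun _ => Empty)).Structure
                (FreeGroup (Fin n) ⧸ derivedSeries (FreeGroup (Fin n)) d))
            (Fin m) φ μ₂)) →
      ∃ σ : (FreeGroup (Fin n) ⧸ derivedSeries (FreeGroup (Fin n)) d) ≃*
            (FreeGroup (Fin n) ⧸ derivedSeries (FreeGroup (Fin n)) d),
        ∀ i, σ (μ₁ i) = μ₂ i :=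
  fun n d m μ₁ μ₂ h => H n d m μ₁ μ₂ h

end FS984
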