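import Mathlib

set_option autoImplicit false

/-! ## Dfn -/

section

open FirstOrder FirstOrder.Language

namespace Pool.Agent.MP984

/-- the language of the frozen statement -/
abbrev LG : FirstOrder.Language := FirstOrder.Language.mk (fun _ => Bool) (fun _ => Empty)

/-- the structure of the frozen statement on a group -/
abbrev gstr (G : Type) [Group G] : LG.Structure G :=
  { funMap := fun b xs => cond b (List.ofFn xs).prod ((List.ofFn xs).prod)⁻¹,
    RelMap := fun r _ => Empty.elim r }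

attribute [local instance] gstr

section Dfn

variable {G : Type} [Group G] {κ : Type}

/-- definability of a relation with parameters `p` -/
def Dfn (p : κ → G) {ι : Type} (R : (ι → G) → Prop) : Prop :=
  ∃ φ : LG.Formula (κ ⊕ ι), ∀ v : ι → G, φ.Realize (Sum.elim p v) ↔ R v

variable {p : κ → G} {ι ι' : Type}

theorem Dfn.congr {R S : (ι → G) → Prop} (h : Dfn p R) (e : ∀ v, R v ↔ S v) : Dfn p S := by
  obtain ⟨φ, hφ⟩ := h
  exact ⟨φ, fun v => (hφ v).trans (e v)⟩

theorem Dfn.not {R : (ι → G) → Prop} (h : Dfn p R) : Dfn p (fun v => ¬ R v) := by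
  obtain ⟨φ, hφ⟩ := h
  exact ⟨φ.not, fun v => by rw [Formula.realize_not, hφ]⟩

theorem Dfn.and {R S : (ι → G) → Prop} (h : Dfn p R) (h' : Dfn p S) :
    Dfn p (fun v => R v ∧ S v) := by
  obtain ⟨φ, hφ⟩ := h
  obtain ⟨ψ, hψ⟩ := h'
  exact ⟨φ ⊓ ψ, fun v => by rw [Formula.realize_inf, hφ, hψ]⟩

theorem Dfn.tt : Dfn p (fun _ : ι → G => True) :=
  ⟨⊤, fun v => by simp⟩

theorem Dfn.iAll {τ : Type} [Finite τ] {R : τ → (ι → G) → Prop} (h : ∀ t, Dfn p (R t)) :
    Dfn p (fun v => ∀ t, R t v) := by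
  choose φ hφ using h
  exact ⟨Formula.iInf φ, fun v => by simp [Formula.realize_iInf, hφ]⟩

theorem Dfn.ex {τ : Type} [Finite τ] {R : (ι ⊕ τ → G) → Prop} (h : Dfn p R) :
    Dfn p (fun v => ∃ w : τ → G, R (Sum.elim v w)) := by
  obtain ⟨φ, hφ⟩ := h
  refine ⟨(φ.relabel (Equiv.sumAssoc κ ι τ).symm).iExs τ, fun v => ?_⟩
  rw [Formula.realize_iExs]
  refine exists_congr fun w => ?_
  rw [Formula.realize_relabel, ← hφ]
  have : (Sum.elim (Sum.elim p v) w ∘ ⇑(Equiv.sumAssoc κ ι τ).symm) = Sum.elim p (Sum.elim v w) := by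
    funext x
    rcases x with x | x | x <;> rfl
  rw [this]

theorem Dfn.reindex {R : (ι → G) → Prop} (h : Dfn p R) (f : ι → ι') :
    Dfn p (fun v : ι' → G => R (v ∘ f)) := by
  obtain ⟨φ, hφ⟩ := h
  refine ⟨φ.relabel (Sum.map id f), fun v => ?_⟩
  rw [Formula.realize_relabel]
  have : (Sum.elim p v ∘ Sum.map id f) = Sum.elim p (v ∘ f) := by
    funext x
    rcases x with x | x <;> rfl
  rw [this]
  exact hφ _

theorem Dfn.eqv (i j : ι) : Dfn p (fun v : ι → G => v i = v j) := by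
  refine ⟨Term.equal (Term.var (Sum.inr i)) (Term.var (Sum.inr j)), fun v => ?_⟩
  rw [Formula.realize_equal]
  rfl

theorem Dfn.par (k : κ) (i : ι) : Dfn p (fun v : ι → G => v i = p k) := by
  refine ⟨Term.equal (Term.var (Sum.inr i)) (Term.var (Sum.inl k)), fun v => ?_⟩
  rw [Formula.realize_equal]
  rfl

theorem Dfn.mul (i j k : ι) : Dfn p (fun v : ι → G => v i = v j * v k) := by
  refine ⟨Term.equal (Term.var (Sum.inr i))
    (Term.func (L := LG) (l := 2) true ![Term.var (Sum.inr j), Term.var (Sum.inr k)]), fun v => ?_⟩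
  rw [Formula.realize_equal]
  simp [Term.realize, Structure.funMap]

theorem Dfn.inv (i j : ι) : Dfn p (fun v : ι → G => v i = (v j)⁻¹) := by
  refine ⟨Term.equal (Term.var (Sum.inr i))
    (Term.func (L := LG) (l := 1) false ![Term.var (Sum.inr j)]), fun v => ?_⟩
  rw [Formula.realize_equal]
  simp [Term.realize, Structure.funMap]

theorem Dfn.one (i : ι) : Dfn p (fun v : ι → G => v i = 1) := by
  refine ⟨Term.equal (Term.var (Sum.inr i))
    (Term.func (L := LG) (l := 0) true ![]), fun v => ?_⟩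
  rw [Formula.realize_equal]
  simp [Term.realize, Structure.funMap]

end Dfn

/-! ### Coded types -/

/-- a type coded by tuples of elements of `G`, with definable image -/
class Cod {G : Type} [Group G] {κ : Type} (p : κ → G) (X : Type) where
  ι : Type
  fin : Finite ι
  enc : X → ι → G
  inj : Function.Injective enc
  dfn : Dfn p (fun v => ∃ x, enc x = v)

section DP

variable {G : Type} [Group G] {κ : Type} (p : κ → G)

instance (X : Type) [h : Cod p X] : Finite (Cod.ι p X) := h.fin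

variable {X Y Z : Type} [Cod p X] [Cod p Y] [Cod p Z]

/-- definable predicates -/
def DP (P : X → Prop) : Prop :=
  Dfn p (fun v : Cod.ι p X → G => ∃ x, Cod.enc (p := p) x = v ∧ P x)

instance Cod.prod : Cod p (X × Y) where
  ι := Cod.ι p X ⊕ Cod.ι p Y
  fin := inferInstance
  enc z := Sum.elim (Cod.enc (p := p) z.1) (Cod.enc (p := p) z.2)
  inj := by
    intro z w h
    have h1 : Cod.enc (p := p) z.1 = Cod.enc (p := p) w.1 := by
      funext i
      exact congrFun h (Sum.inl i)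
    have h2 : Cod.enc (p := p) z.2 = Cod.enc (p := p) w.2 := by
      funext i
      exact congrFun h (Sum.inr i)
    exact Prod.ext (Cod.inj h1) (Cod.inj h2)
  dfn := by
    refine (((Cod.dfn (p := p) (X := X)).reindex Sum.inl).and
      ((Cod.dfn (p := p) (X := Y)).reindex Sum.inr)).congr fun v => ?_
    constructor
    · rintro ⟨⟨x, hx⟩, ⟨y, hy⟩⟩
      refine ⟨(x, y), ?_⟩
      funext i
      rcases i with i | i
      · exact congrFun hx i
      · exact congrFun hy i
    · rintro ⟨z, rfl⟩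
      exact ⟨⟨z.1, rfl⟩, ⟨z.2, rfl⟩⟩

/-- definable functions -/
def DF (f : X → Y) : Prop := DP p (fun z : X × Y => f z.1 = z.2)

variable {p}

theorem DP.congr {P Q : X → Prop} (h : DP p P) (e : ∀ x, P x ↔ Q x) : DP p Q :=
  Dfn.congr h fun v => exists_congr fun x => and_congr_right fun _ => e x

theorem DP.not {P : X → Prop} (h : DP p P) : DP p (fun x => ¬ P x) := by
  refine ((Cod.dfn (p := p) (X := X)).and (Dfn.not h)).congr fun v => ?_
  constructor
  · rintro ⟨⟨x, rfl⟩, h'⟩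
    exact ⟨x, rfl, fun hp => h' ⟨x, rfl, hp⟩⟩
  · rintro ⟨x, rfl, hx⟩
    refine ⟨⟨x, rfl⟩, ?_⟩
    rintro ⟨y, hy, hP⟩
    rw [Cod.inj hy] at hP
    exact hx hP

theorem DP.and {P Q : X → Prop} (h : DP p P) (h' : DP p Q) : DP p (fun x => P x ∧ Q x) := by
  refine (Dfn.and h h').congr fun v => ?_
  constructor
  · rintro ⟨⟨x, hx, hP⟩, ⟨y, hy, hQ⟩⟩
    obtain rfl : x = y := Cod.inj (hx.trans hy.symm)
    exact ⟨x, hx, hP, hQ⟩
  · rintro ⟨x, hx, hP, hQ⟩
    exact ⟨⟨x, hx, hP⟩, ⟨x, hx, hQ⟩⟩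

theorem DP.or {P Q : X → Prop} (h : DP p P) (h' : DP p Q) : DP p (fun x => P x ∨ Q x) :=
  (h.not.and h'.not).not.congr fun x => by tauto

theorem DP.imp {P Q : X → Prop} (h : DP p P) (h' : DP p Q) : DP p (fun x => P x → Q x) :=
  (h.and h'.not).not.congr fun x => by tauto

theorem DP.iff {P Q : X → Prop} (h : DP p P) (h' : DP p Q) : DP p (fun x => P x ↔ Q x) :=
  ((h.imp h').and (h'.imp h)).congr fun x => by tauto

theorem DP.tt : DP p (fun _ : X => True) :=
  (Cod.dfn (p := p) (X := X)).congr fun v => by simp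

theorem DP.ff : DP p (fun _ : X => False) :=
  (DP.tt (p := p)).not.congr fun v => by simp

theorem DP.prop (q : Prop) : DP p (fun _ : X => q) := by
  by_cases h : q
  · exact DP.tt.congr fun _ => by simp [h]
  · exact DP.ff.congr fun _ => by simp [h]

theorem DP.ex {P : X → Y → Prop} (h : DP p (fun z : X × Y => P z.1 z.2)) :
    DP p (fun x => ∃ y, P x y) := by
  refine (Dfn.ex (τ := Cod.ι p Y) h).congr fun v => ?_
  constructor
  · rintro ⟨w, ⟨x, y⟩, hz, hP⟩
    refine ⟨x, ?_, y, hP⟩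
    funext i
    exact congrFun hz (Sum.inl i)
  · rintro ⟨x, rfl, y, hP⟩
    exact ⟨Cod.enc (p := p) y, (x, y), rfl, hP⟩

theorem DP.all {P : X → Y → Prop} (h : DP p (fun z : X × Y => P z.1 z.2)) :
    DP p (fun x => ∀ y, P x y) :=
  (DP.ex (P := fun x y => ¬ P x y) h.not).not.congr fun x => by push Not; rfl

theorem DP.iAll {τ : Type} [Finite τ] {P : τ → X → Prop} (h : ∀ t, DP p (P t)) :
    DP p (fun x => ∀ t, P t x) := by
  have h1 : DP p (fun _ : X => True) := DP.tt
  refine (Dfn.and h1 (Dfn.iAll h)).congr fun v => ?_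
  constructor
  · rintro ⟨⟨x, hx, -⟩, h2⟩
    refine ⟨x, hx, fun t => ?_⟩
    obtain ⟨y, hy, hP⟩ := h2 t
    rwa [Cod.inj (hx.trans hy.symm)]
  · rintro ⟨x, hx, hP⟩
    exact ⟨⟨x, hx, trivial⟩, fun t => ⟨x, hx, hP t⟩⟩

theorem DP.iEx {τ : Type} [Finite τ] {P : τ → X → Prop} (h : ∀ t, DP p (P t)) :
    DP p (fun x => ∃ t, P t x) :=
  (DP.iAll fun t => (h t).not).not.congr fun x => by push Not; rfl

variable (p) in
/-- a reindexing map -/
def Rx (π : X → Y) : Prop :=
  ∃ ρ : Cod.ι p Y → Cod.ι p X, ∀ x, Cod.enc (p := p) (π x) = Cod.enc (p := p) x ∘ ρ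

theorem Rx.id : Rx p (fun x : X => x) := ⟨fun i => i, fun _ => rfl⟩
theorem Rx.fst : Rx p (fun z : X × Y => z.1) := ⟨Sum.inl, fun _ => rfl⟩
theorem Rx.snd : Rx p (fun z : X × Y => z.2) := ⟨Sum.inr, fun _ => rfl⟩
theorem Rx.comp {f : Y → Z} {g : X → Y} (hf : Rx p f) (hg : Rx p g) : Rx p (fun x => f (g x)) := by
  obtain ⟨ρ, hρ⟩ := hf
  obtain ⟨σ, hσ⟩ := hg
  exact ⟨fun i => σ (ρ i), fun x => by rw [hρ, hσ]; rfl⟩
theorem Rx.pair {f : X → Y} {g : X → Z} (hf : Rx p f) (hg : Rx p g) :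
    Rx p (fun x => (f x, g x)) := by
  obtain ⟨ρ, hρ⟩ := hf
  obtain ⟨σ, hσ⟩ := hg
  refine ⟨Sum.elim ρ σ, fun x => ?_⟩
  funext i
  rcases i with i | i
  · exact congrFun (hρ x) i
  · exact congrFun (hσ x) i

theorem DP.rx {P : Y → Prop} {π : X → Y} (h : DP p P) (hπ : Rx p π) : DP p (fun x => P (π x)) := by
  obtain ⟨ρ, hρ⟩ := hπ
  refine ((Cod.dfn (p := p) (X := X)).and (Dfn.reindex h ρ)).congr fun v => ?_
  constructor
  · rintro ⟨⟨x, rfl⟩, ⟨y, hy, hP⟩⟩
    refine ⟨x, rfl, ?_⟩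
    rw [← hρ] at hy
    rwa [← Cod.inj hy]
  · rintro ⟨x, rfl, hP⟩
    exact ⟨⟨x, rfl⟩, ⟨π x, hρ x, hP⟩⟩

theorem DP.eq0 : DP p (fun z : X × X => z.1 = z.2) := by
  refine (((Cod.dfn (p := p) (X := X)).reindex Sum.inl).and
    (Dfn.iAll (ι := Cod.ι p X ⊕ Cod.ι p X) (τ := Cod.ι p X)
      fun i => Dfn.eqv (Sum.inl i) (Sum.inr i))).congr fun v => ?_
  constructor
  · rintro ⟨⟨x, hx⟩, h⟩
    refine ⟨(x, x), ?_, rfl⟩
    funext i
    rcases i with i | i
    · exact congrFun hx i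
    · exact (congrFun hx i).trans (h i)
  · rintro ⟨⟨x, y⟩, rfl, h⟩
    obtain rfl : x = y := h
    exact ⟨⟨x, rfl⟩, fun i => rfl⟩

theorem DF.rx {π : X → Y} (h : Rx p π) : DF p π :=
  DP.rx (P := fun z : Y × Y => z.1 = z.2) (π := fun z : X × Y => (π z.1, z.2))
    DP.eq0 ((h.comp Rx.fst).pair Rx.snd)

theorem DF.id : DF p (fun x : X => x) := DF.rx Rx.id
theorem DF.fst : DF p (fun z : X × Y => z.1) := DF.rx Rx.fst
theorem DF.snd : DF p (fun z : X × Y => z.2) := DF.rx Rx.snd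

theorem DP.comp {P : Y → Prop} {f : X → Y} (h : DP p P) (hf : DF p f) : DP p (fun x => P (f x)) := by
  have h1 : DP p (fun x : X => ∃ y : Y, f x = y ∧ P y) :=
    DP.ex (P := fun x y => f x = y ∧ P y)
      (DP.and hf (DP.rx (π := fun z : X × Y => z.2) h Rx.snd))
  exact h1.congr fun x => by simp

theorem DF.comp {f : Y → Z} {g : X → Y} (hf : DF p f) (hg : DF p g) : DF p (fun x => f (g x)) := by
  have h1 : DP p (fun t : (X × Z) × Y => g t.1.1 = t.2) :=
    DP.rx (π := fun t : (X × Z) × Y => (t.1.1, t.2)) hg ((Rx.fst.comp Rx.fst).pair Rx.snd)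
  have h2 : DP p (fun t : (X × Z) × Y => f t.2 = t.1.2) :=
    DP.rx (π := fun t : (X × Z) × Y => (t.2, t.1.2)) hf (Rx.snd.pair (Rx.snd.comp Rx.fst))
  have h3 : DP p (fun z : X × Z => ∃ y : Y, g z.1 = y ∧ f y = z.2) :=
    DP.ex (P := fun (z : X × Z) y => g z.1 = y ∧ f y = z.2) (h1.and h2)
  exact h3.congr fun z => by simp

theorem DF.pair {f : X → Y} {g : X → Z} (hf : DF p f) (hg : DF p g) :
    DF p (fun x => (f x, g x)) := by
  have h1 : DP p (fun t : X × (Y × Z) => f t.1 = t.2.1) :=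
    DP.rx (π := fun t : X × (Y × Z) => (t.1, t.2.1)) hf (Rx.fst.pair (Rx.fst.comp Rx.snd))
  have h2 : DP p (fun t : X × (Y × Z) => g t.1 = t.2.2) :=
    DP.rx (π := fun t : X × (Y × Z) => (t.1, t.2.2)) hg (Rx.fst.pair (Rx.snd.comp Rx.snd))
  exact (h1.and h2).congr fun z => by rw [Prod.ext_iff]

theorem DP.comp₂ {P : Y → Z → Prop} {f : X → Y} {g : X → Z}
    (h : DP p (fun z : Y × Z => P z.1 z.2)) (hf : DF p f) (hg : DF p g) :
    DP p (fun x => P (f x) (g x)) :=
  DP.comp (P := fun z : Y × Z => P z.1 z.2) (f := fun x => (f x, g x)) h (hf.pair hg)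

theorem DF.comp₂ {W : Type} [Cod p W] {h : Y → Z → W} {f : X → Y} {g : X → Z}
    (hh : DF p (fun z : Y × Z => h z.1 z.2)) (hf : DF p f) (hg : DF p g) :
    DF p (fun x => h (f x) (g x)) :=
  DF.comp (f := fun z : Y × Z => h z.1 z.2) (g := fun x => (f x, g x)) hh (hf.pair hg)

theorem DP.eq {f g : X → Y} (hf : DF p f) (hg : DF p g) : DP p (fun x => f x = g x) :=
  DP.comp₂ (P := fun y z : Y => y = z) DP.eq0 hf hg

theorem DF.fst' {f : X → Y × Z} (h : DF p f) : DF p (fun x => (f x).1) :=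
  DF.comp (f := fun z : Y × Z => z.1) DF.fst h
theorem DF.snd' {f : X → Y × Z} (h : DF p f) : DF p (fun x => (f x).2) :=
  DF.comp (f := fun z : Y × Z => z.2) DF.snd h

theorem DF.congr {f g : X → Y} (h : DF p f) (e : ∀ x, f x = g x) : DF p g := by
  have : f = g := funext e
  rwa [← this]

/-! ### The group itself -/

instance Cod.grp : Cod p G where
  ι := Unit
  fin := inferInstance
  enc g := fun _ => g
  inj := fun _ _ h => congrFun h ()
  dfn := Dfn.tt.congr fun v => ⟨fun _ => ⟨v (), rfl⟩, fun _ => trivial⟩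

theorem DF.mul0 : DF p (fun z : G × G => z.1 * z.2) := by
  refine (Dfn.mul (p := p) (ι := (Unit ⊕ Unit) ⊕ Unit) (Sum.inr ()) (Sum.inl (Sum.inl ()))
    (Sum.inl (Sum.inr ()))).congr fun v => ?_
  constructor
  · intro h
    refine ⟨((v (Sum.inl (Sum.inl ())), v (Sum.inl (Sum.inr ()))), v (Sum.inr ())), ?_, h.symm⟩
    funext i
    rcases i with (i | i) | i <;> rfl
  · rintro ⟨⟨⟨a, b⟩, c⟩, rfl, h⟩
    exact h.symm

theorem DF.inv0 : DF p (fun z : G => z⁻¹) := by
  refine (Dfn.inv (p := p) (ι := Unit ⊕ Unit) (Sum.inr ()) (Sum.inl ())).congr fun v => ?_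
  constructor
  · intro h
    refine ⟨(v (Sum.inl ()), v (Sum.inr ())), ?_, h.symm⟩
    funext i
    rcases i with i | i <;> rfl
  · rintro ⟨⟨a, c⟩, rfl, h⟩
    exact h.symm

theorem DP.parg (k : κ) : DP p (fun g : G => g = p k) := by
  refine (Dfn.par (p := p) (ι := Unit) k ()).congr fun v => ?_
  constructor
  · intro h
    exact ⟨v (), rfl, h⟩
  · rintro ⟨a, rfl, h⟩
    exact h

theorem DP.oneg : DP p (fun g : G => g = 1) := by
  refine (Dfn.one (p := p) (ι := Unit) ()).congr fun v => ?_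
  constructor
  · intro h
    exact ⟨v (), rfl, h⟩
  · rintro ⟨a, rfl, h⟩
    exact h

theorem DF.of_point {y₀ : Y} (h : DP p (fun y : Y => y = y₀)) : DF p (fun _ : X => y₀) :=
  (DP.rx (π := fun z : X × Y => z.2) h Rx.snd).congr fun z => eq_comm

theorem DF.par (k : κ) : DF p (fun _ : X => p k) := DF.of_point (DP.parg k)
theorem DF.one : DF p (fun _ : X => (1 : G)) := DF.of_point DP.oneg

theorem DF.mul {f g : X → G} (hf : DF p f) (hg : DF p g) : DF p (fun x => f x * g x) :=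
  DF.comp₂ (h := fun a b : G => a * b) DF.mul0 hf hg
theorem DF.inv {f : X → G} (hf : DF p f) : DF p (fun x => (f x)⁻¹) :=
  DF.comp (f := fun a : G => a⁻¹) DF.inv0 hf

theorem DF.const (hp : Subgroup.closure (Set.range p) = ⊤) (g : G) : DF p (fun _ : X => g) := by
  have hg : g ∈ Subgroup.closure (Set.range p) := by rw [hp]; trivial
  induction hg using Subgroup.closure_induction with
  | mem x hx =>
    obtain ⟨k, rfl⟩ := hx
    exact DF.par k
  | one => exact DF.one
  | mul x y _ _ hx hy => exact hx.mul hy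
  | inv x _ hx => exact hx.inv

/-- tuples of group elements -/
instance Cod.tup (τ : Type) [Finite τ] : Cod p (τ → G) where
  ι := τ
  fin := inferInstance
  enc v := v
  inj := fun _ _ h => h
  dfn := Dfn.tt.congr fun v => ⟨fun _ => ⟨v, rfl⟩, fun _ => trivial⟩

theorem DF.app {τ : Type} [Finite τ] (t : τ) : DF p (fun v : τ → G => v t) :=
  DF.rx ⟨fun _ => t, fun _ => rfl⟩

theorem DF.app' {τ : Type} [Finite τ] (t : τ) {f : X → τ → G} (h : DF p f) :
    DF p (fun x => f x t) :=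
  DF.comp (f := fun v : τ → G => v t) (DF.app t) h

theorem DP.iff_dfn {τ : Type} [Finite τ] {P : (τ → G) → Prop} : DP p P ↔ Dfn p P := by
  constructor
  · intro h
    exact Dfn.congr h fun v => ⟨fun ⟨x, hx, hP⟩ => by rwa [← show x = v from hx],
      fun hP => ⟨v, rfl, hP⟩⟩
  · intro h
    exact Dfn.congr h fun v => ⟨fun hP => ⟨v, rfl, hP⟩,
      fun ⟨x, hx, hP⟩ => by rwa [← show x = v from hx]⟩

end DP

end Pool.Agent.MP984

end

/-! ## Ar -/

section

open FirstOrder FirstOrder.Language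

namespace Pool.Agent.MP984

attribute [local instance] gstr

variable {G : Type} [Group G] {κ : Type}

/-- a definable copy of the natural numbers -/
class NatCod (p : κ → G) where
  e : ℕ → G
  inj : Function.Injective e
  rng : DP p (fun g : G => ∃ n, e n = g)

variable (p : κ → G)

instance Cod.nat [NatCod p] : Cod p ℕ where
  ι := Unit
  fin := inferInstance
  enc n := fun _ => NatCod.e p n
  inj := fun _ _ h => NatCod.inj (congrFun h ())
  dfn := Dfn.congr (NatCod.rng (p := p)) fun v => by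
    constructor
    · rintro ⟨x, hx, n, hn⟩
      exact ⟨n, by rw [hn]; exact hx⟩
    · rintro ⟨n, hn⟩
      exact ⟨v (), rfl, n, congrFun hn ()⟩

/-- with definable arithmetic -/
class NatAr (p : κ → G) [NatCod p] : Prop where
  add : DF p (fun z : ℕ × ℕ => z.1 + z.2)
  mul : DF p (fun z : ℕ × ℕ => z.1 * z.2)

variable {p}
variable {X Y : Type} [Cod p X] [Cod p Y]

theorem DF.natE [NatCod p] : DF p (fun n : ℕ => NatCod.e p n) := by
  refine Dfn.congr (Dfn.and (NatCod.rng (p := p) |>.rx (π := fun z : G × G => z.1) Rx.fst)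
    (DP.eq0 (p := p) (X := G))) fun v => ?_
  constructor
  · rintro ⟨⟨⟨x, y⟩, rfl, n, rfl⟩, ⟨⟨x', y'⟩, h, h'⟩⟩
    refine ⟨(n, y), ?_, ?_⟩
    · funext i
      rcases i with i | i <;> rfl
    · have h1 : x' = NatCod.e p n := congrFun h (Sum.inl ())
      have h2 : y' = y := congrFun h (Sum.inr ())
      have h3 : x' = y' := h'
      exact h1.symm.trans (h3.trans h2)
  · rintro ⟨⟨n, y⟩, rfl, h⟩
    obtain rfl : NatCod.e p n = y := h
    refine ⟨⟨(NatCod.e p n, NatCod.e p n), ?_, n, rfl⟩, ⟨(NatCod.e p n, NatCod.e p n), ?_, rfl⟩⟩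
    · funext i
      rcases i with i | i <;> rfl
    · funext i
      rcases i with i | i <;> rfl

variable [NatCod p] [NatAr p]

theorem DF.nadd {f g : X → ℕ} (hf : DF p f) (hg : DF p g) : DF p (fun x => f x + g x) :=
  DF.comp₂ (h := fun a b : ℕ => a + b) NatAr.add hf hg

theorem DF.nmul {f g : X → ℕ} (hf : DF p f) (hg : DF p g) : DF p (fun x => f x * g x) :=
  DF.comp₂ (h := fun a b : ℕ => a * b) NatAr.mul hf hg

theorem DF.nconst (n : ℕ) : DF p (fun _ : X => n) := by
  have h0 : DF p (fun _ : X => (0 : ℕ)) := by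
    refine DF.of_point (DP.congr (DP.eq (f := fun y : ℕ => y + y) (g := fun y => y)
      (DF.nadd DF.id DF.id) DF.id) fun x => ?_)
    omega
  have h1 : ∀ {W : Type} [Cod p W], DF p (fun _ : W => (1 : ℕ)) := by
    intro W _
    refine DF.of_point (DP.congr (DP.and (DP.eq (f := fun y : ℕ => y * y) (g := fun y => y)
      (DF.nmul DF.id DF.id) DF.id) (DP.not (DP.eq (f := fun y : ℕ => y + y) (g := fun y => y)
      (DF.nadd DF.id DF.id) DF.id))) fun x => ?_)
    constructor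
    · rintro ⟨h, h'⟩
      have : x ≠ 0 := by
        rintro rfl
        simp at h'
      exact Nat.eq_of_mul_eq_mul_left (Nat.pos_of_ne_zero this) (by omega)
    · rintro rfl
      simp
  induction n with
  | zero => exact h0
  | succ n ih => exact ih.nadd h1

theorem DP.nlt {f g : X → ℕ} (hf : DF p f) (hg : DF p g) : DP p (fun x => f x < g x) := by
  refine DP.congr (DP.ex (Y := ℕ) (P := fun x c => f x + c + 1 = g x) (DP.eq
    (f := fun z : X × ℕ => f z.1 + z.2 + 1) (g := fun z : X × ℕ => g z.1)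
    (((hf.comp DF.fst).nadd DF.snd).nadd (DF.nconst 1)) (hg.comp DF.fst))) fun x => ?_
  constructor
  · rintro ⟨c, hc⟩
    omega
  · intro h
    exact ⟨g x - f x - 1, by omega⟩

theorem DP.nle {f g : X → ℕ} (hf : DF p f) (hg : DF p g) : DP p (fun x => f x ≤ g x) :=
  (DP.nlt hg hf).not.congr fun x => by omega

theorem DF.npair {f g : X → ℕ} (hf : DF p f) (hg : DF p g) :
    DF p (fun x => Nat.pair (f x) (g x)) := by
  refine DF.comp₂ (h := fun a b : ℕ => Nat.pair a b) ?_ hf hg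
  have a1 : DF p (fun z : (ℕ × ℕ) × ℕ => z.1.1) := DF.fst.fst'
  have a2 : DF p (fun z : (ℕ × ℕ) × ℕ => z.1.2) := DF.fst.snd'
  have a3 : DF p (fun z : (ℕ × ℕ) × ℕ => z.2) := DF.snd
  refine DP.congr (DP.or (DP.and (DP.nlt a1 a2) (DP.eq ((a2.nmul a2).nadd a1) a3))
    (DP.and (DP.nlt a1 a2).not (DP.eq (((a1.nmul a1).nadd a1).nadd a2) a3))) fun z => ?_
  unfold Nat.pair
  by_cases h : z.1.1 < z.1.2 <;> simp [h]

theorem DF.unpair {f : X → ℕ} (hf : DF p f) : DF p (fun x => (Nat.unpair (f x))) := by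
  refine DF.comp (f := fun n : ℕ => Nat.unpair n) ?_ hf
  refine DP.congr (DP.eq (f := fun z : ℕ × (ℕ × ℕ) => Nat.pair z.2.1 z.2.2)
    (g := fun z : ℕ × (ℕ × ℕ) => z.1) (DF.npair DF.snd.fst' DF.snd.snd') DF.fst) fun z => ?_
  constructor
  · intro h
    show Nat.unpair z.1 = z.2
    rw [← h, Nat.unpair_pair]
  · intro h
    rw [← (show Nat.unpair z.1 = z.2 from h), Nat.pair_unpair]

theorem DF.nmod {f g : X → ℕ} (hf : DF p f) (hg : DF p g) :
    DF p (fun x => f x % g x) := by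
  refine DF.comp₂ (h := fun a b : ℕ => a % b) ?_ hf hg
  have a1 : DF p (fun z : (ℕ × ℕ) × ℕ => z.1.1) := DF.fst.fst'
  have a2 : DF p (fun z : (ℕ × ℕ) × ℕ => z.1.2) := DF.fst.snd'
  have a3 : DF p (fun z : (ℕ × ℕ) × ℕ => z.2) := DF.snd
  have b : DP p (fun z : (ℕ × ℕ) × ℕ => ∃ q, z.1.2 * q + z.2 = z.1.1) :=
    DP.ex (P := fun (z : (ℕ × ℕ) × ℕ) q => z.1.2 * q + z.2 = z.1.1)
      (DP.eq (((a2.comp DF.fst).nmul DF.snd).nadd (a3.comp DF.fst)) (a1.comp DF.fst))
  refine DP.congr (DP.or (DP.and (DP.eq a2 (DF.nconst 0)) (DP.eq a1 a3))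
    (DP.and (DP.nlt a3 a2) b)) fun z => ?_
  show _ ↔ z.1.1 % z.1.2 = z.2
  constructor
  · rintro (⟨h, h'⟩ | ⟨h, q, h'⟩)
    · simp [h, h']
    · rw [← h']
      simp [Nat.mul_add_mod, Nat.mod_eq_of_lt h]
  · intro h
    rcases Nat.eq_zero_or_pos z.1.2 with h0 | h0
    · left
      refine ⟨h0, ?_⟩
      rw [← h, h0]
      simp
    · right
      refine ⟨by rw [← h]; exact Nat.mod_lt _ h0, z.1.1 / z.1.2, ?_⟩
      rw [← h]
      exact Nat.div_add_mod _ _

theorem DF.beta {f g : X → ℕ} (hf : DF p f) (hg : DF p g) :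
    DF p (fun x => Nat.beta (f x) (g x)) :=
  (hf.unpair.fst').nmod (((hg.nadd (DF.nconst 1)).nmul hf.unpair.snd').nadd (DF.nconst 1))

theorem exists_beta (n : ℕ) (f : ℕ → ℕ) : ∃ s, ∀ i ≤ n, Nat.beta s i = f i := by
  refine ⟨Nat.unbeta ((List.range (n + 1)).map f), fun i hi => ?_⟩
  have h := Nat.beta_unbeta_coe ((List.range (n + 1)).map f) ⟨i, by simp; omega⟩
  simpa using h

theorem DF.natPrimrec {f : ℕ → ℕ} (hf : Nat.Primrec f) : DF p f := by
  induction hf with
  | zero => exact DF.nconst 0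
  | succ => exact DF.id.nadd (DF.nconst 1)
  | left => exact (DF.unpair DF.id).fst'
  | right => exact (DF.unpair DF.id).snd'
  | pair _ _ hf hg => exact hf.npair hg
  | comp _ _ hf hg => exact hf.comp hg
  | @prec f g _ _ hf hg =>
    have z1 : DF p (fun z : (ℕ × ℕ) × ℕ => (Nat.unpair z.1.1).1) :=
      (DF.unpair DF.fst.fst').fst'
    have z2 : DF p (fun z : (ℕ × ℕ) × ℕ => (Nat.unpair z.1.1).2) :=
      (DF.unpair DF.fst.fst').snd'
    have s : DF p (fun z : (ℕ × ℕ) × ℕ => z.2) := DF.snd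
    have c : DF p (fun z : (ℕ × ℕ) × ℕ => z.1.2) := DF.fst.snd'
    have h1 : DP p (fun z : (ℕ × ℕ) × ℕ => Nat.beta z.2 0 = f (Nat.unpair z.1.1).1) :=
      DP.eq (s.beta (DF.nconst 0)) (hf.comp z1)
    have h3 : DP p (fun z : (ℕ × ℕ) × ℕ => Nat.beta z.2 (Nat.unpair z.1.1).2 = z.1.2) :=
      DP.eq (s.beta z2) c
    have i1 : DF p (fun z : ((ℕ × ℕ) × ℕ) × ℕ => z.2) := DF.snd
    have s1 : DF p (fun z : ((ℕ × ℕ) × ℕ) × ℕ => z.1.2) := DF.fst.snd'
    have h2 : DP p (fun z : (ℕ × ℕ) × ℕ => ∀ i, i < (Nat.unpair z.1.1).2 →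
        Nat.beta z.2 (i + 1) =
          g (Nat.pair (Nat.unpair z.1.1).1 (Nat.pair i (Nat.beta z.2 i)))) := by
      refine DP.all (P := fun (z : (ℕ × ℕ) × ℕ) i => i < (Nat.unpair z.1.1).2 →
        Nat.beta z.2 (i + 1) =
          g (Nat.pair (Nat.unpair z.1.1).1 (Nat.pair i (Nat.beta z.2 i)))) ?_
      exact DP.imp (DP.nlt i1 (z2.comp DF.fst)) (DP.eq (s1.beta (i1.nadd (DF.nconst 1)))
        (hg.comp ((z1.comp DF.fst).npair (i1.npair (s1.beta i1)))))
    refine DP.congr (DP.ex (P := fun (z : ℕ × ℕ) s => Nat.beta s 0 = f (Nat.unpair z.1).1 ∧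
      (∀ i, i < (Nat.unpair z.1).2 →
        Nat.beta s (i + 1) =
          g (Nat.pair (Nat.unpair z.1).1 (Nat.pair i (Nat.beta s i)))) ∧
      Nat.beta s (Nat.unpair z.1).2 = z.2) (h1.and (h2.and h3))) fun z => ?_
    simp only [Nat.unpaired]
    generalize (Nat.unpair z.1).1 = a
    generalize (Nat.unpair z.1).2 = k
    generalize z.2 = c
    constructor
    · rintro ⟨s, h0, hs, hc⟩
      rw [← hc]
      have key : ∀ j, j ≤ k → Nat.rec (motive := fun _ => ℕ) (f a)
          (fun y IH => g (Nat.pair a (Nat.pair y IH))) j = Nat.beta s j := by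
        intro j
        induction j with
        | zero => intro _; exact h0.symm
        | succ j ih =>
          intro hj
          have h4 := ih (by omega)
          simp only [h4]
          exact (hs j (by omega)).symm
      exact key k le_rfl
    · intro h
      obtain ⟨s, hs⟩ := exists_beta k (fun j => Nat.rec (motive := fun _ => ℕ) (f a)
          (fun y IH => g (Nat.pair a (Nat.pair y IH))) j)
      refine ⟨s, ?_, ?_, ?_⟩
      · rw [hs 0 (Nat.zero_le _)]
        rfl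
      · intro i hi
        rw [hs (i + 1) (by omega), hs i (by omega)]
      · rw [hs k le_rfl]
        exact h

end Pool.Agent.MP984

end

/-! ## Cd -/

section

open FirstOrder FirstOrder.Language

namespace Pool.Agent.MP984

attribute [local instance] gstr

variable {G : Type} [Group G] {κ : Type} {p : κ → G} [NatCod p] [NatAr p]

/-- a type coded by natural numbers -/
@[ext]
structure Cd (α : Type) where
  val : α

/-- the code -/
def Cd.code {α : Type} [Primcodable α] (a : Cd α) : ℕ := Encodable.encode a.val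

variable {X Y : Type} [Cod p X] [Cod p Y]
variable {α β γ : Type} [Primcodable α] [Primcodable β] [Primcodable γ]

theorem Cd.code_inj {a b : Cd α} (h : a.code = b.code) : a = b :=
  Cd.ext (Encodable.encode_injective h)

instance Cod.cd : Cod p (Cd α) where
  ι := Unit
  fin := inferInstance
  enc a := fun _ => NatCod.e p a.code
  inj := fun a b h => Cd.code_inj (NatCod.inj (congrFun h ()))
  dfn := by
    have h0 : DP p (fun n : ℕ => (Encodable.encode (Encodable.decode (α := α) n) = n + 1)) :=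
      (DP.eq (DF.natPrimrec (Primcodable.prim (α := α))) (DF.id.nadd (DF.nconst 1)))
    refine Dfn.congr h0 fun v => ?_
    constructor
    · rintro ⟨n, hn, h⟩
      rcases h' : (Encodable.decode (α := α) n) with _ | a
      · rw [h'] at h
        simp at h
      · refine ⟨⟨a⟩, ?_⟩
        rw [h'] at h
        simp at h
        rw [← hn]
        funext i
        show NatCod.e p (Encodable.encode a) = NatCod.e p n
        rw [h]
    · rintro ⟨a, rfl⟩
      refine ⟨a.code, rfl, ?_⟩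
      simp [Cd.code]

theorem DF.code0 : DF p (fun a : Cd α => a.code) := by
  refine Dfn.congr (Dfn.and (DP.eq0 (p := p) (X := G))
    ((Cod.dfn (p := p) (X := Cd α)).reindex (Sum.inl : Unit → Unit ⊕ Unit))) fun v => ?_
  constructor
  · rintro ⟨⟨⟨x, y⟩, hz, hxy⟩, a, ha⟩
    refine ⟨(a, a.code), ?_, rfl⟩
    have h1 : v (Sum.inl ()) = NatCod.e p a.code := (congrFun ha ()).symm
    have h2 : x = v (Sum.inl ()) := congrFun hz (Sum.inl ())
    have h3 : y = v (Sum.inr ()) := congrFun hz (Sum.inr ())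
    have h4 : x = y := hxy
    funext i
    rcases i with i | i
    · exact h1.symm
    · show NatCod.e p a.code = v (Sum.inr ())
      rw [← h1, ← h2, ← h3, h4]
  · rintro ⟨⟨a, n⟩, rfl, h⟩
    obtain rfl : a.code = n := h
    exact ⟨⟨(NatCod.e p a.code, NatCod.e p a.code), by funext i; rcases i with i | i <;> rfl, rfl⟩,
      a, rfl⟩

variable (p) in
/-- definable functions with values in a coded type -/
def DA (f : X → α) : Prop := DF p (fun x => (⟨f x⟩ : Cd α))

theorem DA.code {f : X → α} (h : DA p f) : DF p (fun x => Encodable.encode (f x)) :=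
  DF.comp (f := fun a : Cd α => a.code) DF.code0 h

theorem DA.of_code {f : X → α} (h : DF p (fun x => Encodable.encode (f x))) : DA p f := by
  refine DP.congr (DP.eq (f := fun z : X × Cd α => Encodable.encode (f z.1))
    (g := fun z : X × Cd α => z.2.code) (h.comp DF.fst) (DF.code0.comp DF.snd)) fun z => ?_
  constructor
  · intro h
    exact Cd.code_inj h
  · intro h
    rw [← show (⟨f z.1⟩ : Cd α) = z.2 from h]
    rfl

theorem DA.prim {g : α → β} (hg : Primrec g) {f : X → α} (hf : DA p f) :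
    DA p (fun x => g (f x)) := by
  refine DA.of_code ?_
  have h1 : DF p (fun x => Encodable.encode ((Encodable.decode (α := α)
      (Encodable.encode (f x))).map g)) :=
    DF.comp (f := fun n : ℕ => Encodable.encode ((Encodable.decode (α := α) n).map g))
      (DF.natPrimrec hg) hf.code
  have h2 : DF p (fun x => Encodable.encode (g (f x)) + 1) := h1.congr fun x => by simp
  have h3 : DF p (fun n : ℕ => n - 1) := by
    refine DF.natPrimrec ?_
    exact Primrec.nat_iff.mp (Primrec.pred.of_eq fun n => rfl)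
  exact (h3.comp h2).congr fun x => by simp

theorem DA.pair {f : X → α} {g : X → β} (hf : DA p f) (hg : DA p g) :
    DA p (fun x => (f x, g x)) := by
  refine DA.of_code ?_
  exact (DF.npair hf.code hg.code).congr fun x => by simp

theorem DA.prim₂ {h : α → β → γ} (hh : Primrec₂ h) {f : X → α} {g : X → β}
    (hf : DA p f) (hg : DA p g) : DA p (fun x => h (f x) (g x)) :=
  DA.prim (g := fun z : α × β => h z.1 z.2) hh (hf.pair hg)

theorem DA.const (a : α) : DA p (fun _ : X => a) :=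
  DA.of_code (DF.nconst _)

theorem DA.ofN {f : X → ℕ} (h : DF p f) : DA p f := DA.of_code (h.congr fun _ => by simp)
theorem DA.toN {f : X → ℕ} (h : DA p f) : DF p f := h.code.congr fun _ => by simp

theorem DA.comp {f : Y → α} {g : X → Y} (hf : DA p f) (hg : DF p g) : DA p (fun x => f (g x)) :=
  DF.comp (f := fun y => (⟨f y⟩ : Cd α)) hf hg

theorem DA.var : DA p (fun z : X × Cd α => z.2.val) := DF.snd

theorem DP.exA {P : X → α → Prop} (h : DP p (fun z : X × Cd α => P z.1 z.2.val)) :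
    DP p (fun x => ∃ a, P x a) :=
  (DP.ex (P := fun x (y : Cd α) => P x y.val) h).congr fun x =>
    ⟨fun ⟨y, hy⟩ => ⟨y.val, hy⟩, fun ⟨a, ha⟩ => ⟨⟨a⟩, ha⟩⟩

theorem DP.allA {P : X → α → Prop} (h : DP p (fun z : X × Cd α => P z.1 z.2.val)) :
    DP p (fun x => ∀ a, P x a) :=
  (DP.all (P := fun x (y : Cd α) => P x y.val) h).congr fun x =>
    ⟨fun h a => h ⟨a⟩, fun h y => h y.val⟩

theorem DP.eqA {f g : X → α} (hf : DA p f) (hg : DA p g) : DP p (fun x => f x = g x) :=
  (DP.eq (f := fun x => (⟨f x⟩ : Cd α)) (g := fun x => (⟨g x⟩ : Cd α)) hf hg).congr fun x =>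
    ⟨fun h => congrArg Cd.val h, fun h => by rw [h]⟩

theorem DP.compA {P : α → Prop} {f : X → α} (h : DP p (fun a : Cd α => P a.val))
    (hf : DA p f) : DP p (fun x => P (f x)) :=
  DP.comp (P := fun a : Cd α => P a.val) h hf

end Pool.Agent.MP984

end

/-! ## ArZ -/

section

open FirstOrder FirstOrder.Language

namespace Pool.Agent.MP984

attribute [local instance] gstr

variable {G : Type} [Group G] {κ : Type} {p : κ → G}

/-- arithmetic of the powers of `x` -/
structure ZAr (p : κ → G) (x : G) : Prop where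
  inj : Function.Injective (fun n : ℤ => x ^ n)
  rng : DP p (fun g : G => ∃ n : ℤ, x ^ n = g)
  mul : DP p (fun t : (G × G) × G => ∃ a b : ℤ, x ^ a = t.1.1 ∧ x ^ b = t.1.2 ∧ x ^ (a * b) = t.2)

theorem ZAr.nat {x : G} (h : ZAr p x) : DP p (fun g : G => ∃ n : ℕ, x ^ n = g) := by
  have h1 : DP p (fun g : G => ∃ u : (G × G) × (G × G), ∃ s : (G × G) × (G × G),
      ((∃ a b : ℤ, x ^ a = u.1.1 ∧ x ^ b = u.1.1 ∧ x ^ (a * b) = s.1.1) ∧
      (∃ a b : ℤ, x ^ a = u.1.2 ∧ x ^ b = u.1.2 ∧ x ^ (a * b) = s.1.2)) ∧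
      ((∃ a b : ℤ, x ^ a = u.2.1 ∧ x ^ b = u.2.1 ∧ x ^ (a * b) = s.2.1) ∧
      (∃ a b : ℤ, x ^ a = u.2.2 ∧ x ^ b = u.2.2 ∧ x ^ (a * b) = s.2.2)) ∧
      ((s.1.1 * s.1.2) * s.2.1) * s.2.2 = g) := by
    refine DP.ex (DP.ex ?_)
    have q : ∀ {f g : (G × (G × G) × (G × G)) × ((G × G) × (G × G)) → G}, DF p f → DF p g →
        DP p (fun z => ∃ a b : ℤ, x ^ a = f z ∧ x ^ b = f z ∧ x ^ (a * b) = g z) := by
      intro f g hf hg
      exact DP.comp (P := fun t : (G × G) × G => ∃ a b : ℤ, x ^ a = t.1.1 ∧ x ^ b = t.1.2 ∧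
        x ^ (a * b) = t.2) h.mul ((hf.pair hf).pair hg)
    have u11 : DF p (fun z : (G × (G × G) × (G × G)) × ((G × G) × (G × G)) => z.1.2.1.1) :=
      DF.fst.snd'.fst'.fst'
    have u12 : DF p (fun z : (G × (G × G) × (G × G)) × ((G × G) × (G × G)) => z.1.2.1.2) :=
      DF.fst.snd'.fst'.snd'
    have u21 : DF p (fun z : (G × (G × G) × (G × G)) × ((G × G) × (G × G)) => z.1.2.2.1) :=
      DF.fst.snd'.snd'.fst'
    have u22 : DF p (fun z : (G × (G × G) × (G × G)) × ((G × G) × (G × G)) => z.1.2.2.2) :=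
      DF.fst.snd'.snd'.snd'
    have s11 : DF p (fun z : (G × (G × G) × (G × G)) × ((G × G) × (G × G)) => z.2.1.1) :=
      DF.snd.fst'.fst'
    have s12 : DF p (fun z : (G × (G × G) × (G × G)) × ((G × G) × (G × G)) => z.2.1.2) :=
      DF.snd.fst'.snd'
    have s21 : DF p (fun z : (G × (G × G) × (G × G)) × ((G × G) × (G × G)) => z.2.2.1) :=
      DF.snd.snd'.fst'
    have s22 : DF p (fun z : (G × (G × G) × (G × G)) × ((G × G) × (G × G)) => z.2.2.2) :=
      DF.snd.snd'.snd'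
    exact ((q u11 s11).and (q u12 s12)).and (((q u21 s21).and (q u22 s22)).and
      (DP.eq (((s11.mul s12).mul s21).mul s22) DF.fst.fst'))
  refine h1.congr fun g => ?_
  constructor
  · rintro ⟨u, s, ⟨⟨a, a', e1, e1', e1''⟩, ⟨b, b', e2, e2', e2''⟩⟩,
      ⟨⟨c, c', e3, e3', e3''⟩, ⟨d, d', e4, e4', e4''⟩⟩, e⟩
    obtain rfl : a = a' := h.inj (e1.trans e1'.symm)
    obtain rfl : b = b' := h.inj (e2.trans e2'.symm)
    obtain rfl : c = c' := h.inj (e3.trans e3'.symm)
    obtain rfl : d = d' := h.inj (e4.trans e4'.symm)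
    refine ⟨(a * a + b * b + c * c + d * d).toNat, ?_⟩
    have hn : 0 ≤ a * a + b * b + c * c + d * d :=
      add_nonneg (add_nonneg (add_nonneg (mul_self_nonneg a) (mul_self_nonneg b))
        (mul_self_nonneg c)) (mul_self_nonneg d)
    rw [← e, ← e1'', ← e2'', ← e3'', ← e4'', ← zpow_add, ← zpow_add, ← zpow_add, ← zpow_natCast,
      Int.toNat_of_nonneg hn]
  · rintro ⟨n, rfl⟩
    obtain ⟨a, b, c, d, rfl⟩ := Nat.sum_four_squares n
    refine ⟨((x ^ (a : ℤ), x ^ (b : ℤ)), (x ^ (c : ℤ), x ^ (d : ℤ))),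
      ((x ^ ((a : ℤ) * a), x ^ ((b : ℤ) * b)), (x ^ ((c : ℤ) * c), x ^ ((d : ℤ) * d))),
      ⟨⟨a, a, rfl, rfl, rfl⟩, ⟨b, b, rfl, rfl, rfl⟩⟩, ⟨⟨c, c, rfl, rfl, rfl⟩,
      ⟨d, d, rfl, rfl, rfl⟩⟩, ?_⟩
    simp only []
    rw [← zpow_add, ← zpow_add, ← zpow_add, ← zpow_natCast]
    congr 1
    push_cast
    ring

/-- the copy of the natural numbers -/
@[reducible] def ZAr.cod {x : G} (h : ZAr p x) : NatCod p where
  e n := x ^ n
  inj a b hab := by
    have := h.inj (a₁ := (a : ℤ)) (a₂ := (b : ℤ)) (by simpa using hab)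
    exact_mod_cast this
  rng := h.nat

theorem ZAr.ar {x : G} (h : ZAr p x) : @NatAr G _ κ p h.cod := by
  letI := h.cod
  have hE : DF p (fun n : ℕ => x ^ n) := DF.natE
  have inj : ∀ {a b : ℕ}, x ^ a = x ^ b → a = b := fun {a b} hab => (h.cod).inj hab
  refine @NatAr.mk G _ κ p h.cod ?_ ?_
  · refine DP.congr (DP.eq (f := fun z : (ℕ × ℕ) × ℕ => x ^ z.1.1 * x ^ z.1.2)
      (g := fun z : (ℕ × ℕ) × ℕ => x ^ z.2) ((hE.comp DF.fst.fst').mul (hE.comp DF.fst.snd'))
      (hE.comp DF.snd)) fun z => ?_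
    rw [← pow_add]
    exact ⟨fun h' => inj h', fun h' => congrArg (fun n => x ^ n) h'⟩
  · refine DP.congr (DP.comp (P := fun t : (G × G) × G => ∃ a b : ℤ, x ^ a = t.1.1 ∧
      x ^ b = t.1.2 ∧ x ^ (a * b) = t.2) (f := fun z : (ℕ × ℕ) × ℕ => ((x ^ z.1.1, x ^ z.1.2),
        x ^ z.2)) h.mul (((hE.comp DF.fst.fst').pair (hE.comp DF.fst.snd')).pair
      (hE.comp DF.snd))) fun z => ?_
    constructor
    · rintro ⟨a, b, ha, hb, hab⟩
      have ha' : a = z.1.1 := h.inj (by simpa using ha)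
      have hb' : b = z.1.2 := h.inj (by simpa using hb)
      subst ha' hb'
      have := h.inj (a₁ := (z.1.1 : ℤ) * z.1.2) (a₂ := (z.2 : ℤ)) (by simpa using hab)
      show z.1.1 * z.1.2 = z.2
      exact_mod_cast this
    · intro h'
      have h'' : z.1.1 * z.1.2 = z.2 := h'
      refine ⟨z.1.1, z.1.2, by simp, by simp, ?_⟩
      show x ^ ((z.1.1 : ℤ) * z.1.2) = x ^ z.2
      rw [← h'', ← zpow_natCast]
      push_cast
      rfl

end Pool.Agent.MP984

end
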