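import Mathlib

set_option autoImplicit false

/-! ## Fox -/

section

namespace Pool.Agent.MP984

open MonoidAlgebra

/-- group elements in the group ring -/
noncomputable def sg (k : Type) [Ring k] {H : Type} [Group H] (q : H) : MonoidAlgebra k H := single q 1

section sg

variable {k : Type} [Ring k] {H : Type} [Group H]

theorem sg_one : sg k (1 : H) = 1 := rfl

theorem sg_mul (a b : H) : sg k (a * b) = sg k a * sg k b := by
  simp [sg, single_mul_single]

theorem sg_mul_inv (a : H) : sg k a * sg k a⁻¹ = 1 := by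
  rw [← sg_mul, mul_inv_cancel, sg_one]

theorem sg_inv_mul (a : H) : sg k a⁻¹ * sg k a = 1 := by
  rw [← sg_mul, inv_mul_cancel, sg_one]

theorem sg_mul_inv_assoc (a : H) (x : MonoidAlgebra k H) : sg k a * (sg k a⁻¹ * x) = x := by
  rw [← mul_assoc, sg_mul_inv, one_mul]

theorem sg_inv_mul_assoc (a : H) (x : MonoidAlgebra k H) : sg k a⁻¹ * (sg k a * x) = x := by
  rw [← mul_assoc, sg_inv_mul, one_mul]

theorem coeff_sg_mul (a h : H) (x : MonoidAlgebra k H) :
    (sg k a * x).coeff h = x.coeff (a⁻¹ * h) := by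
  simp [sg]

end sg

section fox

variable {α : Type} [DecidableEq α] (k : Type) [Ring k] {H : Type} [Group H]

/-- affine permutation attached to a generator -/
noncomputable def foxGen (φ : FreeGroup α →* H) (i : α) : Equiv.Perm (α → MonoidAlgebra k H) where
  toFun v := fun j => sg k (φ (FreeGroup.of i)) * v j + (if j = i then 1 else 0)
  invFun v := fun j => sg k (φ (FreeGroup.of i))⁻¹ * (v j - (if j = i then 1 else 0))
  left_inv v := by
    funext j
    simp [sg_inv_mul_assoc]
  right_inv v := by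
    funext j
    simp [sg_mul_inv_assoc]

/-- the affine action of the free group -/
noncomputable def foxPerm (φ : FreeGroup α →* H) : FreeGroup α →* Equiv.Perm (α → MonoidAlgebra k H) :=
  FreeGroup.lift (foxGen k φ)

/-- Fox derivative -/
noncomputable def fox (φ : FreeGroup α →* H) (w : FreeGroup α) : α → MonoidAlgebra k H := foxPerm k φ w 0

variable {k}

theorem foxPerm_apply (φ : FreeGroup α →* H) (w : FreeGroup α) (v : α → MonoidAlgebra k H) (j : α) :
    foxPerm k φ w v j = sg k (φ w) * v j + fox k φ w j := by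
  have key : ∀ w, (∀ v j, foxPerm k φ w v j = sg k (φ w) * v j + fox k φ w j) := by
    intro w
    induction w using FreeGroup.induction_on with
    | C1 => intro v j; simp [fox, sg_one]
    | of i => intro v j; simp [fox, foxPerm, foxGen]
    | inv_of i _ =>
      intro v j
      simp only [fox, foxPerm, map_inv, FreeGroup.lift_apply_of]
      show (foxGen k φ i).symm v j = _ + (foxGen k φ i).symm 0 j
      simp [foxGen, mul_sub]
      abel
    | mul x y hx hy =>
      intro v j
      simp only [fox, map_mul, Equiv.Perm.mul_apply]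
      rw [hx, hy, hx (foxPerm k φ y 0), hy]
      simp [sg_mul, mul_add, mul_assoc, add_assoc]
  exact key w v j

theorem fox_mul (φ : FreeGroup α →* H) (u v : FreeGroup α) (j : α) :
    fox k φ (u * v) j = fox k φ u j + sg k (φ u) * fox k φ v j := by
  have : fox k φ (u * v) j = foxPerm k φ u (fox k φ v) j := by
    simp [fox]
  rw [this, foxPerm_apply, add_comm]

theorem fox_one (φ : FreeGroup α →* H) (j : α) : fox k φ 1 j = 0 := by
  simp [fox]

theorem fox_of (φ : FreeGroup α →* H) (i j : α) :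
    fox k φ (FreeGroup.of i) j = if j = i then 1 else 0 := by
  simp [fox, foxPerm, foxGen]

theorem fox_inv (φ : FreeGroup α →* H) (u : FreeGroup α) (j : α) :
    fox k φ u⁻¹ j = - (sg k (φ u)⁻¹ * fox k φ u j) := by
  have h := fox_mul (k := k) φ u⁻¹ u j
  rw [inv_mul_cancel, fox_one, map_inv] at h
  exact (neg_eq_of_add_eq_zero_left h.symm).symm

theorem fox_conj (φ : FreeGroup α →* H) (u v : FreeGroup α) (j : α) :
    fox k φ (u * v * u⁻¹) j =
      sg k (φ u) * fox k φ v j + (1 - sg k (φ (u * v * u⁻¹))) * fox k φ u j := by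
  simp only [fox_mul, fox_inv, map_mul, map_inv, sg_mul]
  noncomm_ring

/-- naturality in the group -/
theorem fox_map {H' : Type} [Group H'] (φ : FreeGroup α →* H) (ψ : H →* H') (w : FreeGroup α)
    (j : α) : fox k (ψ.comp φ) w j = mapDomainRingHom k ψ (fox k φ w j) := by
  have hs : ∀ q : H, mapDomainRingHom k ψ (sg k q) = sg k (ψ q) := by
    intro q
    simp [sg]
  induction w using FreeGroup.induction_on with
  | C1 => simp [fox_one]
  | of i => simp [fox_of]
  | inv_of i h =>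
    rw [fox_inv, fox_inv, h, map_neg, map_mul, hs]
    simp
  | mul x y hx hy =>
    rw [fox_mul, fox_mul, hx, hy, map_add, map_mul, hs]
    simp

/-- naturality in the ring -/
theorem fox_mapRing {k' : Type} [Ring k'] (f : k →+* k') (φ : FreeGroup α →* H) (w : FreeGroup α)
    (j : α) : fox k' φ w j = mapRingHom H f (fox k φ w j) := by
  have hs : ∀ q : H, mapRingHom H f (sg k q) = sg k' q := by
    intro q
    simp [sg]
  induction w using FreeGroup.induction_on with
  | C1 => simp [fox_one]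
  | of i => simp [fox_of]
  | inv_of i h =>
    rw [fox_inv, fox_inv, h, map_neg, map_mul, hs]
  | mul x y hx hy =>
    rw [fox_mul, fox_mul, hx, hy, map_add, map_mul, hs]

/-- the fundamental formula -/
theorem fox_fund [Fintype α] (φ : FreeGroup α →* H) (w : FreeGroup α) :
    ∑ j, fox k φ w j * (sg k (φ (FreeGroup.of j)) - 1) = sg k (φ w) - 1 := by
  induction w using FreeGroup.induction_on with
  | C1 => simp [fox_one, sg_one]
  | of i => simp [fox_of]
  | inv_of i h =>
    simp only [fox_inv, neg_mul, mul_assoc, Finset.sum_neg_distrib, ← Finset.mul_sum]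
    rw [h, map_inv, mul_sub, sg_inv_mul]
    simp
  | mul x y hx hy =>
    simp only [fox_mul, add_mul, Finset.sum_add_distrib, mul_assoc, ← Finset.mul_sum]
    rw [hx, hy, map_mul, sg_mul]
    noncomm_ring

end fox

section magnus

variable {α : Type} [DecidableEq α] [Fintype α] (N : Subgroup (FreeGroup α)) [N.Normal]

/-- section -/
noncomputable def sect (q : FreeGroup α ⧸ N) : FreeGroup α := Quotient.out q

theorem mk_sect (q : FreeGroup α ⧸ N) : (QuotientGroup.mk' N) (sect N q) = q :=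
  QuotientGroup.out_eq' q

/-- Schreier type elements -/
noncomputable def schr (q : FreeGroup α ⧸ N) (w : FreeGroup α) : N :=
  ⟨sect N q * w * (sect N (q * QuotientGroup.mk' N w))⁻¹, by
    have : sect N q * w * (sect N (q * QuotientGroup.mk' N w))⁻¹ ∈ (QuotientGroup.mk' N).ker := by
      rw [MonoidHom.mem_ker, map_mul, map_mul, map_inv, mk_sect, mk_sect]
      simp
    rwa [QuotientGroup.ker_mk'] at this⟩

/-- the class in the abelianization -/
noncomputable def schrA (q : FreeGroup α ⧸ N) (w : FreeGroup α) : Additive (Abelianization N) :=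
  Additive.ofMul (Abelianization.of (schr N q w))

theorem schrA_mul (q : FreeGroup α ⧸ N) (u v : FreeGroup α) :
    schrA N q (u * v) = schrA N q u + schrA N (q * QuotientGroup.mk' N u) v := by
  have : schr N q (u * v) = schr N q u * schr N (q * QuotientGroup.mk' N u) v := by
    ext
    simp [schr, mul_assoc]
  rw [schrA, this, map_mul]
  rfl

theorem schrA_one (q : FreeGroup α ⧸ N) : schrA N q 1 = 0 := by
  have : schr N q 1 = 1 := by
    ext
    simp [schr]
  rw [schrA, this, map_one]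
  rfl

/-- the map from the free module to the abelianization -/
noncomputable def theta : (α → MonoidAlgebra ℤ (FreeGroup α ⧸ N)) →+ Additive (Abelianization N) where
  toFun v := ∑ i, Finsupp.linearCombination ℤ (fun q => schrA N q (FreeGroup.of i)) (v i).coeff
  map_zero' := by simp
  map_add' u v := by simp [Finset.sum_add_distrib]

theorem theta_single (q : FreeGroup α ⧸ N) (i : α) :
    theta N (fun j => if j = i then sg ℤ q else 0) = schrA N q (FreeGroup.of i) := by
  show ∑ j, _ = _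
  rw [Finset.sum_eq_single i]
  · simp [sg]
  · intro j _ hj
    simp [hj]
  · simp

theorem theta_fox (w : FreeGroup α) (q : FreeGroup α ⧸ N) :
    theta N (fun j => sg ℤ q * fox ℤ (QuotientGroup.mk' N) w j) = schrA N q w := by
  have hmul : ∀ u v : FreeGroup α, ∀ q : FreeGroup α ⧸ N,
      theta N (fun j => sg ℤ q * fox ℤ (QuotientGroup.mk' N) (u * v) j) =
      theta N (fun j => sg ℤ q * fox ℤ (QuotientGroup.mk' N) u j) +
      theta N (fun j => sg ℤ (q * QuotientGroup.mk' N u) * fox ℤ (QuotientGroup.mk' N) v j) := by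
    intro u v q
    rw [← map_add]
    congr 1
    funext j
    rw [fox_mul]
    simp only [Pi.add_apply, sg_mul]
    noncomm_ring
  induction w using FreeGroup.induction_on generalizing q with
  | C1 =>
    rw [schrA_one]
    have : (fun j => sg ℤ q * fox ℤ (QuotientGroup.mk' N) 1 j) = 0 := by
      funext j
      simp [fox_one]
    rw [this, map_zero]
  | of i =>
    rw [← theta_single]
    congr 1
    funext j
    rw [fox_of]
    simp
  | inv_of i h =>
    have h1 := hmul (FreeGroup.of i) (FreeGroup.of i)⁻¹ (q * (QuotientGroup.mk' N (FreeGroup.of i))⁻¹)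
    have h2 := schrA_mul N (q * (QuotientGroup.mk' N (FreeGroup.of i))⁻¹) (FreeGroup.of i)
      (FreeGroup.of i)⁻¹
    have h3 := h (q * (QuotientGroup.mk' N (FreeGroup.of i))⁻¹)
    rw [h3] at h1
    have h0 : theta N (fun j => sg ℤ (q * (QuotientGroup.mk' N (FreeGroup.of i))⁻¹) *
        fox ℤ (QuotientGroup.mk' N) (FreeGroup.of i * (FreeGroup.of i)⁻¹) j) = 0 := by
      rw [mul_inv_cancel]
      have : (fun j => sg ℤ (q * (QuotientGroup.mk' N (FreeGroup.of i))⁻¹) *
          fox ℤ (QuotientGroup.mk' N) 1 j) = 0 := by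
        funext j
        simp [fox_one]
      rw [this, map_zero]
    rw [h0] at h1
    rw [mul_inv_cancel, schrA_one] at h2
    rw [inv_mul_cancel_right] at h1 h2
    have h4 := h1.symm.trans h2
    exact add_left_cancel h4
  | mul x y hx hy =>
    rw [hmul, schrA_mul, hx, hy]

/-- Magnus -/
theorem magnus (w : FreeGroup α) (hw : w ∈ N)
    (h : ∀ j, fox ℤ (QuotientGroup.mk' N) w j = 0) : w ∈ ⁅N, N⁆ := by
  have h1 := theta_fox N w 1
  have h2 : (fun j => sg ℤ (1 : FreeGroup α ⧸ N) * fox ℤ (QuotientGroup.mk' N) w j) = 0 := by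
    funext j
    simp [h]
  rw [h2, map_zero] at h1
  have h3 : Abelianization.of (schr N 1 w) = 1 := h1.symm
  have h4 : schr N 1 w ∈ commutator N := by
    rw [← Abelianization.ker_of]
    exact h3
  have h5 : (schr N 1 w : FreeGroup α) ∈ ⁅N, N⁆ := by
    rw [← Subgroup.map_subtype_commutator]
    exact ⟨_, h4, rfl⟩
  have hw' : (QuotientGroup.mk' N) w = 1 := (QuotientGroup.eq_one_iff w).mpr hw
  have h6 : (schr N 1 w : FreeGroup α) = sect N 1 * w * (sect N 1)⁻¹ := by
    simp only [schr]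
    rw [hw', mul_one]
  rw [h6] at h5
  have h7 := (inferInstance : (⁅N, N⁆).Normal).conj_mem _ h5 (sect N 1)⁻¹
  simpa [mul_assoc] using h7

/-- the converse of Magnus -/
theorem fox_commutator {H : Type} [Group H] {k : Type} [Ring k] (φ : FreeGroup α →* H)
    (hN : N ≤ φ.ker) (w : FreeGroup α) (hw : w ∈ ⁅N, N⁆) (j : α) : fox k φ w j = 0 := by
  have hs : ∀ u ∈ N, sg k (φ u) = 1 := by
    intro u hu
    rw [(MonoidHom.mem_ker).mp (hN hu), sg_one]
  let K : Subgroup (FreeGroup α) :=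
    { carrier := {u | φ u = 1 ∧ fox k φ u j = 0}
      one_mem' := by simp [fox_one]
      mul_mem' := by
        rintro a b ⟨ha, ha'⟩ ⟨hb, hb'⟩
        exact ⟨by rw [map_mul, ha, hb, one_mul], by rw [fox_mul, ha', hb']; simp⟩
      inv_mem' := by
        rintro a ⟨ha, ha'⟩
        exact ⟨by rw [map_inv, ha, inv_one], by rw [fox_inv, ha']; simp⟩ }
  have : ⁅N, N⁆ ≤ K := by
    rw [Subgroup.commutator_le]
    intro a ha b hb
    refine ⟨?_, ?_⟩
    · rw [map_commutatorElement, (MonoidHom.mem_ker).mp (hN ha), (MonoidHom.mem_ker).mp (hN hb)]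
      simp
    · simp only [commutatorElement_def, fox_mul, fox_inv, map_mul,
        map_inv, (MonoidHom.mem_ker).mp (hN ha), (MonoidHom.mem_ker).mp (hN hb)]
      simp [sg_one]
  exact (this hw).2

end magnus

end Pool.Agent.MP984

end

/-! ## GR -/

section

namespace Pool.Agent.MP984

open MonoidAlgebra

/-- torsion-free -/
def TF (H : Type) [Group H] : Prop := ∀ (h : H) (n : ℕ), n ≠ 0 → h ^ n = 1 → h = 1

section

variable {H : Type} [Group H]

theorem TF.inj (hT : TF H) {q : H} (hq : q ≠ 1) : Function.Injective (fun n : ℤ => q ^ n) := by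
  intro a b hab
  by_contra hne
  have h1 : q ^ (a - b) = 1 := by
    rw [zpow_sub]
    exact mul_inv_eq_one.mpr hab
  have h2 : q ^ (a - b).natAbs = 1 := by
    rcases Int.natAbs_eq (a - b) with h | h
    · rw [h, zpow_natCast] at h1
      exact h1
    · rw [h, zpow_neg, zpow_natCast, inv_eq_one] at h1
      exact h1
  exact hq (hT q _ (by omega) h2)

theorem orbit_zero (hT : TF H) {q : H} (hq : q ≠ 1) {k : Type} [Ring k] (v : MonoidAlgebra k H)
    (h : (sg k q - 1) * v = 0) : v = 0 := by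
  have h1 : sg k q * v = v := by
    rw [sub_mul, one_mul, sub_eq_zero] at h
    exact h
  have h2 : ∀ p, v.coeff (q⁻¹ * p) = v.coeff p := by
    intro p
    rw [← coeff_sg_mul, h1]
  have h3 : ∀ (n : ℕ) p, v.coeff ((q ^ (n : ℤ))⁻¹ * p) = v.coeff p := by
    intro n
    induction n with
    | zero => intro p; simp
    | succ n ih =>
      intro p
      have : (q ^ ((n + 1 : ℕ) : ℤ))⁻¹ * p = q⁻¹ * ((q ^ (n : ℤ))⁻¹ * p) := by
        push_cast
        rw [zpow_add_one]
        group
      rw [this, h2, ih]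
  by_contra hv
  have h4 : ∃ p, v.coeff p ≠ 0 := by
    by_contra hcon
    push Not at hcon
    apply hv
    ext p
    simpa using hcon p
  obtain ⟨p, hp⟩ := h4
  have h5 : Function.Injective (fun n : ℕ => (q ^ (n : ℤ))⁻¹ * p) := by
    intro a b hab
    have h6 : q ^ (a : ℤ) = q ^ (b : ℤ) := inv_injective (mul_right_cancel hab)
    exact_mod_cast hT.inj hq h6
  have h7 : (v.coeff.support : Set H).Infinite :=
    Set.infinite_of_injective_forall_mem h5 fun n => by
      simp only [Finset.mem_coe, Finsupp.mem_support_iff]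
      rw [h3]
      exact hp
  exact h7 (Finset.finite_toSet _)

theorem norm_kill (g : H) (v f : MonoidAlgebra ℤ H) (B m : ℤ) (hf : ∀ h, |f.coeff h| ≤ B)
    (hm : B + 1 < m) (h : (sg ℤ g - (m : MonoidAlgebra ℤ H)) * v = f) : v = 0 := by
  by_contra hv
  have h4 : v.coeff.support.Nonempty := by
    rw [Finset.nonempty_iff_ne_empty]
    intro h5
    apply hv
    rw [← coeff_eq_zero]
    exact Finsupp.support_eq_empty.mp h5
  obtain ⟨p, hp, hmax⟩ := Finset.exists_max_image v.coeff.support (fun p => |v.coeff p|) h4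
  have hmax' : ∀ q, |v.coeff q| ≤ |v.coeff p| := by
    intro q
    by_cases hq : q ∈ v.coeff.support
    · exact hmax q hq
    · rw [Finsupp.notMem_support_iff.mp hq]
      simp
  have h5 : v.coeff (g⁻¹ * p) - m * v.coeff p = f.coeff p := by
    rw [← h, sub_mul]
    simp only [coeff_sub, Finsupp.coe_sub, Pi.sub_apply, coeff_sg_mul, intCast_def]
    congr 1
    simp
  have hp' : 1 ≤ |v.coeff p| := by
    rw [Finsupp.mem_support_iff] at hp
    exact Int.one_le_abs hp
  have hB : 0 ≤ B := le_trans (abs_nonneg _) (hf p)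
  have h6 : m * |v.coeff p| ≤ |v.coeff p| + B := by
    have h7 : |m * v.coeff p| ≤ |v.coeff (g⁻¹ * p)| + |f.coeff p| := by
      have : m * v.coeff p = v.coeff (g⁻¹ * p) - f.coeff p := by linarith
      rw [this]
      exact abs_sub _ _
    rw [abs_mul, abs_of_pos (by linarith : (0 : ℤ) < m)] at h7
    linarith [hmax' (g⁻¹ * p), hf p]
  nlinarith

theorem exists_bound (f : MonoidAlgebra ℤ H) : ∃ B : ℤ, ∀ h, |f.coeff h| ≤ B := by
  refine ⟨∑ h ∈ f.coeff.support, |f.coeff h|, fun h => ?_⟩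
  by_cases hq : h ∈ f.coeff.support
  · exact Finset.single_le_sum (f := fun h => |f.coeff h|) (fun i _ => abs_nonneg _) hq
  · rw [Finsupp.notMem_support_iff.mp hq]
    simp only [abs_zero]
    exact Finset.sum_nonneg fun i _ => abs_nonneg _

theorem norm_zero (g : H) (f : MonoidAlgebra ℤ H)
    (h : ∀ m : ℕ, 2 ≤ m → ∃ v, (sg ℤ g - (m : MonoidAlgebra ℤ H)) * v = f) : f = 0 := by
  obtain ⟨B, hB⟩ := exists_bound f
  have hB0 : 0 ≤ B := le_trans (abs_nonneg _) (hB 1)
  obtain ⟨v, hv⟩ := h ((B + 2).toNat) (by omega)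
  have h1 := norm_kill g v f B (((B + 2).toNat : ℕ) : ℤ) hB (by omega)
    (by rw [Int.cast_natCast]; exact hv)
  rw [← hv, h1, mul_zero]

theorem deg_zero (deg : H →* Multiplicative ℤ) (x : H) (hx : deg x = Multiplicative.ofAdd 1)
    (f : MonoidAlgebra ℤ H)
    (h : ∀ n : ℕ, 1 ≤ n → ∃ v, (sg ℤ (x ^ n) - 1) * v = f) : f = 0 := by
  let d : H → ℤ := fun h => (deg h).toAdd
  have hd : ∀ a b, d (a * b) = d a + d b := fun a b => by simp [d]
  have hdn : ∀ n : ℕ, d (x ^ n) = n := fun n => by simp [d, hx]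
  obtain ⟨N, hN⟩ : ∃ N : ℤ, ∀ h ∈ f.coeff.support, |d h| ≤ N := by
    refine ⟨∑ h ∈ f.coeff.support, |d h|, fun h hh => ?_⟩
    exact Finset.single_le_sum (f := fun h => |d h|) (fun i _ => abs_nonneg _) hh
  have hNN := abs_nonneg N
  obtain ⟨v, hv⟩ := h ((2 * |N| + 1).toNat) (by omega)
  set n := (2 * |N| + 1).toNat with hn
  have hn' : (n : ℤ) = 2 * |N| + 1 := by omega
  by_cases hv0 : v = 0
  · rw [← hv, hv0, mul_zero]
  exfalso
  have h4 : v.coeff.support.Nonempty := by
    rw [Finset.nonempty_iff_ne_empty]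
    intro h5
    apply hv0
    rw [← coeff_eq_zero]
    exact Finsupp.support_eq_empty.mp h5
  have hc : ∀ p, f.coeff p = v.coeff ((x ^ n)⁻¹ * p) - v.coeff p := by
    intro p
    rw [← hv, sub_mul, one_mul]
    simp only [coeff_sub, Finsupp.coe_sub, Pi.sub_apply, coeff_sg_mul]
  obtain ⟨p, hp, hmin⟩ := Finset.exists_min_image v.coeff.support d h4
  obtain ⟨P, hP, hmax⟩ := Finset.exists_max_image v.coeff.support d h4
  have e1 : |d p| ≤ N := by
    apply hN
    rw [Finsupp.mem_support_iff, hc]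
    have : v.coeff ((x ^ n)⁻¹ * p) = 0 := by
      by_contra hne
      have h6 := hmin _ (Finsupp.mem_support_iff.mpr hne)
      have h7 : d ((x ^ n) * ((x ^ n)⁻¹ * p)) = d (x ^ n) + d ((x ^ n)⁻¹ * p) := hd _ _
      rw [mul_inv_cancel_left, hdn] at h7
      have := abs_nonneg N
      linarith
    rw [this]
    rw [Finsupp.mem_support_iff] at hp
    omega
  have e2 : |d ((x ^ n) * P)| ≤ N := by
    apply hN
    rw [Finsupp.mem_support_iff, hc, inv_mul_cancel_left]
    have : v.coeff ((x ^ n) * P) = 0 := by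
      by_contra hne
      have h6 := hmax _ (Finsupp.mem_support_iff.mpr hne)
      have h7 : d ((x ^ n) * P) = d (x ^ n) + d P := hd _ _
      rw [hdn] at h7
      have := abs_nonneg N
      linarith
    rw [this]
    rw [Finsupp.mem_support_iff] at hP
    omega
  have e3 : d p ≤ d P := hmin P hP
  have h7 : d ((x ^ n) * P) = d (x ^ n) + d P := hd _ _
  rw [hdn] at h7
  rw [abs_le] at e1 e2
  have := le_abs_self N
  linarith [e1.1, e2.2]

theorem mem_zpowers_of (v u : H) (z : MonoidAlgebra ℤ H) (h : (1 - sg ℤ v) * z = 1 - sg ℤ u) :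
    u ∈ Subgroup.zpowers v := by
  classical
  let T : MonoidAlgebra ℤ H →+ ℤ :=
    (Finsupp.liftAddHom (fun h : H => if h ∈ Subgroup.zpowers v then AddMonoidHom.id ℤ else 0)).comp
      (coeffAddEquiv (R := ℤ) (M := H)).toAddMonoidHom
  have hT : ∀ (q : H) (n : ℤ), T (single q n) = if q ∈ Subgroup.zpowers v then n else 0 := by
    intro q n
    show Finsupp.liftAddHom _ (Finsupp.single q n) = _
    rw [Finsupp.liftAddHom_apply_single]
    split_ifs <;> simp
  have h1 : ∀ z : MonoidAlgebra ℤ H, T (sg ℤ v * z) = T z := by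
    intro z
    induction z using MonoidAlgebra.induction_linear with
    | zero => simp
    | add x y hx hy => rw [mul_add, map_add, map_add, hx, hy]
    | single q n =>
      rw [sg, single_mul_single, one_mul, hT, hT]
      have : v * q ∈ Subgroup.zpowers v ↔ q ∈ Subgroup.zpowers v :=
        Subgroup.mul_mem_cancel_left _ (Subgroup.mem_zpowers v)
      simp [this]
  have h2 : T ((1 - sg ℤ v) * z) = 0 := by
    rw [sub_mul, one_mul, map_sub, h1, sub_self]
  rw [h, map_sub] at h2
  have h3 : T (1 : MonoidAlgebra ℤ H) = 1 := by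
    rw [one_def, hT, if_pos (Subgroup.one_mem _)]
  rw [h3, sg, hT] at h2
  by_contra hu
  rw [if_neg hu] at h2
  norm_num at h2

end

end Pool.Agent.MP984

end

/-! ## FS -/

section

namespace Pool.Agent.MP984

open MonoidAlgebra
open scoped commutatorElement

/-- the free group -/
abbrev FF (r : ℕ) : Type := FreeGroup (Fin (r + 2))
/-- derived series -/
abbrev RR (r c : ℕ) : Subgroup (FF r) := derivedSeries (FF r) c
/-- free solvable groups -/
abbrev QQ (r c : ℕ) : Type := FF r ⧸ RR r c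
/-- projection -/
abbrev pr (r c : ℕ) : FF r →* QQ r c := QuotientGroup.mk' (RR r c)

section

variable {r : ℕ}

theorem pr_eq_one {c : ℕ} {w : FF r} : pr r c w = 1 ↔ w ∈ RR r c :=
  QuotientGroup.eq_one_iff w

theorem RR_le {c : ℕ} : RR r (c + 1) ≤ RR r c := by
  rw [RR, derivedSeries_succ]
  exact Subgroup.commutator_le_left _ _

theorem RR_anti {c d : ℕ} (h : c ≤ d) : RR r d ≤ RR r c := derivedSeries_antitone _ h

theorem fox_iff {c : ℕ} (w : FF r) : w ∈ RR r (c + 1) ↔ ∀ j, fox ℤ (pr r c) w j = 0 := by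
  constructor
  · intro h j
    rw [RR, derivedSeries_succ] at h
    exact fox_commutator (RR r c) (pr r c) (by rw [QuotientGroup.ker_mk']) w h j
  · intro h
    have h1 := fox_fund (k := ℤ) (pr r c) w
    simp only [h, zero_mul, Finset.sum_const_zero] at h1
    have h2 : pr r c w = 1 := by
      have : sg ℤ (pr r c w) = sg ℤ 1 := by
        rw [sg_one]
        exact (sub_eq_zero.mp h1.symm)
      exact of_injective (R := ℤ) (by simpa [sg] using this)
    rw [RR, derivedSeries_succ]
    exact magnus (RR r c) w (pr_eq_one.mp h2) h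

theorem fox_pow_of {α : Type} [DecidableEq α] {H : Type} [Group H] (φ : FreeGroup α →* H)
    (w : FreeGroup α) (hw : φ w = 1) (n : ℕ) (j : α) :
    fox ℤ φ (w ^ n) j = n • fox ℤ φ w j := by
  induction n with
  | zero => simp [fox_one]
  | succ n ih => rw [pow_succ, fox_mul, ih, map_pow, hw, one_pow, sg_one, one_mul, succ_nsmul]

theorem tf (c : ℕ) : TF (QQ r c) := by
  induction c with
  | zero =>
    intro h n _ _
    obtain ⟨w, rfl⟩ := QuotientGroup.mk'_surjective _ h
    exact pr_eq_one.mpr (by simp [RR])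
  | succ c ih =>
    intro h n hn hh
    obtain ⟨w, rfl⟩ := QuotientGroup.mk'_surjective _ h
    have h1 : w ^ n ∈ RR r (c + 1) := by
      rw [← pr_eq_one, map_pow]
      exact hh
    have h2 : pr r c w = 1 := by
      refine ih _ n hn ?_
      rw [← map_pow, pr_eq_one]
      exact RR_le h1
    refine pr_eq_one.mpr ((fox_iff w).mpr fun j => ?_)
    have h3 := (fox_iff _).mp h1 j
    rw [fox_pow_of _ _ h2] at h3
    ext p
    have h4 := congrArg (fun x => x.coeff p) h3
    simp only [coeff_smul, Finsupp.coe_smul, Pi.smul_apply, coeff_zero, Finsupp.coe_zero,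
      Pi.zero_apply, smul_eq_zero] at h4
    rcases h4 with h4 | h4
    · exact absurd h4 hn
    · simpa using h4

theorem pr_surj (c : ℕ) : Function.Surjective (pr r c) := QuotientGroup.mk'_surjective _

theorem mul_comm_mod {c : ℕ} {u v : FF r} (h : ⁅u, v⁆ ∈ RR r (c + 1)) (j : Fin (r + 2)) :
    fox ℤ (pr r c) u j + sg ℤ (pr r c u) * fox ℤ (pr r c) v j =
      fox ℤ (pr r c) v j + sg ℤ (pr r c v) * fox ℤ (pr r c) u j := by
  rw [← fox_mul, ← fox_mul]
  have h1 : u * v = ⁅u, v⁆ * (v * u) := by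
    rw [commutatorElement_def]
    group
  rw [h1, fox_mul, (fox_iff _).mp h j, pr_eq_one.mpr (RR_le h), sg_one, one_mul, zero_add]

theorem stab {c : ℕ} {g n : FF r} (hn : n ∈ RR r c) (hn' : n ∉ RR r (c + 1))
    (h : ⁅g, n⁆ ∈ RR r (c + 1)) : g ∈ RR r c := by
  by_contra hg
  apply hn'
  rw [fox_iff]
  intro j
  have h1 := mul_comm_mod h j
  rw [pr_eq_one.mpr hn, sg_one, one_mul, add_comm] at h1
  have h2 := add_right_cancel h1
  have h3 : (sg ℤ (pr r c g) - 1) * fox ℤ (pr r c) n j = 0 := by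
    rw [sub_mul, one_mul, h2, sub_self]
  exact orbit_zero (tf c) (fun h => hg (pr_eq_one.mp h)) _ h3

theorem cent {c : ℕ} {u v : FF r} {k : Fin (r + 2)} {s : QQ r c}
    (hk : fox ℤ (pr r c) v k = sg ℤ s) (hv : pr r c v ≠ 1) (h : ⁅u, v⁆ ∈ RR r (c + 1)) :
    ∃ j : ℤ, u * v ^ (-j) ∈ RR r (c + 1) := by
  have h1 := mul_comm_mod h k
  rw [hk] at h1
  have h2 : (1 - sg ℤ (pr r c v)) * (fox ℤ (pr r c) u k * sg ℤ s⁻¹) = 1 - sg ℤ (pr r c u) := by
    have h3 : (1 - sg ℤ (pr r c v)) * fox ℤ (pr r c) u k = (1 - sg ℤ (pr r c u)) * sg ℤ s := by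
      rw [sub_mul, sub_mul, one_mul, one_mul, sub_eq_sub_iff_add_eq_add, h1]
    rw [← mul_assoc, h3, mul_assoc, sg_mul_inv, mul_one]
  obtain ⟨j, hj⟩ := Subgroup.mem_zpowers_iff.mp (mem_zpowers_of _ _ _ h2)
  refine ⟨j, ?_⟩
  have h4 : pr r c (u * v ^ (-j)) = 1 := by
    rw [map_mul, map_zpow, ← hj, ← zpow_add]
    simp
  have h5 : ⁅u * v ^ (-j), v⁆ ∈ RR r (c + 1) := by
    have : ⁅u * v ^ (-j), v⁆ = ⁅u, v⁆ := by
      rw [commutatorElement_def, commutatorElement_def]
      group
    rw [this]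
    exact h
  rw [fox_iff]
  intro i
  have h6 := mul_comm_mod h5 i
  rw [h4, sg_one, one_mul, add_comm] at h6
  have h7 := add_left_cancel h6
  have h8 : (sg ℤ (pr r c v) - 1) * fox ℤ (pr r c) (u * v ^ (-j)) i = 0 := by
    rw [sub_mul, one_mul, ← h7, sub_self]
  exact orbit_zero (tf c) hv _ h8

/-- the degree in one generator -/
def degF (i : Fin (r + 2)) : FF r →* Multiplicative ℤ :=
  FreeGroup.lift (fun j => if j = i then Multiplicative.ofAdd 1 else 1)

theorem degF_of (i : Fin (r + 2)) : degF i (FreeGroup.of i) = Multiplicative.ofAdd 1 := by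
  simp [degF]

theorem degF_of_ne {i j : Fin (r + 2)} (h : j ≠ i) : degF i (FreeGroup.of j) = 1 := by
  simp [degF, h]

theorem degF_RR (i : Fin (r + 2)) {w : FF r} {c : ℕ} (hw : w ∈ RR r (c + 1)) : degF i w = 1 := by
  have h1 : w ∈ RR r 1 := RR_anti (by omega) hw
  have h2 : RR r 1 ≤ (degF i).ker := by
    rw [RR, derivedSeries_succ]
    rw [Subgroup.commutator_le]
    intro a _ b _
    rw [MonoidHom.mem_ker, map_commutatorElement]
    exact commutatorElement_eq_one_iff_commute.mpr (Commute.all _ _)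
  exact MonoidHom.mem_ker.mp (h2 h1)

/-- the degree on the quotients -/
def degQ (c : ℕ) (i : Fin (r + 2)) : QQ r (c + 1) →* Multiplicative ℤ :=
  QuotientGroup.lift _ (degF i) fun _ hw => degF_RR i hw

theorem degQ_pr (c : ℕ) (i : Fin (r + 2)) (w : FF r) : degQ c i (pr r (c + 1) w) = degF i w := rfl

end

end Pool.Agent.MP984

end

/-! ## Strict -/

section

namespace Pool.Agent.MP984

open MonoidAlgebra
open scoped commutatorElement

theorem top_deg {H : Type} [Group H] (hT : TF H) (deg : H →* Multiplicative ℤ) (a v x : H)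
    (ha : deg a = 1) (hv : deg v = 1) (hx : deg x = Multiplicative.ofAdd 1) (ha1 : a ≠ 1)
    (f : MonoidAlgebra ℤ H) (hf : f ≠ 0) :
    ((1 - sg ℤ v) + (sg ℤ a - 1) * sg ℤ x) * f ≠ 0 := by
  intro h0
  let d : H → ℤ := fun h => (deg h).toAdd
  have hd : ∀ a b, d (a * b) = d a + d b := fun a b => by simp [d]
  have hdi : ∀ a, d (a⁻¹) = - d a := fun a => by simp [d]
  have da : d a = 0 := by simp [d, ha]
  have dv : d v = 0 := by simp [d, hv]
  have dx : d x = 1 := by simp [d, hx]
  have h4 : f.coeff.support.Nonempty := by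
    rw [Finset.nonempty_iff_ne_empty]
    intro h5
    apply hf
    rw [← coeff_eq_zero]
    exact Finsupp.support_eq_empty.mp h5
  obtain ⟨P, hP, hmax⟩ := Finset.exists_max_image f.coeff.support d h4
  have hz : ∀ h, d P < d h → f.coeff h = 0 := by
    intro h hh
    by_contra hne
    have := hmax h (Finsupp.mem_support_iff.mpr hne)
    omega
  let g : MonoidAlgebra ℤ H := ofCoeff (Finsupp.filter (fun h => d h = d P) f.coeff)
  have hg : ∀ h, g.coeff h = if d h = d P then f.coeff h else 0 := by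
    intro h
    simp only [g, coeff_ofCoeff, Finsupp.filter_apply]
  have key : (sg ℤ a - 1) * (sg ℤ x * g) = 0 := by
    ext h
    rw [sub_mul, one_mul]
    simp only [coeff_sub, Finsupp.coe_sub, Pi.sub_apply, coeff_sg_mul, coeff_zero,
      Finsupp.coe_zero, Pi.zero_apply]
    rw [hg, hg, hd, hd, hd, hdi, hdi, da, dx]
    by_cases hh : d h = d P + 1
    · rw [if_pos (by omega), if_pos (by omega)]
      have h5 := congrArg (fun z => z.coeff h) h0
      simp only [add_mul, sub_mul, one_mul, mul_assoc, coeff_sub, coeff_add, Finsupp.coe_sub,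
        Finsupp.coe_add, Pi.add_apply, Pi.sub_apply, coeff_sg_mul, coeff_zero, Finsupp.coe_zero,
        Pi.zero_apply] at h5
      rw [hz h (by omega), hz (v⁻¹ * h) (by rw [hd, hdi, dv]; omega)] at h5
      linarith
    · rw [if_neg (by omega), if_neg (by omega), sub_zero]
  have h6 := orbit_zero hT ha1 _ key
  have h7 : g = 0 := by
    rw [← sg_inv_mul_assoc x g, h6, mul_zero]
  have h8 : g.coeff P = f.coeff P := by
    rw [hg, if_pos rfl]
  rw [h7] at h8
  rw [Finsupp.mem_support_iff] at hP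
  exact hP (by simpa using h8.symm)

section

variable {r : ℕ}

/-- projection between consecutive quotients -/
def prr (r c : ℕ) : QQ r (c + 1) →* QQ r c :=
  QuotientGroup.lift (RR r (c + 1)) (pr r c) fun _ hw => pr_eq_one.mpr (RR_le hw)

theorem prr_comp (c : ℕ) : (prr r c).comp (pr r (c + 1)) = pr r c := rfl

theorem fox_prr (c : ℕ) (w : FF r) (j : Fin (r + 2)) :
    fox ℤ (pr r c) w j = mapDomainRingHom ℤ (prr r c) (fox ℤ (pr r (c + 1)) w j) := by
  rw [← fox_map]
  rfl

theorem fox_comm_of {H : Type} [Group H] (φ : FF r →* H) (u v : FF r)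
    (h : φ ⁅u, v⁆ = 1) (j : Fin (r + 2)) :
    fox ℤ φ ⁅u, v⁆ j = (1 - sg ℤ (φ v)) * fox ℤ φ u j + (sg ℤ (φ u) - 1) * fox ℤ φ v j := by
  have h1 : φ (u * v) = φ (v * u) := by
    rw [commutatorElement_def] at h
    rw [map_mul, map_mul, map_mul, map_inv, map_inv, mul_inv_eq_one, mul_inv_eq_iff_eq_mul] at h
    rw [map_mul, map_mul, h]
  have h2 : fox ℤ φ (u * v) j = fox ℤ φ (⁅u, v⁆ * (v * u)) j := by
    congr 1
    rw [commutatorElement_def]
    group
  rw [fox_mul, fox_mul φ ⁅u, v⁆, h, sg_one, one_mul, fox_mul] at h2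
  have h3 : fox ℤ φ ⁅u, v⁆ j = fox ℤ φ u j + sg ℤ (φ u) * fox ℤ φ v j -
      (fox ℤ φ v j + sg ℤ (φ v) * fox ℤ φ u j) := by
    rw [h2]
    abel
  rw [h3]
  noncomm_ring

theorem exists_strict (c : ℕ) :
    ∃ a : FF r, a ∈ RR r c ∧ fox ℤ (pr r c) a 0 ≠ 0 ∧ degF 1 a = 1 := by
  induction c with
  | zero =>
    refine ⟨FreeGroup.of 0, by simp [RR], ?_, degF_of_ne (by simp)⟩
    rw [fox_of]
    simp
  | succ c ih =>
    obtain ⟨a, ha, hD, hdeg⟩ := ih
    have hD' : fox ℤ (pr r (c + 1)) a 0 ≠ 0 := by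
      intro h
      apply hD
      rw [fox_prr, h, map_zero]
    have ha' : pr r (c + 1) a ≠ 1 := by
      intro h
      exact hD ((fox_iff a).mp (pr_eq_one.mp h) 0)
    have hb : ⁅a, FreeGroup.of 1 * a * (FreeGroup.of 1)⁻¹⁆ ∈ RR r (c + 1) := by
      rw [RR, derivedSeries_succ]
      exact Subgroup.commutator_mem_commutator ha
        ((inferInstance : (RR r c).Normal).conj_mem _ ha _)
    refine ⟨⁅a, FreeGroup.of 1 * a * (FreeGroup.of 1)⁻¹⁆, hb, ?_, ?_⟩
    · rw [fox_comm_of _ _ _ (pr_eq_one.mpr hb), fox_conj, fox_of]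
      have h01 : ((0 : Fin (r + 2)) = 1) = False := by simp
      rw [if_neg (by simp), mul_zero, add_zero, ← mul_assoc, ← add_mul]
      refine top_deg (tf (c + 1)) (degQ c 1) _ _ _ ?_ ?_ ?_ ha' _ hD'
      · rw [degQ_pr, hdeg]
      · rw [degQ_pr, map_mul, map_mul, map_inv, hdeg]
        simp
      · rw [degQ_pr, degF_of]
    · exact degF_RR _ hb

theorem exists_strict' (c : ℕ) : ∃ a : FF r, a ∈ RR r c ∧ a ∉ RR r (c + 1) := by
  obtain ⟨a, h1, h2, -⟩ := exists_strict (r := r) c
  exact ⟨a, h1, fun h => h2 ((fox_iff a).mp h 0)⟩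

end

end Pool.Agent.MP984

end

/-! ## RF -/

section

namespace Pool.Agent.MP984

open MonoidAlgebra
open scoped commutatorElement

/-- `φ` does not kill the nontrivial elements of `T` -/
theorem rf_finset {H : Type} [Group H]
    (h1 : ∀ h : H, h ≠ 1 → ∃ (Γ : Type) (_ : Group Γ) (_ : Finite Γ) (φ : H →* Γ), φ h ≠ 1)
    (T : Finset H) : ∃ (Γ : Type) (_ : Group Γ) (_ : Finite Γ) (φ : H →* Γ),
      ∀ t ∈ T, t ≠ 1 → φ t ≠ 1 := by
  classical
  induction T using Finset.induction_on with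
  | empty => exact ⟨Unit, inferInstance, inferInstance, 1, by simp⟩
  | insert a T ha ih =>
    obtain ⟨Γ, _, _, φ, hφ⟩ := ih
    by_cases ha1 : a = 1
    · refine ⟨Γ, inferInstance, inferInstance, φ, fun t ht ht1 => ?_⟩
      rcases Finset.mem_insert.mp ht with rfl | ht
      · exact absurd ha1 ht1
      · exact hφ t ht ht1
    · obtain ⟨Γ', _, _, φ', hφ'⟩ := h1 a ha1
      refine ⟨Γ × Γ', inferInstance, inferInstance, φ.prod φ', fun t ht ht1 h => ?_⟩
      rw [MonoidHom.prod_apply, Prod.mk_eq_one] at h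
      rcases Finset.mem_insert.mp ht with rfl | ht
      · exact hφ' h.2
      · exact hφ t ht ht1 h.1

theorem rf_inj {H : Type} [Group H]
    (h1 : ∀ h : H, h ≠ 1 → ∃ (Γ : Type) (_ : Group Γ) (_ : Finite Γ) (φ : H →* Γ), φ h ≠ 1)
    (T : Finset H) : ∃ (Γ : Type) (_ : Group Γ) (_ : Finite Γ) (φ : H →* Γ),
      Set.InjOn φ T := by
  classical
  obtain ⟨Γ, _, _, φ, hφ⟩ := rf_finset h1 ((T ×ˢ T).image fun z => z.1⁻¹ * z.2)
  refine ⟨Γ, inferInstance, inferInstance, φ, fun a ha b hb hab => ?_⟩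
  by_contra hne
  refine hφ (a⁻¹ * b) (Finset.mem_image.mpr ⟨(a, b), Finset.mem_product.mpr ⟨ha, hb⟩, rfl⟩) ?_ ?_
  · intro h
    exact hne (inv_mul_eq_one.mp h)
  · rw [map_mul, map_inv, hab, inv_mul_cancel]

theorem coeff_mapDomain_of_injOn {H Γ : Type} [Group H] [Group Γ] (φ : H →* Γ)
    (v : MonoidAlgebra ℤ H) (T : Set H) (hφ : Set.InjOn φ T) (hv : ↑v.coeff.support ⊆ T)
    {s : H} (hs : s ∈ T) : (mapDomainRingHom ℤ φ v).coeff (φ s) = v.coeff s := by
  rw [mapDomainRingHom_apply]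
  exact Finsupp.mapDomain_apply' T v.coeff hv hφ hs

theorem mapDomain_ne_zero {H Γ : Type} [Group H] [Group Γ] (φ : H →* Γ)
    (v : MonoidAlgebra ℤ H) (hφ : Set.InjOn φ v.coeff.support) (hv : v ≠ 0) :
    mapDomainRingHom ℤ φ v ≠ 0 := by
  have h4 : v.coeff.support.Nonempty := by
    rw [Finset.nonempty_iff_ne_empty]
    intro h5
    apply hv
    rw [← coeff_eq_zero]
    exact Finsupp.support_eq_empty.mp h5
  obtain ⟨s, hs⟩ := h4
  intro h
  have h1 := coeff_mapDomain_of_injOn φ v _ hφ subset_rfl (s := s) hs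
  rw [h] at h1
  rw [Finsupp.mem_support_iff] at hs
  exact hs (by simpa using h1.symm)

variable {r : ℕ}

theorem rf (c : ℕ) (h : QQ r c) (hh : h ≠ 1) :
    ∃ (Γ : Type) (_ : Group Γ) (_ : Finite Γ) (φ : QQ r c →* Γ), φ h ≠ 1 := by
  induction c with
  | zero =>
    obtain ⟨w, rfl⟩ := pr_surj _ h
    exact absurd (pr_eq_one.mpr (by simp [RR])) hh
  | succ c ih =>
    obtain ⟨w, rfl⟩ := pr_surj _ h
    have h1 : ∃ j, fox ℤ (pr r c) w j ≠ 0 := by
      by_contra hcon
      push Not at hcon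
      exact hh (pr_eq_one.mpr ((fox_iff w).mpr hcon))
    obtain ⟨j, hj⟩ := h1
    obtain ⟨Γ, _, _, φ, hφ⟩ := rf_inj ih (fox ℤ (pr r c) w j).coeff.support
    have h2 : fox ℤ (φ.comp (pr r c)) w j ≠ 0 := by
      rw [fox_map]
      exact mapDomain_ne_zero φ _ hφ hj
    have h3 : ∃ γ, (fox ℤ (φ.comp (pr r c)) w j).coeff γ ≠ 0 := by
      by_contra hcon
      push Not at hcon
      apply h2
      ext γ
      simpa using hcon γ
    obtain ⟨γ, hγ⟩ := h3
    set n := (fox ℤ (φ.comp (pr r c)) w j).coeff γ with hn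
    let N := n.natAbs + 1
    haveI : NeZero N := ⟨by omega⟩
    have hfin : Finite (Fin (r + 2) → MonoidAlgebra (ZMod N) Γ) := by
      haveI : Finite (Γ →₀ ZMod N) := by
        classical
        haveI := Fintype.ofFinite Γ
        exact Finite.of_equiv _ Finsupp.equivFunOnFinite.symm
      haveI : Finite (MonoidAlgebra (ZMod N) Γ) :=
        Finite.of_equiv _ (coeffEquiv (R := ZMod N) (M := Γ)).symm
      infer_instance
    have hker : ∀ u ∈ RR r (c + 1), foxPerm (ZMod N) (φ.comp (pr r c)) u = 1 := by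
      intro u hu
      ext v i : 2
      have e1 : fox (ZMod N) (φ.comp (pr r c)) u i = 0 := by
        rw [RR, derivedSeries_succ] at hu
        refine fox_commutator (RR r c) _ ?_ u hu i
        intro x hx
        rw [MonoidHom.mem_ker, MonoidHom.comp_apply, pr_eq_one.mpr hx, map_one]
      have e2 : (φ.comp (pr r c)) u = 1 := by
        rw [MonoidHom.comp_apply, pr_eq_one.mpr (RR_le hu), map_one]
      rw [foxPerm_apply, e1, e2, sg_one, one_mul, add_zero]
      rfl
    refine ⟨Equiv.Perm (Fin (r + 2) → MonoidAlgebra (ZMod N) Γ), inferInstance, inferInstance,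
      QuotientGroup.lift (RR r (c + 1)) (foxPerm (ZMod N) (φ.comp (pr r c))) hker, ?_⟩
    intro hcon
    have h5 : foxPerm (ZMod N) (φ.comp (pr r c)) w = 1 := hcon
    have h6 : fox (ZMod N) (φ.comp (pr r c)) w j = 0 := by
      rw [fox, h5]
      rfl
    rw [fox_mapRing (Int.castRingHom (ZMod N))] at h6
    have h7 := congrArg (fun z => z.coeff γ) h6
    have h8 : ((n : ℤ) : ZMod N) = 0 := by
      simpa [coeff_mapRingHom] using h7
    rw [ZMod.intCast_zmod_eq_zero_iff_dvd] at h8
    have h9 := Int.natAbs_dvd_natAbs.mpr h8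
    have h10 := Nat.le_of_dvd (Int.natAbs_pos.mpr hγ) h9
    rw [Int.natAbs_natCast] at h10
    exact Nat.not_succ_le_self _ h10

theorem rf_QQ_inj (c : ℕ) (T : Finset (QQ r c)) :
    ∃ (Γ : Type) (_ : Group Γ) (_ : Finite Γ) (φ : QQ r c →* Γ), Set.InjOn φ T :=
  rf_inj (rf c) T

end Pool.Agent.MP984

end

/-! ## Sep -/

section

namespace Pool.Agent.MP984

/-- characters of lattices -/
def chi {I K : Type} [Fintype I] [Field K] (y : I → Kˣ) (n : I → ℤ) : Kˣ := ∏ i, y i ^ (n i)

theorem chi_add {I K : Type} [Fintype I] [Field K] (y : I → Kˣ) (m n : I → ℤ) :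
    chi y (m + n) = chi y m * chi y n := by
  simp [chi, zpow_add, Finset.prod_mul_distrib]

theorem chi_zero {I K : Type} [Fintype I] [Field K] (y : I → Kˣ) : chi y 0 = 1 := by
  simp [chi]

open MvPolynomial in
theorem sep {I : Type} [Fintype I] (N : Finset (I → ℤ)) (cf : (I → ℤ) → ℤ)
    (hc : ∃ n ∈ N, cf n ≠ 0) (M : Finset ((I → ℤ) × (I → ℤ))) (hM : ∀ z ∈ M, z.1 ≠ z.2) :
    ∃ (l : ℕ) (_ : Fact l.Prime) (y : I → (ZMod l)ˣ),
      ∑ n ∈ N, (cf n : ZMod l) * (chi y n : (ZMod l)ˣ) ≠ 0 ∧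
      ∀ z ∈ M, chi y z.1 ≠ chi y z.2 := by
  classical
  -- a bound
  let S : Finset (I → ℤ) := N ∪ M.image Prod.fst ∪ M.image Prod.snd
  obtain ⟨B, hB⟩ : ∃ B : ℕ, ∀ n ∈ S, ∀ i, 0 ≤ n i + B := by
    refine ⟨∑ n ∈ S, ∑ i, (n i).natAbs, fun n hn i => ?_⟩
    have h1 : (n i).natAbs ≤ ∑ i, (n i).natAbs :=
      Finset.single_le_sum (f := fun i => (n i).natAbs) (fun _ _ => Nat.zero_le _)
        (Finset.mem_univ i)
    have h2 : ∑ i, (n i).natAbs ≤ ∑ n ∈ S, ∑ i, (n i).natAbs :=
      Finset.single_le_sum (f := fun n : I → ℤ => ∑ i, (n i).natAbs)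
        (fun _ _ => Nat.zero_le _) hn
    omega
  have hSN : ∀ n ∈ N, n ∈ S := fun n hn =>
    Finset.mem_union_left _ (Finset.mem_union_left _ hn)
  have hS1 : ∀ z ∈ M, z.1 ∈ S := fun z hz =>
    Finset.mem_union_left _ (Finset.mem_union_right _ (Finset.mem_image_of_mem _ hz))
  have hS2 : ∀ z ∈ M, z.2 ∈ S := fun z hz =>
    Finset.mem_union_right _ (Finset.mem_image_of_mem _ hz)
  let e : (I → ℤ) → (I →₀ ℕ) := fun n => Finsupp.equivFunOnFinite.symm (fun i => (n i + B).toNat)
  have he : ∀ n ∈ S, ∀ i, ((e n i : ℕ) : ℤ) = n i + B := by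
    intro n hn i
    have := hB n hn i
    simp only [e, Finsupp.equivFunOnFinite_symm_apply_apply]
    omega
  have hinj : ∀ m ∈ S, ∀ n ∈ S, e m = e n → m = n := by
    intro m hm n hn h
    funext i
    have h1 := he m hm i
    have h2 := he n hn i
    rw [h] at h1
    linarith
  let P0 : MvPolynomial I ℤ := ∑ n ∈ N, monomial (e n) (cf n)
  let Qz : (I → ℤ) × (I → ℤ) → MvPolynomial I ℤ := fun z => monomial (e z.1) 1 - monomial (e z.2) 1
  have hP0 : P0 ≠ 0 := by
    obtain ⟨n, hn, hcn⟩ := hc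
    intro h
    have h1 := congrArg (coeff (e n)) h
    simp only [P0, coeff_sum, coeff_monomial, coeff_zero] at h1
    rw [Finset.sum_eq_single n] at h1
    · simp at h1
      exact hcn h1
    · intro m hm hmn
      rw [if_neg]
      intro h2
      exact hmn (hinj m (hSN m hm) n (hSN n hn) h2)
    · intro h2
      exact absurd hn h2
  have hQz : ∀ z ∈ M, Qz z ≠ 0 := by
    intro z hz h
    have h1 := sub_eq_zero.mp h
    have h2 := (monomial_left_inj (one_ne_zero)).mp h1
    exact hM z hz (hinj _ (hS1 z hz) _ (hS2 z hz) h2)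
  let P : MvPolynomial I ℤ := P0 * (∏ z ∈ M, Qz z) * ∏ i, X i
  have hP : P ≠ 0 := by
    refine mul_ne_zero (mul_ne_zero hP0 (Finset.prod_ne_zero_iff.mpr hQz))
      (Finset.prod_ne_zero_iff.mpr fun i _ => X_ne_zero i)
  obtain ⟨y, hy⟩ : ∃ y : I → ℤ, eval y P ≠ 0 := by
    by_contra hcon
    push Not at hcon
    exact hP (MvPolynomial.funext fun y => by rw [hcon y, map_zero])
  obtain ⟨l, hl, hlp⟩ := Nat.exists_infinite_primes ((eval y P).natAbs + 1)
  haveI : Fact l.Prime := ⟨hlp⟩
  have hne : ((eval y P : ℤ) : ZMod l) ≠ 0 := by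
    intro h
    rw [ZMod.intCast_zmod_eq_zero_iff_dvd] at h
    have h9 := Int.natAbs_dvd_natAbs.mpr h
    have h10 := Nat.le_of_dvd (Int.natAbs_pos.mpr hy) h9
    rw [Int.natAbs_natCast] at h10
    omega
  simp only [P, map_mul, map_prod, eval_X, Int.cast_mul, Int.cast_prod] at hne
  have hne1 := left_ne_zero_of_mul hne
  have hneX := right_ne_zero_of_mul hne
  have hne0 := left_ne_zero_of_mul hne1
  have hneQ := right_ne_zero_of_mul hne1
  have hyi : ∀ i, ((y i : ℤ) : ZMod l) ≠ 0 := fun i =>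
    Finset.prod_ne_zero_iff.mp hneX i (Finset.mem_univ i)
  let yu : I → (ZMod l)ˣ := fun i => Units.mk0 _ (hyi i)
  have hmon : ∀ n ∈ S, ∀ a : ℤ, ((eval y (monomial (e n) a) : ℤ) : ZMod l) =
      (a : ZMod l) * ((chi yu n : (ZMod l)ˣ) * ((∏ i, yu i ^ B : (ZMod l)ˣ) : ZMod l)) := by
    intro n hn a
    rw [eval_monomial, Finsupp.prod_fintype _ _ (fun i => pow_zero _), Int.cast_mul, Int.cast_prod]
    congr 1
    rw [chi, ← Units.val_mul, ← Finset.prod_mul_distrib, Units.coe_prod]
    refine Finset.prod_congr rfl fun i _ => ?_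
    have h3 : yu i ^ n i * yu i ^ B = yu i ^ (e n i) := by
      rw [← zpow_natCast (yu i) B, ← zpow_add, ← he n hn i, zpow_natCast]
    rw [h3]
    simp [yu]
  refine ⟨l, inferInstance, yu, ?_, ?_⟩
  · intro h
    apply hne0
    simp only [P0, map_sum, Int.cast_sum]
    rw [Finset.sum_congr rfl fun n hn => hmon n (hSN n hn) (cf n)]
    simp only [← mul_assoc, ← Finset.sum_mul]
    rw [h, zero_mul]
  · intro z hz h
    have h1 := Finset.prod_ne_zero_iff.mp hneQ z hz
    apply h1
    simp only [Qz, map_sub, Int.cast_sub]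
    rw [hmon _ (hS1 z hz), hmon _ (hS2 z hz), h, sub_self]

end Pool.Agent.MP984

end

/-! ## Evl -/

section

namespace Pool.Agent.MP984

/-- evaluation of coded polynomials -/
def evl {R : Type} [Semiring R] (L : List ℕ) (t : R) : R := L.foldr (fun n acc => (n : R) + t * acc) 0

theorem evl_nil {R : Type} [Semiring R] (t : R) : evl [] t = 0 := rfl
theorem evl_cons {R : Type} [Semiring R] (n : ℕ) (L : List ℕ) (t : R) :
    evl (n :: L) t = n + t * evl L t := rfl

theorem evl_comm {R : Type} [Semiring R] (L : List ℕ) (t : R) : t * evl L t = evl L t * t := by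
  induction L with
  | nil => simp [evl_nil]
  | cons n L ih =>
    rw [evl_cons, mul_add, add_mul, (Nat.cast_commute n t).eq, mul_assoc, ← ih]

open Polynomial in
theorem exists_evl_of_poly {l : ℕ} [NeZero l] (P : (ZMod l)[X]) :
    ∃ L : List ℕ, ∀ t : ZMod l, evl L t = P.eval t := by
  induction P using Polynomial.induction_on with
  | C a =>
    refine ⟨[a.val], fun t => ?_⟩
    simp [evl_cons, evl_nil]
  | add p q hp hq =>
    obtain ⟨L, hL⟩ := hp
    obtain ⟨L', hL'⟩ := hq
    have h : ∀ L L' : List ℕ, ∃ L'' : List ℕ, ∀ t : ZMod l, evl L'' t = evl L t + evl L' t := by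
      intro L
      induction L with
      | nil => intro L'; exact ⟨L', fun t => by simp [evl_nil]⟩
      | cons a L ih =>
        intro L'
        cases L' with
        | nil => exact ⟨a :: L, fun t => by simp [evl_nil]⟩
        | cons b L' =>
          obtain ⟨L'', h⟩ := ih L'
          refine ⟨(a + b) :: L'', fun t => ?_⟩
          rw [evl_cons, evl_cons, evl_cons, h]
          push_cast
          ring
    obtain ⟨L'', h'⟩ := h L L'
    exact ⟨L'', fun t => by rw [h', hL, hL', eval_add]⟩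
  | monomial n a h =>
    obtain ⟨L, hL⟩ := h
    refine ⟨0 :: L, fun t => ?_⟩
    rw [evl_cons, hL]
    simp [pow_succ]
    ring

theorem exists_evl {l : ℕ} [Fact l.Prime] {Γ : Type} [Finite Γ] (ν : Γ → ZMod l)
    (hν : Function.Injective ν) (F : Γ → ZMod l) :
    ∃ L : List ℕ, ∀ δ, evl L (ν δ) = F δ := by
  classical
  haveI := Fintype.ofFinite Γ
  obtain ⟨L, hL⟩ := exists_evl_of_poly (Lagrange.interpolate Finset.univ ν F)
  refine ⟨L, fun δ => ?_⟩
  rw [hL]
  exact Lagrange.eval_interpolate_at_node F (hν.injOn) (Finset.mem_univ δ)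

end Pool.Agent.MP984

end

/-! ## Rep -/

section

namespace Pool.Agent.MP984

open MonoidAlgebra
open scoped commutatorElement

variable {r c : ℕ}

/-- Fox derivative on the quotients -/
noncomputable def DQ (g : QQ r (c + 1)) : Fin (r + 2) → MonoidAlgebra ℤ (QQ r c) :=
  fox ℤ (pr r c) (Quotient.out g)

theorem DQ_pr (w : FF r) : DQ (pr r (c + 1) w) = fox ℤ (pr r c) w := by
  funext j
  have h1 : pr r (c + 1) (w⁻¹ * Quotient.out (pr r (c + 1) w)) = 1 := by
    rw [map_mul, map_inv]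
    have : pr r (c + 1) (Quotient.out (pr r (c + 1) w)) = pr r (c + 1) w :=
      QuotientGroup.out_eq' _
    rw [this, inv_mul_cancel]
  have h2 := (fox_iff _).mp (pr_eq_one.mp h1) j
  show fox ℤ (pr r c) (Quotient.out (pr r (c + 1) w)) j = _
  have h3 : Quotient.out (pr r (c + 1) w) = w * (w⁻¹ * Quotient.out (pr r (c + 1) w)) := by group
  rw [h3, fox_mul, h2, mul_zero, add_zero]

theorem DQ_mul (g h : QQ r (c + 1)) (j : Fin (r + 2)) :
    DQ (g * h) j = DQ g j + sg ℤ (prr r c g) * DQ h j := by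
  obtain ⟨u, rfl⟩ := pr_surj _ g
  obtain ⟨v, rfl⟩ := pr_surj _ h
  rw [← map_mul, DQ_pr, DQ_pr, DQ_pr]
  exact fox_mul _ _ _ _

theorem DQ_one (j : Fin (r + 2)) : DQ (1 : QQ r (c + 1)) j = 0 := by
  have := DQ_pr (c := c) (1 : FF r)
  rw [map_one] at this
  rw [this]
  exact fox_one _ _

theorem DQ_inv (g : QQ r (c + 1)) (j : Fin (r + 2)) :
    DQ g⁻¹ j = - (sg ℤ (prr r c g)⁻¹ * DQ g j) := by
  have h := DQ_mul g⁻¹ g j
  rw [inv_mul_cancel, DQ_one, map_inv] at h
  exact (neg_eq_of_add_eq_zero_left h.symm).symm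

theorem DQ_eq_zero {g : QQ r (c + 1)} (h : ∀ j, DQ g j = 0) : g = 1 := by
  obtain ⟨w, rfl⟩ := pr_surj _ g
  rw [DQ_pr] at h
  exact pr_eq_one.mpr ((fox_iff w).mpr h)

theorem DQ_inj {g h : QQ r (c + 1)} (e : ∀ j, DQ g j = DQ h j) : g = h := by
  refine inv_mul_eq_one.mp (DQ_eq_zero fun j => ?_)
  rw [DQ_mul, DQ_inv, e, map_inv]
  simp

/-- vector of coefficients -/
def vec {Γ : Type} (v : Fin (r + 2) → MonoidAlgebra ℤ Γ) : Fin (r + 2) × Γ → ℤ :=
  fun z => (v z.1).coeff z.2

theorem vec_inj {Γ : Type} {u v : Fin (r + 2) → MonoidAlgebra ℤ Γ} (h : vec u = vec v) (j) :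
    u j = v j := by
  ext γ
  exact congrFun h (j, γ)

/-- trivial stabiliser in a large finite quotient -/
theorem stab_finite {H : Type} [Group H] (hT : TF H) (v : MonoidAlgebra ℤ H) (hv : v ≠ 0)
    [DecidableEq H] {Γ : Type} [Group Γ] (φ : H →* Γ)
    (hφ : Set.InjOn φ (((v.coeff.support ×ˢ v.coeff.support ×ˢ v.coeff.support).image
      fun z => z.1 * z.2.1⁻¹ * z.2.2 : Finset H) : Set H)) (δ : Γ)
    (h : sg ℤ δ * mapDomainRingHom ℤ φ v = mapDomainRingHom ℤ φ v) : δ = 1 := by
  set S := v.coeff.support with hS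
  set T := ((S ×ˢ S ×ˢ S).image fun z => z.1 * z.2.1⁻¹ * z.2.2 : Finset H) with hTT
  have hST : ∀ s ∈ S, s ∈ T := by
    intro s hs
    refine Finset.mem_image.mpr ⟨(s, s, s), ?_, by simp⟩
    simp [hs]
  have hST' : ∀ a ∈ S, ∀ b ∈ S, ∀ d ∈ S, a * b⁻¹ * d ∈ T := by
    intro a ha b hb d hd
    refine Finset.mem_image.mpr ⟨(a, b, d), ?_, rfl⟩
    simp [ha, hb, hd]
  have hco : ∀ s ∈ S, (mapDomainRingHom ℤ φ v).coeff (φ s) = v.coeff s := fun s hs =>
    coeff_mapDomain_of_injOn φ v T hφ (fun x hx => hST x hx) (hST s hs)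
  have hsup : ∀ γ, (mapDomainRingHom ℤ φ v).coeff γ ≠ 0 → ∃ s ∈ S, φ s = γ := by
    intro γ hγ
    classical
    rw [mapDomainRingHom_apply] at hγ
    have h1 := Finsupp.mapDomain_support (Finsupp.mem_support_iff.mpr hγ)
    obtain ⟨s, hs, hs'⟩ := Finset.mem_image.mp h1
    exact ⟨s, hs, hs'⟩
  have hmove : ∀ s ∈ S, ∃ s' ∈ S, φ s' = δ⁻¹ * φ s := by
    intro s hs
    apply hsup
    rw [← coeff_sg_mul, h, hco s hs]
    exact Finsupp.mem_support_iff.mp hs
  have h4 : S.Nonempty := by
    rw [Finset.nonempty_iff_ne_empty]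
    intro h5
    apply hv
    rw [← coeff_eq_zero]
    exact Finsupp.support_eq_empty.mp h5
  obtain ⟨s0, hs0⟩ := h4
  obtain ⟨s1, hs1, hs1'⟩ := hmove s0 hs0
  set q := s1 * s0⁻¹ with hq
  have hqφ : φ q = δ⁻¹ := by
    rw [hq, map_mul, map_inv, hs1', mul_inv_cancel_right]
  have hqS : ∀ s ∈ S, q * s ∈ S := by
    intro s hs
    obtain ⟨s', hs', h'⟩ := hmove s hs
    have : s' = q * s := by
      refine hφ (hST s' hs') (hST' s1 hs1 s0 hs0 s hs) ?_
      rw [h', map_mul, hqφ]
    rwa [← this]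
  have hq1 : q = 1 := by
    by_contra hne
    have hn : ∀ n : ℕ, q ^ (n : ℤ) * s0 ∈ S := by
      intro n
      induction n with
      | zero => simpa using hs0
      | succ n ih =>
        have := hqS _ ih
        rw [← mul_assoc, ← zpow_one_add] at this
        push_cast
        rwa [add_comm]
    have hinf : (S : Set H).Infinite :=
      Set.infinite_of_injective_forall_mem (f := fun n : ℕ => q ^ (n : ℤ) * s0) (fun a b hab => by
        have h6 : q ^ (a : ℤ) = q ^ (b : ℤ) := mul_right_cancel hab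
        exact_mod_cast hT.inj hne h6) hn
    exact hinf (Finset.finite_toSet _)
  rw [hq1, map_one] at hqφ
  exact (inv_eq_one.mp hqφ.symm)

theorem rep (h : QQ r (c + 1)) (hh : h ≠ 1) (hπ : prr r c h = 1)
    (f : MonoidAlgebra ℤ (QQ r (c + 1))) (hf : f ≠ 0) :
    ∃ (l : ℕ) (Λ : MonoidAlgebra ℤ (QQ r (c + 1)) →+ ZMod l), Λ f ≠ 0 ∧
      ∀ (g : QQ r (c + 1)) (s : ℤ), ∃ L : List ℕ, ∀ v,
        Λ (((s : MonoidAlgebra ℤ (QQ r (c + 1))) * sg ℤ g - evl L (sg ℤ h)) * v) = 0 := by
  classical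
  obtain ⟨j0, hj0⟩ : ∃ j, DQ h j ≠ 0 := by
    by_contra hcon
    push Not at hcon
    exact hh (DQ_eq_zero hcon)
  let T1 : Finset (QQ r c) := f.coeff.support.biUnion fun q =>
    Finset.univ.biUnion fun j => (DQ q⁻¹ j).coeff.support
  let S := (DQ h j0).coeff.support
  let T2 : Finset (QQ r c) := (S ×ˢ S ×ˢ S).image fun z => z.1 * z.2.1⁻¹ * z.2.2
  obtain ⟨Γ, _, hfinΓ, φ, hφ⟩ := rf_QQ_inj c (T1 ∪ T2)
  haveI := Fintype.ofFinite Γ
  have hφ1 : Set.InjOn φ T1 := hφ.mono (by simp)
  have hφ2 : Set.InjOn φ T2 := hφ.mono (by simp)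
  -- the derivative over Γ
  let E : QQ r (c + 1) → Fin (r + 2) → MonoidAlgebra ℤ Γ :=
    fun q j => mapDomainRingHom ℤ φ (DQ q j)
  let π : QQ r (c + 1) →* Γ := φ.comp (prr r c)
  have hmapsg : ∀ q : QQ r c, mapDomainRingHom ℤ φ (sg ℤ q) = sg ℤ (φ q) := by
    intro q
    simp [sg]
  have hE : ∀ g g' j, E (g * g') j = E g j + sg ℤ (π g) * E g' j := by
    intro g g' j
    simp only [E, DQ_mul, map_add, map_mul, hmapsg]
    rfl
  have hEinv : ∀ g j, E g⁻¹ j = - (sg ℤ (π g)⁻¹ * E g j) := by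
    intro g j
    simp only [E, DQ_inv, map_neg, map_mul, hmapsg, map_inv]
    rfl
  have hπh : π h = 1 := by
    simp only [π, MonoidHom.comp_apply, hπ, map_one]
  let nv : Γ → QQ r (c + 1) → (Fin (r + 2) × Γ → ℤ) := fun δ g => vec fun j => sg ℤ δ * E g j
  have hnv : ∀ δ g g', nv δ (g * g') = nv δ g + nv (δ * π g) g' := by
    intro δ g g'
    funext z
    simp only [nv, vec, Pi.add_apply]
    rw [hE, mul_add, ← mul_assoc, ← sg_mul]
    rfl
  let n1 : QQ r (c + 1) → (Fin (r + 2) × Γ → ℤ) := fun q => nv (π q)⁻¹ q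
  -- (C1)
  have hC1 : Set.InjOn n1 f.coeff.support := by
    intro q hq q' hq' hqq
    have h1 : ∀ j, E q⁻¹ j = E q'⁻¹ j := by
      intro j
      have h2 := vec_inj hqq j
      rw [hEinv, hEinv, h2]
    have h2 : ∀ j, DQ q⁻¹ j = DQ q'⁻¹ j := by
      intro j
      have hs : ∀ p ∈ f.coeff.support, ∀ x ∈ (DQ p⁻¹ j).coeff.support, x ∈ T1 := by
        intro p hp x hx
        exact Finset.mem_biUnion.mpr ⟨p, hp, Finset.mem_biUnion.mpr ⟨j, Finset.mem_univ j, hx⟩⟩
      ext x
      by_cases hx : x ∈ T1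
      · rw [← coeff_mapDomain_of_injOn φ (DQ q⁻¹ j) T1 hφ1 (fun y hy => hs q hq y hy) hx,
          ← coeff_mapDomain_of_injOn φ (DQ q'⁻¹ j) T1 hφ1 (fun y hy => hs q' hq' y hy) hx]
        exact congrArg (fun z => z.coeff (φ x)) (h1 j)
      · have e1 : (DQ q⁻¹ j).coeff x = 0 := by
          by_contra hne
          exact hx (hs q hq x (Finsupp.mem_support_iff.mpr hne))
        have e2 : (DQ q'⁻¹ j).coeff x = 0 := by
          by_contra hne
          exact hx (hs q' hq' x (Finsupp.mem_support_iff.mpr hne))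
        rw [e1, e2]
    exact inv_injective (DQ_inj h2)
  -- (C2)
  have hC2 : Function.Injective (fun δ => nv δ h) := by
    intro δ δ' hδ
    have h1 := vec_inj hδ j0
    have h2 : sg ℤ (δ'⁻¹ * δ) * E h j0 = E h j0 := by
      rw [sg_mul, mul_assoc, h1, sg_inv_mul_assoc]
    have h3 := stab_finite (tf c) (DQ h j0) hj0 φ hφ2 (δ'⁻¹ * δ) h2
    exact (inv_mul_eq_one.mp h3).symm
  obtain ⟨l, hl, y, hy1, hy2⟩ := sep (f.coeff.support.image n1)
    (fun v => f.coeff (Function.invFunOn n1 f.coeff.support v))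
    (by
      have h4 : f.coeff.support.Nonempty := by
        rw [Finset.nonempty_iff_ne_empty]
        intro h5
        apply hf
        rw [← coeff_eq_zero]
        exact Finsupp.support_eq_empty.mp h5
      obtain ⟨q, hq⟩ := h4
      refine ⟨n1 q, Finset.mem_image_of_mem _ hq, ?_⟩
      rw [hC1.leftInvOn_invFunOn hq]
      exact Finsupp.mem_support_iff.mp hq)
    (((Finset.univ ×ˢ Finset.univ).filter fun z : Γ × Γ => z.1 ≠ z.2).image
      fun z => (nv z.1 h, nv z.2 h))
    (by
      intro z hz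
      obtain ⟨w, hw, rfl⟩ := Finset.mem_image.mp hz
      intro h5
      exact (Finset.mem_filter.mp hw).2 (hC2 h5))
  haveI := hl
  let Y : Γ → QQ r (c + 1) → ZMod l := fun δ g => ((chi y (nv δ g) : (ZMod l)ˣ) : ZMod l)
  have hY : ∀ δ g g', Y δ (g * g') = Y δ g * Y (δ * π g) g' := by
    intro δ g g'
    simp only [Y]
    rw [hnv, chi_add, Units.val_mul]
  have hYinj : Function.Injective (fun δ => Y δ h) := by
    intro δ δ' hδ
    by_contra hne
    refine hy2 (nv δ h, nv δ' h) ?_ (Units.ext hδ)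
    exact Finset.mem_image.mpr ⟨(δ, δ'), by simp [hne], rfl⟩
  let Λ : MonoidAlgebra ℤ (QQ r (c + 1)) →+ ZMod l :=
    (Finsupp.liftAddHom (fun q : QQ r (c + 1) =>
      (AddMonoidHom.mulRight (Y (π q)⁻¹ q)).comp (Int.castAddHom (ZMod l)))).comp
      (coeffAddEquiv (R := ℤ) (M := QQ r (c + 1))).toAddMonoidHom
  have hΛ : ∀ (q : QQ r (c + 1)) (n : ℤ), Λ (single q n) = n * Y (π q)⁻¹ q := by
    intro q n
    show Finsupp.liftAddHom _ (Finsupp.single q n) = _
    rw [Finsupp.liftAddHom_apply_single]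
    simp
  have hΛf : Λ f = ∑ q ∈ f.coeff.support, (f.coeff q : ZMod l) * Y (π q)⁻¹ q := by
    show Finsupp.liftAddHom _ f.coeff = _
    rw [Finsupp.liftAddHom_apply, Finsupp.sum]
    rfl
  -- polynomials in h
  have hpoly : ∀ (L : List ℕ) (q : QQ r (c + 1)) (n : ℤ),
      Λ (evl L (sg ℤ h) * single q n) = evl L (Y (π q)⁻¹ h) * (n * Y (π q)⁻¹ q) := by
    intro L
    induction L with
    | nil => intro q n; simp [evl_nil]
    | cons a L ih =>
      intro q n
      have e1 : evl (a :: L) (sg ℤ h) * single q n =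
          single q (a * n) + evl L (sg ℤ h) * single (h * q) n := by
        rw [evl_cons, evl_comm, add_mul, mul_assoc]
        congr 1
        · rw [natCast_def, single_mul_single, one_mul]
        · congr 1
          rw [sg, single_mul_single, one_mul]
      have e2 : π (h * q) = π q := by rw [map_mul, hπh, one_mul]
      rw [e1, map_add, hΛ, ih, e2, hY, hπh, mul_one, evl_cons]
      push_cast
      ring
  refine ⟨l, Λ, ?_, ?_⟩
  · rw [hΛf]
    rw [Finset.sum_image hC1] at hy1
    convert hy1 using 1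
    refine Finset.sum_congr rfl fun q hq => ?_
    rw [hC1.leftInvOn_invFunOn hq]
  · intro g s
    obtain ⟨L, hL⟩ := exists_evl (fun δ => Y δ h) hYinj (fun δ => s * Y (δ * (π g)⁻¹) g)
    refine ⟨L, fun v => ?_⟩
    induction v using MonoidAlgebra.induction_linear with
    | zero => rw [mul_zero, map_zero]
    | add v v' hv hv' => rw [mul_add, map_add, hv, hv', add_zero]
    | single q n =>
      have e1 : (s : MonoidAlgebra ℤ (QQ r (c + 1))) * sg ℤ g * single q n =
          single (g * q) (s * n) := by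
        rw [intCast_def, sg, single_mul_single, single_mul_single]
        simp
      have e2 : (π (g * q))⁻¹ * π g = (π q)⁻¹ := by
        rw [map_mul]
        group
      have e3 : (π (g * q))⁻¹ = (π q)⁻¹ * (π g)⁻¹ := by
        rw [map_mul, mul_inv_rev]
      rw [sub_mul, map_sub, e1, hΛ, hpoly, hL, hY, e2, e3]
      push_cast
      ring

end Pool.Agent.MP984

end
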