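import Pool.Agent.Lib.MP_984cf2_lc.DefArith
import Pool.Agent.Lib.MP_984cf2_lc.FoxRep

set_option autoImplicit false

/-! ## Grp -/

section

namespace Pool.Agent.MP984

open MonoidAlgebra FirstOrder FirstOrder.Language
open scoped commutatorElement

attribute [local instance] gstr

/-- the free solvable group -/
abbrev GG (r c : ℕ) : Type := QQ r (c + 2)

variable {r c : ℕ}

/-- the generators -/
def gen (r c : ℕ) : Fin (r + 2) → GG r c := fun i => pr r (c + 2) (FreeGroup.of i)

theorem closure_gen : Subgroup.closure (Set.range (gen r c)) = ⊤ := by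
  have h1 : Subgroup.closure (Set.range (FreeGroup.of : Fin (r + 2) → FF r)) = ⊤ :=
    FreeGroup.closure_range_of _
  have h2 := congrArg (Subgroup.map (pr r (c + 2))) h1
  rw [MonoidHom.map_closure, ← Set.range_comp, Subgroup.map_top_of_surjective _ (pr_surj _)] at h2
  exact h2

/-- the layers -/
def LL (r c i : ℕ) : Subgroup (GG r c) := (RR r i).map (pr r (c + 2))

theorem mem_LL {i : ℕ} (hi : i ≤ c + 2) {w : FF r} : pr r (c + 2) w ∈ LL r c i ↔ w ∈ RR r i := by
  constructor
  · rintro ⟨w', hw', h⟩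
    have h1 : pr r (c + 2) (w'⁻¹ * w) = 1 := by
      rw [map_mul, map_inv, h, inv_mul_cancel]
    have h2 := RR_anti hi (pr_eq_one.mp h1)
    have h3 := mul_mem hw' h2
    rwa [mul_inv_cancel_left] at h3
  · intro h
    exact ⟨w, h, rfl⟩

theorem DP_LL {i : ℕ} (hi : i ≤ c + 2) : DP (gen r c) (fun g : GG r c => g ∈ LL r c i) := by
  obtain ⟨k, hk⟩ := Nat.exists_eq_add_of_le hi
  induction k generalizing i with
  | zero =>
    refine DP.oneg.congr fun g => ?_
    obtain ⟨w, rfl⟩ := pr_surj _ g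
    rw [mem_LL hi, pr_eq_one, hk, add_zero]
  | succ k ih =>
    have h1 := ih (i := i + 1) (by omega) (by omega)
    obtain ⟨n, hn, hn'⟩ := exists_strict' (r := r) i
    have hc : DF (gen r c) (fun _ : GG r c => pr r (c + 2) n) := DF.const closure_gen _
    refine DP.congr (DP.comp (f := fun g : GG r c => ⁅g, pr r (c + 2) n⁆) h1
      (((DF.id.mul hc).mul DF.id.inv).mul hc.inv)) fun g => ?_
    obtain ⟨w, rfl⟩ := pr_surj _ g
    rw [← map_commutatorElement, mem_LL (by omega), mem_LL hi]
    constructor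
    · exact stab hn hn'
    · intro h
      rw [RR, derivedSeries_succ]
      exact Subgroup.commutator_mem_commutator h hn

theorem mem_LL_one {g : GG r c} : g ∈ LL r c 1 ↔ Abelianization.of g = 1 := by
  have h0 : RR r 1 = ⁅(⊤ : Subgroup (FF r)), ⊤⁆ := by
    show derivedSeries (FF r) (0 + 1) = _
    rw [derivedSeries_succ, derivedSeries_zero]
  have h1 : LL r c 1 = commutator (GG r c) := by
    show (RR r 1).map (pr r (c + 2)) = ⁅(⊤ : Subgroup (GG r c)), ⊤⁆
    rw [h0, Subgroup.map_commutator, Subgroup.map_top_of_surjective _ (pr_surj _)]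
  rw [h1, ← Abelianization.ker_of, MonoidHom.mem_ker]

/-- degree on the group -/
def dg (i : Fin (r + 2)) : GG r c →* Multiplicative ℤ := degQ (c + 1) i

theorem dg_gen (i j : Fin (r + 2)) :
    dg i (gen r c j) = if j = i then Multiplicative.ofAdd 1 else 1 := by
  show degF i (FreeGroup.of j) = _
  simp [degF]

theorem dg_LL {g : GG r c} (h : g ∈ LL r c 1) (i : Fin (r + 2)) : dg i g = 1 := by
  obtain ⟨w, hw, rfl⟩ := h
  exact degF_RR i (c := 0) hw

theorem comm_iff {u v : FF r} : pr r (c + 2) u * pr r (c + 2) v = pr r (c + 2) v * pr r (c + 2) u ↔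
    ⁅u, v⁆ ∈ RR r (c + 2) := by
  rw [← pr_eq_one, map_commutatorElement, commutatorElement_eq_one_iff_mul_comm]

theorem centr {v : FF r} {k : Fin (r + 2)} {s : QQ r (c + 1)}
    (hk : fox ℤ (pr r (c + 1)) v k = sg ℤ s) (hv : pr r (c + 1) v ≠ 1) (g : GG r c) :
    g * pr r (c + 2) v = pr r (c + 2) v * g ↔ ∃ n : ℤ, pr r (c + 2) v ^ n = g := by
  constructor
  · intro h
    obtain ⟨u, rfl⟩ := pr_surj _ g
    rw [comm_iff] at h
    obtain ⟨j, hj⟩ := cent hk hv h
    refine ⟨j, ?_⟩
    have h1 := pr_eq_one.mpr hj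
    rw [map_mul, map_zpow, zpow_neg, mul_inv_eq_one] at h1
    exact h1.symm
  · rintro ⟨n, rfl⟩
    exact ((Commute.refl (pr r (c + 2) v)).zpow_left n).eq

theorem gen_zpow_inj (i : Fin (r + 2)) : Function.Injective (fun n : ℤ => gen r c i ^ n) := by
  intro a b hab
  have h := congrArg (dg i) hab
  simp only [map_zpow, dg_gen, if_true] at h
  have h' := congrArg Multiplicative.toAdd h
  simpa using h'

theorem fox_of_zpow {c : ℕ} (i j : Fin (r + 2)) (hij : j ≠ i) (n : ℤ) :
    fox ℤ (pr r c) (FreeGroup.of i ^ n) j = 0 := by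
  have h1 : fox ℤ (pr r c) (FreeGroup.of i) j = 0 := by
    rw [fox_of, if_neg hij]
  induction n with
  | zero => simp [fox_one]
  | succ n ih => rw [zpow_add_one, fox_mul, ih, h1]; simp
  | pred n ih => rw [zpow_sub_one, fox_mul, ih, fox_inv, h1]; simp

theorem pr_ne_one_of_deg {c : ℕ} {w : FF r} (i : Fin (r + 2)) (h : degF i w ≠ 1) :
    pr r (c + 1) w ≠ 1 := by
  intro h1
  exact h (degF_RR i (pr_eq_one.mp h1))

theorem cent_gen (i : Fin (r + 2)) (g : GG r c) :
    g * gen r c i = gen r c i * g ↔ ∃ n : ℤ, gen r c i ^ n = g := by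
  refine centr (k := i) (s := 1) ?_ ?_ g
  · rw [fox_of]
    simp [sg_one]
  · refine pr_ne_one_of_deg i ?_
    rw [degF_of]
    decide

theorem cent_xy (a : ℤ) (g : GG r c) :
    g * (gen r c 0 ^ a * gen r c 1) = (gen r c 0 ^ a * gen r c 1) * g ↔
      ∃ n : ℤ, (gen r c 0 ^ a * gen r c 1) ^ n = g := by
  have h := centr (r := r) (c := c) (v := FreeGroup.of 0 ^ a * FreeGroup.of 1) (k := 1)
    (s := pr r (c + 1) (FreeGroup.of 0 ^ a)) ?_ ?_ g
  · rw [map_mul, map_zpow] at h
    exact h
  · rw [fox_mul, fox_of_zpow _ _ (by simp), fox_of]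
    simp
  · refine pr_ne_one_of_deg 1 ?_
    rw [map_mul, map_zpow, degF_of, degF_of_ne (by simp), one_zpow, one_mul]
    decide

theorem cent_xy1 (g : GG r c) :
    g * (gen r c 0 * gen r c 1) = (gen r c 0 * gen r c 1) * g ↔
      ∃ n : ℤ, (gen r c 0 * gen r c 1) ^ n = g := by
  have h := cent_xy 1 g
  rwa [zpow_one] at h

theorem ab_mul_zpow (u v : GG r c) (a b : ℤ) (hab : a = b) :
    (u * v) ^ a * (u ^ a * v ^ b)⁻¹ ∈ LL r c 1 := by
  subst hab
  rw [mem_LL_one]
  simp [mul_zpow]

theorem zar_gen : ZAr (gen r c) (gen r c 0) := by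
  refine ⟨gen_zpow_inj 0, ?_, ?_⟩
  · refine DP.congr (DP.eq (f := fun g => g * gen r c 0) (g := fun g => gen r c 0 * g)
      (DF.id.mul (DF.par 0)) ((DF.par 0).mul DF.id)) fun g => cent_gen 0 g
  · have hL : DP (gen r c) (fun g : GG r c => g ∈ LL r c 1) := DP_LL (by omega)
    have C : ∀ {X : Type} [Cod (gen r c) X] {f g : X → GG r c}, DF (gen r c) f →
        DF (gen r c) g → DP (gen r c) (fun x => f x * g x = g x * f x) := by
      intro X _ f g hf hg
      exact DP.eq (hf.mul hg) (hg.mul hf)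
    have h1 : DP (gen r c) (fun t : (GG r c × GG r c) × GG r c =>
        (t.1.1 * gen r c 0 = gen r c 0 * t.1.1 ∧ t.1.2 * gen r c 0 = gen r c 0 * t.1.2 ∧
          t.2 * gen r c 0 = gen r c 0 * t.2) ∧
        ∃ b' : GG r c, b' * gen r c 1 = gen r c 1 * b' ∧
          (∃ u, u * (gen r c 0 * gen r c 1) = (gen r c 0 * gen r c 1) * u ∧
            u * (t.1.2 * b')⁻¹ ∈ LL r c 1) ∧
          (∃ u, u * (t.1.1 * gen r c 1) = (t.1.1 * gen r c 1) * u ∧
            u * (t.2 * b')⁻¹ ∈ LL r c 1)) := by
      refine DP.and ((C DF.fst.fst' (DF.par 0)).and ((C DF.fst.snd' (DF.par 0)).and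
        (C DF.snd (DF.par 0)))) ?_
      refine DP.ex (DP.and (C DF.snd (DF.par 1)) (DP.and (DP.ex (DP.and ?_ ?_))
        (DP.ex (DP.and ?_ ?_))))
      · exact C DF.snd ((DF.par 0).mul (DF.par 1))
      · exact hL.comp (DF.snd.mul ((DF.fst.fst'.fst'.snd').mul DF.fst.snd').inv)
      · exact C DF.snd ((DF.fst.fst'.fst'.fst').mul (DF.par 1))
      · exact hL.comp (DF.snd.mul ((DF.fst.fst'.snd').mul DF.fst.snd').inv)
    refine h1.congr fun t => ?_
    have d00 : dg 0 (gen r c 0) = Multiplicative.ofAdd 1 := by simp [dg_gen]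
    have d01 : dg 0 (gen r c 1) = 1 := by simp [dg_gen]
    have d10 : dg 1 (gen r c 0) = 1 := by simp [dg_gen]
    have d11 : dg 1 (gen r c 1) = Multiplicative.ofAdd 1 := by simp [dg_gen]
    constructor
    · rintro ⟨⟨h1, h2, h3⟩, b', h4, ⟨u, hu, hu'⟩, ⟨w, hw, hw'⟩⟩
      obtain ⟨a, ha⟩ := (cent_gen 0 _).mp h1
      obtain ⟨b, hb⟩ := (cent_gen 0 _).mp h2
      obtain ⟨d, hd⟩ := (cent_gen 0 _).mp h3
      obtain ⟨b₂, hb₂⟩ := (cent_gen 1 _).mp h4
      obtain ⟨k, hk⟩ := (cent_xy1 u).mp hu
      rw [← ha] at hw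
      obtain ⟨l, hl⟩ := (cent_xy a w).mp hw
      refine ⟨a, b, ha, hb, ?_⟩
      rw [← hd]
      congr 1
      have e1 := dg_LL hu' 0
      have e2 := dg_LL hu' 1
      have e3 := dg_LL hw' 0
      have e4 := dg_LL hw' 1
      rw [← hk, ← hb, ← hb₂] at e1 e2
      rw [← hl, ← hd, ← hb₂] at e3 e4
      simp only [map_mul, map_zpow, map_inv, d00, d01, d10, d11, one_zpow, mul_one, one_mul,
        mul_inv_eq_one, mul_zpow, ← zpow_mul] at e1 e2 e3 e4
      have f1 := congrArg Multiplicative.toAdd e1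
      have f2 := congrArg Multiplicative.toAdd e2
      have f3 := congrArg Multiplicative.toAdd e3
      have f4 := congrArg Multiplicative.toAdd e4
      simp only [toAdd_zpow, toAdd_ofAdd, smul_eq_mul, mul_one] at f1 f2 f3 f4
      subst f1 f2 f3
      rw [f4]
    · rintro ⟨a, b, ha, hb, hab⟩
      refine ⟨⟨?_, ?_, ?_⟩, gen r c 1 ^ b, ?_, ⟨(gen r c 0 * gen r c 1) ^ b, ?_, ?_⟩,
        ⟨(gen r c 0 ^ a * gen r c 1) ^ b, ?_, ?_⟩⟩
      · exact (cent_gen 0 _).mpr ⟨_, ha⟩
      · exact (cent_gen 0 _).mpr ⟨_, hb⟩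
      · exact (cent_gen 0 _).mpr ⟨_, hab⟩
      · exact (cent_gen 1 _).mpr ⟨_, rfl⟩
      · exact (cent_xy1 _).mpr ⟨_, rfl⟩
      · rw [← hb]
        exact ab_mul_zpow _ _ _ _ rfl
      · rw [← ha]
        exact (cent_xy a _).mpr ⟨_, rfl⟩
      · rw [← hab, zpow_mul]
        exact ab_mul_zpow _ _ _ _ rfl

noncomputable instance : NatCod (gen r c) := zar_gen.cod
instance : NatAr (gen r c) := zar_gen.ar

theorem DF.x0pow {X : Type} [Cod (gen r c) X] {f : X → ℕ} (hf : DF (gen r c) f) :
    DF (gen r c) (fun x => gen r c 0 ^ f x) :=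
  DF.comp (f := fun n : ℕ => gen r c 0 ^ n) DF.natE hf

end Pool.Agent.MP984

end

/-! ## Mod -/

section

namespace Pool.Agent.MP984

open MonoidAlgebra FirstOrder FirstOrder.Language
open scoped commutatorElement

attribute [local instance] gstr

variable {r c : ℕ}

/-- the group ring -/
abbrev ZQ (r c : ℕ) : Type := MonoidAlgebra ℤ (QQ r (c + 1))

/-- the free module -/
abbrev VV (r c : ℕ) : Type := Fin (r + 2) → ZQ r c

/-- projection to the previous quotient -/
abbrev rho (r c : ℕ) : GG r c →* QQ r (c + 1) := prr r (c + 1)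

theorem rho_surj : Function.Surjective (rho r c) := by
  intro q
  obtain ⟨w, rfl⟩ := pr_surj _ q
  exact ⟨pr r (c + 2) w, rfl⟩

theorem rho_eq_one {g : GG r c} : rho r c g = 1 ↔ g ∈ LL r c (c + 1) := by
  obtain ⟨w, rfl⟩ := pr_surj _ g
  rw [mem_LL (by omega)]
  exact pr_eq_one (c := c + 1)

/-- Fox derivative on the group -/
noncomputable def DD (g : GG r c) : VV r c := fox ℤ (pr r (c + 1)) (Quotient.out g)

theorem DD_pr (w : FF r) : DD (pr r (c + 2) w) = fox ℤ (pr r (c + 1)) w := by
  funext j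
  have h1 : pr r (c + 2) (w⁻¹ * Quotient.out (pr r (c + 2) w)) = 1 := by
    rw [map_mul, map_inv]
    have : pr r (c + 2) (Quotient.out (pr r (c + 2) w)) = pr r (c + 2) w :=
      QuotientGroup.out_eq' _
    rw [this, inv_mul_cancel]
  have h2 := (fox_iff _).mp (pr_eq_one.mp h1) j
  show fox ℤ (pr r (c + 1)) (Quotient.out (pr r (c + 2) w)) j = _
  have h3 : Quotient.out (pr r (c + 2) w) = w * (w⁻¹ * Quotient.out (pr r (c + 2) w)) := by group
  rw [h3, fox_mul, h2, mul_zero, add_zero]

theorem DD_mul (g h : GG r c) : DD (g * h) = DD g + sg ℤ (rho r c g) • DD h := by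
  obtain ⟨u, rfl⟩ := pr_surj _ g
  obtain ⟨v, rfl⟩ := pr_surj _ h
  rw [← map_mul, DD_pr, DD_pr, DD_pr]
  funext j
  exact fox_mul _ _ _ _

theorem DD_one : DD (1 : GG r c) = 0 := by
  have := DD_pr (c := c) (1 : FF r)
  rw [map_one] at this
  rw [this]
  funext j
  exact fox_one _ _

theorem DD_inv (g : GG r c) : DD g⁻¹ = - (sg ℤ (rho r c g)⁻¹ • DD g) := by
  have h := DD_mul g⁻¹ g
  rw [inv_mul_cancel, DD_one, map_inv] at h
  exact (neg_eq_of_add_eq_zero_left h.symm).symm

theorem DD_eq_zero {g : GG r c} (h : DD g = 0) : g = 1 := by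
  obtain ⟨w, rfl⟩ := pr_surj _ g
  rw [DD_pr] at h
  exact pr_eq_one.mpr ((fox_iff w).mpr fun j => congrFun h j)

theorem DD_inj : Function.Injective (DD : GG r c → VV r c) := by
  intro g h e
  have h1 : DD (g⁻¹ * h) = 0 := by
    rw [DD_mul, DD_inv, e, map_inv]
    simp
  exact (inv_mul_eq_one.mp (DD_eq_zero h1))

theorem DD_mul_left {a : GG r c} (ha : a ∈ LL r c (c + 1)) (g : GG r c) :
    DD (a * g) = DD a + DD g := by
  rw [DD_mul, rho_eq_one.mpr ha, sg_one, one_smul]

theorem DD_conj {a : GG r c} (ha : a ∈ LL r c (c + 1)) (g : GG r c) :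
    DD (g * a * g⁻¹) = sg ℤ (rho r c g) • DD a := by
  rw [DD_mul, DD_mul, DD_inv, map_mul, rho_eq_one.mpr ha, mul_one]
  rw [smul_neg, smul_smul, sg_mul_inv, one_smul]
  abel

instance : (LL r c (c + 1)).Normal :=
  Subgroup.Normal.map inferInstance _ (pr_surj _)

/-- the image of the last layer -/
noncomputable def AA (r c : ℕ) : Submodule (ZQ r c) (VV r c) where
  carrier := {v | ∃ a ∈ LL r c (c + 1), DD a = v}
  zero_mem' := ⟨1, one_mem _, DD_one⟩
  add_mem' := by
    rintro _ _ ⟨a, ha, rfl⟩ ⟨b, hb, rfl⟩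
    exact ⟨a * b, mul_mem ha hb, DD_mul_left ha b⟩
  smul_mem' := by
    rintro x _ ⟨a, ha, rfl⟩
    induction x using MonoidAlgebra.induction_linear with
    | zero => exact ⟨1, one_mem _, by rw [DD_one, zero_smul]⟩
    | add x y hx hy =>
      obtain ⟨b, hb, hb'⟩ := hx
      obtain ⟨d, hd, hd'⟩ := hy
      exact ⟨b * d, mul_mem hb hd, by rw [DD_mul_left hb, hb', hd', add_smul]⟩
    | single q n =>
      obtain ⟨g, rfl⟩ := rho_surj q
      have hg : g * a * g⁻¹ ∈ LL r c (c + 1) := Subgroup.Normal.conj_mem inferInstance _ ha g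
      have h1 : single (rho r c g) n = (n : ZQ r c) * sg ℤ (rho r c g) := by
        simp [sg, intCast_def, single_mul_single]
      have hpow : ∀ m : ℕ, ∀ b ∈ LL r c (c + 1), DD (b ^ m) = (m : ZQ r c) • DD b := by
        intro m b hb
        induction m with
        | zero => simp [DD_one]
        | succ m ih => rw [pow_succ, DD_mul_left (pow_mem hb m), ih, Nat.cast_succ, add_smul, one_smul]
      rcases Int.eq_nat_or_neg n with ⟨m, rfl | rfl⟩
      · refine ⟨(g * a * g⁻¹) ^ m, pow_mem hg m, ?_⟩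
        rw [hpow m _ hg, DD_conj ha, smul_smul, h1]
        simp
      · refine ⟨((g * a * g⁻¹) ^ m)⁻¹, inv_mem (pow_mem hg m), ?_⟩
        rw [DD_inv, hpow m _ hg, DD_conj ha, rho_eq_one.mpr (pow_mem hg m), h1]
        simp [smul_smul, sg_one]

/-- the group element attached to an element of the module -/
noncomputable def el (v : AA r c) : GG r c := v.2.choose

theorem el_mem (v : AA r c) : el v ∈ LL r c (c + 1) := v.2.choose_spec.1
theorem DD_el (v : AA r c) : DD (el v) = v := v.2.choose_spec.2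

/-- the module element attached to an element of the last layer -/
noncomputable def mk (a : GG r c) (ha : a ∈ LL r c (c + 1)) : AA r c := ⟨DD a, a, ha, rfl⟩

theorem el_mk (a : GG r c) (ha : a ∈ LL r c (c + 1)) : el (mk a ha) = a :=
  DD_inj (DD_el _)

theorem el_inj : Function.Injective (el : AA r c → GG r c) := by
  intro u v h
  apply Subtype.ext
  rw [← DD_el, ← DD_el, h]

theorem el_eq {v : AA r c} {g : GG r c} : el v = g ↔ DD g = v :=
  ⟨fun h => by rw [← h, DD_el], fun h => DD_inj ((DD_el v).trans h.symm)⟩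

theorem el_add (u v : AA r c) : el (u + v) = el u * el v := by
  rw [el_eq, DD_mul_left (el_mem u), DD_el, DD_el]
  rfl

theorem el_zero : el (0 : AA r c) = 1 := by
  rw [el_eq, DD_one]
  rfl

theorem el_neg (u : AA r c) : el (-u) = (el u)⁻¹ := by
  have h := el_add (-u) u
  rw [neg_add_cancel, el_zero] at h
  exact eq_inv_of_mul_eq_one_left h.symm

theorem el_sg (g : GG r c) (u : AA r c) : el (sg ℤ (rho r c g) • u) = g * el u * g⁻¹ := by
  rw [el_eq, DD_conj (el_mem u), DD_el]
  rfl

noncomputable instance : Cod (gen r c) (AA r c) where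
  ι := Unit
  fin := inferInstance
  enc v := fun _ => el v
  inj := fun u v h => el_inj (congrFun h ())
  dfn := by
    refine Dfn.congr (DP_LL (r := r) (c := c) (i := c + 1) (by omega)) fun v => ?_
    constructor
    · rintro ⟨g, hg, hA⟩
      refine ⟨mk g hA, ?_⟩
      rw [el_mk]
      exact hg
    · rintro ⟨x, rfl⟩
      exact ⟨el x, rfl, el_mem x⟩

theorem DF.el0 : DF (gen r c) (fun v : AA r c => el v) := by
  refine Dfn.congr (Dfn.and (DP.eq0 (p := gen r c) (X := GG r c))
    ((Cod.dfn (p := gen r c) (X := AA r c)).reindex (Sum.inl : Unit → Unit ⊕ Unit))) fun v => ?_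
  constructor
  · rintro ⟨⟨⟨x, y⟩, hz, hxy⟩, a, ha⟩
    refine ⟨(a, el a), ?_, rfl⟩
    have h1 : v (Sum.inl ()) = el a := (congrFun ha ()).symm
    have h2 : x = v (Sum.inl ()) := congrFun hz (Sum.inl ())
    have h3 : y = v (Sum.inr ()) := congrFun hz (Sum.inr ())
    have h4 : x = y := hxy
    funext i
    rcases i with i | i
    · exact h1.symm
    · show el a = v (Sum.inr ())
      rw [← h1, ← h2, ← h3, h4]
  · rintro ⟨⟨a, n⟩, rfl, h⟩
    obtain rfl : el a = n := h
    exact ⟨⟨(el a, el a), by funext i; rcases i with i | i <;> rfl, rfl⟩, a, rfl⟩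

variable {X : Type} [Cod (gen r c) X]

theorem DF.el {f : X → AA r c} (hf : DF (gen r c) f) : DF (gen r c) (fun x => el (f x)) :=
  DF.comp (f := fun v : AA r c => MP984.el v) DF.el0 hf

theorem DF.of_el {f : X → AA r c} (hf : DF (gen r c) (fun x => MP984.el (f x))) :
    DF (gen r c) f := by
  refine DP.congr (DP.eq (f := fun z : X × AA r c => MP984.el (f z.1))
    (g := fun z : X × AA r c => MP984.el z.2) (hf.comp DF.fst) DF.snd.el) fun z => ?_
  exact ⟨fun h => el_inj h, fun h => congrArg MP984.el h⟩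

theorem DF.aadd {f g : X → AA r c} (hf : DF (gen r c) f) (hg : DF (gen r c) g) :
    DF (gen r c) (fun x => f x + g x) :=
  DF.of_el ((hf.el.mul hg.el).congr fun x => (el_add _ _).symm)

theorem DF.aneg {f : X → AA r c} (hf : DF (gen r c) f) : DF (gen r c) (fun x => - f x) :=
  DF.of_el (hf.el.inv.congr fun x => (el_neg _).symm)

theorem DF.asub {f g : X → AA r c} (hf : DF (gen r c) f) (hg : DF (gen r c) g) :
    DF (gen r c) (fun x => f x - g x) :=
  (hf.aadd hg.aneg).congr fun x => (sub_eq_add_neg _ _).symm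

theorem DF.aconst (a : AA r c) : DF (gen r c) (fun _ : X => a) :=
  DF.of_el (DF.const closure_gen _)

/-- definable operators -/
def DOp (o : X → ZQ r c) : Prop := DF (gen r c) (fun z : X × AA r c => o z.1 • z.2)

theorem DOp.smul {o : X → ZQ r c} (h : DOp o) {f : X → AA r c} (hf : DF (gen r c) f) :
    DF (gen r c) (fun x => o x • f x) :=
  DF.comp (f := fun z : X × AA r c => o z.1 • z.2) (g := fun x => (x, f x)) h (DF.id.pair hf)

theorem DOp.comp {Y : Type} [Cod (gen r c) Y] {o : X → ZQ r c} (h : DOp o) {f : Y → X}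
    (hf : DF (gen r c) f) : DOp (fun y => o (f y)) :=
  DF.comp (f := fun z : X × AA r c => o z.1 • z.2) (g := fun z : Y × AA r c => (f z.1, z.2)) h
    ((hf.comp DF.fst).pair DF.snd)

theorem DOp.congr {o o' : X → ZQ r c} (h : DOp o) (e : ∀ x, o x = o' x) : DOp o' := by
  have : o = o' := funext e
  rwa [← this]

theorem DOp.grp {g : X → GG r c} (hg : DF (gen r c) g) : DOp (fun x => sg ℤ (rho r c (g x))) := by
  refine DF.of_el ?_
  exact (((hg.comp DF.fst).mul DF.snd.el).mul (hg.comp DF.fst).inv).congr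
    fun z => (el_sg _ _).symm

theorem DOp.one : DOp (fun _ : X => (1 : ZQ r c)) :=
  DF.snd.congr fun z => (one_smul _ _).symm

theorem DOp.zero : DOp (fun _ : X => (0 : ZQ r c)) :=
  (DF.aconst 0).congr fun z => (zero_smul _ _).symm

theorem DOp.add {o o' : X → ZQ r c} (h : DOp o) (h' : DOp o') : DOp (fun x => o x + o' x) :=
  (DF.aadd h h').congr fun z => (add_smul _ _ _).symm

theorem DOp.neg {o : X → ZQ r c} (h : DOp o) : DOp (fun x => - o x) :=
  (DF.aneg h).congr fun z => (neg_smul _ _).symm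

theorem DOp.sub {o o' : X → ZQ r c} (h : DOp o) (h' : DOp o') : DOp (fun x => o x - o' x) :=
  (h.add h'.neg).congr fun x => (sub_eq_add_neg _ _).symm

theorem DOp.mul {o o' : X → ZQ r c} (h : DOp o) (h' : DOp o') : DOp (fun x => o x * o' x) :=
  ((h.comp DF.fst).smul (X := X × AA r c) h').congr fun z => smul_smul _ _ _

end Pool.Agent.MP984

end

/-! ## Op -/

section

namespace Pool.Agent.MP984

open MonoidAlgebra FirstOrder FirstOrder.Language
open scoped commutatorElement

attribute [local instance] gstr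

variable {r c : ℕ} {X : Type} [Cod (gen r c) X]

/-- the action of a group element -/
noncomputable abbrev act (g : GG r c) : ZQ r c := sg ℤ (rho r c g)

theorem sub_smulA (x y : ZQ r c) (a : AA r c) : (x - y) • a = x • a - y • a := sub_smul x y a

theorem act_one : act (1 : GG r c) = 1 := by
  rw [act, map_one, sg_one]
theorem act_mul (g h : GG r c) : act (g * h) = act g * act h := by
  rw [act, map_mul, sg_mul]
theorem act_pow (g : GG r c) (n : ℕ) : act (g ^ n) = act g ^ n := by
  induction n with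
  | zero => rw [pow_zero, pow_zero, act_one]
  | succ n ih => rw [pow_succ, pow_succ, act_mul, ih]

theorem AA_ext {u v : AA r c} (h : ∀ j, (u : VV r c) j = (v : VV r c) j) : u = v :=
  Subtype.ext (funext h)

theorem AA_orbit {q : QQ r (c + 1)} (hq : q ≠ 1) {u v : AA r c}
    (h : (sg ℤ q - 1) • u = (sg ℤ q - 1) • v) : u = v := by
  apply AA_ext
  intro j
  have h1 := congrFun (congrArg (fun w : AA r c => (w : VV r c)) h) j
  have h2 : (sg ℤ q - 1) * ((u : VV r c) j - (v : VV r c) j) = 0 := by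
    rw [mul_sub]
    exact sub_eq_zero.mpr h1
  exact sub_eq_zero.mp (orbit_zero (tf _) hq _ h2)

theorem AA_norm {q : QQ r (c + 1)} {u : AA r c}
    (h : ∀ m : ℕ, 2 ≤ m → ∃ v : AA r c, u = (sg ℤ q - (m : ZQ r c)) • v) : u = 0 := by
  apply AA_ext
  intro j
  refine norm_zero q _ fun m hm => ?_
  obtain ⟨v, hv⟩ := h m hm
  refine ⟨(v : VV r c) j, ?_⟩
  rw [hv]
  rfl

theorem AA_deg {u : AA r c}
    (h : ∀ n : ℕ, 1 ≤ n → ∃ v : AA r c, u = (act (gen r c 0 ^ n) - 1) • v) : u = 0 := by
  apply AA_ext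
  intro j
  refine deg_zero (degQ c 0) (rho r c (gen r c 0)) ?_ _ fun n hn => ?_
  · exact degF_of 0
  · obtain ⟨v, hv⟩ := h n hn
    refine ⟨(v : VV r c) j, ?_⟩
    rw [hv, ← map_pow]
    rfl

theorem rho_gen_pow_ne {n : ℕ} (hn : 1 ≤ n) : rho r c (gen r c 0 ^ n) ≠ 1 := by
  intro h
  have h1 : degQ c 0 (rho r c (gen r c 0 ^ n)) = 1 := by rw [h, map_one]
  rw [map_pow, map_pow] at h1
  have h2 : degQ c 0 (rho r c (gen r c 0)) = Multiplicative.ofAdd 1 := degF_of 0
  rw [h2] at h1
  have h3 := congrArg Multiplicative.toAdd h1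
  simp at h3
  omega

theorem telescope {R : Type} [Ring R] (x : R) (k : ℕ) :
    ∃ s : R, x ^ k - 1 - (k : R) * (x - 1) = (x - 1) * (x - 1) * s := by
  induction k with
  | zero => exact ⟨0, by simp⟩
  | succ k ih =>
    obtain ⟨s, hs⟩ := ih
    refine ⟨s * x + k, ?_⟩
    have h1 : x ^ (k + 1) - 1 - ((k + 1 : ℕ) : R) * (x - 1) =
        (x ^ k - 1 - (k : R) * (x - 1)) * x + (k : R) * ((x - 1) * (x - 1)) := by
      rw [pow_succ]
      push_cast
      noncomm_ring
    rw [h1, hs, (Nat.cast_commute k _).eq]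
    noncomm_ring

theorem nat_smul_iff (k : ℕ) (a b : AA r c) :
    (∀ n : ℕ, 1 ≤ n → ∃ d : AA r c, (act (gen r c 0 ^ (n * k)) - 1) • a -
      (act (gen r c 0 ^ n) - 1) • b =
      ((act (gen r c 0 ^ n) - 1) * (act (gen r c 0 ^ n) - 1)) • d) ↔ (k : ZQ r c) • a = b := by
  have key : ∀ n : ℕ, ∃ d : AA r c, (act (gen r c 0 ^ (n * k)) - 1) • a -
      (act (gen r c 0 ^ n) - 1) • ((k : ZQ r c) • a) =
      ((act (gen r c 0 ^ n) - 1) * (act (gen r c 0 ^ n) - 1)) • d := by
    intro n
    obtain ⟨s, hs⟩ := telescope (act (gen r c 0 ^ n)) k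
    refine ⟨s • a, ?_⟩
    rw [smul_smul, smul_smul, ← hs, pow_mul, act_pow (gen r c 0 ^ n) k, ← sub_smulA,
      (Nat.cast_commute k _).eq]
  constructor
  · intro h
    have h1 : b - (k : ZQ r c) • a = 0 := by
      refine AA_deg fun n hn => ?_
      obtain ⟨d, hd⟩ := h n hn
      obtain ⟨d', hd'⟩ := key n
      refine ⟨d' - d, ?_⟩
      refine AA_orbit (rho_gen_pow_ne hn) ?_
      have e1 : (act (gen r c 0 ^ n) - 1) • (b - (k : ZQ r c) • a) =
          ((act (gen r c 0 ^ (n * k)) - 1) • a -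
            (act (gen r c 0 ^ n) - 1) • ((k : ZQ r c) • a)) -
          ((act (gen r c 0 ^ (n * k)) - 1) • a - (act (gen r c 0 ^ n) - 1) • b) := by
        rw [smul_sub]
        abel
      have e2 : (act (gen r c 0 ^ n) - 1) • (b - (k : ZQ r c) • a) =
          (act (gen r c 0 ^ n) - 1) • ((act (gen r c 0 ^ n) - 1) • (d' - d)) := by
        rw [e1, hd, hd', smul_smul, smul_sub]
      exact e2
    exact (sub_eq_zero.mp h1).symm
  · rintro rfl n _
    exact key n

theorem DOp.nat {k : X → ℕ} (hk : DF (gen r c) k) : DOp (fun x => ((k x : ℕ) : ZQ r c)) := by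
  have x1 : DF (gen r c) (fun z : (((X × AA r c) × AA r c) × ℕ) × AA r c => z.1.2) := DF.fst.snd'
  have kk : DF (gen r c) (fun z : (((X × AA r c) × AA r c) × ℕ) × AA r c => k z.1.1.1.1) :=
    hk.comp DF.fst.fst'.fst'.fst'
  have a : DF (gen r c) (fun z : (((X × AA r c) × AA r c) × ℕ) × AA r c => z.1.1.1.2) :=
    DF.fst.fst'.fst'.snd'
  have b : DF (gen r c) (fun z : (((X × AA r c) × AA r c) × ℕ) × AA r c => z.1.1.2) :=
    DF.fst.fst'.snd'
  have d : DF (gen r c) (fun z : (((X × AA r c) × AA r c) × ℕ) × AA r c => z.2) :=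
    DF.snd
  have g1 := (DOp.grp (DF.x0pow x1)).sub DOp.one
  have g2 := (DOp.grp (DF.x0pow (x1.nmul kk))).sub DOp.one
  have h1 : DP (gen r c) (fun z : (X × AA r c) × AA r c => ∀ n : ℕ, 1 ≤ n → ∃ d : AA r c,
      (act (gen r c 0 ^ (n * k z.1.1)) - 1) • z.1.2 - (act (gen r c 0 ^ n) - 1) • z.2 =
      ((act (gen r c 0 ^ n) - 1) * (act (gen r c 0 ^ n) - 1)) • d) :=
    DP.all (DP.imp (DP.nle (DF.nconst 1) DF.snd)
      (DP.ex (DP.eq ((g2.smul a).asub (g1.smul b)) ((g1.mul g1).smul d))))
  exact h1.congr fun z => nat_smul_iff _ _ _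

open Polynomial in
theorem poly_iff (q : QQ r (c + 1)) (s : ℕ → ℕ) (p : ℤ[X]) (hp : ∀ m : ℕ, p.eval (m : ℤ) = s m)
    (a e : AA r c) :
    (∀ m : ℕ, 2 ≤ m → ∃ v : AA r c, e - (s m : ZQ r c) • a = (sg ℤ q - (m : ZQ r c)) • v) ↔
      (aeval (sg ℤ q) p : ZQ r c) • a = e := by
  have key : ∀ m : ℕ, ∃ v : AA r c, (aeval (sg ℤ q) p : ZQ r c) • a - (s m : ZQ r c) • a =
      (sg ℤ q - (m : ZQ r c)) • v := by
    intro m
    obtain ⟨p', hp'⟩ : (Polynomial.X - C (m : ℤ)) ∣ p - C (p.eval (m : ℤ)) :=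
      dvd_iff_isRoot.mpr (by simp)
    refine ⟨(aeval (sg ℤ q) p' : ZQ r c) • a, ?_⟩
    have h1 := congrArg (aeval (sg ℤ q) : ℤ[X] → ZQ r c) hp'
    rw [hp m] at h1
    simp only [map_sub, map_mul, aeval_X, aeval_C] at h1
    rw [← sub_smulA, smul_smul]
    simpa using congrArg (fun z : ZQ r c => z • a) h1
  constructor
  · intro h
    have h1 : e - (aeval (sg ℤ q) p : ZQ r c) • a = 0 := by
      refine AA_norm (q := q) fun m hm => ?_
      obtain ⟨v, hv⟩ := h m hm
      obtain ⟨v', hv'⟩ := key m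
      refine ⟨v - v', ?_⟩
      rw [smul_sub, ← hv, ← hv']
      abel
    exact (sub_eq_zero.mp h1).symm
  · rintro rfl m _
    exact key m

open Polynomial in
theorem DOp.polyS {g : X → GG r c} (hg : DF (gen r c) g) {s : X → ℕ → ℕ}
    (hs : DF (gen r c) (fun z : X × ℕ => s z.1 z.2)) (p : X → ℤ[X])
    (hp : ∀ x, ∀ m : ℕ, (p x).eval (m : ℤ) = s x m) :
    DOp (fun x => (aeval (act (g x)) (p x) : ZQ r c)) := by
  have m : DF (gen r c) (fun z : (((X × AA r c) × AA r c) × ℕ) × AA r c => z.1.2) := DF.fst.snd'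
  have xx : DF (gen r c) (fun z : (((X × AA r c) × AA r c) × ℕ) × AA r c => z.1.1.1.1) :=
    DF.fst.fst'.fst'.fst'
  have a : DF (gen r c) (fun z : (((X × AA r c) × AA r c) × ℕ) × AA r c => z.1.1.1.2) :=
    DF.fst.fst'.fst'.snd'
  have e : DF (gen r c) (fun z : (((X × AA r c) × AA r c) × ℕ) × AA r c => z.1.1.2) :=
    DF.fst.fst'.snd'
  have v : DF (gen r c) (fun z : (((X × AA r c) × AA r c) × ℕ) × AA r c => z.2) :=
    DF.snd
  have ss : DF (gen r c) (fun z : (((X × AA r c) × AA r c) × ℕ) × AA r c =>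
      s z.1.1.1.1 z.1.2) :=
    DF.comp (f := fun z : X × ℕ => s z.1 z.2) hs (xx.pair m)
  have h1 : DP (gen r c) (fun z : (X × AA r c) × AA r c => ∀ m : ℕ, 2 ≤ m → ∃ v : AA r c,
      z.2 - (s z.1.1 m : ZQ r c) • z.1.2 = (act (g z.1.1) - (m : ZQ r c)) • v) :=
    DP.all (DP.imp (DP.nle (DF.nconst 2) DF.snd)
      (DP.ex (DP.eq (e.asub ((DOp.nat ss).smul a))
        (((DOp.grp (hg.comp xx)).sub (DOp.nat m)).smul v))))
  exact h1.congr fun z => poly_iff _ _ _ (hp _) _ _

open Polynomial in
theorem evl_aeval (q : ZQ r c) (L : List ℕ) :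
    (aeval q (evl L (Polynomial.X : ℤ[X])) : ZQ r c) = evl L q := by
  induction L with
  | nil => simp [evl_nil]
  | cons n L ih => rw [evl_cons, evl_cons, map_add, map_mul, ih, aeval_X]; simp

open Polynomial in
theorem evl_eval (L : List ℕ) (m : ℕ) :
    (evl L (Polynomial.X : ℤ[X])).eval (m : ℤ) = (evl L m : ℕ) := by
  induction L with
  | nil => simp [evl_nil]
  | cons n L ih => rw [evl_cons, evl_cons]; simp [ih]

theorem primrec_evl : Primrec₂ (fun (L : List ℕ) (t : ℕ) => evl L t) := by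
  have h : Primrec₂ (fun (z : List ℕ × ℕ) (w : ℕ × ℕ) => w.1 + z.2 * w.2) :=
    Primrec.nat_add.comp (Primrec.fst.comp Primrec.snd)
      (Primrec.nat_mul.comp (Primrec.snd.comp Primrec.fst) (Primrec.snd.comp Primrec.snd))
  exact (Primrec.list_foldr (f := fun z : List ℕ × ℕ => z.1) (g := fun _ => 0)
    (h := fun z w => w.1 + z.2 * w.2) Primrec.fst (Primrec.const 0) h).of_eq fun z => by
      simp [evl]

theorem DOp.poly {g : X → GG r c} (hg : DF (gen r c) g) {L : X → List ℕ}
    (hL : DA (gen r c) L) : DOp (fun x => evl (L x) (act (g x))) := by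
  have h1 : DF (gen r c) (fun z : X × ℕ => evl (L z.1) z.2) :=
    DA.toN (DA.prim₂ primrec_evl (hL.comp DF.fst) (DA.ofN DF.snd))
  exact (DOp.polyS hg h1 (fun x => evl (L x) Polynomial.X) fun x m => evl_eval _ _).congr
    fun x => evl_aeval _ _

end Pool.Agent.MP984

end

/-! ## Code -/

section

namespace Pool.Agent.MP984

open MonoidAlgebra FirstOrder FirstOrder.Language
open scoped commutatorElement

attribute [local instance] gstr

variable {r c : ℕ} {X : Type} [Cod (gen r c) X]

/-! ### the subgroup generated by images of operators -/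

/-- membership in `∑ o • A` -/
def JJ : List (ZQ r c) → AA r c → Prop
  | [], z => z = 0
  | (o :: L), z => ∃ v : AA r c, JJ L (z - o • v)

theorem JJ_zero (L : List (ZQ r c)) : JJ L 0 := by
  induction L with
  | nil => rfl
  | cons o L ih => exact ⟨0, by simpa using ih⟩

theorem JJ_add (L : List (ZQ r c)) {z w : AA r c} (hz : JJ L z) (hw : JJ L w) : JJ L (z + w) := by
  induction L generalizing z w with
  | nil =>
    have h1 : z = 0 := hz
    have h2 : w = 0 := hw
    show z + w = 0
    rw [h1, h2, add_zero]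
  | cons o L ih =>
    obtain ⟨u, hu⟩ := hz
    obtain ⟨v, hv⟩ := hw
    refine ⟨u + v, ?_⟩
    have := ih hu hv
    rw [smul_add]
    convert this using 1
    abel

theorem JJ_neg (L : List (ZQ r c)) {z : AA r c} (hz : JJ L z) : JJ L (-z) := by
  induction L generalizing z with
  | nil =>
    have h1 : z = 0 := hz
    show -z = 0
    rw [h1, neg_zero]
  | cons o L ih =>
    obtain ⟨u, hu⟩ := hz
    refine ⟨-u, ?_⟩
    have := ih hu
    rw [smul_neg]
    convert this using 1
    abel

theorem JJ_sub (L : List (ZQ r c)) {z w : AA r c} (hz : JJ L z) (hw : JJ L w) :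
    JJ L (z - w) := by
  rw [sub_eq_add_neg]
  exact JJ_add L hz (JJ_neg L hw)

theorem JJ_mem (L : List (ZQ r c)) {o : ZQ r c} (ho : o ∈ L) (v : AA r c) : JJ L (o • v) := by
  induction L with
  | nil => simp at ho
  | cons o' L ih =>
    rcases List.mem_cons.mp ho with rfl | ho
    · exact ⟨v, by rw [sub_self]; exact JJ_zero L⟩
    · exact ⟨0, by simpa using ih ho⟩

theorem JJ_func {K : Type} [AddCommGroup K] (L : List (ZQ r c)) (Λ : AA r c →+ K)
    (h : ∀ o ∈ L, ∀ v : AA r c, Λ (o • v) = 0) {z : AA r c} (hz : JJ L z) : Λ z = 0 := by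
  induction L generalizing z with
  | nil =>
    have h1 : z = 0 := hz
    rw [h1, map_zero]
  | cons o L ih =>
    obtain ⟨u, hu⟩ := hz
    have h1 := ih (fun o ho => h o (List.mem_cons_of_mem _ ho)) hu
    rw [map_sub, h o List.mem_cons_self, sub_zero] at h1
    exact h1

theorem DP.JJ {os : List (X → ZQ r c)} (hos : ∀ o ∈ os, DOp o) {f : X → AA r c}
    (hf : DF (gen r c) f) : DP (gen r c) (fun x => MP984.JJ (os.map fun o => o x) (f x)) := by
  have key : ∀ os : List (X → ZQ r c), (∀ o ∈ os, DOp o) →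
      DP (gen r c) (fun z : X × AA r c => MP984.JJ (os.map fun o => o z.1) z.2) := by
    intro os
    induction os with
    | nil =>
      intro _
      exact DP.eq DF.snd (DF.aconst 0)
    | cons o os ih =>
      intro h
      have h1 := ih fun o ho => h o (List.mem_cons_of_mem _ ho)
      have h2 : DOp o := h o List.mem_cons_self
      refine DP.ex (P := fun (z : X × AA r c) v =>
        MP984.JJ (os.map fun o => o z.1) (z.2 - o z.1 • v)) ?_
      exact DP.comp (f := fun z : (X × AA r c) × AA r c => (z.1.1, z.1.2 - o z.1.1 • z.2)) h1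
        (DF.fst.fst'.pair (DF.fst.snd'.asub (DOp.smul (h2.comp DF.fst.fst') DF.snd)))
  exact DP.comp (f := fun x => (x, f x)) (key os hos) (DF.id.pair hf)

/-! ### codes -/

section codes

variable {K : ℕ} (lt : Fin K → ℤ × GG r c)

/-- the operator of a letter -/
noncomputable def opl (j : Fin K) : ZQ r c := ((lt j).1 : ZQ r c) * act (lt j).2
/-- the operator of a word -/
noncomputable def opw (w : List (Fin K)) : ZQ r c := (w.map (opl lt)).prod
/-- the operator of a code -/
noncomputable def opc (γ : List (List (Fin K))) : ZQ r c := (γ.map (opw lt)).sum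

variable (h : GG r c)

/-- the data -/
abbrev Dat (K : ℕ) : Type := (Fin K → List ℕ) × (Fin K → List ℕ)

/-- the operators defining the subgroup -/
noncomputable def opsl (d : Dat K) (l : ℕ) : List (ZQ r c) :=
  (List.finRange K).map (fun j => opl lt j - evl (d.1 j) (act h)) ++
  ((List.finRange K).map (fun j => act ((lt j).2⁻¹ * h * (lt j).2) - evl (d.2 j) (act h)) ++
  [(l : ZQ r c)])

/-- numerical evaluation of a word -/
def Pw (d : Dat K) (w : List (Fin K)) (m : ℕ) : ℕ :=
  (w.foldr (fun x s => (evl (d.2 x) s.1, s.2 * evl (d.1 x) s.1)) ((m, 1) : ℕ × ℕ)).2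

/-- numerical evaluation of a code -/
def Sw (d : Dat K) (γ : List (List (Fin K))) (m : ℕ) : ℕ := (γ.map fun w => Pw d w m).sum

theorem Pw_nil (d : Dat K) (m : ℕ) : Pw d [] m = 1 := rfl

theorem Pw_append (d : Dat K) (w : List (Fin K)) (x : Fin K) (m : ℕ) :
    Pw d (w ++ [x]) m = Pw d w (evl (d.2 x) m) * evl (d.1 x) m := by
  have key : ∀ (w : List (Fin K)) (a b : ℕ),
      (w.foldr (fun x s => (evl (d.2 x) s.1, s.2 * evl (d.1 x) s.1)) ((a, b) : ℕ × ℕ)).2 =
      (w.foldr (fun x s => (evl (d.2 x) s.1, s.2 * evl (d.1 x) s.1)) ((a, 1) : ℕ × ℕ)).2 * b ∧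
      (w.foldr (fun x s => (evl (d.2 x) s.1, s.2 * evl (d.1 x) s.1)) ((a, b) : ℕ × ℕ)).1 =
      (w.foldr (fun x s => (evl (d.2 x) s.1, s.2 * evl (d.1 x) s.1)) ((a, 1) : ℕ × ℕ)).1 := by
    intro w a b
    induction w with
    | nil => simp
    | cons y w ih =>
      simp only [List.foldr_cons]
      rw [ih.1, ih.2]
      exact ⟨by ring, rfl⟩
  unfold Pw
  rw [List.foldr_append]
  simp only [List.foldr_cons, List.foldr_nil, one_mul]
  rw [(key w _ _).1]

theorem pow_sub_of_comm {R : Type} [Ring R] (a b : R) (hab : Commute a b) (n : ℕ) :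
    ∃ s : R, a ^ n - b ^ n = (a - b) * s := by
  induction n with
  | zero => exact ⟨0, by simp⟩
  | succ n ih =>
    obtain ⟨s, hs⟩ := ih
    refine ⟨s * a + b ^ n, ?_⟩
    have e1 : (a - b) * b ^ n = b ^ n * (a - b) := by
      rw [sub_mul, mul_sub, (hab.pow_right n).eq, ((Commute.refl b).pow_right n).eq]
    rw [mul_add, e1, ← mul_assoc, ← hs, pow_succ, pow_succ]
    noncomm_ring

open Polynomial in
theorem aeval_sub_of_comm {R : Type} [Ring R] (a b : R) (hab : Commute a b) (p : ℤ[X]) :
    ∃ s : R, (aeval a p : R) - aeval b p = (a - b) * s := by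
  induction p using Polynomial.induction_on with
  | C z => exact ⟨0, by simp⟩
  | add p q hp hq =>
    obtain ⟨s, hs⟩ := hp
    obtain ⟨t, ht⟩ := hq
    refine ⟨s + t, ?_⟩
    rw [map_add, map_add, mul_add, ← hs, ← ht]
    abel
  | monomial n z hp =>
    obtain ⟨s, hs⟩ := pow_sub_of_comm a b hab (n + 1)
    refine ⟨s * (z : R), ?_⟩
    rw [← mul_assoc, ← hs]
    simp only [map_mul, aeval_C, map_pow, aeval_X]
    rw [Algebra.commutes, Algebra.commutes, ← sub_mul]
    simp

theorem evl_commute {R : Type} [Ring R] {a b : R} (hab : Commute a b) (L : List ℕ) :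
    Commute (evl L a) b := by
  induction L with
  | nil => exact Commute.zero_left b
  | cons n L ih =>
    rw [evl_cons]
    exact (Nat.cast_commute n b).add_left (hab.mul_left ih)

open Polynomial in
theorem aeval_semi {R : Type} [Ring R] {a b x : R} (h : a * x = x * b) (p : ℤ[X]) :
    (aeval a p : R) * x = x * aeval b p := by
  have hp : ∀ n : ℕ, a ^ n * x = x * b ^ n := by
    intro n
    induction n with
    | zero => simp
    | succ n ih => rw [pow_succ, pow_succ, mul_assoc, h, ← mul_assoc, ih, mul_assoc]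
  induction p using Polynomial.induction_on with
  | C z =>
    simp only [aeval_C]
    exact Algebra.commutes z x
  | add p q hp hq => rw [map_add, map_add, add_mul, mul_add, hp, hq]
  | monomial n z _ =>
    simp only [map_mul, aeval_C, map_pow, aeval_X]
    rw [mul_assoc, hp, ← mul_assoc, Algebra.commutes, mul_assoc]

theorem act_semi (h g : GG r c) : act h * act g = act g * act (g⁻¹ * h * g) := by
  rw [← act_mul, ← act_mul]
  congr 1
  group

open Polynomial in
theorem sound_word (hcomm : ∀ g : GG r c, Commute (act h) (act (g⁻¹ * h * g))) (d : Dat K) (l : ℕ)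
    (w : List (Fin K)) : ∃ p : ℤ[X], (∀ m : ℕ, p.eval (m : ℤ) = (Pw d w m : ℕ)) ∧
      ∀ v : AA r c, JJ (opsl lt h d l) (opw lt w • v - (aeval (act h) p : ZQ r c) • v) := by
  induction w using List.reverseRecOn with
  | nil =>
    refine ⟨1, fun m => by simp [Pw_nil], fun v => ?_⟩
    have : opw lt ([] : List (Fin K)) • v - (aeval (act h) (1 : ℤ[X]) : ZQ r c) • v = 0 := by
      simp [opw]
    rw [this]
    exact JJ_zero _
  | append_singleton w x ih =>
    obtain ⟨p, hp1, hp2⟩ := ih
    set U := act h with hU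
    set C := act ((lt x).2⁻¹ * h * (lt x).2) with hC
    set R := evl (d.2 x) U with hR
    set P := evl (d.1 x) U with hP
    have hUC : Commute U C := hcomm _
    have hCR : Commute C R := (evl_commute hUC _).symm
    refine ⟨p.comp (evl (d.2 x) X) * evl (d.1 x) X, fun m => ?_, fun v => ?_⟩
    · rw [Pw_append, eval_mul, eval_comp, evl_eval, hp1, evl_eval]
      push_cast
      rfl
    · obtain ⟨s, hs⟩ : ∃ s : ZQ r c, (aeval C p : ZQ r c) - aeval R p = (C - R) * s :=
        aeval_sub_of_comm C R hCR p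
      have hop : opw lt (w ++ [x]) = opw lt w * opl lt x := by
        simp [opw]
      have hsem : U * opl lt x = opl lt x * C := by
        rw [opl, ← mul_assoc, (Int.cast_commute (lt x).1 U).symm.eq, mul_assoc, act_semi]
        exact (mul_assoc _ _ _).symm
      have e1 : opw lt (w ++ [x]) • v -
          (aeval U (p.comp (evl (d.2 x) X) * evl (d.1 x) X) : ZQ r c) • v =
          (opw lt w • (opl lt x • v) - (aeval U p : ZQ r c) • (opl lt x • v)) +
          ((opl lt x - P) • ((aeval C p : ZQ r c) • v) + (C - R) • ((P * s) • v)) := by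
        have f1 : (aeval U (p.comp (evl (d.2 x) X) * evl (d.1 x) X) : ZQ r c) =
            P * aeval R p := by
          rw [map_mul, aeval_comp, evl_aeval, evl_aeval]
          have : Commute (aeval R p : ZQ r c) P := by
            have hRP : Commute R P := by
              rw [hR, hP]
              exact evl_commute (evl_commute (Commute.refl U) _).symm _
            exact (aeval_semi hRP.eq p)
          exact this.eq
        have f2 : (aeval U p : ZQ r c) * opl lt x = opl lt x * aeval C p := aeval_semi hsem p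
        have f3 : (C - R) * (P * s) = P * (aeval C p - aeval R p) := by
          rw [hs, ← mul_assoc, ← mul_assoc]
          congr 1
          have g1 : Commute P C := evl_commute hUC _
          have g2 : Commute P R := by
            rw [hR, hP]
            exact evl_commute (evl_commute (Commute.refl U) _).symm _
          rw [mul_sub, sub_mul, g1.eq, g2.eq]
        rw [f1, hop]
        simp only [smul_smul]
        rw [f2, f3]
        simp only [← sub_smulA, ← add_smul]
        congr 1
        noncomm_ring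
      rw [e1]
      refine JJ_add _ (hp2 _) (JJ_add _ (JJ_mem _ ?_ _) (JJ_mem _ ?_ _))
      · exact List.mem_append_left _ (List.mem_map.mpr ⟨x, List.mem_finRange x, rfl⟩)
      · exact List.mem_append_right _ (List.mem_append_left _
          (List.mem_map.mpr ⟨x, List.mem_finRange x, rfl⟩))

open Polynomial in
theorem sound_code (hcomm : ∀ g : GG r c, Commute (act h) (act (g⁻¹ * h * g))) (d : Dat K) (l : ℕ)
    (γ : List (List (Fin K))) : ∃ p : ℤ[X], (∀ m : ℕ, p.eval (m : ℤ) = (Sw d γ m : ℕ)) ∧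
      ∀ v : AA r c, JJ (opsl lt h d l) (opc lt γ • v - (aeval (act h) p : ZQ r c) • v) := by
  induction γ with
  | nil =>
    refine ⟨0, fun m => by simp [Sw], fun v => ?_⟩
    have : opc lt ([] : List (List (Fin K))) • v - (aeval (act h) (0 : ℤ[X]) : ZQ r c) • v = 0 := by
      simp [opc]
    rw [this]
    exact JJ_zero _
  | cons w γ ih =>
    obtain ⟨p, hp1, hp2⟩ := ih
    obtain ⟨q, hq1, hq2⟩ := sound_word lt h hcomm d l w
    refine ⟨q + p, fun m => ?_, fun v => ?_⟩
    · rw [eval_add, hp1, hq1]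
      simp [Sw]
    · have e1 : opc lt (w :: γ) • v - (aeval (act h) (q + p) : ZQ r c) • v =
          (opw lt w • v - (aeval (act h) q : ZQ r c) • v) +
          (opc lt γ • v - (aeval (act h) p : ZQ r c) • v) := by
        have : opc lt (w :: γ) = opw lt w + opc lt γ := by simp [opc]
        rw [this, map_add, add_smul, add_smul]
        abel
      rw [e1]
      exact JJ_add _ (hq2 v) (hp2 v)

end codes

end Pool.Agent.MP984

end

/-! ## Key -/

section

namespace Pool.Agent.MP984

open MonoidAlgebra FirstOrder FirstOrder.Language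
open scoped commutatorElement

attribute [local instance] gstr

variable {r c : ℕ} {X : Type} [Cod (gen r c) X] {K : ℕ}

theorem rho_prr {g : GG r c} : prr r c (rho r c g) = 1 ↔ g ∈ LL r c c := by
  obtain ⟨w, rfl⟩ := pr_surj _ g
  rw [mem_LL (by omega)]
  exact pr_eq_one (c := c)

instance LL_normal (i : ℕ) : (LL r c i).Normal :=
  Subgroup.Normal.map inferInstance _ (pr_surj _)

theorem LL_comm {i : ℕ} {a b : GG r c} (ha : a ∈ LL r c i) (hb : b ∈ LL r c i) :
    ⁅a, b⁆ ∈ LL r c (i + 1) := by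
  obtain ⟨u, hu, rfl⟩ := ha
  obtain ⟨v, hv, rfl⟩ := hb
  rw [← map_commutatorElement]
  refine ⟨⁅u, v⁆, ?_, rfl⟩
  show _ ∈ derivedSeries (FF r) (i + 1)
  rw [derivedSeries_succ]
  exact Subgroup.commutator_mem_commutator hu hv

theorem act_commute {a b : GG r c} (ha : a ∈ LL r c c) (hb : b ∈ LL r c c) :
    Commute (act a) (act b) := by
  have h1 := rho_eq_one.mpr (LL_comm ha hb)
  rw [map_commutatorElement, commutatorElement_eq_one_iff_mul_comm] at h1
  show act a * act b = act b * act a
  rw [← sg_mul, ← sg_mul, h1]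

theorem act_commute_conj {h : GG r c} (hh : h ∈ LL r c c) (g : GG r c) :
    Commute (act h) (act (g⁻¹ * h * g)) := by
  refine act_commute hh ?_
  have := (LL_normal (r := r) (c := c) c).conj_mem h hh g⁻¹
  simpa using this

/-- completeness -/
theorem complete (lt : Fin K → ℤ × GG r c) {h : GG r c} (hh : h ∈ LL r c c)
    (hh' : h ∉ LL r c (c + 1)) (z : AA r c)
    (hz : ∀ (d : Dat K) (l : ℕ), JJ (opsl lt h d l) z) : z = 0 := by
  by_contra hne
  obtain ⟨k, hk⟩ : ∃ k, (z : VV r c) k ≠ 0 := by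
    by_contra hcon
    push Not at hcon
    exact hne (Subtype.ext (funext hcon))
  obtain ⟨l, Λ, hΛ, hrep⟩ := rep (rho r c h) (fun e => hh' (rho_eq_one.mp e))
    (rho_prr.mpr hh) _ hk
  choose P hP using fun j : Fin K => hrep (rho r c (lt j).2) (lt j).1
  choose R hR using fun j : Fin K => hrep (rho r c ((lt j).2⁻¹ * h * (lt j).2)) 1
  let Λ' : AA r c →+ ZMod l :=
    { toFun := fun v => Λ ((v : VV r c) k)
      map_zero' := by simp
      map_add' := fun u v => by simp }
  apply hΛ
  refine JJ_func (opsl lt h (P, R) l) Λ' ?_ (hz (P, R) l)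
  intro o ho v
  show Λ (o * (v : VV r c) k) = 0
  rcases List.mem_append.mp ho with ho | ho
  · obtain ⟨j, -, rfl⟩ := List.mem_map.mp ho
    exact hP j _
  · rcases List.mem_append.mp ho with ho | ho
    · obtain ⟨j, -, rfl⟩ := List.mem_map.mp ho
      have := hR j ((v : VV r c) k)
      rw [Int.cast_one, one_mul] at this
      exact this
    · obtain rfl := List.mem_singleton.mp ho
      rw [← nsmul_eq_mul, map_nsmul]
      simp

theorem key_iff (lt : Fin K → ℤ × GG r c) {h : GG r c} (hh : h ∈ LL r c c)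
    (hh' : h ∉ LL r c (c + 1)) (γ : List (List (Fin K))) (a b : AA r c) :
    (∀ (d : Dat K) (l : ℕ), ∃ e : AA r c, (∀ m : ℕ, 2 ≤ m → ∃ v : AA r c,
      e - (Sw d γ m : ZQ r c) • a = (act h - (m : ZQ r c)) • v) ∧
      JJ (opsl lt h d l) (b - e)) ↔ opc lt γ • a = b := by
  have hcomm := act_commute_conj hh
  constructor
  · intro H
    have h1 : b - opc lt γ • a = 0 := by
      refine complete lt hh hh' _ fun d l => ?_
      obtain ⟨e, he, hJ⟩ := H d l
      obtain ⟨p, hp1, hp2⟩ := sound_code lt h hcomm d l γ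
      have h2 := (poly_iff (rho r c h) (fun m => Sw d γ m) p hp1 a e).mp he
      have h3 := JJ_sub _ hJ (hp2 a)
      rw [h2] at h3
      convert h3 using 1
      abel
    exact (sub_eq_zero.mp h1).symm
  · rintro rfl d l
    obtain ⟨p, hp1, hp2⟩ := sound_code lt h hcomm d l γ
    refine ⟨_, (poly_iff (rho r c h) (fun m => Sw d γ m) p hp1 a _).mpr rfl, hp2 a⟩

theorem primrec_Pw : Primrec₂ (fun (d : Dat K × ℕ) (w : List (Fin K)) => Pw d.1 w d.2) := by
  have h1 : Primrec₂ (fun (z : (Dat K × ℕ) × List (Fin K)) (y : Fin K × (ℕ × ℕ)) =>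
      ((evl (z.1.1.2 y.1) y.2.1, y.2.2 * evl (z.1.1.1 y.1) y.2.1) : ℕ × ℕ)) := by
    have a1 : Primrec (fun z : ((Dat K × ℕ) × List (Fin K)) × (Fin K × (ℕ × ℕ)) =>
        z.1.1.1.2 z.2.1) :=
      Primrec.fin_app.comp (Primrec.snd.comp (Primrec.fst.comp (Primrec.fst.comp Primrec.fst)))
        (Primrec.fst.comp Primrec.snd)
    have a2 : Primrec (fun z : ((Dat K × ℕ) × List (Fin K)) × (Fin K × (ℕ × ℕ)) =>
        z.1.1.1.1 z.2.1) :=
      Primrec.fin_app.comp (Primrec.fst.comp (Primrec.fst.comp (Primrec.fst.comp Primrec.fst)))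
        (Primrec.fst.comp Primrec.snd)
    have a3 : Primrec (fun z : ((Dat K × ℕ) × List (Fin K)) × (Fin K × (ℕ × ℕ)) => z.2.2.1) :=
      Primrec.fst.comp (Primrec.snd.comp Primrec.snd)
    have a4 : Primrec (fun z : ((Dat K × ℕ) × List (Fin K)) × (Fin K × (ℕ × ℕ)) => z.2.2.2) :=
      Primrec.snd.comp (Primrec.snd.comp Primrec.snd)
    exact Primrec.pair (primrec_evl.comp a1 a3)
      (Primrec.nat_mul.comp a4 (primrec_evl.comp a2 a3))
  have h2 := Primrec.list_foldr (f := fun z : (Dat K × ℕ) × List (Fin K) => z.2)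
    (g := fun z => (z.1.2, 1)) (h := fun z y => ((evl (z.1.1.2 y.1) y.2.1,
      y.2.2 * evl (z.1.1.1 y.1) y.2.1) : ℕ × ℕ)) Primrec.snd
    (Primrec.pair (Primrec.snd.comp Primrec.fst) (Primrec.const 1)) h1
  exact Primrec.snd.comp h2

theorem primrec_Sw : Primrec₂ (fun (d : Dat K × ℕ) (γ : List (List (Fin K))) => Sw d.1 γ d.2) := by
  have h1 : Primrec (fun z : (Dat K × ℕ) × List (List (Fin K)) =>
      z.2.map fun w => Pw z.1.1 w z.1.2) :=
    Primrec.list_map Primrec.snd (primrec_Pw.comp (Primrec.fst.comp Primrec.fst) Primrec.snd)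
  have h2 : Primrec (fun L : List ℕ => L.sum) := by
    have h3 : Primrec (fun L : List ℕ => L.foldr (fun a b => a + b) 0) :=
      Primrec.list_foldr (f := fun L : List ℕ => L) (g := fun _ => 0)
        (h := fun _ y => y.1 + y.2) Primrec.id (Primrec.const 0)
        (Primrec.nat_add.comp (Primrec.fst.comp Primrec.snd) (Primrec.snd.comp Primrec.snd))
    exact h3.of_eq fun L => rfl
  exact h2.comp h1

theorem DOp.const (q : ZQ r c) : DOp (fun _ : X => q) := by
  induction q using MonoidAlgebra.induction_linear with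
  | zero => exact DOp.zero
  | add x y hx hy => exact hx.add hy
  | single q n =>
    obtain ⟨g, rfl⟩ := rho_surj q
    have h1 : ∀ m : ℕ, DOp (fun _ : X => (m : ZQ r c) * act g) := fun m =>
      (DOp.nat (DF.nconst m)).mul (DOp.grp (DF.const closure_gen g))
    rcases Int.eq_nat_or_neg n with ⟨m, rfl | rfl⟩
    · refine (h1 m).congr fun _ => ?_
      simp [sg, natCast_def, single_mul_single]
    · refine (h1 m).neg.congr fun _ => ?_
      rw [single_neg]
      congr 1
      simp [sg, natCast_def, single_mul_single]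

/-- the action of coded elements of the group ring is definable -/
theorem DOp.code (lt : Fin K → ℤ × GG r c) {γ : X → List (List (Fin K))}
    (hγ : DA (gen r c) γ) : DOp (fun x => opc lt (γ x)) := by
  obtain ⟨w, hw, hw'⟩ := exists_strict' (r := r) c
  set h : GG r c := pr r (c + 2) w with hdef
  have hh : h ∈ LL r c c := (mem_LL (by omega)).mpr hw
  have hh' : h ∉ LL r c (c + 1) := fun e => hw' ((mem_LL (by omega)).mp e)
  refine DP.congr ?_ fun z : (X × AA r c) × AA r c =>
    key_iff lt hh hh' (γ z.1.1) z.1.2 z.2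
  refine DP.allA (DP.all (DP.ex ?_))
  -- context `((((X × AA) × AA) × Cd (Dat K)) × ℕ) × AA`
  have xx : DF (gen r c) (fun z : ((((X × AA r c) × AA r c) × Cd (Dat K)) × ℕ) × AA r c =>
      z.1.1.1.1.1) := DF.fst.fst'.fst'.fst'.fst'
  have aa : DF (gen r c) (fun z : ((((X × AA r c) × AA r c) × Cd (Dat K)) × ℕ) × AA r c =>
      z.1.1.1.1.2) := DF.fst.fst'.fst'.fst'.snd'
  have bb : DF (gen r c) (fun z : ((((X × AA r c) × AA r c) × Cd (Dat K)) × ℕ) × AA r c =>
      z.1.1.1.2) := DF.fst.fst'.fst'.snd'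
  have dd : DA (gen r c) (fun z : ((((X × AA r c) × AA r c) × Cd (Dat K)) × ℕ) × AA r c =>
      z.1.1.2.val) := DF.fst.fst'.snd'
  have ll : DF (gen r c) (fun z : ((((X × AA r c) × AA r c) × Cd (Dat K)) × ℕ) × AA r c =>
      z.1.2) := DF.fst.snd'
  have ee : DF (gen r c) (fun z : ((((X × AA r c) × AA r c) × Cd (Dat K)) × ℕ) × AA r c =>
      z.2) := DF.snd
  have hc : ∀ {W : Type} [Cod (gen r c) W], DF (gen r c) (fun _ : W => h) :=
    DF.const closure_gen h
  refine DP.and ?_ ?_
  · refine DP.all (DP.imp (DP.nle (DF.nconst 2) DF.snd) (DP.ex ?_))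
    have mm : DF (gen r c) (fun z : ((((((X × AA r c) × AA r c) × Cd (Dat K)) × ℕ) × AA r c) × ℕ) ×
        AA r c => z.1.2) := DF.fst.snd'
    have vv : DF (gen r c) (fun z : ((((((X × AA r c) × AA r c) × Cd (Dat K)) × ℕ) × AA r c) × ℕ) ×
        AA r c => z.2) := DF.snd
    have cc : DF (gen r c) (fun z : ((((((X × AA r c) × AA r c) × Cd (Dat K)) × ℕ) × AA r c) × ℕ) ×
        AA r c => z.1.1) := DF.fst.fst'
    have ss : DF (gen r c) (fun z : ((((((X × AA r c) × AA r c) × Cd (Dat K)) × ℕ) × AA r c) × ℕ) ×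
        AA r c => Sw z.1.1.1.1.2.val (γ z.1.1.1.1.1.1.1) z.1.2) :=
      DA.toN (DA.prim₂ primrec_Sw ((dd.comp cc).pair (DA.ofN mm)) ((hγ.comp xx).comp cc))
    exact DP.eq ((ee.comp cc).asub ((DOp.nat ss).smul (aa.comp cc)))
      (((DOp.grp hc).sub (DOp.nat mm)).smul vv)
  · have h1 := DP.JJ (r := r) (c := c) (X := ((((X × AA r c) × AA r c) × Cd (Dat K)) × ℕ) × AA r c)
      (os := (List.finRange K).map (fun j z => opl lt j - evl (z.1.1.2.val.1 j) (act h)) ++
        ((List.finRange K).map (fun j z => act ((lt j).2⁻¹ * h * (lt j).2) -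
          evl (z.1.1.2.val.2 j) (act h)) ++ [fun z => ((z.1.2 : ℕ) : ZQ r c)])) ?_ (bb.asub ee)
    · refine h1.congr fun z => ?_
      rw [List.map_append, List.map_append, List.map_map, List.map_map]
      rfl
    · intro o ho
      rcases List.mem_append.mp ho with ho | ho
      · obtain ⟨j, -, rfl⟩ := List.mem_map.mp ho
        refine (DOp.const _).sub (DOp.poly hc ?_)
        exact DA.prim (g := fun d : Dat K => d.1 j)
          (Primrec.fin_app.comp Primrec.fst (Primrec.const j)) dd
      · rcases List.mem_append.mp ho with ho | ho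
        · obtain ⟨j, -, rfl⟩ := List.mem_map.mp ho
          refine (DOp.const _).sub (DOp.poly hc ?_)
          exact DA.prim (g := fun d : Dat K => d.2 j)
            (Primrec.fin_app.comp Primrec.snd (Primrec.const j)) dd
        · obtain rfl := List.mem_singleton.mp ho
          exact DOp.nat ll

end Pool.Agent.MP984

end

/-! ## Eval -/

section

namespace Pool.Agent.MP984

open MonoidAlgebra FirstOrder FirstOrder.Language
open scoped commutatorElement

attribute [local instance] gstr

variable {r c : ℕ} {X : Type} [Cod (gen r c) X]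

/-! ### algebra of commutators -/

theorem act_of_LL {a : GG r c} (ha : a ∈ LL r c (c + 1)) : act a = 1 := by
  rw [act, rho_eq_one.mpr ha, sg_one]

theorem DD_conj' (u v : GG r c) :
    DD (u * v * u⁻¹) = act u • DD v + (1 - act (u * v * u⁻¹)) • DD u := by
  have h1 : act u * act v * act u⁻¹ = act (u * v * u⁻¹) := by rw [act_mul, act_mul]
  have h2 : sg ℤ (rho r c u)⁻¹ = act u⁻¹ := by rw [act, map_inv]
  have h3 : sg ℤ (rho r c (u * v)) = act u * act v := act_mul u v
  rw [DD_mul, DD_mul, DD_inv, sub_smul, one_smul, ← h1, smul_neg, smul_smul, h2, h3]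
  abel

theorem DD_comm {u v : GG r c} (h : ⁅u, v⁆ ∈ LL r c (c + 1)) :
    DD ⁅u, v⁆ = (1 - act v) • DD u + (act u - 1) • DD v := by
  have h1 : act (u * v) = act (v * u) := by
    have : u * v = ⁅u, v⁆ * (v * u) := by
      rw [commutatorElement_def]
      group
    rw [this, act_mul, act_of_LL h, one_mul]
  have h2 : DD (u * v) = DD ⁅u, v⁆ + DD (v * u) := by
    have : u * v = ⁅u, v⁆ * (v * u) := by
      rw [commutatorElement_def]
      group
    rw [this, DD_mul_left h]
  rw [DD_mul, DD_mul] at h2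
  have h3 : DD ⁅u, v⁆ = DD u + act u • DD v - (DD v + act v • DD u) := by
    rw [eq_sub_iff_add_eq]
    exact h2.symm
  rw [h3, sub_smul, sub_smul, one_smul, one_smul]
  abel

/-- the commutator as an element of the module -/
noncomputable def cm (u v : GG r c) (hu : u ∈ LL r c c) (hv : v ∈ LL r c c) : AA r c :=
  mk ⁅u, v⁆ (LL_comm hu hv)

theorem jacobi {u v t : GG r c} (hu : u ∈ LL r c c) (hv : v ∈ LL r c c) (ht : t ∈ LL r c c) :
    (act t - 1) • DD ⁅u, v⁆ + (act u - 1) • DD ⁅v, t⁆ + (act v - 1) • DD ⁅t, u⁆ = 0 := by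
  rw [DD_comm (LL_comm hu hv), DD_comm (LL_comm hv ht), DD_comm (LL_comm ht hu)]
  have c1 := (act_commute hu hv).eq
  have c2 := (act_commute hv ht).eq
  have c3 := (act_commute ht hu).eq
  simp only [smul_add, smul_smul]
  have e1 : (act t - 1) * (1 - act v) + (act v - 1) * (act t - 1) = 0 := by
    have : (act t - 1) * (1 - act v) + (act v - 1) * (act t - 1) =
      act v * act t - act t * act v := by noncomm_ring
    rw [this, c2, sub_self]
  have e2 : (act t - 1) * (act u - 1) + (act u - 1) * (1 - act t) = 0 := by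
    have : (act t - 1) * (act u - 1) + (act u - 1) * (1 - act t) =
      act t * act u - act u * act t := by noncomm_ring
    rw [this, c3, sub_self]
  have e3 : (act u - 1) * (act v - 1) + (act v - 1) * (1 - act u) = 0 := by
    have : (act u - 1) * (act v - 1) + (act v - 1) * (1 - act u) =
      act u * act v - act v * act u := by noncomm_ring
    rw [this, c1, sub_self]
  calc _ = ((act t - 1) * (1 - act v) + (act v - 1) * (act t - 1)) • DD u +
        ((act t - 1) * (act u - 1) + (act u - 1) * (1 - act t)) • DD v +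
        ((act u - 1) * (act v - 1) + (act v - 1) * (1 - act u)) • DD t := by
          simp only [add_smul]
          abel
    _ = 0 := by rw [e1, e2, e3, zero_smul, zero_smul, zero_smul, add_zero, add_zero]

theorem mem_conj {h : GG r c} (hh : h ∈ LL r c c) (g : GG r c) : g * h * g⁻¹ ∈ LL r c c :=
  (LL_normal (r := r) (c := c) c).conj_mem h hh g

/-- the function `g ↦ [g h g⁻¹, h]` -/
noncomputable def BB (h : GG r c) (hh : h ∈ LL r c c) (g : GG r c) : AA r c :=
  mk ⁅g * h * g⁻¹, h⁆ (LL_comm (mem_conj hh g) hh)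

theorem BB_step {h : GG r c} (hh : h ∈ LL r c c) (w z : GG r c) :
    (act (w * h * w⁻¹) - 1) • BB h hh (w * z) =
      ((act h - 1) * act w) • BB h hh z + (act (w * z * h * (w * z)⁻¹) - 1) • BB h hh w := by
  apply Subtype.ext
  show (act (w * h * w⁻¹) - 1) • DD ⁅w * z * h * (w * z)⁻¹, h⁆ =
    ((act h - 1) * act w) • DD ⁅z * h * z⁻¹, h⁆ +
      (act (w * z * h * (w * z)⁻¹) - 1) • DD ⁅w * h * w⁻¹, h⁆
  have hy := mem_conj hh w
  have hy' := mem_conj hh (w * z)
  have hj := jacobi hy hy' hh
  have e1 : DD ⁅h, w * h * w⁻¹⁆ = - DD ⁅w * h * w⁻¹, h⁆ := by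
    rw [← commutatorElement_inv, DD_inv, rho_eq_one.mpr (LL_comm hy hh), inv_one, sg_one, one_smul]
  have e2 : DD ⁅w * h * w⁻¹, w * z * h * (w * z)⁻¹⁆ = - (act w • DD ⁅z * h * z⁻¹, h⁆) := by
    have : ⁅w * h * w⁻¹, w * z * h * (w * z)⁻¹⁆ = (w * ⁅z * h * z⁻¹, h⁆ * w⁻¹)⁻¹ := by
      simp only [commutatorElement_def]
      group
    rw [this, DD_inv, DD_conj (LL_comm (mem_conj hh z) hh)]
    have h1 : w * ⁅z * h * z⁻¹, h⁆ * w⁻¹ ∈ LL r c (c + 1) :=
      (LL_normal (c + 1)).conj_mem _ (LL_comm (mem_conj hh z) hh) w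
    rw [rho_eq_one.mpr h1, inv_one, sg_one, one_smul]
  rw [e1, e2, smul_neg, smul_neg, smul_smul] at hj
  have := eq_neg_of_add_eq_zero_left hj
  rw [neg_neg, neg_add_eq_sub, sub_eq_iff_eq_add] at this
  rw [this]
  abel

theorem BB_mul_left {h : GG r c} (hh : h ∈ LL r c c) (hh' : h ∉ LL r c (c + 1)) {a : GG r c}
    (ha : a ∈ LL r c (c + 1)) (g : GG r c) (e : BB h hh (a * g) = BB h hh g) : a = 1 := by
  have hy := mem_conj hh g
  have hy2 := mem_conj hh (a * g)
  have e0 : DD ⁅a * g * h * (a * g)⁻¹, h⁆ = DD ⁅g * h * g⁻¹, h⁆ :=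
    congrArg (fun v : AA r c => (v : VV r c)) e
  have hact : act (a * g * h * (a * g)⁻¹) = act (g * h * g⁻¹) := by
    have : a * g * h * (a * g)⁻¹ = a * (g * h * g⁻¹) * a⁻¹ := by group
    rw [this, act_mul, act_mul, act_of_LL ha, act_of_LL (inv_mem ha), one_mul, mul_one]
  have hDD : DD (a * g * h * (a * g)⁻¹) = DD (g * h * g⁻¹) + (1 - act (g * h * g⁻¹)) • DD a := by
    have h1 : a * g * h * (a * g)⁻¹ = a * (g * h * g⁻¹) * a⁻¹ := by group
    rw [h1, DD_conj', ← h1, hact, act_of_LL ha, one_smul]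
  rw [DD_comm (LL_comm hy2 hh), DD_comm (LL_comm hy hh), hact, hDD, smul_add] at e0
  have e1 : (1 - act h) • ((1 - act (g * h * g⁻¹)) • DD a) = 0 := by
    have := add_right_cancel e0
    exact add_eq_left.mp this
  have key : ∀ (y : GG r c) (v : VV r c), y ∉ LL r c (c + 1) → (1 - act y) • v = 0 → v = 0 := by
    intro y v hy hv
    funext j
    refine orbit_zero (tf (c + 1)) (fun h => hy (rho_eq_one.mp h)) _ ?_
    have := congrFun hv j
    have h2 : (1 - act y) * v j = 0 := this
    rw [← neg_sub, neg_mul, neg_eq_zero] at h2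
    exact h2
  have hy' : g * h * g⁻¹ ∉ LL r c (c + 1) := by
    intro h1
    have := (LL_normal (r := r) (c := c) (c + 1)).conj_mem _ h1 g⁻¹
    apply hh'
    simpa [mul_assoc] using this
  exact DD_eq_zero (key _ _ hy' (key _ _ hh' e1))

theorem DF.BB {h : GG r c} (hh : h ∈ LL r c c) {g : X → GG r c} (hg : DF (gen r c) g) :
    DF (gen r c) (fun x => BB h hh (g x)) := by
  refine DF.of_el ?_
  have hc : DF (gen r c) (fun _ : X => h) := DF.const closure_gen h
  have h1 : DF (gen r c) (fun x => (g x * h * (g x)⁻¹) * h * (g x * h * (g x)⁻¹)⁻¹ * h⁻¹) :=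
    ((((hg.mul hc).mul hg.inv).mul hc).mul ((hg.mul hc).mul hg.inv).inv).mul hc.inv
  exact h1.congr fun x => (el_mk _ _).symm

end Pool.Agent.MP984

end

/-! ## Eval2 -/

section

namespace Pool.Agent.MP984

open MonoidAlgebra FirstOrder FirstOrder.Language
open scoped commutatorElement

attribute [local instance] gstr

variable {r c : ℕ} {X : Type} [Cod (gen r c) X]

section general

variable {K : ℕ} (lt : Fin K → ℤ × GG r c)

theorem opw_append (u v : List (Fin K)) : opw lt (u ++ v) = opw lt u * opw lt v := by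
  simp [opw]
theorem opw_cons (j : Fin K) (v : List (Fin K)) : opw lt (j :: v) = opl lt j * opw lt v := by
  simp [opw]
theorem opw_nil : opw lt ([] : List (Fin K)) = 1 := by simp [opw]
theorem opc_nil : opc lt ([] : List (List (Fin K))) = 0 := by simp [opc]
theorem opc_cons (u : List (Fin K)) (γ : List (List (Fin K))) :
    opc lt (u :: γ) = opw lt u + opc lt γ := by simp [opc]
theorem opc_append (γ γ' : List (List (Fin K))) :
    opc lt (γ ++ γ') = opc lt γ + opc lt γ' := by simp [opc]

/-- product of codes -/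
def cmul (γ γ' : List (List (Fin K))) : List (List (Fin K)) :=
  γ.flatMap fun u => γ'.map fun v => u ++ v

theorem opc_map (u : List (Fin K)) (γ : List (List (Fin K))) :
    opc lt (γ.map fun v => u ++ v) = opw lt u * opc lt γ := by
  induction γ with
  | nil => simp [opc_nil]
  | cons v γ ih => rw [List.map_cons, opc_cons, opc_cons, ih, opw_append, mul_add]

theorem opc_cmul (γ γ' : List (List (Fin K))) :
    opc lt (cmul γ γ') = opc lt γ * opc lt γ' := by
  induction γ with
  | nil => simp [cmul, opc_nil]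
  | cons u γ ih =>
    have : cmul (u :: γ) γ' = (γ'.map fun v => u ++ v) ++ cmul γ γ' := by simp [cmul]
    rw [this, opc_append, opc_map, ih, opc_cons, add_mul]

theorem primrec_cmul : Primrec₂ (cmul (K := K)) := by
  refine Primrec.list_flatMap Primrec.fst ?_
  exact Primrec.list_map (Primrec.snd.comp Primrec.fst)
    (Primrec.list_append.comp (Primrec.snd.comp Primrec.fst) Primrec.snd)

variable {N : ℕ}

/-- left multiplication of coded combinations -/
def lmul (γ : List (List (Fin K))) (D : List (Fin N × List (Fin K))) :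
    List (Fin N × List (Fin K)) :=
  γ.flatMap fun u => D.map fun q => (q.1, u ++ q.2)

/-- evaluation of coded combinations -/
noncomputable def evD (b : Fin N → AA r c) (D : List (Fin N × List (Fin K))) : AA r c :=
  (D.map fun q => opw lt q.2 • b q.1).sum

theorem evD_nil (b : Fin N → AA r c) : evD lt b ([] : List (Fin N × List (Fin K))) = 0 := by
  simp [evD]
theorem evD_cons (b : Fin N → AA r c) (q : Fin N × List (Fin K)) (D) :
    evD lt b (q :: D) = opw lt q.2 • b q.1 + evD lt b D := by simp [evD]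
theorem evD_append (b : Fin N → AA r c) (D D' : List (Fin N × List (Fin K))) :
    evD lt b (D ++ D') = evD lt b D + evD lt b D' := by simp [evD]

theorem evD_lmap (b : Fin N → AA r c) (u : List (Fin K)) (D : List (Fin N × List (Fin K))) :
    evD lt b (D.map fun q => (q.1, u ++ q.2)) = opw lt u • evD lt b D := by
  induction D with
  | nil => simp [evD_nil]
  | cons q D ih => rw [List.map_cons, evD_cons, evD_cons, ih, smul_add, opw_append, smul_smul]

theorem evD_lmul (b : Fin N → AA r c) (γ : List (List (Fin K)))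
    (D : List (Fin N × List (Fin K))) : evD lt b (lmul γ D) = opc lt γ • evD lt b D := by
  induction γ with
  | nil => simp [lmul, opc_nil, evD_nil]
  | cons u γ ih =>
    have : lmul (u :: γ) D = (D.map fun q => (q.1, u ++ q.2)) ++ lmul γ D := by simp [lmul]
    rw [this, evD_append, evD_lmap, ih, opc_cons, add_smul]

theorem evD_single (b : Fin N → AA r c) (j : Fin N) (γ : List (List (Fin K))) :
    evD lt b (γ.map fun u => (j, u)) = opc lt γ • b j := by
  induction γ with
  | nil => simp [opc_nil, evD_nil]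
  | cons u γ ih => rw [List.map_cons, evD_cons, ih, opc_cons, add_smul]

/-- selection of a letter -/
def sel (j : Fin N) (D : List (Fin N × List (Fin K))) : List (List (Fin K)) :=
  D.flatMap fun q => if q.1 = j then [q.2] else []

theorem evD_sel (b : Fin N → AA r c) (D : List (Fin N × List (Fin K))) :
    evD lt b D = ∑ j, opc lt (sel j D) • b j := by
  induction D with
  | nil => simp [evD_nil, sel, opc_nil]
  | cons q D ih =>
    have h1 : ∀ j, opc lt (sel j (q :: D)) • b j =
        (if q.1 = j then opw lt q.2 • b j else 0) + opc lt (sel j D) • b j := by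
      intro j
      have : sel j (q :: D) = (if q.1 = j then [q.2] else []) ++ sel j D := by simp [sel]
      rw [this, opc_append, add_smul]
      congr 1
      split_ifs with h
      · rw [opc_cons, opc_nil, add_zero]
      · rw [opc_nil, zero_smul]
    rw [evD_cons, ih, Finset.sum_congr rfl fun j _ => h1 j, Finset.sum_add_distrib]
    congr 1
    simp

theorem primrec_sel (j : Fin N) : Primrec (sel (K := K) j) := by
  refine Primrec.list_flatMap Primrec.id ?_
  refine Primrec.ite ?_ ?_ ?_
  · exact PrimrecRel.comp Primrec.eq (Primrec.fst.comp Primrec.snd) (Primrec.const j)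
  · exact Primrec.list_cons.comp (Primrec.snd.comp Primrec.snd) (Primrec.const [])
  · exact Primrec.const []

theorem primrec_lmul : Primrec₂ (lmul (K := K) (N := N)) := by
  refine Primrec.list_flatMap Primrec.fst ?_
  exact Primrec.list_map (Primrec.snd.comp Primrec.fst)
    (Primrec.pair (Primrec.fst.comp Primrec.snd) (Primrec.list_append.comp
      (Primrec.snd.comp Primrec.fst) (Primrec.snd.comp Primrec.snd)))

theorem DF.asum {ι : Type} (s : Finset ι) {f : ι → X → AA r c}
    (hf : ∀ i, DF (gen r c) (f i)) : DF (gen r c) (fun x => ∑ i ∈ s, f i x) := by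
  classical
  induction s using Finset.induction_on with
  | empty => exact (DF.aconst 0).congr fun x => by simp
  | insert a s ha ih => exact ((hf a).aadd ih).congr fun x => by rw [Finset.sum_insert ha]

theorem DF.evD (b : Fin N → AA r c) {D : X → List (Fin N × List (Fin K))}
    (hD : DA (gen r c) D) : DF (gen r c) (fun x => MP984.evD lt b (D x)) := by
  refine DF.congr (DF.asum Finset.univ (f := fun j x => opc lt (sel j (D x)) • b j) fun j => ?_)
    fun x => (evD_sel lt b _).symm
  exact DOp.smul (DOp.code lt (DA.prim (primrec_sel j) hD)) (DF.aconst _)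

end general

section letters

variable {N : ℕ}

/-- the alphabet -/
abbrev Lam (N : ℕ) : Type := Fin N ⊕ Fin N ⊕ Bool
/-- its size -/
abbrev KK (N : ℕ) : ℕ := Fintype.card (Lam N)
/-- the numbering -/
noncomputable def eqv (N : ℕ) : Lam N ≃ Fin (KK N) := Fintype.equivFin _

variable (z : Fin N → GG r c) (h : GG r c)

/-- the letters -/
def ltt : Lam N → ℤ × GG r c
  | .inl j => (1, z j)
  | .inr (.inl j) => (1, (z j)⁻¹)
  | .inr (.inr false) => (-1, 1)
  | .inr (.inr true) => (1, h)

/-- the numbered letters -/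
noncomputable def ltn (j : Fin (KK N)) : ℤ × GG r c := ltt z h ((eqv N).symm j)

/-- codes of letters -/
noncomputable def a1 (j : Fin N) : Fin (KK N) := eqv N (.inl j)
noncomputable def a2 (j : Fin N) : Fin (KK N) := eqv N (.inr (.inl j))
noncomputable def a3 (N : ℕ) : Fin (KK N) := eqv N (.inr (.inr false))
noncomputable def a4 (N : ℕ) : Fin (KK N) := eqv N (.inr (.inr true))

theorem opl_a1 (j : Fin N) : opl (ltn z h) (a1 j) = act (z j) := by
  simp [opl, ltn, a1, ltt]
theorem opl_a2 (j : Fin N) : opl (ltn z h) (a2 j) = act (z j)⁻¹ := by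
  simp [opl, ltn, a2, ltt]
theorem opl_a3 : opl (ltn z h) (a3 N) = -1 := by
  simp [opl, ltn, a3, ltt, act, sg_one]
theorem opl_a4 : opl (ltn z h) (a4 N) = act h := by
  simp [opl, ltn, a4, ltt]

/-- value of a word, read backwards -/
def rv : List (Fin N) → GG r c
  | [] => 1
  | (j :: w) => rv w * z j

/-- code of the value -/
noncomputable def cw (w : List (Fin N)) : List (Fin (KK N)) := w.reverse.map a1
/-- code of the inverse -/
noncomputable def ciw (w : List (Fin N)) : List (Fin (KK N)) := w.map a2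
/-- code of the conjugate -/
noncomputable def yw (w : List (Fin N)) : List (Fin (KK N)) := cw w ++ (a4 N :: ciw w)
/-- code of the conjugate minus one -/
noncomputable def ym (w : List (Fin N)) : List (List (Fin (KK N))) := [yw w, [a3 N] ]
/-- code of `h - 1` -/
noncomputable def hm (N : ℕ) : List (List (Fin (KK N))) := [ [a4 N], [a3 N] ]

theorem opw_cw (w : List (Fin N)) : opw (ltn z h) (cw w) = act (rv z w) := by
  induction w with
  | nil => simp [cw, opw_nil, rv, act_one]
  | cons j w ih =>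
    have : cw (j :: w) = cw w ++ [a1 j] := by simp [cw]
    rw [this, opw_append, ih, opw_cons, opw_nil, mul_one, opl_a1, rv, act_mul]

theorem opw_ciw (w : List (Fin N)) : opw (ltn z h) (ciw w) = act (rv z w)⁻¹ := by
  induction w with
  | nil => simp [ciw, opw_nil, rv, act, sg_one]
  | cons j w ih =>
    have : ciw (j :: w) = a2 j :: ciw w := by simp [ciw]
    rw [this, opw_cons, ih, opl_a2, rv, mul_inv_rev, act_mul]

theorem opw_yw (w : List (Fin N)) : opw (ltn z h) (yw w) = act (rv z w * h * (rv z w)⁻¹) := by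
  rw [yw, opw_append, opw_cons, opw_cw, opw_ciw, opl_a4, act_mul, act_mul, mul_assoc]

theorem opc_ym (w : List (Fin N)) :
    opc (ltn z h) (ym w) = act (rv z w * h * (rv z w)⁻¹) - 1 := by
  rw [ym, opc_cons, opc_cons, opc_nil, opw_yw, opw_cons, opw_nil, opl_a3]
  simp [sub_eq_add_neg]

theorem opc_hm : opc (ltn z h) (hm N) = act h - 1 := by
  rw [hm, opc_cons, opc_cons, opc_nil, opw_cons, opw_cons, opw_nil, opl_a3, opl_a4]
  simp [sub_eq_add_neg]

/-- the denominators -/
noncomputable def PiC : List (Fin N) → List (List (Fin (KK N)))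
  | [] => [ [] ]
  | (_ :: w) => cmul (PiC w) (ym w)

/-- the numerators -/
noncomputable def DeC : List (Fin N) → List (Fin N × List (Fin (KK N)))
  | [] => []
  | (j :: w) => lmul (ym (j :: w)) (DeC w) ++
      (cmul (PiC w) (cmul (hm N) [cw w])).map fun u => (j, u)

theorem PiC_commute (hh : h ∈ LL r c c) (w : List (Fin N)) (g : GG r c) (hg : g ∈ LL r c c) :
    Commute (opc (ltn z h) (PiC w)) (act g) := by
  induction w with
  | nil =>
    have : opc (ltn z h) (PiC ([] : List (Fin N))) = 1 := by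
      rw [PiC, opc_cons, opc_nil, opw_nil, add_zero]
    rw [this]
    exact Commute.one_left _
  | cons j w ih =>
    rw [PiC, opc_cmul, opc_ym]
    exact ih.mul_left ((act_commute (mem_conj hh _) hg).sub_left (Commute.one_left _))

theorem PiC_inj (hh' : h ∉ LL r c (c + 1)) (w : List (Fin N)) (u v : AA r c)
    (huv : opc (ltn z h) (PiC w) • u = opc (ltn z h) (PiC w) • v) : u = v := by
  induction w generalizing u v with
  | nil =>
    have : opc (ltn z h) (PiC ([] : List (Fin N))) = 1 := by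
      rw [PiC, opc_cons, opc_nil, opw_nil, add_zero]
    rwa [this, one_smul, one_smul] at huv
  | cons j w ih =>
    rw [PiC, opc_cmul, opc_ym, mul_smul, mul_smul] at huv
    have h1 := ih _ _ huv
    refine AA_orbit ?_ h1
    intro h2
    have h3 := rho_eq_one.mp h2
    have := (LL_normal (r := r) (c := c) (c + 1)).conj_mem _ h3 (rv z w)⁻¹
    apply hh'
    simpa [mul_assoc] using this

theorem PiC_eq (hh : h ∈ LL r c c) (w : List (Fin N)) :
    opc (ltn z h) (PiC w) • BB h hh (rv z w) =
      evD (ltn z h) (fun j => BB h hh (z j)) (DeC w) := by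
  induction w with
  | nil =>
    have h1 : BB h hh (rv z ([] : List (Fin N))) = 0 := by
      apply el_inj
      rw [el_zero, BB, el_mk]
      simp [rv]
    rw [h1, smul_zero, DeC, evD_nil]
  | cons j w ih =>
    rw [PiC, DeC, evD_append, evD_lmul, evD_single, ← ih, opc_cmul, opc_cmul, opc_cmul, opc_ym,
      opc_ym, opc_hm, opc_cons, opc_nil, add_zero, opw_cw, mul_smul]
    have h1 := BB_step hh (rv z w) (z j)
    have h2 : rv z (j :: w) = rv z w * z j := rfl
    have h3 := PiC_commute z h hh w _ (mem_conj hh (rv z w * z j))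
    have h4 : opc (ltn z h) (PiC w) * (act (rv z w * z j * h * (rv z w * z j)⁻¹) - 1) =
        (act (rv z w * z j * h * (rv z w * z j)⁻¹) - 1) * opc (ltn z h) (PiC w) := by
      rw [mul_sub, sub_mul, mul_one, one_mul, h3.eq]
    rw [h2, h1, smul_add, smul_smul, smul_smul, smul_smul, h4]
    exact add_comm _ _

end letters

end Pool.Agent.MP984

end

/-! ## Eval3 -/

section

namespace Pool.Agent.MP984

open MonoidAlgebra FirstOrder FirstOrder.Language
open scoped commutatorElement

attribute [local instance] gstr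

variable {r c : ℕ} {X : Type} [Cod (gen r c) X] {N : ℕ}

theorem primrec_cw : Primrec (cw (N := N)) :=
  Primrec.list_map Primrec.list_reverse ((Primrec.dom_finite a1).comp Primrec.snd)

theorem primrec_ciw : Primrec (ciw (N := N)) :=
  Primrec.list_map Primrec.id ((Primrec.dom_finite a2).comp Primrec.snd)

theorem primrec_yw : Primrec (yw (N := N)) :=
  Primrec.list_append.comp primrec_cw (Primrec.list_cons.comp (Primrec.const _) primrec_ciw)

theorem primrec_ym : Primrec (ym (N := N)) :=
  Primrec.list_cons.comp primrec_yw (Primrec.const _)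

theorem primrec_PiC : Primrec (PiC (N := N)) := by
  have h1 : Primrec₂ (fun (_ : List (Fin N)) (y : Fin N × List (Fin N) × List (List (Fin (KK N)))) =>
      cmul y.2.2 (ym y.2.1)) :=
    primrec_cmul.comp (Primrec.snd.comp (Primrec.snd.comp Primrec.snd))
      (primrec_ym.comp (Primrec.fst.comp (Primrec.snd.comp Primrec.snd)))
  have h2 := Primrec.list_rec (f := fun w : List (Fin N) => w) (g := fun _ => [ [] ])
    (h := fun _ y => cmul y.2.2 (ym y.2.1)) Primrec.id (Primrec.const _) h1
  refine h2.of_eq fun w => ?_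
  induction w with
  | nil => rfl
  | cons j w ih =>
    rw [PiC, ← ih]

theorem primrec_DeC : Primrec (DeC (N := N)) := by
  have h1 : Primrec₂ (fun (_ : List (Fin N))
      (y : Fin N × List (Fin N) × List (Fin N × List (Fin (KK N)))) =>
      lmul (ym (y.1 :: y.2.1)) y.2.2 ++
        (cmul (PiC y.2.1) (cmul (hm N) [cw y.2.1])).map fun u => (y.1, u)) := by
    have b1 : Primrec (fun z : List (Fin N) ×
        (Fin N × List (Fin N) × List (Fin N × List (Fin (KK N)))) => z.2.1) :=
      Primrec.fst.comp Primrec.snd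
    have b2 : Primrec (fun z : List (Fin N) ×
        (Fin N × List (Fin N) × List (Fin N × List (Fin (KK N)))) => z.2.2.1) :=
      Primrec.fst.comp (Primrec.snd.comp Primrec.snd)
    have b3 : Primrec (fun z : List (Fin N) ×
        (Fin N × List (Fin N) × List (Fin N × List (Fin (KK N)))) => z.2.2.2) :=
      Primrec.snd.comp (Primrec.snd.comp Primrec.snd)
    refine Primrec.list_append.comp
      (primrec_lmul.comp (primrec_ym.comp (Primrec.list_cons.comp b1 b2)) b3) ?_
    exact Primrec.list_map (primrec_cmul.comp (primrec_PiC.comp b2)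
      (primrec_cmul.comp (Primrec.const _) (Primrec.list_cons.comp (primrec_cw.comp b2)
        (Primrec.const _)))) (Primrec.pair (b1.comp Primrec.fst) Primrec.snd)
  have h2 := Primrec.list_rec (f := fun w : List (Fin N) => w) (g := fun _ => [])
    (h := fun _ y => lmul (ym (y.1 :: y.2.1)) y.2.2 ++
        (cmul (PiC y.2.1) (cmul (hm N) [cw y.2.1])).map fun u => (y.1, u)) Primrec.id
      (Primrec.const _) h1
  refine h2.of_eq fun w => ?_
  induction w with
  | nil => rfl
  | cons j w ih =>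
    rw [DeC, ← ih]

theorem exists_a0 : ∃ a : AA r c, a ≠ 0 := by
  obtain ⟨w, hw, hw'⟩ := exists_strict' (r := r) (c + 1)
  refine ⟨mk (pr r (c + 2) w) ((mem_LL (by omega)).mpr hw), fun h => hw' ?_⟩
  have h1 := congrArg el h
  rw [el_mk, el_zero] at h1
  exact pr_eq_one.mp h1

theorem eval_iff (z : Fin N → GG r c) {h : GG r c} (hh : h ∈ LL r c c)
    (hh' : h ∉ LL r c (c + 1)) {a : AA r c} (ha : a ≠ 0) (w : List (Fin N)) (g : GG r c) :
    (opc (ltn z h) [cw w] • a = act g • a ∧
      opc (ltn z h) (PiC w) • BB h hh g = evD (ltn z h) (fun j => BB h hh (z j)) (DeC w)) ↔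
    rv z w = g := by
  constructor
  · rintro ⟨h1, h2⟩
    rw [opc_cons, opc_nil, add_zero, opw_cw] at h1
    have h3 : rho r c g = rho r c (rv z w) := by
      by_contra hne
      apply ha
      have hne' : (rho r c (rv z w))⁻¹ * rho r c g ≠ 1 := fun e => hne (inv_mul_eq_one.mp e).symm
      refine AA_orbit hne' (v := 0) ?_
      rw [smul_zero, sub_smulA, one_smul, sg_mul, mul_smul]
      rw [show sg ℤ (rho r c g) • a = act (rv z w) • a from h1.symm, ← mul_smul]
      rw [show sg ℤ (rho r c (rv z w))⁻¹ * act (rv z w) = 1 from sg_inv_mul _, one_smul, sub_self]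
    have h4 : g * (rv z w)⁻¹ ∈ LL r c (c + 1) := by
      rw [← rho_eq_one, map_mul, map_inv, h3, mul_inv_cancel]
    rw [← PiC_eq] at h2
    have h5 := PiC_inj z h hh' w _ _ h2
    have h6 := BB_mul_left hh hh' h4 (rv z w) (by rw [inv_mul_cancel_right]; exact h5)
    exact (mul_inv_eq_one.mp h6).symm
  · rintro rfl
    refine ⟨?_, PiC_eq z h hh w⟩
    rw [opc_cons, opc_nil, add_zero, opw_cw]

/-- definability of the evaluation of words -/
theorem DP.eval (z : Fin N → GG r c) {f : X → List (Fin N)} (hf : DA (gen r c) f)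
    {g : X → GG r c} (hg : DF (gen r c) g) : DP (gen r c) (fun x => rv z (f x) = g x) := by
  obtain ⟨w, hw, hw'⟩ := exists_strict' (r := r) c
  have hh : pr r (c + 2) w ∈ LL r c c := (mem_LL (by omega)).mpr hw
  have hh' : pr r (c + 2) w ∉ LL r c (c + 1) := fun e => hw' ((mem_LL (by omega)).mp e)
  obtain ⟨a, ha⟩ := exists_a0 (r := r) (c := c)
  refine DP.congr (DP.and (DP.eq ?_ ?_) (DP.eq ?_ ?_)) fun x => eval_iff z hh hh' ha (f x) (g x)
  · exact DOp.smul (DOp.code _ (DA.prim (g := fun w : List (Fin N) => [cw w])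
      (Primrec.list_cons.comp primrec_cw (Primrec.const _)) hf)) (DF.aconst _)
  · exact DOp.smul (DOp.grp hg) (DF.aconst _)
  · exact DOp.smul (DOp.code _ (DA.prim primrec_PiC hf)) (DF.BB hh hg)
  · exact DF.evD _ _ (DA.prim primrec_DeC hf)

end Pool.Agent.MP984

end
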