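import Mathlib

/-!
# Fox calculus and the Magnus embedding

For a homomorphism `π : FreeGroup α →* Q` we define the Fox derivatives
`fox π w : α → ℤ[Q]` and prove

* `fox_mul`, `fox_inv`;
* `sum_fox` : `∑ i, fox π w i * (x_i - 1) = w - 1`;
* `magnus` : if `π w = 1` and `fox π w = 0` then `w ∈ ⁅ker π, ker π⁆`.
-/

set_option autoImplicit false

namespace FS984

open MonoidAlgebra

/-- the Magnus group `ℤ[Q]^α ⋊ Q`. -/
@[ext] structure Mag (α Q : Type*) [Group Q] where
  d : α → MonoidAlgebra ℤ Q
  q : Q

namespace Mag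

variable {α Q : Type*} [Group Q]

noncomputable instance : Mul (Mag α Q) :=
  ⟨fun a b => ⟨fun i => a.d i + of ℤ Q a.q * b.d i, a.q * b.q⟩⟩

noncomputable instance : One (Mag α Q) := ⟨⟨0, 1⟩⟩

noncomputable instance : Inv (Mag α Q) :=
  ⟨fun a => ⟨fun i => - (of ℤ Q a.q⁻¹ * a.d i), a.q⁻¹⟩⟩

theorem mul_d (a b : Mag α Q) (i : α) : (a * b).d i = a.d i + of ℤ Q a.q * b.d i := rfl

@[simp] theorem mul_q (a b : Mag α Q) : (a * b).q = a.q * b.q := rfl

@[simp] theorem one_d : (1 : Mag α Q).d = 0 := rfl

@[simp] theorem one_q : (1 : Mag α Q).q = 1 := rfl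

theorem inv_d (a : Mag α Q) (i : α) : (a⁻¹).d i = - (of ℤ Q a.q⁻¹ * a.d i) := rfl

@[simp] theorem inv_q (a : Mag α Q) : (a⁻¹).q = a.q⁻¹ := rfl

noncomputable instance : Group (Mag α Q) := by
  refine Group.ofLeftAxioms ?_ ?_ ?_
  · intro a b c
    ext1
    · funext i
      simp only [mul_d, mul_q, map_mul, mul_add, mul_assoc, add_assoc]
    · simp only [mul_q, mul_assoc]
  · intro a
    ext1
    · funext i
      simp only [mul_d, one_d, one_q, map_one, one_mul, Pi.zero_apply, zero_add]
    · simp only [mul_q, one_q, one_mul]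
  · intro a
    ext1
    · funext i
      simp only [mul_d, inv_d, inv_q, one_d, Pi.zero_apply, neg_add_cancel]
    · simp only [mul_q, inv_q, inv_mul_cancel, one_q]

/-- projection to `Q` -/
noncomputable def toQ : Mag α Q →* Q where
  toFun a := a.q
  map_one' := rfl
  map_mul' _ _ := rfl

@[simp] theorem toQ_apply (a : Mag α Q) : toQ a = a.q := rfl

end Mag

section Fox

variable {α : Type*} [DecidableEq α] {Q : Type*} [Group Q] (π : FreeGroup α →* Q)

/-- the Magnus homomorphism -/
noncomputable def mag : FreeGroup α →* Mag α Q :=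
  FreeGroup.lift (fun i => ⟨Pi.single i 1, π (FreeGroup.of i)⟩)

theorem mag_q (w : FreeGroup α) : (mag π w).q = π w := by
  have h : Mag.toQ.comp (mag π) = π := by
    apply FreeGroup.ext_hom
    intro i
    simp [mag]
  exact DFunLike.congr_fun h w

/-- Fox derivatives with values in `ℤ[Q]` -/
noncomputable def fox (w : FreeGroup α) : α → MonoidAlgebra ℤ Q := (mag π w).d

@[simp] theorem fox_one : fox π 1 = 0 := by
  simp [fox]

theorem fox_of (i : α) : fox π (FreeGroup.of i) = Pi.single i 1 := by
  simp [fox, mag]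

theorem fox_mul (u v : FreeGroup α) (i : α) :
    fox π (u * v) i = fox π u i + of ℤ Q (π u) * fox π v i := by
  simp only [fox, map_mul, Mag.mul_d, mag_q]

theorem fox_inv (u : FreeGroup α) (i : α) :
    fox π u⁻¹ i = - (of ℤ Q (π u)⁻¹ * fox π u i) := by
  simp only [fox, map_inv, Mag.inv_d, mag_q]

/-- The fundamental formula of Fox calculus. -/
theorem sum_fox [Fintype α] (w : FreeGroup α) :
    ∑ i, fox π w i * (of ℤ Q (π (FreeGroup.of i)) - 1) = of ℤ Q (π w) - 1 := by
  induction w using FreeGroup.induction_on with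
  | C1 =>
    rw [fox_one, map_one, map_one, sub_self]
    simp
  | of x =>
    rw [fox_of]
    rw [Finset.sum_eq_single x]
    · simp
    · intro b _ hb
      simp [hb]
    · simp
  | inv_of x hx =>
    simp only [fox_inv]
    simp only [neg_mul, mul_assoc, Finset.sum_neg_distrib, ← Finset.mul_sum]
    change - (of ℤ Q (π (FreeGroup.of x))⁻¹ * ∑ i, fox π (FreeGroup.of x) i * (of ℤ Q (π (FreeGroup.of i)) - 1)) = _
    change ∑ i, fox π (FreeGroup.of x) i * (of ℤ Q (π (FreeGroup.of i)) - 1) = _ at hx
    have h1 : of ℤ Q (π (FreeGroup.of x))⁻¹ * of ℤ Q (π (FreeGroup.of x)) = 1 := by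
      rw [← map_mul, inv_mul_cancel, map_one]
    rw [hx, mul_sub, h1, mul_one, neg_sub]
    congr 2
    exact (map_inv π _).symm
  | mul u v hu hv =>
    simp only [fox_mul, add_mul, mul_assoc, Finset.sum_add_distrib, ← Finset.mul_sum, hu, hv]
    rw [map_mul, map_mul]
    noncomm_ring

/-- if the Fox derivatives vanish then `w` is in the kernel -/
theorem eq_one_of_fox_eq_zero [Fintype α] {w : FreeGroup α} (h : fox π w = 0) : π w = 1 := by
  have := sum_fox π w
  rw [h] at this
  simp only [Pi.zero_apply, zero_mul, Finset.sum_const_zero] at this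
  have h2 : of ℤ Q (π w) = of ℤ Q 1 := by
    rw [map_one]
    exact (sub_eq_zero.mp this.symm)
  exact MonoidAlgebra.of_injective h2

section MagnusThm

omit [DecidableEq α]

open Classical in
/-- a section of `π` with `σ 1 = 1` -/
noncomputable def sec (q : Q) : FreeGroup α :=
  if q = 1 then 1 else if h : ∃ w, π w = q then h.choose else 1

theorem sec_one : sec π 1 = 1 := by simp [sec]

theorem sec_spec (w : FreeGroup α) : π (sec π (π w)) = π w := by
  unfold sec
  split_ifs with h1 h2
  · rw [h1, map_one]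
  · exact h2.choose_spec
  · exact absurd ⟨w, rfl⟩ h2

open Classical in
/-- the element `σ(q) x_i σ(q x_i)⁻¹` of the kernel (or `1`). -/
noncomputable def edge (q : Q) (i : α) : π.ker :=
  if h : π (sec π q * FreeGroup.of i * (sec π (q * π (FreeGroup.of i)))⁻¹) = 1 then
    ⟨sec π q * FreeGroup.of i * (sec π (q * π (FreeGroup.of i)))⁻¹, h⟩ else 1

theorem edge_coe (w : FreeGroup α) (i : α) :
    (edge π (π w) i : FreeGroup α) =
      sec π (π w) * FreeGroup.of i * (sec π (π (w * FreeGroup.of i)))⁻¹ := by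
  unfold edge
  rw [← map_mul, dif_pos]
  rw [map_mul, map_mul, map_inv, sec_spec, sec_spec, map_mul]
  group

/-- class in the abelianization of the kernel, additively -/
def cls (k : π.ker) : Additive (Abelianization π.ker) :=
  Additive.ofMul (Abelianization.of k)

theorem cls_mul (a b : π.ker) : cls π (a * b) = cls π a + cls π b := by
  simp [cls]

/-- the kernel element `w σ(w)⁻¹`. -/
noncomputable def kap (w : FreeGroup α) : π.ker :=
  ⟨w * (sec π (π w))⁻¹, by rw [MonoidHom.mem_ker, map_mul, map_inv, sec_spec, mul_inv_cancel]⟩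

theorem kap_mul_of (u : FreeGroup α) (i : α) :
    kap π (u * FreeGroup.of i) = kap π u * edge π (π u) i := by
  apply Subtype.ext
  rw [Subgroup.coe_mul, edge_coe]
  simp only [kap]
  group

variable [Fintype α]

/-- the additive map `ℤ[Q]^α → N^ab`. -/
noncomputable def psi : (α → MonoidAlgebra ℤ Q) →+ Additive (Abelianization π.ker) :=
  ∑ i, (((Finsupp.liftAddHom (fun q => zmultiplesHom _ (cls π (edge π q i)))).comp
    (MonoidAlgebra.coeffAddEquiv (R := ℤ) (M := Q)).toAddMonoidHom).comp
      (Pi.evalAddMonoidHom (fun _ : α => MonoidAlgebra ℤ Q) i))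

theorem psi_single [DecidableEq α] (q : Q) (i : α) :
    psi π (Pi.single i (of ℤ Q q)) = cls π (edge π q i) := by
  classical
  unfold psi
  rw [AddMonoidHom.finsetSum_apply]
  rw [Finset.sum_eq_single i]
  · simp
  · intro b _ hb
    simp [hb]
  · simp

theorem psi_fox [DecidableEq α] (v u : FreeGroup α) :
    psi π (fox π (u * v)) - psi π (fox π u) = cls π (kap π (u * v)) - cls π (kap π u) := by
  induction v using FreeGroup.induction_on generalizing u with
  | C1 => simp
  | of x =>
    rw [← map_sub, kap_mul_of, cls_mul, add_sub_cancel_left, ← psi_single]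
    congr 1
    funext i
    rw [Pi.sub_apply, fox_mul, add_sub_cancel_left, fox_of]
    by_cases hi : i = x
    · subst hi; simp
    · simp [hi]
  | inv_of x hx =>
    have := hx (u * (FreeGroup.of x)⁻¹)
    change psi π (fox π (u * (FreeGroup.of x)⁻¹ * FreeGroup.of x)) - _ = cls π (kap π (u * (FreeGroup.of x)⁻¹ * FreeGroup.of x)) - _ at this
    rw [inv_mul_cancel_right] at this
    change psi π (fox π (u * (FreeGroup.of x)⁻¹)) - _ = cls π (kap π (u * (FreeGroup.of x)⁻¹)) - _
    rw [← neg_sub, this, neg_sub]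
  | mul a b ha hb =>
    have h1 := ha u
    have h2 := hb (u * a)
    rw [← mul_assoc]
    rw [← sub_add_sub_cancel _ (psi π (fox π (u * a))), h1, h2, sub_add_sub_cancel]

/-- **Magnus' theorem**: a word in the kernel with zero Fox derivatives lies in the commutator
subgroup of the kernel. -/
theorem magnus [DecidableEq α] {w : FreeGroup α} (h : fox π w = 0) :
    w ∈ ⁅π.ker, π.ker⁆ := by
  have hw := eq_one_of_fox_eq_zero π h
  have h1 := psi_fox π w 1
  rw [one_mul, h, fox_one, sub_self] at h1
  have h2 : kap π w = ⟨w, hw⟩ := by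
    apply Subtype.ext
    simp only [kap]
    rw [hw, sec_one, inv_one, mul_one]
  have h3 : kap π 1 = 1 := by
    apply Subtype.ext
    simp only [kap]
    rw [map_one, sec_one, inv_one, mul_one]; rfl
  rw [h2, h3] at h1
  have h4 : cls π ⟨w, hw⟩ = 0 := by
    have : cls π (1 : π.ker) = 0 := by simp [cls]
    rw [this, sub_zero] at h1
    exact h1.symm
  have h5 : (⟨w, hw⟩ : π.ker) ∈ commutator π.ker := by
    rw [← Abelianization.ker_of]
    exact h4
  have h6 := Subgroup.mem_map_of_mem π.ker.subtype h5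
  rw [commutator_def, Subgroup.map_commutator, ← MonoidHom.range_eq_map,
    Subgroup.range_subtype] at h6
  exact h6

omit [Fintype α] in
/-- converse of Magnus' theorem -/
theorem fox_eq_zero_of_mem [DecidableEq α] {w : FreeGroup α} (h : w ∈ ⁅π.ker, π.ker⁆) :
    fox π w = 0 := by
  have key : ⁅π.ker, π.ker⁆ ≤ (mag π).ker := by
    rw [Subgroup.commutator_le]
    intro a ha b hb
    rw [MonoidHom.mem_ker, map_commutatorElement, commutatorElement_eq_one_iff_mul_comm]
    rw [MonoidHom.mem_ker] at ha hb
    ext1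
    · funext i
      rw [Mag.mul_d, Mag.mul_d, mag_q, mag_q, ha, hb, map_one, one_mul, one_mul, add_comm]
    · rw [Mag.mul_q, Mag.mul_q, mag_q, mag_q, ha, hb]
  have := key h
  rw [MonoidHom.mem_ker] at this
  rw [fox, this]; rfl

end MagnusThm

end Fox

end FS984
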