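import Pool.Agent.Lib.MP_984cf2_lc.Eval

set_option autoImplicit false

/-! ## Beta -/

section

namespace Pool.Agent.MP984

open scoped commutatorElement

/-- the letters of a tuple -/
def zz {n : ℕ} {G : Type} [Group G] (y : Fin n → G) (j : Fin n × Bool) : G :=
  if j.2 then y j.1 else (y j.1)⁻¹

/-- the property forcing generation -/
def Beta {n : ℕ} {G : Type} [Group G] (y : Fin n → G) (x : G) (D NN : G → Prop)
    (E : G → G → Prop) : Prop :=
  (D 1 ∧ (∀ a b, D a → D b → D (a * b)) ∧ (∀ a, D a → D a⁻¹) ∧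
    ∀ a b : G, D (a * b * a⁻¹ * b⁻¹)) ∧
  (∀ v, v * x = x * v → D v → v = 1) ∧
  (∀ v, v * x = x * v → ∃ t, t * x = x * t ∧ (v = t * t ∨ v = t * t * x)) ∧
  (∀ u, NN u → u * x = x * u) ∧ (∀ u v, NN u → NN v → NN (u * v)) ∧
  (∀ v, v * x = x * v → NN v ∨ NN v⁻¹) ∧ (∀ v, NN v → NN v⁻¹ → v = 1) ∧
  NN x ∧ x ≠ 1 ∧ (∀ u, NN u → u ≠ 1 → NN (u * x⁻¹)) ∧
  (∀ g, ∃ u, NN u ∧ E u g) ∧
  (∀ u g, NN u → E u g → g = 1 ∨ ∃ u', NN u' ∧ u' ≠ u ∧ NN (u * u'⁻¹) ∧
    ∃ j, E u' (g * (zz y j)⁻¹))

section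

variable {G : Type} [Group G]

theorem exists_root {n : ℕ} (gens : Fin n → G) (hgen : Subgroup.closure (Set.range gens) = ⊤)
    (x : G) (h2 : ∀ v, v * x = x * v → v ∈ commutator G → v = 1)
    (h3 : ∀ v, v * x = x * v → ∃ t, t * x = x * t ∧ (v = t * t ∨ v = t * t * x)) :
    ∃ k : ℕ, k ≠ 0 ∧ ∀ v, v * x = x * v → ∃ m : ℤ, v ^ k = x ^ m := by
  classical
  let A := Additive (Abelianization G)
  let C : Subgroup G := Subgroup.centralizer {x}
  have hC : ∀ v, v ∈ C ↔ v * x = x * v := by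
    intro v
    rw [Subgroup.mem_centralizer_singleton_iff]
  let ab : G → A := fun g => Additive.ofMul (Abelianization.of g)
  have hab : ∀ g h, ab (g * h) = ab g + ab h := fun g h => by simp [ab]
  have hab1 : ∀ g, ab g⁻¹ = - ab g := fun g => by simp [ab]
  have habz : ∀ g (m : ℤ), ab (g ^ m) = m • ab g := fun g m => by simp [ab]
  have hab0 : ∀ g, ab g = 0 → g ∈ commutator G := by
    intro g hg
    rw [← Abelianization.ker_of]
    exact hg
  -- the ambient module is finitely generated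
  have hfg : Module.Finite ℤ A := by
    refine ⟨⟨Finset.univ.image (fun i => ab (gens i)), ?_⟩⟩
    rw [eq_top_iff]
    intro a _
    obtain ⟨g, rfl⟩ : ∃ g, ab g = a := by
      obtain ⟨g, hg⟩ := QuotientGroup.mk_surjective (Additive.toMul a)
      exact ⟨g, hg⟩
    have hg : g ∈ Subgroup.closure (Set.range gens) := by rw [hgen]; trivial
    induction hg using Subgroup.closure_induction with
    | mem y hy =>
      obtain ⟨i, rfl⟩ := hy
      refine Submodule.subset_span ?_
      simp only [Finset.coe_image, Finset.coe_univ, Set.image_univ]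
      exact ⟨i, rfl⟩
    | one =>
      have : ab (1 : G) = 0 := by simp [ab]
      rw [this]
      exact Submodule.zero_mem _
    | mul y z _ _ hy hz =>
      rw [hab]
      exact Submodule.add_mem _ (hy trivial) (hz trivial)
    | inv y _ hy =>
      rw [hab1]
      exact Submodule.neg_mem _ (hy trivial)
  let N0 : Submodule ℤ A :=
    { carrier := {a | ∃ v, v * x = x * v ∧ ab v = a}
      zero_mem' := ⟨1, by simp, by simp [ab]⟩
      add_mem' := by
        rintro _ _ ⟨u, hu, rfl⟩ ⟨v, hv, rfl⟩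
        refine ⟨u * v, ?_, hab u v⟩
        rw [mul_assoc, hv, ← mul_assoc, hu, mul_assoc]
      smul_mem' := by
        rintro m _ ⟨u, hu, rfl⟩
        refine ⟨u ^ m, ?_, habz u m⟩
        exact (Commute.zpow_left hu m).eq }
  let q := Submodule.mkQ (Submodule.span ℤ {ab x})
  let N1 : Submodule ℤ (A ⧸ Submodule.span ℤ {ab x}) := N0.map q
  have hN1 : N1.FG := by
    haveI : IsNoetherian ℤ A := isNoetherian_of_isNoetherianRing_of_finite ℤ A
    exact (IsNoetherian.noetherian N0).map q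
  have hle : N1 ≤ (Ideal.span {(2 : ℤ)}) • N1 := by
    rintro _ ⟨_, ⟨v, hv, rfl⟩, rfl⟩
    obtain ⟨t, ht, hvt⟩ := h3 v hv
    have hx0 : q (ab x) = 0 := by
      rw [Submodule.mkQ_apply, Submodule.Quotient.mk_eq_zero]
      exact Submodule.mem_span_singleton_self _
    have h5 : q (ab v) = (2 : ℤ) • q (ab t) := by
      rcases hvt with rfl | rfl
      · rw [hab, map_add, two_smul]
      · rw [hab, hab, map_add, map_add, hx0, add_zero, two_smul]
    rw [h5]
    refine Submodule.smul_mem_smul (Ideal.mem_span_singleton_self 2) ?_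
    exact ⟨ab t, ⟨t, ht, rfl⟩, rfl⟩
  obtain ⟨k, hk1, hk2⟩ :=
    Submodule.exists_sub_one_mem_and_smul_eq_zero_of_fg_of_le_smul _ N1 hN1 hle
  have hk0 : k ≠ 0 := by
    rintro rfl
    rw [Ideal.mem_span_singleton] at hk1
    omega
  refine ⟨k.natAbs, Int.natAbs_ne_zero.mpr hk0, fun v hv => ?_⟩
  have h6 : ∃ m : ℤ, v ^ k = x ^ m := by
    have h7 := hk2 (q (ab v)) ⟨ab v, ⟨v, hv, rfl⟩, rfl⟩
    rw [← map_smul, Submodule.mkQ_apply, Submodule.Quotient.mk_eq_zero,
      Submodule.mem_span_singleton] at h7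
    obtain ⟨m, hm⟩ := h7
    refine ⟨m, ?_⟩
    rw [← habz, ← habz] at hm
    have h8 : v ^ k * (x ^ m)⁻¹ = 1 := by
      apply h2
      · have c1 : Commute (v ^ k) x := Commute.zpow_left hv k
        have c2 : Commute (x ^ m)⁻¹ x := ((Commute.refl x).zpow_left m).inv_left
        exact (c1.mul_left c2).eq
      · apply hab0
        rw [hab, hab1, hm, add_neg_cancel]
    exact mul_inv_eq_one.mp h8
  obtain ⟨m, hm⟩ := h6
  rcases Int.natAbs_eq k with h | h
  · refine ⟨m, ?_⟩
    rw [h, zpow_natCast] at hm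
    exact hm
  · refine ⟨-m, ?_⟩
    rw [h, zpow_neg, zpow_natCast] at hm
    rw [zpow_neg, ← hm, inv_inv]

theorem order_type (x : G) (NN : G → Prop)
    (hk : ∃ k : ℕ, k ≠ 0 ∧ ∀ v, v * x = x * v → ∃ m : ℤ, v ^ k = x ^ m)
    (h4 : ∀ u, NN u → u * x = x * u) (h5 : ∀ u v, NN u → NN v → NN (u * v))
    (h6 : ∀ v, v * x = x * v → NN v ∨ NN v⁻¹) (h7 : ∀ v, NN v → NN v⁻¹ → v = 1)
    (h8 : NN x) (h9 : x ≠ 1) (h10 : ∀ u, NN u → u ≠ 1 → NN (u * x⁻¹)) :
    (∀ n : ℕ, NN (x ^ n)) ∧ (∀ i j : ℕ, x ^ i = x ^ j → i = j) ∧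
      ∀ v, NN v → ∃ n : ℕ, v = x ^ n := by
  obtain ⟨k, hk0, hk⟩ := hk
  have hone : NN 1 := by
    rcases h6 1 (by simp) with h | h
    · exact h
    · simpa using h
  have hpow : ∀ v, NN v → ∀ n : ℕ, NN (v ^ n) := by
    intro v hv n
    induction n with
    | zero => simpa using hone
    | succ n ih => rw [pow_succ]; exact h5 _ _ ih hv
  have hfin : ∀ n : ℕ, 0 < n → x ^ n ≠ 1 := by
    intro n hn h
    obtain ⟨m, rfl⟩ := Nat.exists_eq_succ_of_ne_zero hn.ne'
    apply h9
    apply h7 x h8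
    have : x⁻¹ = x ^ m := by
      rw [pow_succ] at h
      exact (eq_inv_of_mul_eq_one_left h).symm
    rw [this]
    exact hpow x h8 m
  have hinj : ∀ i j : ℕ, x ^ i = x ^ j → i = j := by
    have key : ∀ i j : ℕ, i < j → x ^ i ≠ x ^ j := by
      intro i j hij h
      apply hfin (j - i) (by omega)
      have h1 : x ^ j = x ^ (j - i) * x ^ i := by rw [← pow_add]; congr 1; omega
      rw [h1] at h
      exact (mul_eq_right.mp h.symm)
    intro i j h
    rcases lt_trichotomy i j with hl | hl | hl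
    · exact absurd h (key _ _ hl)
    · exact hl
    · exact absurd h.symm (key _ _ hl)
  refine ⟨hpow x h8, hinj, fun v hv => ?_⟩
  obtain ⟨m, hm⟩ := hk v (h4 v hv)
  have hkpos : (0 : ℤ) < k := by
    have := Nat.pos_of_ne_zero hk0
    exact_mod_cast this
  set a := m / (k : ℤ) with ha
  obtain ⟨s, hs⟩ : ∃ s : ℕ, (s : ℤ) = m % k := ⟨(m % k).toNat, by
    rw [Int.toNat_of_nonneg (Int.emod_nonneg _ hkpos.ne')]⟩
  have hsk : s < k := by
    have := Int.emod_lt_of_pos m hkpos
    omega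
  have hms : m = a * k + s := by
    rw [hs, ha, mul_comm]
    exact (Int.mul_ediv_add_emod m k).symm
  set w := v * x ^ (-a) with hw
  have cvx : Commute v x := h4 v hv
  have hwx : w * x = x * w := by
    have c2 : Commute (x ^ (-a)) x := (Commute.refl x).zpow_left _
    exact (cvx.mul_left c2).eq
  have hwk : w ^ k = x ^ s := by
    rw [hw, (cvx.zpow_right (-a)).mul_pow, hm, ← zpow_natCast (x ^ (-a)) k, ← zpow_mul, ← zpow_add,
      ← zpow_natCast x s]
    congr 1
    rw [hms]
    ring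
  have hw1 : w = 1 := by
    by_contra hne
    rcases h6 w hwx with h | h
    · have h11 := hpow _ (h10 w h hne) k
      have cwx : Commute w x⁻¹ := (show Commute w x from hwx).inv_right
      rw [cwx.mul_pow, hwk] at h11
      have h12 : x ^ s * x⁻¹ ^ k = (x ^ (k - s))⁻¹ := by
        rw [inv_pow, mul_inv_eq_iff_eq_mul, eq_inv_mul_iff_mul_eq, ← pow_add]
        congr 1
        omega
      rw [h12] at h11
      have h13 := h7 _ (hpow x h8 (k - s)) h11
      exact hfin (k - s) (by omega) h13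
    · have h11 := hpow _ h k
      rw [inv_pow, hwk] at h11
      have h12 := h7 _ (hpow x h8 s) h11
      have hs0 : s = 0 := by
        by_contra hs0
        exact hfin s (Nat.pos_of_ne_zero hs0) h12
      rw [hs0, pow_zero] at hwk
      apply hne
      refine h7 w ?_ h
      obtain ⟨k', rfl⟩ := Nat.exists_eq_succ_of_ne_zero hk0
      have h13 : w = w⁻¹ ^ k' := by
        rw [inv_pow, eq_inv_iff_mul_eq_one, ← pow_succ']
        exact hwk
      rw [h13]
      exact hpow _ h k'
  have hva : v = x ^ a := by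
    rw [hw, zpow_neg] at hw1
    exact mul_inv_eq_one.mp hw1
  rcases le_or_gt 0 a with ha0 | ha0
  · refine ⟨a.toNat, ?_⟩
    rw [hva, ← zpow_natCast, Int.toNat_of_nonneg ha0]
  · refine ⟨0, ?_⟩
    rw [pow_zero]
    apply h7 v hv
    have : v⁻¹ = x ^ ((-a).toNat) := by
      rw [hva, ← zpow_neg, ← zpow_natCast, Int.toNat_of_nonneg (by omega)]
    rw [this]
    exact hpow x h8 _

theorem Beta.gen {n m : ℕ} (gens : Fin m → G) (hgen : Subgroup.closure (Set.range gens) = ⊤)
    {y : Fin n → G} {x : G} {D NN : G → Prop}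
    {E : G → G → Prop} (h : Beta y x D NN E) :
    Subgroup.closure (Set.range y) = ⊤ := by
  obtain ⟨⟨d1, d2, d3, d4⟩, h2, h3, h4, h5, h6, h7, h8, h9, h10, h11, h12⟩ := h
  have hD : ∀ v ∈ commutator G, D v := by
    let DS : Subgroup G :=
      { carrier := {g | D g}
        mul_mem' := fun {a b} ha hb => d2 a b ha hb
        one_mem' := d1
        inv_mem' := fun {a} ha => d3 a ha }
    have h1 : commutator G ≤ DS := by
      rw [commutator_def, Subgroup.commutator_le]
      intro a _ b _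
      rw [commutatorElement_def]
      exact d4 a b
    intro v hv
    exact h1 hv
  obtain ⟨o1, o2, o3⟩ := order_type x NN
    (exists_root gens hgen x (fun v hv hv' => h2 v hv (hD v hv')) h3) h4 h5 h6 h7 h8 h9 h10
  have key : ∀ k : ℕ, ∀ g, E (x ^ k) g → g ∈ Subgroup.closure (Set.range y) := by
    intro k
    induction k using Nat.strong_induction_on with
    | _ k ih =>
      intro g hg
      rcases h12 _ g (o1 k) hg with rfl | ⟨u', hu', hne, hlt, j, hj⟩
      · exact one_mem _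
      · obtain ⟨a, rfl⟩ := o3 u' hu'
        obtain ⟨b, hb⟩ := o3 _ hlt
        rw [mul_inv_eq_iff_eq_mul, ← pow_add] at hb
        have h13 := o2 _ _ hb
        have h14 : a ≠ k := fun h => hne (by rw [h])
        have h15 := ih a (by omega) _ hj
        have h16 : zz y j ∈ Subgroup.closure (Set.range y) := by
          unfold zz
          split_ifs
          · exact Subgroup.subset_closure ⟨_, rfl⟩
          · exact inv_mem (Subgroup.subset_closure ⟨_, rfl⟩)
        have h17 := mul_mem h15 h16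
        rwa [inv_mul_cancel_right] at h17
  rw [eq_top_iff]
  intro g _
  obtain ⟨u, hu, hE⟩ := h11 g
  obtain ⟨k, rfl⟩ := o3 u hu
  exact key k g hE

end

end Pool.Agent.MP984

end

/-! ## Final -/

section

namespace Pool.Agent.MP984

open MonoidAlgebra FirstOrder FirstOrder.Language
open scoped commutatorElement

attribute [local instance] gstr

variable {r c : ℕ}

/-- number of letters -/
abbrev NL (r : ℕ) : ℕ := Fintype.card (Fin (r + 2) × Bool)
/-- numbering of the letters -/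
noncomputable def eL (r : ℕ) : Fin (r + 2) × Bool ≃ Fin (NL r) := Fintype.equivFin _
/-- the letters in the group -/
noncomputable def zl (r c : ℕ) (j : Fin (NL r)) : GG r c := zz (gen r c) ((eL r).symm j)

theorem rv_append {N : ℕ} (z : Fin N → GG r c) (u v : List (Fin N)) :
    rv z (u ++ v) = rv z v * rv z u := by
  induction u with
  | nil => simp [rv]
  | cons j u ih => rw [List.cons_append, rv, rv, ih, mul_assoc]

theorem rv_single {N : ℕ} (z : Fin N → GG r c) (j : Fin N) : rv z [j] = z j := by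
  simp [rv]

theorem exists_word (g : GG r c) : ∃ w : List (Fin (NL r)), rv (zl r c) w = g := by
  have hg : g ∈ Subgroup.closure (Set.range (gen r c)) := by rw [closure_gen]; trivial
  have h1 : ∀ i b, zl r c (eL r (i, b)) = zz (gen r c) (i, b) := fun i b => by simp [zl]
  induction hg using Subgroup.closure_induction'' with
  | mem y hy =>
    obtain ⟨i, rfl⟩ := hy
    exact ⟨[eL r (i, true)], by rw [rv_single, h1]; simp [zz]⟩
  | inv_mem y hy =>
    obtain ⟨i, rfl⟩ := hy
    exact ⟨[eL r (i, false)], by rw [rv_single, h1]; simp [zz]⟩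
  | one => exact ⟨[], rfl⟩
  | mul x y _ _ hx hy =>
    obtain ⟨u, hu⟩ := hx
    obtain ⟨v, hv⟩ := hy
    exact ⟨v ++ u, by rw [rv_append, hu, hv]⟩

/-- the evaluation predicate -/
def EvP (r c : ℕ) (u g : GG r c) : Prop :=
  ∃ w : List (Fin (NL r)), gen r c 0 ^ (Encodable.encode w) = u ∧ rv (zl r c) w = g

theorem beta_gen : Beta (gen r c) (gen r c 0) (fun g => g ∈ LL r c 1)
    (fun g => ∃ n : ℕ, gen r c 0 ^ n = g) (EvP r c) := by
  have hz : ∀ n : ℤ, gen r c 0 ^ n ∈ LL r c 1 → n = 0 := by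
    intro n hn
    have h1 := dg_LL hn 0
    rw [map_zpow, dg_gen, if_pos rfl] at h1
    have h2 := congrArg Multiplicative.toAdd h1
    simpa using h2
  have hinj := gen_zpow_inj (r := r) (c := c) 0
  refine ⟨⟨one_mem _, fun a b => mul_mem, fun a => inv_mem, fun a b => ?_⟩, ?_, ?_, ?_, ?_, ?_, ?_,
    ?_, ?_, ?_, ?_, ?_⟩
  · show a * b * a⁻¹ * b⁻¹ ∈ LL r c 1
    rw [mem_LL_one]
    simp
  · intro v hv hv'
    obtain ⟨n, rfl⟩ := (cent_gen 0 v).mp hv
    rw [hz n hv', zpow_zero]
  · intro v hv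
    obtain ⟨n, rfl⟩ := (cent_gen 0 v).mp hv
    refine ⟨gen r c 0 ^ (n / 2), (cent_gen 0 _).mpr ⟨_, rfl⟩, ?_⟩
    rcases Int.emod_two_eq_zero_or_one n with h | h
    · left
      rw [← zpow_add]
      congr 1
      omega
    · right
      rw [← zpow_add, ← zpow_add_one]
      congr 1
      omega
  · rintro _ ⟨n, rfl⟩
    exact (cent_gen 0 _).mpr ⟨n, by simp⟩
  · rintro _ _ ⟨m, rfl⟩ ⟨n, rfl⟩
    exact ⟨m + n, pow_add _ _ _⟩
  · intro v hv
    obtain ⟨n, rfl⟩ := (cent_gen 0 v).mp hv
    rcases le_total 0 n with h | h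
    · left
      refine ⟨n.toNat, ?_⟩
      rw [← zpow_natCast, Int.toNat_of_nonneg h]
    · right
      refine ⟨(-n).toNat, ?_⟩
      rw [← zpow_natCast, Int.toNat_of_nonneg (by omega), zpow_neg]
  · rintro _ ⟨m, rfl⟩ ⟨n, hn⟩
    have h1 : gen r c 0 ^ ((n : ℤ)) = gen r c 0 ^ (-(m : ℤ)) := by
      rw [zpow_natCast, hn, zpow_neg, zpow_natCast]
    have h2 : (n : ℤ) = -m := hinj h1
    have h3 : m = 0 := by omega
    rw [h3, pow_zero]
  · exact ⟨1, pow_one _⟩
  · intro h
    have h1 : gen r c 0 ^ (1 : ℤ) = gen r c 0 ^ (0 : ℤ) := by rw [zpow_one, zpow_zero, h]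
    have h2 : (1 : ℤ) = 0 := hinj h1
    omega
  · rintro _ ⟨n, rfl⟩ hn
    obtain ⟨m, rfl⟩ : ∃ m, n = m + 1 := Nat.exists_eq_succ_of_ne_zero (by
      rintro rfl
      exact hn (pow_zero _))
    exact ⟨m, by rw [pow_succ, mul_inv_cancel_right]⟩
  · intro g
    obtain ⟨w, hw⟩ := exists_word g
    exact ⟨_, ⟨_, rfl⟩, w, rfl, hw⟩
  · rintro _ _ - ⟨w, rfl, rfl⟩
    cases w with
    | nil => left; rfl
    | cons j w =>
      right
      have hlt : Encodable.encode w < Encodable.encode (j :: w) := by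
        rw [Encodable.encode_list_cons]
        exact Nat.lt_succ_of_le (Nat.right_le_pair _ _)
      refine ⟨gen r c 0 ^ (Encodable.encode w), ⟨_, rfl⟩, ?_,
        ⟨Encodable.encode (j :: w) - Encodable.encode w, ?_⟩, (eL r).symm j, w, rfl, ?_⟩
      · intro h
        have h1 : gen r c 0 ^ ((Encodable.encode w : ℕ) : ℤ) =
            gen r c 0 ^ ((Encodable.encode (j :: w) : ℕ) : ℤ) := by
          rw [zpow_natCast, zpow_natCast, h]
        have h2 : ((Encodable.encode w : ℕ) : ℤ) = (Encodable.encode (j :: w) : ℕ) := hinj h1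
        omega
      · rw [eq_mul_inv_iff_mul_eq, ← pow_add]
        congr 1
        omega
      · rw [rv]
        exact (mul_inv_cancel_right _ _).symm

theorem DP_EvP : DP (gen r c) (fun z : GG r c × GG r c => EvP r c z.1 z.2) := by
  refine DP.exA (P := fun (z : GG r c × GG r c) (w : List (Fin (NL r))) =>
    gen r c 0 ^ (Encodable.encode w) = z.1 ∧ rv (zl r c) w = z.2) ?_
  exact DP.and (DP.eq (DF.x0pow (DA.code DA.var)) DF.fst.fst')
    (DP.eval (zl r c) DA.var DF.fst.snd')

/-! ### parameter-free formulas -/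

/-- no parameters -/
def nopar (G : Type) : Empty → G := fun e => e.elim

theorem free1 {G : Type} [Group G] {κ : Type} [Finite κ] {p : κ → G} {P : G → Prop}
    (h : DP p P) : ∃ P' : (κ → G) → G → Prop, (∀ g, P' p g ↔ P g) ∧
      DP (nopar G) (fun z : (κ → G) × G => P' z.1 z.2) := by
  obtain ⟨φ, hφ⟩ := h
  refine ⟨fun y g => φ.Realize (Sum.elim y (fun _ => g)), fun g => ?_, ?_⟩
  · refine (hφ _).trans ?_
    constructor
    · rintro ⟨x, hx, hP⟩
      rwa [← show x = g from congrFun hx ()]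
    · intro hP
      exact ⟨g, rfl, hP⟩
  · refine ⟨φ.relabel Sum.inr, fun v => ?_⟩
    rw [Formula.realize_relabel]
    constructor
    · intro hv
      refine ⟨(fun k => v (Sum.inl k), v (Sum.inr ())), ?_, ?_⟩
      · funext i
        rcases i with i | i <;> rfl
      · convert hv using 1
        funext i
        rcases i with i | i <;> rfl
    · rintro ⟨x, rfl, hx⟩
      convert hx using 1
      funext i
      rcases i with i | i <;> rfl

theorem free2 {G : Type} [Group G] {κ : Type} [Finite κ] {p : κ → G} {P : G → G → Prop}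
    (h : DP p (fun z : G × G => P z.1 z.2)) : ∃ P' : (κ → G) → G → G → Prop,
      (∀ g g', P' p g g' ↔ P g g') ∧
      DP (nopar G) (fun z : ((κ → G) × G) × G => P' z.1.1 z.1.2 z.2) := by
  obtain ⟨φ, hφ⟩ := h
  refine ⟨fun y g g' => φ.Realize (Sum.elim y (Sum.elim (fun _ => g) (fun _ => g'))),
    fun g g' => ?_, ?_⟩
  · refine (hφ _).trans ?_
    constructor
    · rintro ⟨x, hx, hP⟩
      have h1 : x.1 = g := congrFun hx (Sum.inl ())
      have h2 : x.2 = g' := congrFun hx (Sum.inr ())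
      rwa [← h1, ← h2]
    · intro hP
      exact ⟨(g, g'), rfl, hP⟩
  · refine ⟨φ.relabel (Sum.elim (fun k => Sum.inr (Sum.inl (Sum.inl k)))
      (Sum.elim (fun _ => Sum.inr (Sum.inl (Sum.inr ()))) (fun _ => Sum.inr (Sum.inr ())))),
      fun v => ?_⟩
    rw [Formula.realize_relabel]
    constructor
    · intro hv
      refine ⟨((fun k => v (Sum.inl (Sum.inl k)), v (Sum.inl (Sum.inr ()))), v (Sum.inr ())), ?_, ?_⟩
      · funext i
        rcases i with (i | i) | i <;> rfl
      · convert hv using 1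
        funext i
        rcases i with i | i | i <;> rfl
    · rintro ⟨x, rfl, hx⟩
      convert hx using 1
      funext i
      rcases i with i | i | i <;> rfl

end Pool.Agent.MP984

end

/-! ## Final2 -/

section

namespace Pool.Agent.MP984

open MonoidAlgebra FirstOrder FirstOrder.Language
open scoped commutatorElement

attribute [local instance] gstr

section

variable {G : Type} [Group G] {n : ℕ}

theorem DP_Beta (i0 : Fin n) {D' N' : (Fin n → G) → G → Prop} {E' : (Fin n → G) → G → G → Prop}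
    (hD : DP (nopar G) (fun z : (Fin n → G) × G => D' z.1 z.2))
    (hN : DP (nopar G) (fun z : (Fin n → G) × G => N' z.1 z.2))
    (hE : DP (nopar G) (fun z : ((Fin n → G) × G) × G => E' z.1.1 z.1.2 z.2)) :
    DP (nopar G) (fun y : Fin n → G => Beta y (y i0) (D' y) (N' y) (E' y)) := by
  have aD : ∀ {X : Type} [Cod (nopar G) X] {f : X → Fin n → G} {g : X → G},
      DF (nopar G) f → DF (nopar G) g → DP (nopar G) (fun x => D' (f x) (g x)) :=
    fun hf hg => DP.comp₂ (P := fun y g => D' y g) hD hf hg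
  have aN : ∀ {X : Type} [Cod (nopar G) X] {f : X → Fin n → G} {g : X → G},
      DF (nopar G) f → DF (nopar G) g → DP (nopar G) (fun x => N' (f x) (g x)) :=
    fun hf hg => DP.comp₂ (P := fun y g => N' y g) hN hf hg
  have aE : ∀ {X : Type} [Cod (nopar G) X] {f : X → Fin n → G} {g h : X → G},
      DF (nopar G) f → DF (nopar G) g → DF (nopar G) h →
      DP (nopar G) (fun x => E' (f x) (g x) (h x)) :=
    fun hf hg hh => DP.comp (P := fun z : ((Fin n → G) × G) × G => E' z.1.1 z.1.2 z.2)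
      (f := fun x => ((_, _), _)) hE ((hf.pair hg).pair hh)
  have C : ∀ {X : Type} [Cod (nopar G) X] {f g : X → G}, DF (nopar G) f →
      DF (nopar G) g → DP (nopar G) (fun x => f x * g x = g x * f x) :=
    fun hf hg => DP.eq (hf.mul hg) (hg.mul hf)
  -- contexts
  have y0 : DF (nopar G) (fun y : Fin n → G => y) := DF.id
  have y1 : DF (nopar G) (fun z : (Fin n → G) × G => z.1) := DF.fst
  have g1 : DF (nopar G) (fun z : (Fin n → G) × G => z.2) := DF.snd
  have y2 : DF (nopar G) (fun z : ((Fin n → G) × G) × G => z.1.1) := DF.fst.fst'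
  have g2 : DF (nopar G) (fun z : ((Fin n → G) × G) × G => z.1.2) := DF.fst.snd'
  have h2 : DF (nopar G) (fun z : ((Fin n → G) × G) × G => z.2) := DF.snd
  have y3 : DF (nopar G) (fun z : (((Fin n → G) × G) × G) × G => z.1.1.1) := DF.fst.fst'.fst'
  have g3 : DF (nopar G) (fun z : (((Fin n → G) × G) × G) × G => z.1.1.2) := DF.fst.fst'.snd'
  have h3 : DF (nopar G) (fun z : (((Fin n → G) × G) × G) × G => z.1.2) := DF.fst.snd'
  have k3 : DF (nopar G) (fun z : (((Fin n → G) × G) × G) × G => z.2) := DF.snd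
  have x0 := DF.app' (X := Fin n → G) i0 y0
  have x1 := DF.app' i0 y1
  have x2 := DF.app' i0 y2
  unfold Beta
  refine DP.and (DP.and (aD y0 DF.one) (DP.and (DP.all (DP.all ((aD y2 g2).imp ((aD y2 h2).imp
    (aD y2 (g2.mul h2)))))) (DP.and (DP.all ((aD y1 g1).imp (aD y1 g1.inv))) (DP.all (DP.all
    (aD y2 (((g2.mul h2).mul g2.inv).mul h2.inv))))))) ?_
  refine DP.and (DP.all ((C g1 x1).imp ((aD y1 g1).imp (DP.eq g1 DF.one)))) ?_
  refine DP.and (DP.all ((C g1 x1).imp (DP.ex ((C h2 x2).and ((DP.eq g2 (h2.mul h2)).or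
    (DP.eq g2 ((h2.mul h2).mul x2))))))) ?_
  refine DP.and (DP.all ((aN y1 g1).imp (C g1 x1))) ?_
  refine DP.and (DP.all (DP.all ((aN y2 g2).imp ((aN y2 h2).imp (aN y2 (g2.mul h2)))))) ?_
  refine DP.and (DP.all ((C g1 x1).imp ((aN y1 g1).or (aN y1 g1.inv)))) ?_
  refine DP.and (DP.all ((aN y1 g1).imp ((aN y1 g1.inv).imp (DP.eq g1 DF.one)))) ?_
  refine DP.and (aN y0 x0) ?_
  refine DP.and (DP.eq x0 DF.one).not ?_
  refine DP.and (DP.all ((aN y1 g1).imp ((DP.eq g1 DF.one).not.imp (aN y1 (g1.mul x1.inv))))) ?_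
  refine DP.and (DP.all (DP.ex ((aN y2 h2).and (aE y2 h2 g2)))) ?_
  refine DP.all (DP.all ((aN y2 g2).imp ((aE y2 g2 h2).imp ((DP.eq h2 DF.one).or (DP.ex
    ((aN y3 k3).and ((DP.eq k3 g3).not.and ((aN y3 (g3.mul k3.inv)).and (DP.iEx fun j =>
      aE y3 k3 (h3.mul (DF.inv ?_)))))))))))
  unfold zz
  rcases j with ⟨i, b⟩
  cases b
  · exact (DF.app' i y3).inv
  · exact DF.app' i y3

theorem DF.lift {X : Type} [Cod (nopar G) X] {y : X → Fin n → G} (hy : DF (nopar G) y)
    (w : FreeGroup (Fin n)) : DF (nopar G) (fun x => FreeGroup.lift (y x) w) := by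
  induction w using FreeGroup.induction_on with
  | C1 => exact DF.one.congr fun x => by simp
  | of i => exact (DF.app' i hy).congr fun x => by simp
  | inv_of i ih => exact ih.inv.congr fun x => by simp
  | mul u v hu hv => exact (hu.mul hv).congr fun x => by simp

end

theorem exists_beta_formula (r c : ℕ) : ∃ B : (Fin (r + 2) → GG r c) → Prop,
    DP (nopar (GG r c)) B ∧ B (gen r c) ∧ ∀ y, B y → Subgroup.closure (Set.range y) = ⊤ := by
  obtain ⟨D', hD1, hD2⟩ := free1 (DP_LL (r := r) (c := c) (i := 1) (by omega))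
  obtain ⟨N', hN1, hN2⟩ := free1 (NatCod.rng (p := gen r c))
  obtain ⟨E', hE1, hE2⟩ := free2 (DP_EvP (r := r) (c := c))
  refine ⟨fun y => Beta y (y 0) (D' y) (N' y) (E' y), DP_Beta 0 hD2 hN2 hE2, ?_, ?_⟩
  · have e1 : D' (gen r c) = fun g => g ∈ LL r c 1 := by
      funext g
      exact propext (hD1 g)
    have e2 : N' (gen r c) = fun g => ∃ n : ℕ, gen r c 0 ^ n = g := by
      funext g
      exact propext (hN1 g)
    have e3 : E' (gen r c) = EvP r c := by
      funext g g'
      exact propext (hE1 g g')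
    show Beta _ _ _ _ _
    rw [e1, e2, e3]
    exact beta_gen
  · intro y hy
    exact Beta.gen (gen r c) closure_gen hy

/-! ### Hopfian property -/

theorem hopf {G : Type} [Group G] {n : ℕ} (g : Fin n → G)
    (hg : Subgroup.closure (Set.range g) = ⊤)
    (hrf : ∀ h : G, h ≠ 1 → ∃ (Γ : Type) (_ : Group Γ) (_ : Finite Γ) (φ : G →* Γ), φ h ≠ 1)
    (f : G →* G) (hf : Function.Surjective f) : Function.Injective f := by
  rw [injective_iff_map_eq_one]
  intro a ha
  by_contra hne
  obtain ⟨Γ, _, _, φ, hφ⟩ := hrf a hne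
  have hfin : Finite (G →* Γ) := by
    refine Finite.of_injective (fun ψ : G →* Γ => fun i => ψ (g i)) fun ψ ψ' h => ?_
    refine MonoidHom.eq_of_eqOn_dense hg ?_
    rintro _ ⟨i, rfl⟩
    exact congrFun h i
  have hinj : Function.Injective (fun ψ : G →* Γ => ψ.comp f) := by
    intro ψ ψ' h
    ext x
    obtain ⟨y, rfl⟩ := hf x
    exact DFunLike.congr_fun h y
  obtain ⟨ψ, hψ⟩ := (Finite.injective_iff_surjective.mp hinj) φ
  apply hφ
  rw [← hψ]
  show ψ (f a) = 1
  rw [ha, map_one]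

theorem lift_mem {r c : ℕ} (y : Fin (r + 2) → GG r c) (w : FF r) (hw : w ∈ RR r (c + 2)) :
    FreeGroup.lift y w = 1 := by
  have h1 : (RR r (c + 2)).map (FreeGroup.lift y) ≤ derivedSeries (GG r c) (c + 2) :=
    map_derivedSeries_le_derivedSeries _ _
  have h2 : derivedSeries (GG r c) (c + 2) = ⊥ := by
    rw [← map_derivedSeries_eq (pr_surj (r := r) (c + 2)), Subgroup.map_eq_bot_iff,
      QuotientGroup.ker_mk']
  have h3 := h1 ⟨w, hw, rfl⟩
  rw [h2] at h3
  exact Subgroup.mem_bot.mp h3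

/-- the endomorphism attached to a tuple -/
noncomputable def endo {r c : ℕ} (y : Fin (r + 2) → GG r c) : GG r c →* GG r c :=
  QuotientGroup.lift (RR r (c + 2)) (FreeGroup.lift y) (lift_mem y)

theorem endo_pr {r c : ℕ} (y : Fin (r + 2) → GG r c) (w : FF r) :
    endo y (pr r (c + 2) w) = FreeGroup.lift y w := rfl

theorem lift_gen {r c : ℕ} (w : FF r) : FreeGroup.lift (gen r c) w = pr r (c + 2) w := by
  have : FreeGroup.lift (gen r c) = pr r (c + 2) := by
    ext i
    simp [gen]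
  rw [this]

theorem exists_aut {r c : ℕ} (y : Fin (r + 2) → GG r c)
    (hy : Subgroup.closure (Set.range y) = ⊤) :
    ∃ σ : GG r c ≃* GG r c, ∀ w : FF r, σ (pr r (c + 2) w) = FreeGroup.lift y w := by
  have hsurj : Function.Surjective (endo y) := by
    rw [← MonoidHom.range_eq_top, eq_top_iff, ← hy, Subgroup.closure_le]
    rintro _ ⟨i, rfl⟩
    exact ⟨gen r c i, by rw [gen, endo_pr]; simp⟩
  have hinj := hopf (gen r c) closure_gen (rf (c + 2)) (endo y) hsurj
  exact ⟨MulEquiv.ofBijective (endo y) ⟨hinj, hsurj⟩, fun w => endo_pr y w⟩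

/-- homogeneity, main case -/
theorem homog (r c m : ℕ) (μ₁ μ₂ : Fin m → GG r c)
    (h : ∀ φ : LG.Formula (Fin m), φ.Realize μ₁ ↔ φ.Realize μ₂) :
    ∃ σ : GG r c ≃* GG r c, ∀ i, σ (μ₁ i) = μ₂ i := by
  obtain ⟨B, hB1, hB2, hB3⟩ := exists_beta_formula r c
  choose W hW using fun i => pr_surj (c + 2) (μ₁ i)
  have hP : DP (nopar (GG r c)) (fun v : Fin m → GG r c => ∃ y : Fin (r + 2) → GG r c, B y ∧
      ∀ i, v i = FreeGroup.lift y (W i)) := by
    refine DP.ex (P := fun (v : Fin m → GG r c) (y : Fin (r + 2) → GG r c) => B y ∧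
      ∀ i, v i = FreeGroup.lift y (W i)) (DP.and (hB1.comp DF.snd) (DP.iAll fun i => ?_))
    exact DP.eq (DF.app' i DF.fst) (DF.lift DF.snd (W i))
  obtain ⟨φ, hφ⟩ := DP.iff_dfn.mp hP
  let φ' : LG.Formula (Fin m) := φ.relabel (Sum.elim (fun e : Empty => e.elim) id)
  have hφ' : ∀ v : Fin m → GG r c, φ'.Realize v ↔ ∃ y : Fin (r + 2) → GG r c, B y ∧
      ∀ i, v i = FreeGroup.lift y (W i) := by
    intro v
    refine Iff.trans ?_ (hφ v)
    rw [Formula.realize_relabel]
    have : v ∘ (Sum.elim (fun e : Empty => e.elim) id) = Sum.elim (nopar (GG r c)) v := by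
      funext i
      rcases i with i | i
      · exact i.elim
      · rfl
    rw [this]
  have h1 : φ'.Realize μ₁ := (hφ' μ₁).mpr ⟨gen r c, hB2, fun i => by rw [lift_gen, hW]⟩
  obtain ⟨y, hy, hy'⟩ := (hφ' μ₂).mp ((h φ').mp h1)
  obtain ⟨σ, hσ⟩ := exists_aut y (hB3 y hy)
  refine ⟨σ, fun i => ?_⟩
  rw [← hW i, hσ, hy']

end Pool.Agent.MP984

end

/-! ## AbLin -/

section

namespace Pool.Agent.MP984

section

variable {N M : Type} [AddCommGroup N] [AddCommGroup M]

/-- saturation of the range -/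
def sat (f : N →+ M) : Submodule ℤ M where
  carrier := {x | ∃ s : ℕ, s ≠ 0 ∧ ∃ w, s • x = f w}
  zero_mem' := ⟨1, one_ne_zero, 0, by simp⟩
  add_mem' := by
    rintro x y ⟨s, hs, w, hw⟩ ⟨t, ht, v, hv⟩
    refine ⟨s * t, mul_ne_zero hs ht, t • w + s • v, ?_⟩
    rw [map_add, map_nsmul, map_nsmul, ← hw, ← hv, smul_add, smul_smul, smul_smul, mul_comm t s]
  smul_mem' := by
    rintro n x ⟨s, hs, w, hw⟩
    refine ⟨s, hs, n • w, ?_⟩
    rw [map_zsmul, ← hw, smul_comm]

theorem mem_sat {f : N →+ M} {x : M} : x ∈ sat f ↔ ∃ s : ℕ, s ≠ 0 ∧ ∃ w, s • x = f w := Iff.rfl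

theorem sat_hom (htf : ∀ (s : ℕ) (x : M), s ≠ 0 → s • x = 0 → x = 0) (f₁ f₂ : N →+ M)
    (h : ∀ (w : N) (s : ℕ), (∃ g, f₁ w = s • g) → ∃ g, f₂ w = s • g) :
    ∃ T : sat f₁ →+ sat f₂, ∀ (x : sat f₁) (s : ℕ) (w : N), s ≠ 0 → s • (x : M) = f₁ w →
      s • (T x : M) = f₂ w := by
  have key : ∀ x : sat f₁, ∃ y : sat f₂, ∀ (s : ℕ) (w : N), s ≠ 0 → s • (x : M) = f₁ w →
      s • (y : M) = f₂ w := by
    rintro ⟨x, s, hs, w, hw⟩
    obtain ⟨y, hy⟩ := h w s ⟨x, hw.symm⟩
    refine ⟨⟨y, s, hs, w, hy.symm⟩, fun t v ht hv => ?_⟩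
    have h1 : f₁ (t • w - s • v) = 0 • (0 : M) := by
      rw [map_sub, map_nsmul, map_nsmul, ← hw]
      have hv' : t • x = f₁ v := hv
      rw [← hv', smul_smul, smul_smul, mul_comm, sub_self, zero_smul]
    obtain ⟨g, hg⟩ := h _ 0 ⟨0, h1⟩
    rw [zero_smul, map_sub, map_nsmul, map_nsmul, sub_eq_zero, hy] at hg
    have h2 : s • (t • y - f₂ v) = 0 := by
      rw [smul_sub, ← hg, smul_comm, sub_self]
    exact sub_eq_zero.mp (htf s _ hs h2)
  choose T hT using key
  refine ⟨{ toFun := T, map_zero' := ?_, map_add' := ?_ }, hT⟩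
  · apply Subtype.ext
    have := hT 0 1 0 one_ne_zero (by simp)
    simpa using this
  · intro x y
    apply Subtype.ext
    obtain ⟨s, hs, w, hw⟩ := x.2
    obtain ⟨t, ht, v, hv⟩ := y.2
    have h1 := hT x s w hs hw
    have h2 := hT y t v ht hv
    have h3 := hT (x + y) (s * t) (t • w + s • v) (mul_ne_zero hs ht) (by
      rw [map_add, map_nsmul, map_nsmul, ← hw, ← hv, Submodule.coe_add, smul_add, smul_smul,
        smul_smul, mul_comm t s])
    have h4 : (s * t) • ((T (x + y) : M) - ((T x : M) + (T y : M))) = 0 := by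
      rw [smul_sub, h3, map_add, map_nsmul, map_nsmul, ← h1, ← h2, smul_add, smul_smul,
        smul_smul, mul_comm t s, sub_self]
    have h5 := htf _ _ (mul_ne_zero hs ht) h4
    exact sub_eq_zero.mp h5

theorem sat_equiv (htf : ∀ (s : ℕ) (x : M), s ≠ 0 → s • x = 0 → x = 0) (f₁ f₂ : N →+ M)
    (h : ∀ (w : N) (s : ℕ), (∃ g, f₁ w = s • g) ↔ ∃ g, f₂ w = s • g) :
    ∃ T : sat f₁ ≃+ sat f₂, ∀ (x : sat f₁) (w : N), (x : M) = f₁ w → (T x : M) = f₂ w := by
  obtain ⟨T, hT⟩ := sat_hom htf f₁ f₂ fun w s => (h w s).mp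
  obtain ⟨T', hT'⟩ := sat_hom htf f₂ f₁ fun w s => (h w s).mpr
  have e1 : ∀ x, T' (T x) = x := by
    intro x
    obtain ⟨s, hs, w, hw⟩ := x.2
    have h1 := hT' _ s w hs (hT x s w hs hw)
    apply Subtype.ext
    apply sub_eq_zero.mp
    refine htf s _ hs ?_
    rw [smul_sub, h1, hw, sub_self]
  have e2 : ∀ x, T (T' x) = x := by
    intro x
    obtain ⟨s, hs, w, hw⟩ := x.2
    have h1 := hT _ s w hs (hT' x s w hs hw)
    apply Subtype.ext
    apply sub_eq_zero.mp
    refine htf s _ hs ?_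
    rw [smul_sub, h1, hw, sub_self]
  refine ⟨{ toFun := T, invFun := T', left_inv := e1, right_inv := e2, map_add' := T.map_add },
    fun x w hw => ?_⟩
  have := hT x 1 w one_ne_zero (by rw [one_smul]; exact hw)
  rw [one_smul] at this
  exact this

theorem sat_compl [Module.Finite ℤ M] (htf : ∀ (s : ℕ) (x : M), s ≠ 0 → s • x = 0 → x = 0)
    (f : N →+ M) : ∃ C : Submodule ℤ M, IsCompl (sat f) C := by
  have h1 : IsAddTorsionFree (M ⧸ sat f) := by
    refine ⟨fun n hn a b hab => ?_⟩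
    obtain ⟨x, rfl⟩ := Submodule.Quotient.mk_surjective _ a
    obtain ⟨y, rfl⟩ := Submodule.Quotient.mk_surjective _ b
    have h2 : n • (x - y) ∈ sat f := by
      rw [← Submodule.Quotient.mk_eq_zero, smul_sub, Submodule.Quotient.mk_sub, sub_eq_zero]
      exact hab
    rw [← sub_eq_zero, ← Submodule.Quotient.mk_sub, Submodule.Quotient.mk_eq_zero]
    obtain ⟨s, hs, w, hw⟩ := h2
    exact ⟨s * n, mul_ne_zero hs hn, w, by rw [mul_smul]; exact hw⟩
  obtain ⟨g, hg⟩ := LinearMap.exists_rightInverse_of_surjective (sat f).mkQ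
    (Submodule.range_mkQ _)
  refine ⟨LinearMap.range g, ?_⟩
  rw [isCompl_iff, Submodule.disjoint_def, codisjoint_iff, Submodule.eq_top_iff']
  constructor
  · rintro _ hx ⟨y, rfl⟩
    have h3 := LinearMap.congr_fun hg y
    have h4 : (sat f).mkQ (g y) = 0 := by
      rw [Submodule.mkQ_apply, Submodule.Quotient.mk_eq_zero]
      exact hx
    have h5 : y = 0 := by
      rw [← h4]
      exact h3.symm
    rw [h5, map_zero]
  · intro x
    rw [Submodule.mem_sup]
    refine ⟨x - g ((sat f).mkQ x), ?_, g ((sat f).mkQ x), ⟨_, rfl⟩, by abel⟩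
    rw [← Submodule.Quotient.mk_eq_zero, ← Submodule.mkQ_apply, map_sub]
    have h3 := LinearMap.congr_fun hg ((sat f).mkQ x)
    rw [sub_eq_zero]
    exact h3.symm

theorem ab_homog [Module.Finite ℤ M] (htf : ∀ (s : ℕ) (x : M), s ≠ 0 → s • x = 0 → x = 0)
    (f₁ f₂ : N →+ M) (h : ∀ (w : N) (s : ℕ), (∃ g, f₁ w = s • g) ↔ ∃ g, f₂ w = s • g) :
    ∃ σ : M ≃+ M, ∀ w, σ (f₁ w) = f₂ w := by
  obtain ⟨T, hT⟩ := sat_equiv htf f₁ f₂ h
  obtain ⟨C₁, hC₁⟩ := sat_compl htf f₁
  obtain ⟨C₂, hC₂⟩ := sat_compl htf f₂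
  haveI : IsAddTorsionFree M := by
    refine ⟨fun n hn a b hab => ?_⟩
    apply sub_eq_zero.mp
    refine htf n _ hn ?_
    rw [smul_sub]
    exact sub_eq_zero.mpr hab
  haveI : IsNoetherian ℤ M := isNoetherian_of_isNoetherianRing_of_finite ℤ M
  let P₁ := Submodule.prodEquivOfIsCompl _ _ hC₁
  let P₂ := Submodule.prodEquivOfIsCompl _ _ hC₂
  let T' : sat f₁ ≃ₗ[ℤ] sat f₂ := T.toIntLinearEquiv
  have hr : Module.finrank ℤ C₁ = Module.finrank ℤ C₂ := by
    have e1 := P₁.finrank_eq
    have e2 := P₂.finrank_eq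
    have e3 := T'.finrank_eq
    rw [Module.finrank_prod] at e1 e2
    omega
  let θ : C₁ ≃ₗ[ℤ] C₂ := LinearEquiv.ofFinrankEq _ _ hr
  let σ : M ≃ₗ[ℤ] M := P₁.symm.trans ((T'.prodCongr θ).trans P₂)
  refine ⟨σ.toAddEquiv, fun w => ?_⟩
  have hw : f₁ w ∈ sat f₁ := ⟨1, one_ne_zero, w, by simp⟩
  have h1 : P₁.symm (f₁ w) = (⟨f₁ w, hw⟩, 0) := by
    rw [LinearEquiv.symm_apply_eq]
    simp [P₁]
  show P₂ ((T'.prodCongr θ) (P₁.symm (f₁ w))) = f₂ w
  rw [h1]
  have h2 := hT ⟨f₁ w, hw⟩ w rfl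
  simp only [LinearEquiv.prodCongr_apply, map_zero]
  simp only [P₂, Submodule.coe_prodEquivOfIsCompl', Submodule.coe_zero, add_zero]
  exact h2

end

end Pool.Agent.MP984

end

/-! ## AbGrp -/

section

namespace Pool.Agent.MP984

open FirstOrder FirstOrder.Language

attribute [local instance] gstr

theorem transfer {G : Type} [Group G] {m : ℕ} {μ₁ μ₂ : Fin m → G}
    (h : ∀ φ : LG.Formula (Fin m), φ.Realize μ₁ ↔ φ.Realize μ₂) {P : (Fin m → G) → Prop}
    (hP : DP (nopar G) P) : P μ₁ ↔ P μ₂ := by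
  obtain ⟨φ, hφ⟩ := DP.iff_dfn.mp hP
  let φ' : LG.Formula (Fin m) := φ.relabel (Sum.elim (fun e : Empty => e.elim) id)
  have hφ' : ∀ v : Fin m → G, φ'.Realize v ↔ P v := by
    intro v
    refine Iff.trans ?_ (hφ v)
    rw [Formula.realize_relabel]
    have : v ∘ (Sum.elim (fun e : Empty => e.elim) id) = Sum.elim (nopar G) v := by
      funext i
      rcases i with i | i
      · exact i.elim
      · rfl
    rw [this]
  rw [← hφ', ← hφ']
  exact h φ'

theorem DF.pow {G : Type} [Group G] {κ : Type} {p : κ → G} {X : Type} [Cod p X] {f : X → G}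
    (hf : DF p f) (s : ℕ) : DF p (fun x => f x ^ s) := by
  induction s with
  | zero => exact DF.one.congr fun x => (pow_zero _).symm
  | succ s ih => exact (ih.mul hf).congr fun x => (pow_succ _ _).symm

theorem homog_ab {G : Type} [Group G] (hcomm : ∀ a b : G, a * b = b * a) {n : ℕ} (g : Fin n → G)
    (hg : Subgroup.closure (Set.range g) = ⊤) (htf : TF G) (m : ℕ) (μ₁ μ₂ : Fin m → G)
    (h : ∀ φ : LG.Formula (Fin m), φ.Realize μ₁ ↔ φ.Realize μ₂) :
    ∃ σ : G ≃* G, ∀ i, σ (μ₁ i) = μ₂ i := by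
  classical
  letI cg : CommGroup G := { (inferInstance : Group G) with mul_comm := hcomm }
  let M := Additive G
  have hfg : Module.Finite ℤ M := by
    refine ⟨⟨Finset.univ.image (fun i => (Additive.ofMul (g i) : M)), ?_⟩⟩
    rw [eq_top_iff]
    intro a _
    have hga : (Additive.toMul a : G) ∈ Subgroup.closure (Set.range g) := by rw [hg]; trivial
    have key : ∀ x : G, x ∈ Subgroup.closure (Set.range g) → (Additive.ofMul x : M) ∈
        Submodule.span ℤ ((Finset.univ.image (fun i => (Additive.ofMul (g i) : M)) : Finset M) :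
          Set M) := by
      intro x hx
      induction hx using Subgroup.closure_induction with
      | mem y hy =>
        obtain ⟨i, rfl⟩ := hy
        refine Submodule.subset_span ?_
        simp only [Finset.coe_image, Finset.coe_univ, Set.image_univ]
        exact ⟨i, rfl⟩
      | one => exact Submodule.zero_mem _
      | mul y z _ _ hy hz => exact Submodule.add_mem _ hy hz
      | inv y _ hy => exact Submodule.neg_mem _ hy
    exact key _ hga
  have htf' : ∀ (s : ℕ) (x : M), s ≠ 0 → s • x = 0 → x = 0 := fun s x hs hx =>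
    htf (Additive.toMul x) s hs hx
  let fm : (Fin m → G) → (Fin m → ℤ) →+ M := fun μ =>
    { toFun := fun k => ∑ i, k i • (Additive.ofMul (μ i) : M)
      map_zero' := by simp
      map_add' := fun k l => by simp [add_smul, Finset.sum_add_distrib] }
  let W : (Fin m → ℤ) → FreeGroup (Fin m) := fun k =>
    (List.ofFn fun i => FreeGroup.of i ^ k i).prod
  have hW : ∀ (μ : Fin m → G) (k : Fin m → ℤ), fm μ k = Additive.ofMul (FreeGroup.lift μ (W k)) := by
    intro μ k
    have e1 : FreeGroup.lift μ (W k) = ∏ i, μ i ^ k i := by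
      simp only [W]
      rw [map_list_prod, List.map_ofFn, List.prod_ofFn]
      refine Finset.prod_congr rfl fun i _ => ?_
      simp
    rw [e1]
    show ∑ i, k i • (Additive.ofMul (μ i) : M) = _
    rw [ofMul_prod]
    rfl
  have hfor : ∀ (k : Fin m → ℤ) (s : ℕ), (∃ x : M, fm μ₁ k = s • x) ↔ ∃ x : M, fm μ₂ k = s • x := by
    intro k s
    have hP : DP (nopar G) (fun v : Fin m → G => ∃ x : G, FreeGroup.lift v (W k) = x ^ s) :=
      DP.ex (DP.eq (DF.lift DF.fst (W k)) (DF.pow DF.snd s))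
    have := transfer h hP
    have e : ∀ μ : Fin m → G, (∃ x : M, fm μ k = s • x) ↔
        ∃ x : G, FreeGroup.lift μ (W k) = x ^ s := by
      intro μ
      rw [hW]
      exact ⟨fun ⟨x, hx⟩ => ⟨Additive.toMul x, hx⟩, fun ⟨x, hx⟩ => ⟨Additive.ofMul x, hx⟩⟩
    rw [e, e]
    exact this
  obtain ⟨σ, hσ⟩ := ab_homog htf' (fm μ₁) (fm μ₂) hfor
  refine ⟨(MulEquiv.toAdditive.symm σ), fun i => ?_⟩
  have h1 := hσ (Pi.single i 1)
  have h2 : ∀ μ : Fin m → G, fm μ (Pi.single i 1) = Additive.ofMul (μ i) := by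
    intro μ
    show ∑ j, (Pi.single i (1 : ℤ) : Fin m → ℤ) j • (Additive.ofMul (μ j) : M) = _
    rw [Finset.sum_eq_single i]
    · simp
    · intro j _ hj
      simp [hj]
    · simp
  rw [h2, h2] at h1
  exact h1

end Pool.Agent.MP984

end

/-! ## Main -/

section

namespace Pool.Agent.MP984

open MonoidAlgebra FirstOrder FirstOrder.Language
open scoped commutatorElement

attribute [local instance] gstr

section

variable {α : Type} [DecidableEq α] [Fintype α]

theorem fox_iff_gen {c : ℕ} (w : FreeGroup α) : w ∈ derivedSeries (FreeGroup α) (c + 1) ↔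
    ∀ j, fox ℤ (QuotientGroup.mk' (derivedSeries (FreeGroup α) c)) w j = 0 := by
  constructor
  · intro h j
    rw [derivedSeries_succ] at h
    exact fox_commutator (derivedSeries (FreeGroup α) c) _ (by rw [QuotientGroup.ker_mk']) w h j
  · intro h
    have h1 := fox_fund (k := ℤ) (QuotientGroup.mk' (derivedSeries (FreeGroup α) c)) w
    simp only [h, zero_mul, Finset.sum_const_zero] at h1
    have h2 : (QuotientGroup.mk' (derivedSeries (FreeGroup α) c)) w = 1 := by
      have : sg ℤ ((QuotientGroup.mk' (derivedSeries (FreeGroup α) c)) w) = sg ℤ 1 := by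
        rw [sg_one]
        exact (sub_eq_zero.mp h1.symm)
      exact of_injective (R := ℤ) (by simpa [sg] using this)
    rw [derivedSeries_succ]
    exact magnus (derivedSeries (FreeGroup α) c) w ((QuotientGroup.eq_one_iff w).mp h2) h

theorem tf_gen (c : ℕ) : TF (FreeGroup α ⧸ derivedSeries (FreeGroup α) c) := by
  induction c with
  | zero =>
    intro h n _ _
    obtain ⟨w, rfl⟩ := QuotientGroup.mk'_surjective _ h
    exact (QuotientGroup.eq_one_iff w).mpr (by simp)
  | succ c ih =>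
    intro h n hn hh
    obtain ⟨w, rfl⟩ := QuotientGroup.mk'_surjective _ h
    have h1 : w ^ n ∈ derivedSeries (FreeGroup α) (c + 1) := by
      rw [← QuotientGroup.eq_one_iff]
      exact hh
    have hle : derivedSeries (FreeGroup α) (c + 1) ≤ derivedSeries (FreeGroup α) c := by
      rw [derivedSeries_succ]
      exact Subgroup.commutator_le_left _ _
    have h2 : (QuotientGroup.mk' (derivedSeries (FreeGroup α) c)) w = 1 := by
      refine ih _ n hn ?_
      rw [← map_pow]
      exact (QuotientGroup.eq_one_iff _).mpr (hle h1)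
    refine (QuotientGroup.eq_one_iff _).mpr ((fox_iff_gen w).mpr fun j => ?_)
    have h3 := (fox_iff_gen _).mp h1 j
    rw [fox_pow_of _ _ h2] at h3
    ext p
    have h4 := congrArg (fun x => x.coeff p) h3
    simp only [coeff_smul, Finsupp.coe_smul, Pi.smul_apply, coeff_zero, Finsupp.coe_zero,
      Pi.zero_apply, smul_eq_zero] at h4
    rcases h4 with h4 | h4
    · exact absurd h4 hn
    · simpa using h4

end

theorem closure_quot (n d : ℕ) : Subgroup.closure (Set.range fun i : Fin n =>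
    (QuotientGroup.mk' (derivedSeries (FreeGroup (Fin n)) d)) (FreeGroup.of i)) = ⊤ := by
  have h1 : Subgroup.closure (Set.range (FreeGroup.of : Fin n → FreeGroup (Fin n))) = ⊤ :=
    FreeGroup.closure_range_of _
  have h2 := congrArg (Subgroup.map (QuotientGroup.mk' (derivedSeries (FreeGroup (Fin n)) d))) h1
  rw [MonoidHom.map_closure, ← Set.range_comp,
    Subgroup.map_top_of_surjective _ (QuotientGroup.mk'_surjective _)] at h2
  exact h2

theorem comm_free {n : ℕ} (hn : n ≤ 1) (a b : FreeGroup (Fin n)) : a * b = b * a := by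
  haveI : Subsingleton (Fin n) := ⟨fun x y => Fin.ext (by omega)⟩
  have key : ∀ (i : Fin n) (a : FreeGroup (Fin n)), Commute a (FreeGroup.of i) := by
    intro i a
    induction a using FreeGroup.induction_on with
    | C1 => exact Commute.one_left _
    | of j =>
      have hji : j = i := Subsingleton.elim j i
      subst hji
      exact Commute.refl _
    | inv_of j h => exact h.inv_left
    | mul x y hx hy => exact hx.mul_left hy
  have : Commute a b := by
    induction b using FreeGroup.induction_on with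
    | C1 => exact Commute.one_right _
    | of j => exact key j a
    | inv_of j h => exact h.inv_right
    | mul x y hx hy => exact hx.mul_right hy
  exact this.eq

theorem comm_quot {n d : ℕ} (h : n ≤ 1 ∨ d ≤ 1)
    (a b : FreeGroup (Fin n) ⧸ derivedSeries (FreeGroup (Fin n)) d) : a * b = b * a := by
  obtain ⟨u, rfl⟩ := QuotientGroup.mk'_surjective _ a
  obtain ⟨v, rfl⟩ := QuotientGroup.mk'_surjective _ b
  rcases h with h | h
  · rw [← map_mul, ← map_mul, comm_free h]
  · have h1 : derivedSeries (FreeGroup (Fin n)) 1 ≤ derivedSeries (FreeGroup (Fin n)) d :=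
      derivedSeries_antitone _ h
    have h2 : ⁅u, v⁆ ∈ derivedSeries (FreeGroup (Fin n)) d := by
      apply h1
      show _ ∈ derivedSeries (FreeGroup (Fin n)) (0 + 1)
      rw [derivedSeries_succ]
      exact Subgroup.commutator_mem_commutator (by simp) (by simp)
    have h3 := (QuotientGroup.eq_one_iff _).mpr h2
    have h4 : ⁅(QuotientGroup.mk' (derivedSeries (FreeGroup (Fin n)) d)) u,
        (QuotientGroup.mk' (derivedSeries (FreeGroup (Fin n)) d)) v⁆ = 1 := by
      rw [← map_commutatorElement]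
      exact h3
    exact commutatorElement_eq_one_iff_mul_comm.mp h4

theorem main (n d m : ℕ) (μ₁ μ₂ : Fin m → (FreeGroup (Fin n) ⧸ derivedSeries (FreeGroup (Fin n)) d))
    (h : ∀ φ : LG.Formula (Fin m), φ.Realize μ₁ ↔ φ.Realize μ₂) :
    ∃ σ : (FreeGroup (Fin n) ⧸ derivedSeries (FreeGroup (Fin n)) d) ≃*
      (FreeGroup (Fin n) ⧸ derivedSeries (FreeGroup (Fin n)) d), ∀ i, σ (μ₁ i) = μ₂ i := by
  by_cases hnd : n ≤ 1 ∨ d ≤ 1
  · exact homog_ab (comm_quot hnd) _ (closure_quot n d) (tf_gen d) m μ₁ μ₂ h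
  · push Not at hnd
    obtain ⟨r, rfl⟩ := Nat.exists_eq_add_of_le' (show 2 ≤ n by omega)
    obtain ⟨c, rfl⟩ := Nat.exists_eq_add_of_le' (show 2 ≤ d by omega)
    exact homog r c m μ₁ μ₂ h

end Pool.Agent.MP984

end
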