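import Pool.Agent.Lib.MP_984cf2_lc.Magnus

/-!
# Torsion-freeness, zero-divisor lemmas, residual finiteness of `F ⧸ F^(d)`
-/

set_option autoImplicit false

namespace FS984

open MonoidAlgebra

/-! ## zero divisor lemmas in integral group rings -/

section ZeroDiv

variable {Q : Type*} [Group Q]

theorem coeff_of_mul (q : Q) (v : MonoidAlgebra ℤ Q) (x : Q) :
    (of ℤ Q q * v).coeff x = v.coeff (q⁻¹ * x) := by
  rw [of_apply, coeff_single_mul_apply, one_mul]

/-- if `q` has infinite order then `q v = v` forces `v = 0`. -/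
theorem eq_zero_of_of_mul_eq {q : Q} (hq : ∀ n : ℕ, 0 < n → q ^ n ≠ 1) {v : MonoidAlgebra ℤ Q}
    (h : of ℤ Q q * v = v) : v = 0 := by
  by_contra hv
  have hv' : v.coeff ≠ 0 := fun h0 => hv (coeff_injective (by rw [h0]; rfl))
  obtain ⟨x, hx⟩ := Finsupp.ne_iff.mp hv'
  have key : ∀ n : ℕ, v.coeff (q ^ n * x) = v.coeff x := by
    intro n
    induction n with
    | zero => simp
    | succ k ih =>
      have h1 := coeff_of_mul q v (q ^ (k+1) * x)
      rw [h] at h1
      rw [h1, ← ih]
      congr 1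
      rw [pow_succ']
      group
  have hinj : Function.Injective (fun n : ℕ => q ^ n * x) := by
    intro a b hab
    simp only at hab
    have hab' := mul_right_cancel hab
    by_contra hne
    rcases lt_or_gt_of_ne hne with hlt | hlt
    · apply hq (b - a) (by omega)
      have : q ^ a * q ^ (b - a) = q ^ a * 1 := by
        rw [← pow_add, mul_one, hab']
        congr 1; omega
      exact mul_left_cancel this
    · apply hq (a - b) (by omega)
      have : q ^ b * q ^ (a - b) = q ^ b * 1 := by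
        rw [← pow_add, mul_one, ← hab']
        congr 1; omega
      exact mul_left_cancel this
  have hsub : Set.range (fun n : ℕ => q ^ n * x) ⊆ (v.coeff.support : Set Q) := by
    rintro _ ⟨n, rfl⟩
    simp only [Finset.mem_coe, Finsupp.mem_support_iff]
    rw [key n]
    exact hx
  exact (Set.infinite_range_of_injective hinj) (v.coeff.support.finite_toSet.subset hsub)

/-- the sup norm -/
def nrm (v : MonoidAlgebra ℤ Q) : ℕ := v.coeff.support.sup (fun x => (v.coeff x).natAbs)

omit [Group Q] in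
theorem le_nrm (v : MonoidAlgebra ℤ Q) (x : Q) : (v.coeff x).natAbs ≤ nrm v := by
  by_cases hx : x ∈ v.coeff.support
  · exact Finset.le_sup (f := fun x => (v.coeff x).natAbs) hx
  · rw [Finsupp.notMem_support_iff] at hx
    rw [hx]; simp

/-- if `(q - m) v = f` with `m > 1 + ‖f‖` then `v = 0`. -/
theorem eq_zero_of_sub_mul {q : Q} {v f : MonoidAlgebra ℤ Q} {m : ℕ}
    (h : (of ℤ Q q - (m : MonoidAlgebra ℤ Q)) * v = f) (hm : nrm f + 1 < m) : v = 0 := by
  by_contra hv
  have hv' : v.coeff ≠ 0 := fun h0 => hv (coeff_injective (by rw [h0]; rfl))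
  have hne : v.coeff.support.Nonempty := Finsupp.support_nonempty_iff.mpr hv'
  obtain ⟨x, hx, hxs⟩ := Finset.exists_mem_eq_sup v.coeff.support hne
    (fun x => (v.coeff x).natAbs)
  have h1 : f.coeff x = v.coeff (q⁻¹ * x) - m * v.coeff x := by
    rw [← h, sub_mul, coeff_sub, Finsupp.sub_apply, coeff_of_mul]
    congr 1
    rw [natCast_def, coeff_single_one_mul]
  have h2 := le_nrm f x
  have h3 := le_nrm v (q⁻¹ * x)
  have h4 : nrm v = (v.coeff x).natAbs := hxs
  have h5 : 0 < (v.coeff x).natAbs := by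
    rw [Int.natAbs_pos]
    exact Finsupp.mem_support_iff.mp hx
  have h6 : (m : ℤ) * v.coeff x = v.coeff (q⁻¹ * x) - f.coeff x := by rw [h1]; ring
  have h7 : m * (v.coeff x).natAbs ≤ (v.coeff (q⁻¹ * x)).natAbs + (f.coeff x).natAbs := by
    have : ((m : ℤ) * v.coeff x).natAbs = m * (v.coeff x).natAbs := by
      rw [Int.natAbs_mul, Int.natAbs_natCast]
    rw [← this, h6]
    exact Int.natAbs_sub_le _ _
  rw [h4] at h3
  nlinarith

end ZeroDiv

/-! ## torsion-freeness -/

/-- no torsion -/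
def TFree (G : Type*) [Group G] : Prop := ∀ g : G, ∀ n : ℕ, 0 < n → g ^ n = 1 → g = 1

section Tors

variable {α : Type*} [Fintype α] [DecidableEq α]

omit [Fintype α] in
theorem fox_pow {Q : Type*} [Group Q] (π : FreeGroup α →* Q) {w : FreeGroup α} (hw : π w = 1)
    (n : ℕ) : fox π (w ^ n) = n • fox π w := by
  induction n with
  | zero => simp
  | succ k ih =>
    funext i
    rw [pow_succ, fox_mul, ih, map_pow, hw, one_pow, map_one, one_mul, succ_nsmul]
    rfl

theorem tfree_quot (N : Subgroup (FreeGroup α)) [N.Normal] (h : TFree (FreeGroup α ⧸ N)) :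
    TFree (FreeGroup α ⧸ ⁅N, N⁆) := by
  intro g n hn hg
  obtain ⟨w, rfl⟩ := QuotientGroup.mk_surjective g
  rw [← QuotientGroup.mk_pow, QuotientGroup.eq_one_iff] at hg
  rw [QuotientGroup.eq_one_iff]
  have hwN : w ∈ N := by
    have h1 : w ^ n ∈ N := Subgroup.commutator_le_right N N hg
    have h2 := h (w : FreeGroup α ⧸ N) n hn (by
      rw [← QuotientGroup.mk_pow, QuotientGroup.eq_one_iff]; exact h1)
    rwa [QuotientGroup.eq_one_iff] at h2
  have hk : (QuotientGroup.mk' N).ker = N := QuotientGroup.ker_mk' N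
  have h3 : fox (QuotientGroup.mk' N) (w ^ n) = 0 := by
    apply fox_eq_zero_of_mem
    rw [hk]; exact hg
  rw [fox_pow _ (by
    rw [QuotientGroup.mk'_apply, QuotientGroup.eq_one_iff]; exact hwN)] at h3
  have h4 : fox (QuotientGroup.mk' N) w = 0 := by
    funext i
    have h5 := congrFun h3 i
    apply coeff_injective
    ext x
    have h6 := congrArg (fun v : MonoidAlgebra ℤ (FreeGroup α ⧸ N) => v.coeff x) h5
    simp only [Pi.smul_apply, Pi.zero_apply, coeff_zero, Finsupp.zero_apply] at h6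
    rw [coeff_smul_apply] at h6
    simp only [Pi.zero_apply, coeff_zero, Finsupp.zero_apply]
    rw [nsmul_eq_mul] at h6
    rcases mul_eq_zero.mp h6 with h7 | h7
    · exfalso
      have : n = 0 := by exact_mod_cast h7
      omega
    · exact h7
  have := magnus _ h4
  rwa [hk] at this

theorem tfree_derived (c : ℕ) : TFree (FreeGroup α ⧸ derivedSeries (FreeGroup α) c) := by
  induction c with
  | zero =>
    intro g n _ _
    obtain ⟨w, rfl⟩ := QuotientGroup.mk_surjective g
    rw [QuotientGroup.eq_one_iff, derivedSeries_zero]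
    trivial
  | succ k ih => exact tfree_quot _ ih

end Tors

/-! ## wreath products and weights -/

/-- the (unrestricted) wreath product `R ≀ Γ` in regular action. -/
@[ext] structure Wr (R Γ : Type*) [AddCommGroup R] [Group Γ] where
  f : Γ → R
  q : Γ

namespace Wr

variable {R Γ : Type*} [AddCommGroup R] [Group Γ]

instance : Mul (Wr R Γ) := ⟨fun a b => ⟨fun δ => a.f δ + b.f (δ * a.q), a.q * b.q⟩⟩
instance : One (Wr R Γ) := ⟨⟨0, 1⟩⟩
instance : Inv (Wr R Γ) := ⟨fun a => ⟨fun δ => - a.f (δ * a.q⁻¹), a.q⁻¹⟩⟩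

theorem mul_f (a b : Wr R Γ) (δ : Γ) : (a * b).f δ = a.f δ + b.f (δ * a.q) := rfl
@[simp] theorem mul_q (a b : Wr R Γ) : (a * b).q = a.q * b.q := rfl
@[simp] theorem one_f : (1 : Wr R Γ).f = 0 := rfl
@[simp] theorem one_q : (1 : Wr R Γ).q = 1 := rfl
theorem inv_f (a : Wr R Γ) (δ : Γ) : (a⁻¹).f δ = - a.f (δ * a.q⁻¹) := rfl
@[simp] theorem inv_q (a : Wr R Γ) : (a⁻¹).q = a.q⁻¹ := rfl

instance : Group (Wr R Γ) := by
  refine Group.ofLeftAxioms ?_ ?_ ?_
  · intro a b c
    ext δ
    · simp only [mul_f, mul_q, add_assoc, mul_assoc]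
    · simp only [mul_q, mul_assoc]
  · intro a
    ext δ
    · simp only [mul_f, one_f, one_q, Pi.zero_apply, zero_add, mul_one]
    · simp only [mul_q, one_q, one_mul]
  · intro a
    ext δ
    · simp only [mul_f, inv_f, inv_q, one_f, Pi.zero_apply, neg_add_cancel]
    · simp only [mul_q, inv_q, inv_mul_cancel, one_q]

/-- projection -/
def toQ : Wr R Γ →* Γ where
  toFun a := a.q
  map_one' := rfl
  map_mul' _ _ := rfl

@[simp] theorem toQ_apply (a : Wr R Γ) : toQ a = a.q := rfl

instance [Finite R] [Finite Γ] : Finite (Wr R Γ) :=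
  Finite.of_injective (fun a : Wr R Γ => (a.f, a.q)) (by
    intro a b h
    simp only [Prod.mk.injEq] at h
    exact Wr.ext h.1 h.2)

end Wr

section Weights

variable {α : Type*} {R Γ : Type*} [AddCommGroup R] [Group Γ]

/-- the homomorphism to the wreath product given by weights `n`. -/
def wr (n : α → Γ → R) (π : FreeGroup α →* Γ) : FreeGroup α →* Wr R Γ :=
  FreeGroup.lift (fun i => ⟨n i, π (FreeGroup.of i)⟩)

theorem wr_q (n : α → Γ → R) (π : FreeGroup α →* Γ) (w : FreeGroup α) : (wr n π w).q = π w := by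
  have h : Wr.toQ.comp (wr n π) = π := by
    apply FreeGroup.ext_hom
    intro i
    simp [wr]
  exact DFunLike.congr_fun h w

/-- total weight along the path `w` starting at `δ`. -/
def W (n : α → Γ → R) (π : FreeGroup α →* Γ) (w : FreeGroup α) (δ : Γ) : R := (wr n π w).f δ

@[simp] theorem W_one (n : α → Γ → R) (π : FreeGroup α →* Γ) (δ : Γ) : W n π 1 δ = 0 := by
  simp [W]

theorem W_of (n : α → Γ → R) (π : FreeGroup α →* Γ) (i : α) (δ : Γ) :
    W n π (FreeGroup.of i) δ = n i δ := by
  simp [W, wr]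

theorem W_mul (n : α → Γ → R) (π : FreeGroup α →* Γ) (u v : FreeGroup α) (δ : Γ) :
    W n π (u * v) δ = W n π u δ + W n π v (δ * π u) := by
  simp only [W, map_mul, Wr.mul_f, wr_q]

theorem W_inv (n : α → Γ → R) (π : FreeGroup α →* Γ) (u : FreeGroup α) (δ : Γ) :
    W n π u⁻¹ δ = - W n π u (δ * (π u)⁻¹) := by
  simp only [W, map_inv, Wr.inv_f, wr_q]

/-- `W` vanishes on `⁅ker, ker⁆`. -/
theorem wr_eq_one_of_mem (n : α → Γ → R) (π : FreeGroup α →* Γ) {K : Subgroup (FreeGroup α)}
    (hK : K ≤ π.ker) {w : FreeGroup α} (h : w ∈ ⁅K, K⁆) : wr n π w = 1 := by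
  have key : ⁅K, K⁆ ≤ (wr n π).ker := by
    rw [Subgroup.commutator_le]
    intro a ha b hb
    rw [MonoidHom.mem_ker, map_commutatorElement, commutatorElement_eq_one_iff_mul_comm]
    have ha' : π a = 1 := hK ha
    have hb' : π b = 1 := hK hb
    ext δ
    · rw [Wr.mul_f, Wr.mul_f, wr_q, wr_q, ha', hb', mul_one, add_comm]
    · rw [Wr.mul_q, Wr.mul_q, wr_q, wr_q, ha', hb']
  exact key h

variable {Q : Type*} [Group Q]

/-- evaluation of an element of the group ring against weights, start at `δ`. -/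
noncomputable def ev (n : Γ → R) (f : Q →* Γ) (δ : Γ) : MonoidAlgebra ℤ Q →+ R :=
  (Finsupp.liftAddHom (fun q => zmultiplesHom R (n (δ * f q)))).comp
    (MonoidAlgebra.coeffAddEquiv (R := ℤ) (M := Q)).toAddMonoidHom

theorem ev_single (n : Γ → R) (f : Q →* Γ) (δ : Γ) (q : Q) (c : ℤ) :
    ev n f δ (single q c) = c • n (δ * f q) := by
  simp [ev]

theorem ev_apply (n : Γ → R) (f : Q →* Γ) (δ : Γ) (v : MonoidAlgebra ℤ Q) :
    ev n f δ v = v.coeff.sum (fun q c => c • n (δ * f q)) := by
  unfold ev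
  rw [AddMonoidHom.comp_apply, Finsupp.liftAddHom_apply]
  rfl

theorem ev_of_mul (n : Γ → R) (f : Q →* Γ) (δ : Γ) (u : Q) (v : MonoidAlgebra ℤ Q) :
    ev n f δ (of ℤ Q u * v) = ev n f (δ * f u) v := by
  induction v using MonoidAlgebra.induction_linear with
  | zero => simp
  | add a b ha hb => rw [mul_add, map_add, map_add, ha, hb]
  | single q c =>
    rw [of_apply, single_mul_single, ev_single, ev_single, one_mul, map_mul, mul_assoc]

theorem W_eq_ev [Fintype α] [DecidableEq α] (n : α → Γ → R) (π : FreeGroup α →* Q) (f : Q →* Γ)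
    (w : FreeGroup α) (δ : Γ) :
    W n (f.comp π) w δ = ∑ i, ev (n i) f δ (fox π w i) := by
  induction w using FreeGroup.induction_on generalizing δ with
  | C1 => simp
  | of x =>
    rw [W_of, fox_of, Finset.sum_eq_single x]
    · rw [Pi.single_eq_same, one_def, ev_single]; simp
    · intro b _ hb
      rw [Pi.single_eq_of_ne hb, map_zero]
    · simp
  | inv_of x hx =>
    rw [W_inv]
    have hx' : ∀ δ, W n (f.comp π) (FreeGroup.of x) δ = ∑ i, ev (n i) f δ (fox π (FreeGroup.of x) i) := hx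
    rw [hx']
    simp only [fox_inv, map_neg, ev_of_mul, Finset.sum_neg_distrib, MonoidHom.comp_apply, map_inv]
  | mul u v hu hv =>
    rw [W_mul, hu, hv, ← Finset.sum_add_distrib]
    apply Finset.sum_congr rfl
    intro i _
    rw [fox_mul, map_add, ev_of_mul]
    rfl

end Weights

/-! ## residual finiteness -/

/-- residual finiteness -/
def RF (G : Type*) [Group G] : Prop :=
  ∀ g : G, g ≠ 1 → ∃ K : Subgroup G, K.Normal ∧ K.FiniteIndex ∧ g ∉ K

theorem RF.finset {G : Type*} [Group G] (h : RF G) (S : Finset G) (hS : ∀ g ∈ S, g ≠ 1) :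
    ∃ K : Subgroup G, K.Normal ∧ K.FiniteIndex ∧ ∀ g ∈ S, g ∉ K := by
  classical
  induction S using Finset.induction_on with
  | empty => exact ⟨⊤, inferInstance, inferInstance, by simp⟩
  | insert a s ha ih =>
    obtain ⟨K, hK1, hK2, hK3⟩ := ih (fun g hg => hS g (Finset.mem_insert_of_mem hg))
    obtain ⟨K', hK1', hK2', hK3'⟩ := h a (hS a (Finset.mem_insert_self _ _))
    refine ⟨K ⊓ K', inferInstance, inferInstance, ?_⟩
    intro g hg hgK
    rcases Finset.mem_insert.mp hg with rfl | hg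
    · exact hK3' hgK.2
    · exact hK3 g hg hgK.1

theorem RF.injOn {G : Type*} [Group G] (h : RF G) (S : Finset G) :
    ∃ K : Subgroup G, K.Normal ∧ K.FiniteIndex ∧
      ∀ a ∈ S, ∀ b ∈ S, (a : G ⧸ K) = (b : G ⧸ K) → a = b := by
  classical
  obtain ⟨K, h1, h2, h3⟩ := h.finset (((S ×ˢ S).image (fun p => p.1⁻¹ * p.2)).erase 1)
    (fun g hg => (Finset.mem_erase.mp hg).1)
  refine ⟨K, h1, h2, ?_⟩
  intro a ha b hb hab
  by_contra hne
  apply h3 (a⁻¹ * b)
  · rw [Finset.mem_erase]
    refine ⟨fun h => hne (inv_mul_eq_one.mp h), ?_⟩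
    exact Finset.mem_image.mpr ⟨(a, b), Finset.mem_product.mpr ⟨ha, hb⟩, rfl⟩
  · exact QuotientGroup.eq.mp hab

section RFQuot

variable {α : Type*} [Fintype α] [DecidableEq α]

/-- indicator weights detect coefficients -/
theorem ev_indicator {Q Γ : Type*} [Group Q] [Group Γ] [DecidableEq Γ] {R : Type*} [Ring R]
    (f : Q →* Γ) (v : MonoidAlgebra ℤ Q) (x : Q) (hx : x ∈ v.coeff.support)
    (hinj : ∀ a ∈ v.coeff.support, ∀ b ∈ v.coeff.support, f a = f b → a = b) :
    ev (fun γ => if γ = f x then (1 : R) else 0) f 1 v = (v.coeff x : R) := by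
  rw [ev_apply, Finsupp.sum, Finset.sum_eq_single x]
  · simp
  · intro b hb hbx
    rw [one_mul, if_neg, smul_zero]
    intro h
    exact hbx (hinj b hb x hx h)
  · intro h; exact absurd hx h

theorem rf_quot (N : Subgroup (FreeGroup α)) [N.Normal] (h : RF (FreeGroup α ⧸ N)) :
    RF (FreeGroup α ⧸ ⁅N, N⁆) := by
  classical
  intro g hg
  obtain ⟨w, rfl⟩ := QuotientGroup.mk_surjective g
  have hw : w ∉ ⁅N, N⁆ := fun h => hg ((QuotientGroup.eq_one_iff w).mpr h)
  by_cases hwN : w ∈ N
  · -- use a finite wreath product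
    have hk : (QuotientGroup.mk' N).ker = N := QuotientGroup.ker_mk' N
    have hfox : fox (QuotientGroup.mk' N) w ≠ 0 := by
      intro h0
      have := magnus _ h0
      rw [hk] at this
      exact hw this
    obtain ⟨i, hi⟩ := Function.ne_iff.mp hfox
    have hv' : (fox (QuotientGroup.mk' N) w i).coeff ≠ 0 :=
      fun h0 => hi (coeff_injective (by rw [h0]; rfl))
    obtain ⟨x, hx⟩ := Finsupp.ne_iff.mp hv'
    have hxs : x ∈ (fox (QuotientGroup.mk' N) w i).coeff.support := by
      rw [Finsupp.mem_support_iff]; exact hx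
    obtain ⟨K, hK1, hK2, hK3⟩ := h.injOn (fox (QuotientGroup.mk' N) w i).coeff.support
    set c : ℤ := (fox (QuotientGroup.mk' N) w i).coeff x with hc
    let m : ℕ := c.natAbs + 1
    have : NeZero m := ⟨by omega⟩
    have hcm : ((c : ℤ) : ZMod m) ≠ 0 := by
      intro h0
      rw [ZMod.intCast_zmod_eq_zero_iff_dvd] at h0
      have h1 : m ∣ c.natAbs := Int.natCast_dvd.mp h0
      have h2 : 0 < c.natAbs := Int.natAbs_pos.mpr (Finsupp.mem_support_iff.mp hxs)
      have := Nat.le_of_dvd h2 h1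
      omega
    let f : (FreeGroup α ⧸ N) →* (FreeGroup α ⧸ N) ⧸ K := QuotientGroup.mk' K
    let n : α → ((FreeGroup α ⧸ N) ⧸ K) → ZMod m :=
      fun j γ => if j = i then (if γ = f x then 1 else 0) else 0
    let Φ : FreeGroup α →* Wr (ZMod m) ((FreeGroup α ⧸ N) ⧸ K) :=
      wr n (f.comp (QuotientGroup.mk' N))
    have hΦ : ∀ u ∈ ⁅N, N⁆, Φ u = 1 := by
      intro u hu
      refine wr_eq_one_of_mem _ _ (K := N) ?_ hu
      intro a ha
      have h1 : QuotientGroup.mk' N a = 1 := (QuotientGroup.eq_one_iff a).mpr ha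
      rw [MonoidHom.mem_ker, MonoidHom.comp_apply, h1, map_one]
    have hΦw : Φ w ≠ 1 := by
      intro h1
      have h2 : W n (f.comp (QuotientGroup.mk' N)) w 1 = 0 := by
        change (Φ w).f 1 = 0
        rw [h1]; rfl
      rw [W_eq_ev, Finset.sum_eq_single i] at h2
      · have h3 : n i = fun γ => if γ = f x then (1 : ZMod m) else 0 := by
          funext γ; simp [n]
        rw [h3, ev_indicator f _ x hxs hK3] at h2
        exact hcm h2
      · intro j _ hj
        have : n j = fun _ => 0 := by funext γ; simp [n, hj]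
        rw [this, ev_apply]
        simp
      · simp
    have : Finite ((FreeGroup α ⧸ N) ⧸ K) := inferInstance
    let Ψ : (FreeGroup α ⧸ ⁅N, N⁆) →* Wr (ZMod m) ((FreeGroup α ⧸ N) ⧸ K) :=
      QuotientGroup.lift _ Φ hΦ
    refine ⟨Ψ.ker, inferInstance, inferInstance, ?_⟩
    intro h1
    exact hΦw h1
  · -- pull back
    have hwN' : (w : FreeGroup α ⧸ N) ≠ 1 := fun h => hwN ((QuotientGroup.eq_one_iff w).mp h)
    obtain ⟨K, hK1, hK2, hK3⟩ := h _ hwN'
    let Ψ : (FreeGroup α ⧸ ⁅N, N⁆) →* (FreeGroup α ⧸ N) ⧸ K :=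
      (QuotientGroup.mk' K).comp (QuotientGroup.lift _ (QuotientGroup.mk' N) (by
        intro u hu
        exact (QuotientGroup.eq_one_iff u).mpr (Subgroup.commutator_le_right N N hu)))
    have : Finite ((FreeGroup α ⧸ N) ⧸ K) := inferInstance
    refine ⟨Ψ.ker, inferInstance, inferInstance, ?_⟩
    intro h1
    apply hK3
    exact (QuotientGroup.eq_one_iff _).mp h1

theorem rf_derived (c : ℕ) : RF (FreeGroup α ⧸ derivedSeries (FreeGroup α) c) := by
  induction c with
  | zero =>
    intro g hg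
    exfalso
    apply hg
    obtain ⟨w, rfl⟩ := QuotientGroup.mk_surjective g
    rw [QuotientGroup.eq_one_iff, derivedSeries_zero]
    trivial
  | succ k ih => exact rf_quot _ ih

end RFQuot

/-! ## Hopfian property -/

/-- finitely generated residually finite groups are Hopfian -/
theorem hopfian {G : Type*} [Group G] [Group.FG G] (h : RF G) (φ : G →* G)
    (hφ : Function.Surjective φ) : Function.Injective φ := by
  classical
  rw [injective_iff_map_eq_one]
  intro g hg
  by_contra hne
  obtain ⟨K, hK1, hK2, hK3⟩ := h g hne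
  -- homomorphisms `G →* G ⧸ K` form a finite set
  have : Finite (G ⧸ K) := inferInstance
  obtain ⟨S, hS⟩ := Group.FG.out (G := G)
  have hfin : Finite (G →* G ⧸ K) := by
    apply Finite.of_injective (β := S → G ⧸ K) (fun (ψ : G →* G ⧸ K) (s : S) => ψ s)
    intro a b hab
    apply MonoidHom.eq_of_eqOn_dense hS
    intro s hs
    exact congrFun hab ⟨s, hs⟩
  have hinj : Function.Injective (fun ψ : G →* G ⧸ K => ψ.comp φ) := by
    intro a b hab
    ext x
    obtain ⟨y, rfl⟩ := hφ x
    exact DFunLike.congr_fun hab y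
  obtain ⟨ψ, hψ⟩ := (Finite.injective_iff_surjective.mp hinj) (QuotientGroup.mk' K)
  apply hK3
  rw [← QuotientGroup.eq_one_iff]
  have := DFunLike.congr_fun hψ g
  simp only [MonoidHom.comp_apply, hg, map_one] at this
  exact this.symm

end FS984
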