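import Pool.Agent.Lib.MP_984cf2_lc.ResFin

/-!
# The separation lemma

Let `N` be a normal subgroup of `F = FreeGroup α` with `F ⧸ N` residually finite and torsion free,
`Q = F ⧸ ⁅N, N⁆`, and `g0 ∈ N`, `g0 ∉ ⁅N, N⁆`. For every nonzero `v : ℤ[Q]` there are a prime `l`,
polynomials `P w`, `R w` (`w ∈ F`) and an additive functional `lam : ℤ[Q] → ZMod l` which kills
`(w - P_w(g0)) ℤ[Q]` and `(w⁻¹ g0 w - R_w(g0)) ℤ[Q]`, with `lam v ≠ 0`.
-/

set_option autoImplicit false

namespace FS984

open MonoidAlgebra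

/-! ## generic elements -/

/-- an abelian group is not a finite union of kernels of nonzero functionals to `ℤ`. -/
theorem exists_generic {M ι : Type*} [AddCommGroup M] (s : Finset ι) (L : ι → M →+ ℤ)
    (h : ∀ j ∈ s, ∃ n, L j n ≠ 0) : ∃ n, ∀ j ∈ s, L j n ≠ 0 := by
  classical
  induction s using Finset.induction_on with
  | empty => exact ⟨0, by simp⟩
  | insert a s ha ih =>
    obtain ⟨n1, hn1⟩ := ih (fun j hj => h j (Finset.mem_insert_of_mem hj))
    obtain ⟨n2, hn2⟩ := h a (Finset.mem_insert_self _ _)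
    -- bad values of t
    have hfin : (⋃ j ∈ insert a s, {t : ℤ | L j (n1 + t • n2) = 0}).Finite := by
      apply Set.Finite.biUnion (Finset.finite_toSet _)
      intro j hj
      apply Set.Subsingleton.finite
      intro t ht t' ht'
      simp only [Set.mem_ofPred_eq, map_add, map_zsmul, smul_eq_mul] at ht ht'
      by_cases h0 : L j n2 = 0
      · rcases Finset.mem_insert.mp hj with rfl | hj
        · exact absurd h0 hn2
        · exfalso
          rw [h0, mul_zero, add_zero] at ht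
          exact hn1 j hj ht
      · have : (t - t') * L j n2 = 0 := by linear_combination ht - ht'
        rcases mul_eq_zero.mp this with h1 | h1
        · linarith
        · exact absurd h1 h0
    obtain ⟨t, ht⟩ := hfin.infinite_compl.nonempty
    refine ⟨n1 + t • n2, fun j hj h0 => ht ?_⟩
    simp only [Set.mem_iUnion]
    exact ⟨j, hj, h0⟩

/-! ## weights are additive -/

section WAdd

variable {α Γ : Type*} [Group Γ]

theorem W_add (n n' : α → Γ → ℤ) (π : FreeGroup α →* Γ) (w : FreeGroup α) (δ : Γ) :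
    W (n + n') π w δ = W n π w δ + W n' π w δ := by
  induction w using FreeGroup.induction_on generalizing δ with
  | C1 => simp
  | of x => simp [W_of]
  | inv_of x hx =>
    rw [W_inv, W_inv, W_inv]
    change ∀ δ, W (n + n') π (FreeGroup.of x) δ = W n π (FreeGroup.of x) δ + W n' π (FreeGroup.of x) δ at hx
    change - W (n + n') π (FreeGroup.of x) _ = - W n π (FreeGroup.of x) _ + - W n' π (FreeGroup.of x) _
    rw [hx]; ring
  | mul u v hu hv =>
    rw [W_mul, W_mul, W_mul, hu, hv]; ring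

/-- `W` as a functional of the weights. -/
def WH (π : FreeGroup α →* Γ) (w : FreeGroup α) (δ : Γ) : (α → Γ → ℤ) →+ ℤ :=
  AddMonoidHom.mk' (fun n => W n π w δ) (fun n n' => W_add n n' π w δ)

@[simp] theorem WH_apply (π : FreeGroup α →* Γ) (w : FreeGroup α) (δ : Γ) (n : α → Γ → ℤ) :
    WH π w δ n = W n π w δ := rfl

end WAdd

/-- indicator weights detect coefficients (general starting point) -/
theorem ev_indicator' {Q Γ : Type*} [Group Q] [Group Γ] [DecidableEq Γ]
    (f : Q →* Γ) (δ : Γ) (v : MonoidAlgebra ℤ Q) (x : Q) (hx : x ∈ v.coeff.support)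
    (hinj : ∀ a ∈ v.coeff.support, ∀ b ∈ v.coeff.support, f a = f b → a = b) :
    ev (fun γ => if γ = δ * f x then (1 : ℤ) else 0) f δ v = v.coeff x := by
  rw [ev_apply, Finsupp.sum, Finset.sum_eq_single x]
  · simp
  · intro b hb hbx
    rw [if_neg, smul_zero]
    intro h
    exact hbx (hinj b hb x hx (mul_left_cancel h))
  · intro h; exact absurd hx h

/-! ## the monomial representation -/

section Mono

variable {Γ : Type*} [Group Γ] [Fintype Γ] {K : Type*} [Field K] (τ : Kˣ)

/-- the action of the wreath product on functions -/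
def rho (a : Wr ℤ Γ) (f : Γ → K) : Γ → K := fun δ => ((τ ^ (a.f δ) : Kˣ) : K) * f (δ * a.q)

omit [Fintype Γ] in
theorem rho_mul (a b : Wr ℤ Γ) (f : Γ → K) : rho τ (a * b) f = rho τ a (rho τ b f) := by
  funext δ
  simp only [rho, Wr.mul_f, Wr.mul_q, zpow_add, Units.val_mul, mul_assoc]

variable {Q : Type*} [Group Q] (Ψ : Q →* Wr ℤ Γ) (f0 : Γ → K)

/-- the functional with weight function `h` -/
noncomputable def lamh (h : Γ → K) : MonoidAlgebra ℤ Q →+ K :=
  (Finsupp.liftAddHom (fun q => zmultiplesHom K (∑ δ, h δ * rho τ (Ψ q) f0 δ))).comp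
    (MonoidAlgebra.coeffAddEquiv (R := ℤ) (M := Q)).toAddMonoidHom

theorem lamh_single (h : Γ → K) (q : Q) (c : ℤ) :
    lamh τ Ψ f0 h (single q c) = c • ∑ δ, h δ * rho τ (Ψ q) f0 δ := by
  simp [lamh]

theorem lamh_of_mul (h : Γ → K) (q : Q) (v : MonoidAlgebra ℤ Q) :
    lamh τ Ψ f0 h (of ℤ Q q * v) =
      lamh τ Ψ f0 (fun δ => h (δ * (Ψ q).q⁻¹) * ((τ ^ ((Ψ q).f (δ * (Ψ q).q⁻¹)) : Kˣ) : K)) v := by
  induction v using MonoidAlgebra.induction_linear with
  | zero => simp
  | add a b ha hb => rw [mul_add, map_add, map_add, ha, hb]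
  | single q' c =>
    rw [of_apply, single_mul_single, lamh_single, lamh_single, one_mul, map_mul]
    congr 1
    simp only [rho_mul]
    rw [← Equiv.sum_comp (Equiv.mulRight (Ψ q).q⁻¹)]
    apply Finset.sum_congr rfl
    intro δ _
    simp only [Equiv.coe_mulRight]
    conv_lhs => rw [rho]
    rw [inv_mul_cancel_right, mul_assoc]

theorem lamh_add (h h' : Γ → K) (v : MonoidAlgebra ℤ Q) :
    lamh τ Ψ f0 (h + h') v = lamh τ Ψ f0 h v + lamh τ Ψ f0 h' v := by
  induction v using MonoidAlgebra.induction_linear with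
  | zero => simp
  | add a b ha hb => rw [map_add, map_add, map_add, ha, hb]; ring
  | single q' c =>
    rw [lamh_single, lamh_single, lamh_single, ← smul_add, ← Finset.sum_add_distrib]
    congr 1
    apply Finset.sum_congr rfl
    intro δ _
    rw [Pi.add_apply, add_mul]

theorem lamh_nsmul (k : ℕ) (h : Γ → K) (v : MonoidAlgebra ℤ Q) :
    lamh τ Ψ f0 (fun δ => (k : K) * h δ) v = (k : K) * lamh τ Ψ f0 h v := by
  induction k with
  | zero =>
    have := lamh_add τ Ψ f0 (fun _ => (0 : K)) (fun _ => 0) v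
    have h2 : ((fun _ : Γ => (0 : K)) + fun _ => 0) = fun _ => 0 := by funext; simp
    rw [h2] at this
    simp only [Nat.cast_zero, zero_mul]
    linear_combination (-1 : K) * this
  | succ k ih =>
    have : (fun δ => ((k + 1 : ℕ) : K) * h δ) = (fun δ => (k : K) * h δ) + h := by
      funext δ; simp [add_mul]
    rw [this, lamh_add, ih]
    push_cast; ring

theorem lamh_pow_mul (h : Γ → K) (g : Q) (hg : (Ψ g).q = 1) (k : ℕ) (v : MonoidAlgebra ℤ Q) :
    lamh τ Ψ f0 h (of ℤ Q g ^ k * v) =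
      lamh τ Ψ f0 (fun δ => h δ * ((τ ^ ((Ψ g).f δ) : Kˣ) : K) ^ k) v := by
  induction k generalizing h with
  | zero => simp
  | succ k ih =>
    rw [pow_succ', mul_assoc, lamh_of_mul, ih]
    congr 2
    funext δ
    rw [hg, inv_one, mul_one]
    ring

theorem lamh_poly_mul (h : Γ → K) (g : Q) (hg : (Ψ g).q = 1) (P : Polynomial ℕ)
    (v : MonoidAlgebra ℤ Q) :
    lamh τ Ψ f0 h (Polynomial.aeval (of ℤ Q g) P * v) =
      lamh τ Ψ f0 (fun δ => h δ * Polynomial.aeval (((τ ^ ((Ψ g).f δ) : Kˣ) : K)) P) v := by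
  induction P using Polynomial.induction_on' with
  | add p q hp hq =>
    rw [map_add, add_mul, map_add, hp, hq, ← lamh_add]
    congr 2
    funext δ
    simp only [Pi.add_apply, map_add, mul_add]
  | monomial k a =>
    rw [Polynomial.aeval_monomial]
    have h1 : (algebraMap ℕ (MonoidAlgebra ℤ Q) a * of ℤ Q g ^ k) * v = a • (of ℤ Q g ^ k * v) := by
      rw [nsmul_eq_mul, mul_assoc]; rfl
    rw [h1, map_nsmul, lamh_pow_mul _ _ _ _ _ hg, nsmul_eq_mul, ← lamh_nsmul]
    congr 2
    funext δ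
    rw [Polynomial.aeval_monomial]
    have : algebraMap ℕ K a = (a : K) := rfl
    rw [this]; ring

end Mono

/-- interpolation by polynomials over `ℕ` -/
theorem exists_interp {Γ : Type*} [Fintype Γ] {l : ℕ} [Fact l.Prime] (θ : Γ → ZMod l)
    (hθ : Function.Injective θ) (h : Γ → ZMod l) :
    ∃ P : Polynomial ℕ, ∀ δ, Polynomial.aeval (θ δ) P = h δ := by
  classical
  let p : Polynomial (ZMod l) := Lagrange.interpolate Finset.univ θ h
  have hp : ∀ δ, p.eval (θ δ) = h δ := fun δ =>
    Lagrange.eval_interpolate_at_node h (fun a _ b _ hab => hθ hab) (Finset.mem_univ δ)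
  obtain ⟨P, hP⟩ := Polynomial.map_surjective (Nat.castRingHom (ZMod l))
    (by intro a; exact ⟨a.val, by simp⟩) p
  refine ⟨P, fun δ => ?_⟩
  rw [← hp δ, ← hP, Polynomial.eval_map]
  rfl


/-! ## choice of the finite quotient and the weights -/

section Choice

variable {α : Type*} [Fintype α] [DecidableEq α]

/-- The combinatorial heart: there are a finite quotient `Γ` of `F ⧸ N` and integral weights such
that `w ↦ W(w⁻¹, 1)` is injective modulo `⁅N, N⁆` on a given finite set and the values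
`W(g0, δ)`, `δ ∈ Γ` are distinct. -/
theorem exists_weights (N : Subgroup (FreeGroup α)) [N.Normal] (hRF : RF (FreeGroup α ⧸ N))
    (hTF : TFree (FreeGroup α ⧸ N)) (g0 : FreeGroup α) (hg0 : g0 ∉ ⁅N, N⁆)
    (S : Finset (FreeGroup α)) :
    ∃ (K : Subgroup (FreeGroup α ⧸ N)) (_ : K.Normal) (_ : K.FiniteIndex)
      (n : α → ((FreeGroup α ⧸ N) ⧸ K) → ℤ),
      (∀ w ∈ S, ∀ w' ∈ S, w⁻¹ * w' ∉ ⁅N, N⁆ →
        W n ((QuotientGroup.mk' K).comp (QuotientGroup.mk' N)) w⁻¹ 1 ≠
        W n ((QuotientGroup.mk' K).comp (QuotientGroup.mk' N)) w'⁻¹ 1) ∧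
      (∀ δ δ' : (FreeGroup α ⧸ N) ⧸ K, δ ≠ δ' →
        W n ((QuotientGroup.mk' K).comp (QuotientGroup.mk' N)) g0 δ ≠
        W n ((QuotientGroup.mk' K).comp (QuotientGroup.mk' N)) g0 δ') := by
  classical
  have hk : (QuotientGroup.mk' N).ker = N := QuotientGroup.ker_mk' N
  set π := QuotientGroup.mk' N with hπ
  -- g0 has a nonzero Fox derivative
  have hfox : fox π g0 ≠ 0 := by
    intro h0
    have := magnus _ h0
    rw [hk] at this
    exact hg0 this
  obtain ⟨i0, hi0⟩ := Function.ne_iff.mp hfox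
  set D := fox π g0 i0 with hD
  have hD0 : D ≠ 0 := hi0
  set X := D.coeff.support with hX
  have hXne : X.Nonempty := Finsupp.support_nonempty_iff.mpr
    (fun h0 => hD0 (coeff_injective (by rw [h0]; rfl)))
  -- the finite set on which the quotient has to be injective
  let T1 : Finset (FreeGroup α ⧸ N) := (S ×ˢ S).biUnion (fun p => Finset.univ.biUnion (fun i =>
    (fox π p.1⁻¹ i - fox π p.2⁻¹ i).coeff.support))
  let Y : Finset (FreeGroup α ⧸ N) := (X ×ˢ X).image (fun p => p.1 * p.2⁻¹)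
  let T2 : Finset (FreeGroup α ⧸ N) := X ∪ Y.biUnion (fun y => (of ℤ _ y * D - D).coeff.support)
  obtain ⟨K, hK1, hK2, hK3⟩ := hRF.injOn (T1 ∪ T2)
  let f := QuotientGroup.mk' K
  have hfinj : ∀ a ∈ T1 ∪ T2, ∀ b ∈ T1 ∪ T2, f a = f b → a = b := hK3
  have : Finite ((FreeGroup α ⧸ N) ⧸ K) := inferInstance
  have : Fintype ((FreeGroup α ⧸ N) ⧸ K) := Fintype.ofFinite _
  -- functionals
  let L : (FreeGroup α × FreeGroup α) ⊕ (((FreeGroup α ⧸ N) ⧸ K) × ((FreeGroup α ⧸ N) ⧸ K)) →
      (α → ((FreeGroup α ⧸ N) ⧸ K) → ℤ) →+ ℤ :=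
    Sum.elim (fun p => WH (f.comp π) p.1⁻¹ 1 - WH (f.comp π) p.2⁻¹ 1)
      (fun p => WH (f.comp π) g0 p.1 - WH (f.comp π) g0 p.2)
  let J : Finset ((FreeGroup α × FreeGroup α) ⊕ (((FreeGroup α ⧸ N) ⧸ K) × ((FreeGroup α ⧸ N) ⧸ K))) :=
    ((S ×ˢ S).filter (fun p => p.1⁻¹ * p.2 ∉ ⁅N, N⁆)).disjSum
      (Finset.univ.filter (fun p => p.1 ≠ p.2))
  have hJ : ∀ j ∈ J, ∃ n, L j n ≠ 0 := by
    intro j hj
    rcases Finset.mem_disjSum.mp hj with ⟨p, hp, rfl⟩ | ⟨p, hp, rfl⟩
    · -- first kind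
      rw [Finset.mem_filter, Finset.mem_product] at hp
      obtain ⟨⟨hp1, hp2⟩, hp3⟩ := hp
      have hne : fox π p.1⁻¹ ≠ fox π p.2⁻¹ := by
        intro heq
        apply hp3
        have h1 : π p.1⁻¹ = π p.2⁻¹ := by
          have e1 := sum_fox π p.1⁻¹
          have e2 := sum_fox π p.2⁻¹
          rw [heq, e2] at e1
          have e3 : of ℤ _ (π p.2⁻¹) = of ℤ _ (π p.1⁻¹) := sub_left_injective e1
          exact (MonoidAlgebra.of_injective e3).symm
        have h2 : fox π (p.1⁻¹ * p.2) = 0 := by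
          have key : ∀ a b, fox π a = fox π b → π a = π b → fox π (a * b⁻¹) = 0 := by
            intro a b hab hab'
            funext i
            rw [fox_mul, fox_inv, ← hab', hab, mul_neg, ← mul_assoc, ← map_mul, mul_inv_cancel,
              map_one, one_mul]
            simp
          have := key _ _ heq h1
          rwa [inv_inv] at this
        have := magnus _ h2
        rwa [hk] at this
      obtain ⟨i, hi⟩ := Function.ne_iff.mp hne
      have hv : (fox π p.1⁻¹ i - fox π p.2⁻¹ i).coeff ≠ 0 := by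
        intro h0
        exact hi (sub_eq_zero.mp (coeff_injective (by rw [h0]; rfl)))
      obtain ⟨x, hx⟩ := Finsupp.support_nonempty_iff.mpr hv
      refine ⟨fun j γ => if j = i then (if γ = 1 * f x then 1 else 0) else 0, ?_⟩
      simp only [L, Sum.elim_inl, AddMonoidHom.sub_apply, WH_apply, W_eq_ev]
      rw [← Finset.sum_sub_distrib, Finset.sum_eq_single i]
      · rw [← map_sub]
        simp only [if_true]
        rw [ev_indicator' f 1 _ x hx]
        · exact Finsupp.mem_support_iff.mp hx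
        · intro a ha b hb hab
          apply hfinj a ?_ b ?_ hab
          · apply Finset.mem_union_left
            exact Finset.mem_biUnion.mpr ⟨p, Finset.mem_product.mpr ⟨hp1, hp2⟩,
              Finset.mem_biUnion.mpr ⟨i, Finset.mem_univ _, ha⟩⟩
          · apply Finset.mem_union_left
            exact Finset.mem_biUnion.mpr ⟨p, Finset.mem_product.mpr ⟨hp1, hp2⟩,
              Finset.mem_biUnion.mpr ⟨i, Finset.mem_univ _, hb⟩⟩
      · intro b _ hb
        rw [← map_sub]
        simp only [if_neg hb]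
        rw [ev_apply]; simp
      · simp
    · -- second kind
      rw [Finset.mem_filter] at hp
      obtain ⟨-, hp⟩ := hp
      obtain ⟨δ, δ'⟩ := p
      simp only at hp
      by_cases hy : ∃ y ∈ Y, f y = δ'⁻¹ * δ
      · obtain ⟨y, hyY, hy⟩ := hy
        have hδ : δ = δ' * f y := by rw [hy]; group
        have hy1 : y ≠ 1 := by
          rintro rfl
          rw [map_one, mul_one] at hδ
          exact hp hδ
        have hne : (of ℤ _ y * D - D).coeff ≠ 0 := by
          intro h0
          have h1 : of ℤ _ y * D = D := sub_eq_zero.mp (coeff_injective (by rw [h0]; rfl))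
          exact hD0 (eq_zero_of_of_mul_eq (fun n hn hyn => hy1 (hTF y n hn hyn)) h1)
        obtain ⟨x, hx⟩ := Finsupp.support_nonempty_iff.mpr hne
        refine ⟨fun j γ => if j = i0 then (if γ = δ' * f x then 1 else 0) else 0, ?_⟩
        simp only [L, Sum.elim_inr, AddMonoidHom.sub_apply, WH_apply, W_eq_ev]
        rw [← Finset.sum_sub_distrib, Finset.sum_eq_single i0]
        · simp only [if_true]
          rw [← hD, hδ, ← ev_of_mul, ← map_sub, ev_indicator' f δ' _ x hx]
          · exact Finsupp.mem_support_iff.mp hx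
          · intro a ha b hb hab
            apply hfinj a ?_ b ?_ hab
            · apply Finset.mem_union_right
              apply Finset.mem_union_right
              exact Finset.mem_biUnion.mpr ⟨y, hyY, ha⟩
            · apply Finset.mem_union_right
              apply Finset.mem_union_right
              exact Finset.mem_biUnion.mpr ⟨y, hyY, hb⟩
        · intro b _ hb
          simp only [if_neg hb]
          rw [ev_apply, ev_apply]; simp
        · simp
      · push Not at hy
        obtain ⟨x, hx⟩ := hXne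
        refine ⟨fun j γ => if j = i0 then (if γ = δ * f x then 1 else 0) else 0, ?_⟩
        simp only [L, Sum.elim_inr, AddMonoidHom.sub_apply, WH_apply, W_eq_ev]
        rw [← Finset.sum_sub_distrib, Finset.sum_eq_single i0]
        · simp only [if_true]
          rw [← hD, ev_indicator' f δ _ x hx]
          · have h0 : ev (fun γ => if γ = δ * f x then (1 : ℤ) else 0) f δ' D = 0 := by
              rw [ev_apply, Finsupp.sum]
              apply Finset.sum_eq_zero
              intro z hz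
              rw [if_neg, smul_zero]
              intro h1
              apply hy (z * x⁻¹) (Finset.mem_image.mpr ⟨(z, x), Finset.mem_product.mpr ⟨hz, hx⟩, rfl⟩)
              rw [map_mul, map_inv]
              have : f z = δ'⁻¹ * (δ * f x) := by rw [← h1]; group
              rw [this]; group
            rw [h0, sub_zero]
            exact Finsupp.mem_support_iff.mp hx
          · intro a ha b hb hab
            apply hfinj a ?_ b ?_ hab
            · exact Finset.mem_union_right _ (Finset.mem_union_left _ ha)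
            · exact Finset.mem_union_right _ (Finset.mem_union_left _ hb)
        · intro b _ hb
          simp only [if_neg hb]
          rw [ev_apply, ev_apply]; simp
        · simp
  obtain ⟨n, hn⟩ := exists_generic J L hJ
  refine ⟨K, hK1, hK2, n, ?_, ?_⟩
  · intro w hw w' hw' hne heq
    have h1 := hn (Sum.inl (w, w')) (Finset.mem_disjSum.mpr (Or.inl ⟨(w, w'),
      Finset.mem_filter.mpr ⟨Finset.mem_product.mpr ⟨hw, hw'⟩, hne⟩, rfl⟩))
    apply h1
    simp only [L, Sum.elim_inl, AddMonoidHom.sub_apply, WH_apply]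
    exact sub_eq_zero.mpr heq
  · intro δ δ' hne heq
    have h1 := hn (Sum.inr (δ, δ')) (Finset.mem_disjSum.mpr (Or.inr ⟨(δ, δ'),
      Finset.mem_filter.mpr ⟨Finset.mem_univ _, hne⟩, rfl⟩))
    apply h1
    simp only [L, Sum.elim_inr, AddMonoidHom.sub_apply, WH_apply]
    exact sub_eq_zero.mpr heq

end Choice


/-! ## the separation lemma -/

section Main

variable {α : Type*} [Fintype α] [DecidableEq α]

/-- a suitable prime and a suitable `τ`. -/
theorem exists_prime {ι κ : Type*} [Fintype κ] (S : Finset ι) (v : ι → ℤ) (e : ι → ℤ)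
    (he : ∀ a ∈ S, ∀ b ∈ S, a ≠ b → e a ≠ e b) (hS : ∃ a ∈ S, v a ≠ 0) (t : κ → ℤ)
    (ht : Function.Injective t) :
    ∃ (l : ℕ) (_ : Fact l.Prime) (τ : (ZMod l)ˣ),
      (∑ a ∈ S, (v a : ZMod l) * ((τ ^ (e a) : (ZMod l)ˣ) : ZMod l)) ≠ 0 ∧
      Function.Injective (fun k => ((τ ^ (t k) : (ZMod l)ˣ) : ZMod l)) := by
  classical
  -- shift the exponents
  let C : ℕ := S.sup (fun a => (e a).natAbs)
  have hC : ∀ a ∈ S, 0 ≤ e a + C := by
    intro a ha
    have h1 : (e a).natAbs ≤ C := Finset.le_sup (f := fun a => (e a).natAbs) ha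
    omega
  let p : Polynomial ℤ := ∑ a ∈ S, Polynomial.monomial (e a + C).toNat (v a)
  have hp : p ≠ 0 := by
    obtain ⟨a0, ha0, hv0⟩ := hS
    intro h0
    have h1 : p.coeff (e a0 + C).toNat = v a0 := by
      rw [Polynomial.finsetSum_coeff, Finset.sum_eq_single a0]
      · rw [Polynomial.coeff_monomial, if_pos rfl]
      · intro b hb hne
        rw [Polynomial.coeff_monomial, if_neg]
        intro h2
        have := he b hb a0 ha0 hne
        have h3 := hC b hb
        have h4 := hC a0 ha0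
        omega
      · intro h; exact absurd ha0 h
    rw [h0, Polynomial.coeff_zero] at h1
    exact hv0 h1.symm
  -- choose τ0
  have hinf : (Set.Ici (2 : ℤ) \ (p.roots.toFinset : Set ℤ)).Nonempty :=
    ((Set.Ici_infinite (2 : ℤ)).sdiff (Finset.finite_toSet _)).nonempty
  obtain ⟨τ0, hτ2, hτr⟩ := hinf
  have hτ2' : (2 : ℤ) ≤ τ0 := hτ2
  have hpe : p.eval τ0 ≠ 0 := by
    intro h0
    apply hτr
    simp only [Finset.mem_coe, Multiset.mem_toFinset]
    exact (Polynomial.mem_roots hp).mpr h0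
  -- choose l
  let B : ℕ := (p.eval τ0).natAbs + τ0.natAbs +
    Finset.univ.sup (fun q : κ × κ => (τ0 ^ (t q.1 - t q.2).natAbs).natAbs) + 2
  obtain ⟨l, hlB, hl⟩ := Nat.exists_infinite_primes B
  have : Fact l.Prime := ⟨hl⟩
  have hτl : ((τ0 : ℤ) : ZMod l) ≠ 0 := by
    intro h0
    rw [ZMod.intCast_zmod_eq_zero_iff_dvd] at h0
    have h1 : l ∣ τ0.natAbs := Int.natCast_dvd.mp h0
    have := Nat.le_of_dvd (by omega) h1
    omega
  let τ : (ZMod l)ˣ := Units.mk0 _ hτl
  have hτv : (τ : ZMod l) = (τ0 : ZMod l) := rfl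
  refine ⟨l, ⟨hl⟩, τ, ?_, ?_⟩
  · intro h0
    have h1 : ((p.eval τ0 : ℤ) : ZMod l) = 0 := by
      have h2 : ((p.eval τ0 : ℤ) : ZMod l) = ∑ a ∈ S, (v a : ZMod l) * (τ : ZMod l) ^ (e a + C).toNat := by
        rw [Polynomial.eval_finsetSum]
        push_cast
        apply Finset.sum_congr rfl
        intro a _
        rw [Polynomial.eval_monomial, hτv]
        push_cast; rfl
      have h3 : ∑ a ∈ S, (v a : ZMod l) * (τ : ZMod l) ^ (e a + C).toNat =
          (∑ a ∈ S, (v a : ZMod l) * ((τ ^ (e a) : (ZMod l)ˣ) : ZMod l)) * (τ : ZMod l) ^ C := by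
        rw [Finset.sum_mul]
        apply Finset.sum_congr rfl
        intro a ha
        rw [mul_assoc]
        congr 1
        have h4 : (τ ^ (e a + C).toNat : (ZMod l)ˣ) = τ ^ (e a) * τ ^ C := by
          rw [← zpow_natCast, Int.toNat_of_nonneg (hC a ha), zpow_add, zpow_natCast]
        have h5 := congrArg (fun u : (ZMod l)ˣ => (u : ZMod l)) h4
        simpa using h5
      rw [h2, h3, h0, zero_mul]
    rw [ZMod.intCast_zmod_eq_zero_iff_dvd] at h1
    have h2 : l ∣ (p.eval τ0).natAbs := Int.natCast_dvd.mp h1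
    have := Nat.le_of_dvd (Int.natAbs_pos.mpr hpe) h2
    omega
  · intro a b hab
    by_contra hne
    have htne : t a ≠ t b := fun h => hne (ht h)
    -- wlog t a > t b
    have key : ∀ a b : κ, t b < t a → ((τ ^ (t a) : (ZMod l)ˣ) : ZMod l) ≠ ((τ ^ (t b) : (ZMod l)ˣ) : ZMod l) := by
      intro a b hlt hab
      have h1 : τ ^ (t a) = τ ^ (t b) := Units.ext hab
      have h2 : τ ^ (t a - t b) = 1 := by rw [zpow_sub, h1, mul_inv_cancel]
      have h3 : τ ^ (t a - t b).natAbs = 1 := by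
        rw [← zpow_natCast, Int.natAbs_of_nonneg (by omega), h2]
      have h4 : ((τ0 ^ (t a - t b).natAbs - 1 : ℤ) : ZMod l) = 0 := by
        push_cast
        rw [← hτv, ← Units.val_pow_eq_pow_val, h3, Units.val_one, sub_self]
      rw [ZMod.intCast_zmod_eq_zero_iff_dvd] at h4
      have hk : (t a - t b).natAbs ≠ 0 := by omega
      have h5 : (1 : ℤ) < τ0 ^ (t a - t b).natAbs := one_lt_pow₀ (by omega) hk
      have h6 := Int.le_of_dvd (by omega) h4
      have h7 : (τ0 ^ (t a - t b).natAbs).natAbs ≤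
          Finset.univ.sup (fun q : κ × κ => (τ0 ^ (t q.1 - t q.2).natAbs).natAbs) :=
        Finset.le_sup (f := fun q : κ × κ => (τ0 ^ (t q.1 - t q.2).natAbs).natAbs)
          (Finset.mem_univ (a, b))
      omega
    rcases lt_or_gt_of_ne htne with h | h
    · exact key b a h hab.symm
    · exact key a b h hab

theorem separation (N : Subgroup (FreeGroup α)) [N.Normal] (hRF : RF (FreeGroup α ⧸ N))
    (hTF : TFree (FreeGroup α ⧸ N)) (g0 : FreeGroup α) (hg0N : g0 ∈ N) (hg0 : g0 ∉ ⁅N, N⁆)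
    (v : MonoidAlgebra ℤ (FreeGroup α ⧸ ⁅N, N⁆)) (hv : v ≠ 0) :
    ∃ (l : ℕ) (_ : Fact l.Prime) (P R : FreeGroup α → Polynomial ℕ)
      (lam : MonoidAlgebra ℤ (FreeGroup α ⧸ ⁅N, N⁆) →+ ZMod l), lam v ≠ 0 ∧
      (∀ (w : FreeGroup α) (u : MonoidAlgebra ℤ (FreeGroup α ⧸ ⁅N, N⁆)),
        lam ((of ℤ _ (w : FreeGroup α ⧸ ⁅N, N⁆) -
          Polynomial.aeval (of ℤ _ (g0 : FreeGroup α ⧸ ⁅N, N⁆)) (P w)) * u) = 0) ∧
      (∀ (w : FreeGroup α) (u : MonoidAlgebra ℤ (FreeGroup α ⧸ ⁅N, N⁆)),
        lam ((of ℤ _ ((w⁻¹ * g0 * w : FreeGroup α) : FreeGroup α ⧸ ⁅N, N⁆) -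
          Polynomial.aeval (of ℤ _ (g0 : FreeGroup α ⧸ ⁅N, N⁆)) (R w)) * u) = 0) := by
  classical
  let Q := FreeGroup α ⧸ ⁅N, N⁆
  let o : Q → FreeGroup α := fun q => Quotient.out q
  have ho : ∀ q : Q, ((o q : FreeGroup α) : Q) = q := fun q => QuotientGroup.out_eq' q
  obtain ⟨K, hK1, hK2, n, hn1, hn2⟩ := exists_weights N hRF hTF g0 hg0 (v.coeff.support.image o)
  let Γ := (FreeGroup α ⧸ N) ⧸ K
  have : Finite Γ := inferInstance
  have : Fintype Γ := Fintype.ofFinite _
  let π : FreeGroup α →* Γ := (QuotientGroup.mk' K).comp (QuotientGroup.mk' N)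
  have hNπ : N ≤ π.ker := by
    intro a ha
    have h1 : QuotientGroup.mk' N a = 1 := (QuotientGroup.eq_one_iff a).mpr ha
    rw [MonoidHom.mem_ker]
    change (QuotientGroup.mk' K) (QuotientGroup.mk' N a) = 1
    rw [h1, map_one]
  let Ψ : Q →* Wr ℤ Γ := QuotientGroup.lift _ (wr n π)
    (fun u hu => wr_eq_one_of_mem n π hNπ hu)
  have hΨ : ∀ w : FreeGroup α, Ψ (w : Q) = wr n π w := fun w => rfl
  have hΨq : ∀ w : FreeGroup α, (Ψ (w : Q)).q = π w := fun w => wr_q n π w
  have hΨf : ∀ (w : FreeGroup α) (δ : Γ), (Ψ (w : Q)).f δ = W n π w δ := fun w δ => rfl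
  -- exponents
  let e : Q → ℤ := fun q => - W n π (o q)⁻¹ 1
  obtain ⟨l, hl, τ, hτ1, hτ2⟩ := exists_prime v.coeff.support v.coeff e
    (by
      intro a ha b hb hab h0
      have h1 := hn1 (o a) (Finset.mem_image_of_mem _ ha) (o b) (Finset.mem_image_of_mem _ hb)
        (by
          intro h2
          apply hab
          rw [← ho a, ← ho b]
          exact QuotientGroup.eq.mpr h2)
      apply h1
      have : - W n π (o a)⁻¹ 1 = - W n π (o b)⁻¹ 1 := h0
      exact neg_injective this)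
    (by
      have hv' : v.coeff ≠ 0 := fun h0 => hv (coeff_injective (by rw [h0]; rfl))
      obtain ⟨a, ha⟩ := Finsupp.support_nonempty_iff.mpr hv'
      exact ⟨a, ha, Finsupp.mem_support_iff.mp ha⟩)
    (fun δ : Γ => W n π g0 δ) (by
      intro δ δ' h
      by_contra hne
      exact hn2 δ δ' hne h)
  let f0 : Γ → ZMod l := fun γ => if γ = 1 then 1 else 0
  let θ : Γ → ZMod l := fun δ => ((τ ^ (W n π g0 δ) : (ZMod l)ˣ) : ZMod l)
  have hθ : Function.Injective θ := hτ2
  let hw : FreeGroup α → Γ → ZMod l := fun w δ =>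
    1 * ((τ ^ ((Ψ (w : Q)).f (δ * (Ψ (w : Q)).q⁻¹)) : (ZMod l)ˣ) : ZMod l)
  have hθ' : ∀ δ, θ δ = ((τ ^ ((Ψ (g0 : Q)).f δ) : (ZMod l)ˣ) : ZMod l) := fun δ => rfl
  choose P hP using fun w => exists_interp θ hθ (fun δ => hw w (δ * 1⁻¹))
  choose R hR using fun w => exists_interp θ hθ (hw (w⁻¹ * g0 * w))
  have hgq : (Ψ (g0 : Q)).q = 1 := by rw [hΨq]; exact hNπ hg0N
  refine ⟨l, hl, P, R, lamh τ Ψ f0 (fun _ => 1), ?_, ?_, ?_⟩
  · -- nonvanishing
    have h1 : lamh τ Ψ f0 (fun _ => 1) v = v.coeff.sum (fun q c => c • ∑ δ, 1 * rho τ (Ψ q) f0 δ) := by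
      unfold lamh
      rw [AddMonoidHom.comp_apply, Finsupp.liftAddHom_apply]
      rfl
    rw [h1, Finsupp.sum]
    have h2 : ∀ q : Q, ∑ δ, 1 * rho τ (Ψ q) f0 δ = ((τ ^ (e q) : (ZMod l)ˣ) : ZMod l) := by
      intro q
      have h3 : (Ψ q).q = π (o q) := by rw [← hΨq, ho]
      have h4 : ∀ δ, (Ψ q).f δ = W n π (o q) δ := by intro δ; rw [← hΨf, ho]
      rw [Finset.sum_eq_single ((Ψ q).q⁻¹)]
      · simp only [rho, f0, inv_mul_cancel, if_true, mul_one, one_mul]
        congr 2
        rw [h4, h3]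
        simp only [e]
        rw [W_inv, one_mul, neg_neg]
      · intro δ _ hne
        simp only [rho, f0]
        rw [if_neg, mul_zero, mul_zero]
        intro h5
        exact hne (mul_eq_one_iff_eq_inv.mp h5)
      · simp
    simp only [h2, zsmul_eq_mul]
    exact hτ1
  · intro w u
    rw [sub_mul, map_sub, lamh_of_mul, lamh_poly_mul _ _ _ _ _ hgq, sub_eq_zero]
    congr 2
    funext δ
    have := hP w δ
    rw [inv_one, mul_one, hθ'] at this
    rw [one_mul (Polynomial.aeval _ _), this]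
  · intro w u
    rw [sub_mul, map_sub, lamh_of_mul, lamh_poly_mul _ _ _ _ _ hgq, sub_eq_zero]
    congr 2
    funext δ
    have := hR w δ
    rw [hθ'] at this
    rw [one_mul (Polynomial.aeval _ _), this]

/-- The separation lemma for `F ⧸ F^(c+1)`. -/
theorem separation_derived (c : ℕ) (g0 : FreeGroup α) (hg0N : g0 ∈ derivedSeries (FreeGroup α) c)
    (hg0 : g0 ∉ derivedSeries (FreeGroup α) (c + 1))
    (v : MonoidAlgebra ℤ (FreeGroup α ⧸ derivedSeries (FreeGroup α) (c + 1))) (hv : v ≠ 0) :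
    ∃ (l : ℕ) (_ : Fact l.Prime) (P R : FreeGroup α → Polynomial ℕ)
      (lam : MonoidAlgebra ℤ (FreeGroup α ⧸ derivedSeries (FreeGroup α) (c + 1)) →+ ZMod l),
      lam v ≠ 0 ∧
      (∀ (w : FreeGroup α) (u : MonoidAlgebra ℤ (FreeGroup α ⧸ derivedSeries (FreeGroup α) (c + 1))),
        lam ((of ℤ _ (w : FreeGroup α ⧸ derivedSeries (FreeGroup α) (c + 1)) -
          Polynomial.aeval (of ℤ _ (g0 : FreeGroup α ⧸ derivedSeries (FreeGroup α) (c + 1))) (P w)) * u) = 0) ∧
      (∀ (w : FreeGroup α) (u : MonoidAlgebra ℤ (FreeGroup α ⧸ derivedSeries (FreeGroup α) (c + 1))),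
        lam ((of ℤ _ ((w⁻¹ * g0 * w : FreeGroup α) : FreeGroup α ⧸ derivedSeries (FreeGroup α) (c + 1)) -
          Polynomial.aeval (of ℤ _ (g0 : FreeGroup α ⧸ derivedSeries (FreeGroup α) (c + 1))) (R w)) * u) = 0) :=
  separation (derivedSeries (FreeGroup α) c) (rf_derived c) (tfree_derived c) g0 hg0N hg0 v hv

end Main

end FS984
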